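import Pool.Agent.Lib.MP_d40963_nt.W.Unit

/-! The place `x = 1` of the standard base: `m` divides `p - 1`. -/

namespace Pool.Agent.NW.Dat

variable {p : ℕ} [Fact p.Prime] {K L : Type} [Field K] [IsAlgClosed K] [CharP K p] [Field L]
  [Algebra K L] {D : Dat p K} {t x Y : L} {P : Pl K L} {ψ : RingAut L}
  {r r' : K × K} {c c' κ : K} {s : Fin 4 → L} {n : ℕ}

/-- the rational fixed points of the power map -/
def Hs (D : Dat p K) : Set K := {κ | κ ^ p = κ ∧ κ ≠ 0 ∧ κ ^ D.s = κ}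

/-- `Hs` is the set of roots of unity of order `gcd (s - 1, p - 1)`, a number prime to `p` -/
theorem hs_dvd (D : Dat p K) : D.Hs.Finite ∧ D.Hs.ncard ∣ p - 1 := by
  have hp := (Fact.out : p.Prime).one_le
  have hs := D.odd.pos
  have : NeZero ((p - 1 : ℕ) : K) := ⟨by
    rw [Nat.cast_sub hp, CharP.cast_eq_zero, Nat.cast_one, zero_sub]
    exact neg_ne_zero.2 one_ne_zero⟩
  have : NeZero (p - 1) := NeZero.of_neZero_natCast K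
  have key : ∀ (u : Kˣ) {k : ℕ}, 1 ≤ k → (u ∈ rootsOfUnity (k - 1) K ↔ (u : K) ^ k = u) := by
    intro u k hk
    obtain ⟨k, rfl⟩ := Nat.exists_eq_add_of_le' hk
    rw [Nat.add_sub_cancel, mem_rootsOfUnity', pow_succ, mul_eq_right₀ u.ne_zero]
  have e : D.Hs = Units.val ''
      ((rootsOfUnity (p - 1) K ⊓ rootsOfUnity (D.s - 1) K : Subgroup Kˣ) : Set Kˣ) := by
    ext κ
    constructor
    · rintro ⟨h1, h2, h3⟩
      exact ⟨Units.mk0 κ h2, ⟨(key _ hp).2 h1, (key _ hs).2 h3⟩, rfl⟩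
    · rintro ⟨u, ⟨h1, h2⟩, rfl⟩
      exact ⟨(key u hp).1 h1, u.ne_zero, (key u hs).1 h2⟩
  refine ⟨rt_fin.subset fun _ h => h.1, ?_⟩
  rw [e, Set.ncard_image_of_injective _ Units.val_injective]
  exact (Subgroup.card_dvd_of_le inf_le_left).trans
    (HasEnoughRootsOfUnity.natCard_rootsOfUnity K (p - 1)).dvd

/-- `Pl.zpow_sub`, `ap_u_sub`, `ap_U_sub`, `Sh.t_eq` -/
theorem al_ctx (h : D.At std t x P ψ) (hn : 0 < n) (hx : P.Ap (x - algebraMap K L 1) n 1) :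
    P.Ap ((std : Side K).u D.b (x ^ D.e)) n (D.b * D.e) ∧
      P.Ap ((std : Side K).U D.a (x ^ D.e)) n (D.a * D.e) ∧
      P.Ap t (dd D.a D.b * n : ℕ) (((D.a : K) * D.e) ^ D.b / ((D.b : K) * D.e) ^ D.a) := by
  have n0 : (0 : ℤ) < n := by exact_mod_cast hn
  have h1 := Pl.zpow_sub_nat hx n0 one_ne_zero D.e
  rw [one_pow, mul_one, div_one, mul_one] at h1
  have h2 := ap_u_sub (γ := std) (b := D.b) h1 n0 one_ne_zero (by simp [Side.u_self, std])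
  have h3 := ap_U_sub (γ := std) (a := D.a) h1 n0 one_ne_zero (by simp [Side.U_self, std])
  rw [one_pow, mul_one, div_one, show (std : Side K).τ = 1 from rfl, one_mul] at h2
  rw [one_zpow, mul_one, div_one, show (std : Side K).σ = 1 from rfl, one_mul] at h3
  have b0 := mul_ne_zero D.hab.bK D.e0
  have h4 := Pl.div (Pl.pow h3 D.b) (Pl.zpow h2 b0 D.a) (zpow_ne_zero _ b0)
  rw [← h.sh.t_eq, ← sub_mul, ← D.hab.dd_eq, ← Nat.cast_mul] at h4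
  exact ⟨h2, h3, h4⟩

/-- `y0` is a common zero (`rep_pow`); `tD`; with `Z0 = r'.2 ^ e`: `τ y0 ^ b = κ / Z0 ^ b`,
`σ y0 ^ a = κ / Z0 ^ a`. -/
theorem al_tab (h : D.At std t x P ψ) (hn : 0 < n) (hx : P.Ap (x - algebraMap K L 1) n 1)
    (hκ : κ ∈ D.Hs) (hr : r ∈ D.Rep κ) (hr' : r' ∈ D.Rep κ) :
    Tab P (Sh D.a D.b (sd D.s r.1 r'.1) t) ((r.2 / r'.2) ^ D.e) (dd D.a D.b) n
      ((D.e * (r.2 / r'.2) ^ D.e / κ) ^ dd D.a D.b) := by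
  have κ0 := hκ.2.1
  have z0 : r'.2 ^ D.e ≠ 0 := pow_ne_zero _ (rep_ne hr' κ0).2
  have y0 : (r.2 / r'.2) ^ D.e ≠ 0 :=
    pow_ne_zero _ (div_ne_zero (rep_ne hr κ0).2 (rep_ne hr' κ0).2)
  have zb := pow_ne_zero D.b z0
  have za := zpow_ne_zero D.a z0
  have e1 : r.1 * ((r.2 / r'.2) ^ D.e) ^ D.b = κ / (r'.2 ^ D.e) ^ D.b := by
    rw [div_pow, div_pow, ← mul_div_assoc, hr.2.2]
  have e2 : r.1 ^ D.s * ((r.2 / r'.2) ^ D.e) ^ D.a = κ / (r'.2 ^ D.e) ^ D.a := by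
    rw [div_pow, div_zpow, ← mul_div_assoc, rep_pow hr κ0, hκ.2.2]
  have a0 := mul_ne_zero D.hab.aK D.e0
  have b0 := mul_ne_zero D.hab.bK D.e0
  obtain ⟨m, hm, tab⟩ := tD D.hab (rep_ok hr hr').1 (h.ae.spl _ hr.1 _ hr'.1) (al_ctx h hn hx).2.2
    (Nat.mul_pos D.hab.d0 hn) (div_ne_zero (pow_ne_zero _ a0) (zpow_ne_zero _ b0)) y0
    (sub_eq_zero.2 (e1.trans ((div_eq_iff zb).2 hr'.2.2.symm)))
    (sub_eq_zero.2 (e2.trans ((div_eq_iff za).2 ((rep_pow hr' κ0).trans hκ.2.2).symm)))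
  obtain rfl := Nat.eq_of_mul_eq_mul_left D.hab.d0 hm
  have w0 : D.e * (r.2 / r'.2) ^ D.e / κ ≠ 0 := div_ne_zero (mul_ne_zero D.e0 y0) κ0
  have e0 := D.e0
  have e3 : (sd D.s r.1 r'.1).τ * D.b * ((r.2 / r'.2) ^ D.e) ^ D.b / (r.2 / r'.2) ^ D.e =
      D.b * D.e / (D.e * (r.2 / r'.2) ^ D.e / κ * (r'.2 ^ D.e) ^ D.b) := by
    rw [mul_right_comm, show (sd D.s r.1 r'.1).τ = r.1 from rfl, e1]
    generalize (r.2 / r'.2) ^ D.e = y at y0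
    field_simp
  have e4 : (sd D.s r.1 r'.1).σ * D.a * ((r.2 / r'.2) ^ D.e) ^ D.a / (r.2 / r'.2) ^ D.e =
      D.a * D.e / (D.e * (r.2 / r'.2) ^ D.e / κ * (r'.2 ^ D.e) ^ D.a) := by
    rw [mul_right_comm, show (sd D.s r.1 r'.1).σ = r.1 ^ D.s from rfl, e2]
    generalize (r.2 / r'.2) ^ D.e = y at y0
    field_simp
  rw [e3, e4] at tab
  generalize D.e * (r.2 / r'.2) ^ D.e / κ = w at tab w0 ⊢
  have e5 : ((r'.2 ^ D.e) ^ D.b) ^ D.a = ((r'.2 ^ D.e) ^ D.a) ^ D.b := by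
    rw [← zpow_natCast _ D.b, ← zpow_natCast _ D.b, zpow_comm]
  have e6 : w ^ D.b = w ^ dd D.a D.b * w ^ D.a := by
    rw [← zpow_natCast, ← zpow_natCast, ← zpow_add₀ w0, D.hab.dd_eq, sub_add_cancel]
  have e7 : ((D.a : K) * D.e) ^ D.b / ((D.b : K) * D.e) ^ D.a *
      (((D.b : K) * D.e / (w * (r'.2 ^ D.e) ^ D.b)) ^ D.a /
        ((D.a : K) * D.e / (w * (r'.2 ^ D.e) ^ D.a)) ^ D.b) = w ^ dd D.a D.b := by
    have k1 := pow_ne_zero D.b a0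
    have k2 := zpow_ne_zero D.a b0
    have k3 := zpow_ne_zero D.a w0
    have k4 := pow_ne_zero D.b za
    rw [div_zpow, div_pow, mul_zpow w, mul_pow w, e5, e6]
    generalize ((D.a : K) * D.e) ^ D.b = A at k1
    generalize ((D.b : K) * D.e) ^ D.a = B at k2
    generalize w ^ D.a = C at k3
    generalize ((r'.2 ^ D.e) ^ D.a) ^ D.b = E at k4
    field_simp
  rwa [e7] at tab

theorem al_up (ha : 0 < D.a) (h : D.At std t x P ψ) (hn : 0 < n)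
    (hx : P.Ap (x - algebraMap K L 1) n 1) (hr : r ∈ D.Rep c) (hr' : r' ∈ D.Rep c')
    (hs : s ∈ D.FxR std x P ψ r r') : c' = c ∧ c ∈ D.Hs ∧
      P.Ap ((s 2 / s 3) ^ D.e - algebraMap K L ((r.2 / r'.2) ^ D.e)) n
        (D.e * (r.2 / r'.2) ^ D.e / c) := by
  obtain ⟨hT, hY, hl⟩ := h.fxr_tri hs
  obtain ⟨a1, a2, a3⟩ := al_ctx h hn hx
  have n1 := pow_ne_zero D.e hs.2.2.2.2.1.1
  obtain ⟨n2, k, hk⟩ := hs.2.2.2.2.2.pow D.e
  have c0 : c ≠ 0 := hr.2.2 ▸ mul_ne_zero (D.R0 _ hr.1).2 (pow_ne_zero _ n1)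
  have c1 : c' ≠ 0 := hr'.2.2 ▸ mul_ne_zero (D.R0 _ hr'.1).2 (pow_ne_zero _ n2)
  obtain ⟨y, y0, h1, h2⟩ := cls0 D.hab (rep_ok hr hr').1
    (Pl.lt a3 (Int.natCast_pos.2 (Nat.mul_pos D.hab.d0 hn))) hY
  obtain rfl := hl.of_ap h1 y0
  have hU := h2.resolve_right fun e => lt_asymm ha e.1
  have e1 : (r'.2 ^ D.e) ^ D.b * (r.1 * ((r.2 / r'.2) ^ D.e) ^ D.b) = c := by
    rw [mul_left_comm, ← mul_pow, div_pow, mul_div_cancel₀ _ n2, hr.2.2]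
  have e2 : (r'.2 ^ D.e) ^ D.a * (r.1 ^ D.s * ((r.2 / r'.2) ^ D.e) ^ D.a) = c ^ D.s := by
    rw [mul_left_comm, ← mul_zpow, div_pow, mul_div_cancel₀ _ n2, rep_pow hr c0]
  obtain rfl : c' = c := D.inj _ _ (rep_rat hr') (rep_rat hr) (by
    rw [← e2, ← rep_pow hr' c1, mul_comm]
    exact congrArg _ (sub_eq_zero.1 hU).symm)
  have hu : (sd D.s r.1 r'.1).u D.b ((r.2 / r'.2) ^ D.e) = 0 := sub_eq_zero.2
    (mul_left_cancel₀ (pow_ne_zero D.b n2) (e1.trans (hr'.2.2.symm.trans (mul_comm _ _))))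
  obtain ⟨m, l, m0, l0, hm⟩ := Pl.pos h1 (hY.nconst h.ae.ge.cov _)
  have b1 := P.mul (Pl.pow hk D.b) (ap_u_sub hm m0 y0 hu)
  have b2 := P.mul (Pl.zpow hk n2 D.a) (ap_U_sub hm m0 y0 hU)
  have g1 : ∀ z u v j : K, z * (u * j * v / (r.2 / r'.2) ^ D.e * l) =
      j * (z * (u * v) * l / (r.2 / r'.2) ^ D.e) := fun z u v j => by ring
  rw [div_pow (s 2), g1] at b1 b2
  rw [hT.u] at b1
  rw [hT.U] at b2
  erw [e1] at b1
  erw [e2] at b2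
  obtain ⟨f1, f2⟩ := Pl.ord_eq b1 a1 (mul_ne_zero D.hab.bK (div_ne_zero (mul_ne_zero c0 l0) y0))
    (mul_ne_zero D.hab.bK D.e0)
  obtain ⟨f3, f4⟩ := Pl.ord_eq b2 a2
    (mul_ne_zero D.hab.aK (div_ne_zero (mul_ne_zero (pow_ne_zero _ c0) l0) y0))
    (mul_ne_zero D.hab.aK D.e0)
  have f5 := mul_left_cancel₀ D.hab.bK f2
  obtain rfl : k = 0 := (mul_eq_zero.1 (show (D.b - D.a) * k = 0 by
    linear_combination f1 - f3)).resolve_left (sub_pos.2 D.hab.lt).ne'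
  rw [mul_zero, zero_add] at f1
  refine ⟨rfl, ⟨rep_rat hr, c0, mul_right_cancel₀ l0 ((div_left_inj' y0).1
    ((mul_left_cancel₀ D.hab.aK f4).trans f5.symm))⟩, ?_⟩
  rwa [← f5, div_mul_cancel₀ _ y0, mul_div_cancel_left₀ _ c0, ← f1]

/-- the sheet with `l = e y0 / κ` (`Tab.ex`) is fixed (`Tab.fix`); `At.mk_fix`, `Tri.lcZ` -/
theorem al_low (h : D.At std t x P ψ) (hn : 0 < n) (hx : P.Ap (x - algebraMap K L 1) n 1)
    (hκ : κ ∈ D.Hs) (hr : r ∈ D.Rep κ) (hr' : r' ∈ D.Rep κ) :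
    1 ≤ (D.FxR std x P ψ r r').ncard := by
  obtain ⟨k0, k1, k2⟩ := hκ
  have hT := al_tab h hn hx ⟨k0, k1, k2⟩ hr hr'
  obtain ⟨c1, c2, -⟩ := al_ctx h hn hx
  have hZ : r'.2 ^ D.e ≠ 0 := pow_ne_zero _ (rep_ne hr' k1).2
  have hy : (r.2 / r'.2) ^ D.e ≠ 0 :=
    pow_ne_zero _ (div_ne_zero (rep_ne hr k1).2 (rep_ne hr' k1).2)
  have hyp : ((r.2 / r'.2) ^ D.e) ^ p = (r.2 / r'.2) ^ D.e := by
    rw [pow_right_comm, div_pow r.2 r'.2 p, hr.2.1, hr'.2.1]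
  have hW : r.2 ^ D.e = (r.2 / r'.2) ^ D.e * r'.2 ^ D.e := by
    rw [div_pow, div_mul_cancel₀ _ hZ]
  have e1 := hr.2.2
  have e2 := hr'.2.2
  have e3 := (rep_pow hr k1).trans k2
  have e4 := (rep_pow hr' k1).trans k2
  rw [hW, mul_pow] at e1
  rw [hW, mul_zpow] at e3
  have hf := fun Y => At.mk_fix (Y := Y) h hr hr' k1 k1
  generalize (r.2 / r'.2) ^ D.e = y at *
  generalize r'.2 ^ D.e = Z0 at *
  have hn' : (0 : ℤ) < n := by exact_mod_cast hn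
  have hl : (D.e : K) * y / κ ≠ 0 := div_ne_zero (mul_ne_zero D.e0 hy) k1
  obtain ⟨Y, hY, ap⟩ := hT.ex _ rfl
  have hu : (sd D.s r.1 r'.1).u D.b y = 0 :=
    mul_right_cancel₀ (pow_ne_zero D.b hZ) (by
      simp only [Side.u_self, sd]
      linear_combination e1 - e2)
  have hU : (sd D.s r.1 r'.1).U D.a y = 0 :=
    mul_right_cancel₀ (zpow_ne_zero D.a hZ) (by
      simp only [Side.U_self, sd]
      linear_combination e3 - e4)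
  have g1 : Z0 ^ D.b * (r.1 * D.b * y ^ D.b / y * (D.e * y / κ)) = D.b * D.e := by
    field_simp
    linear_combination (D.b : K) * D.e * e1
  have g2 : Z0 ^ D.a * (r.1 ^ D.s * D.a * y ^ D.a / y * (D.e * y / κ)) = D.a * D.e := by
    field_simp
    linear_combination (D.a : K) * D.e * e3
  have n1 := mul_ne_zero D.hab.bK D.e0
  have n2 := mul_ne_zero D.hab.aK D.e0
  obtain ⟨s, hs, -⟩ := hf Y hY
    (hT.fix h.fr h.frb (fun _ => h.sh_fr (rep_ok hr hr').2) hyp (by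
      rw [div_pow, mul_pow, hyp, k0, show (D.e : K) ^ p = D.e from map_natCast (frobenius K p) _])
      hY ap) ⟨hy, 0, Pl.res ap hn'⟩ fun W Z hWZ e =>
    hWZ.lcZ D.hab ⟨n1, _, c1⟩ ⟨n2, _, c2⟩
      ⟨right_ne_zero_of_mul (g1 ▸ n1), _, e ▸ ap_u_sub ap hn' hy hu⟩
      ⟨right_ne_zero_of_mul (g2 ▸ n2), _, e ▸ ap_U_sub ap hn' hy hU⟩ hZ g1 g2
  exact (Set.ncard_pos h.fxr_fin).2 ⟨s, hs⟩

/-- `AE.at_ex`, `At.count_up`, `At.count_low` with `A = {(κ, κ)}`, `w = 1`; for the upper bound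
`At.fxr_le` with the set of sheets with the given coefficient (`Tab.un`) -/
theorem alpha (ha : 0 < D.a) (h : D.AE (std : Side K) t) (hM : D.Mc (std : Side K) t) :
    D.m ∣ p - 1 := by
  classical
  obtain ⟨x, P, ψ, n, hA, hn, hx⟩ := h.at_ex (one_pow p)
  obtain ⟨hF, hd⟩ := D.hs_dvd
  have hm : ∀ q : K × K, q ∈ hF.toFinset.image (fun κ => (κ, κ)) ↔ q.2 = q.1 ∧ q.1 ∈ D.Hs := by
    rintro ⟨a, b⟩
    simp only [Finset.mem_image, Set.Finite.mem_toFinset, Prod.mk.injEq]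
    exact ⟨fun ⟨κ, h1, h2, h3⟩ => ⟨h3 ▸ h2, h2 ▸ h1⟩, fun ⟨h1, h2⟩ => ⟨a, h2, rfl, h1.symm⟩⟩
  have h0 : ∀ q ∈ hF.toFinset.image (fun κ => (κ, κ)),
      q.1 ^ p = q.1 ∧ q.1 ≠ 0 ∧ q.2 ^ p = q.2 ∧ q.2 ≠ 0 := fun q hq => by
    obtain ⟨h1, h2⟩ := (hm q).1 hq
    exact ⟨h2.1, h2.2.1, h1 ▸ h2.1, h1 ▸ h2.2.1⟩
  have h1 := hA.count_low _ (fun _ => 1) h0 fun q hq r hr r' hr' =>
    al_low hA hn hx ((hm q).1 hq).2 hr (((hm q).1 hq).1 ▸ hr')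
  have h2 := hA.count_up _ (fun _ => 1) h0
    (fun c c' r r' hr hr' ⟨s, hs⟩ => (hm _).2
      ⟨(al_up ha hA hn hx hr hr' hs).1, (al_up ha hA hn hx hr hr' hs).2.1⟩)
    fun q hq r hr r' hr' => by
      have hT := al_tab hA hn hx ((hm q).1 hq).2 hr (((hm q).1 hq).1 ▸ hr')
      have hs : Set.Subsingleton {Y : L | Sh D.a D.b (sd D.s r.1 r'.1) t Y ∧
          P.Ap (Y - algebraMap K L ((r.2 / r'.2) ^ D.e)) n (D.e * (r.2 / r'.2) ^ D.e / q.1)} :=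
        fun Y hY Y' hY' => hT.un Y Y' _ hY.1 hY'.1 hY.2 hY'.2
      exact (hA.fxr_le hs.finite fun s hs =>
        ⟨(hA.fxr_tri hs).2.1, (al_up ha hA hn hx hr hr' hs).2.2⟩).trans
        ((Set.ncard_le_one hs.finite).2 fun _ h1 _ h2 => hs h1 h2)
  have h3 := le_antisymm h1 h2
  rw [hM x hA.sh ψ hA.fr, Finset.sum_const, smul_eq_mul, mul_one,
    Finset.card_image_of_injective _ fun _ _ h => congrArg Prod.fst h,
    ← Set.ncard_eq_toFinset_card _ hF] at h3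
  rwa [← Nat.eq_of_mul_eq_mul_left (pow_pos D.e_pos 2) h3]

end Pool.Agent.NW.Dat
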