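import Pool.Agent.Lib.MP_d40963_nt.W.D2

/-! Calculus of leading terms. -/

namespace Pool.Agent.NW.Pl

open Polynomial

variable {K L : Type} [Field K] [Field L] [Algebra K L] {P : Pl K L} {y z w Y : L} {n n' m : ℤ}
  {c c' l y0 : K}

theorem smul (k : K) (h : P.Ap y n c) : P.Ap (algebraMap K L k * y) n (k * c) := by
  simpa using P.mul (P.const k) h

theorem neg (h : P.Ap y n c) : P.Ap (-y) n (-c) := by
  simpa using smul (-1) h

theorem sub (h : P.Ap y n c) (h' : P.Ap z n c') : P.Ap (y - z) n (c - c') := by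
  simpa [sub_eq_add_neg] using P.add h (neg h')

theorem one : P.Ap 1 0 1 := by
  simpa using P.const 1

theorem pow (h : P.Ap y n c) (j : ℕ) : P.Ap (y ^ j) (j * n) (c ^ j) := by
  induction j with
  | zero => simpa using one
  | succ j ih =>
    have := P.mul ih h
    rwa [← pow_succ, ← pow_succ, show (j : ℤ) * n + n = ((j + 1 : ℕ) : ℤ) * n by push_cast; ring]
      at this

theorem lt (h : P.Ap y n c) (hm : m < n) : P.Ap y m 0 := by
  obtain ⟨k, rfl⟩ : ∃ k : ℕ, n = m + k + 1 := ⟨(n - m - 1).toNat, by omega⟩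
  clear hm
  induction k generalizing c with
  | zero => exact P.down (by simpa using h)
  | succ k ih =>
    refine ih (c := 0) (P.down (c := c) ?_)
    rwa [show m + ((k + 1 : ℕ) : ℤ) + 1 = m + k + 1 + 1 by push_cast; ring] at h

theorem ne (h : P.Ap y n c) (hc : c ≠ 0) : y ≠ 0 := by
  rintro rfl
  exact hc (P.uniq h (P.zero n))

theorem ord_le (h : P.Ap y n c) (h' : P.Ap y n' c') (hc : c' ≠ 0) : n ≤ n' :=
  not_lt.1 fun hl => hc (P.uniq h' (lt h hl))

theorem ord_eq (h : P.Ap y n c) (h' : P.Ap y n' c') (hc : c ≠ 0) (hc' : c' ≠ 0) :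
    n = n' ∧ c = c' := by
  obtain rfl : n = n' := le_antisymm (ord_le h h' hc') (ord_le h' h hc)
  exact ⟨rfl, P.uniq h h'⟩

/-- take the leading term of `y⁻¹` (`ex`), multiply and compare with `one` -/
theorem inv (h : P.Ap y n c) (hc : c ≠ 0) : P.Ap y⁻¹ (-n) c⁻¹ := by
  have h0 := ne h hc
  obtain ⟨n', c', h1, h2⟩ := P.ex (inv_ne_zero h0)
  have h3 := P.mul h h2
  rw [mul_inv_cancel₀ h0] at h3
  obtain ⟨e1, e2⟩ := ord_eq h3 one (mul_ne_zero hc h1) one_ne_zero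
  rwa [eq_neg_of_add_eq_zero_right e1, eq_inv_of_mul_eq_one_right e2] at h2

theorem div (h : P.Ap y n c) (h' : P.Ap z m c') (hc : c' ≠ 0) :
    P.Ap (y / z) (n - m) (c / c') := by
  rw [div_eq_mul_inv, div_eq_mul_inv, sub_eq_add_neg]
  exact P.mul h (inv h' hc)

theorem zpow (h : P.Ap y n c) (hc : c ≠ 0) (j : ℤ) : P.Ap (y ^ j) (j * n) (c ^ j) := by
  obtain ⟨i, rfl | rfl⟩ := j.eq_nat_or_neg
  · rw [zpow_natCast, zpow_natCast]
    exact pow h i
  · rw [zpow_neg, zpow_neg, zpow_natCast, zpow_natCast, neg_mul]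
    exact inv (pow h i) (pow_ne_zero i hc)

theorem aeval (h : P.Ap y 0 c) (Q : K[X]) : P.Ap (Polynomial.aeval y Q) 0 (Q.eval c) := by
  induction Q using Polynomial.induction_on' with
  | add p q hp hq =>
    rw [map_add, eval_add]
    exact P.add hp hq
  | monomial i a =>
    rw [aeval_monomial, eval_monomial]
    simpa using smul a (pow h i)

/-- an element of order at least `n` has a coefficient at `n` -/
theorem ge (h : P.Ap y m c) (hm : n ≤ m) : ∃ c', P.Ap y n c' := by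
  rcases hm.eq_or_lt with rfl | hm
  exacts [⟨c, h⟩, ⟨0, lt h hm⟩]

theorem tri (P : Pl K L) (y : L) : (∃ y0, P.Ap y 0 y0) ∨ P.Ap y⁻¹ 0 0 := by
  rcases eq_or_ne y 0 with rfl | h0
  · exact .inl ⟨0, P.zero 0⟩
  obtain ⟨n, c, hc, h⟩ := P.ex h0
  rcases le_or_gt 0 n with hn | hn
  exacts [.inl (ge h hn), .inr (lt (inv h hc) (by omega))]

theorem res (h : P.Ap (Y - algebraMap K L y0) m l) (hm : 0 < m) : P.Ap Y 0 y0 := by
  simpa using P.add (lt h hm) (P.const y0)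

theorem pos (h : P.Ap Y 0 y0) (hY : Y ≠ algebraMap K L y0) :
    ∃ m l, 0 < m ∧ l ≠ 0 ∧ P.Ap (Y - algebraMap K L y0) m l := by
  obtain ⟨m, l, hl, h1⟩ := P.ex (sub_ne_zero.2 hY)
  have h2 := sub h (P.const y0)
  rw [sub_self] at h2
  obtain ⟨c, h3⟩ := P.up h2
  exact ⟨m, l, by have := ord_le h3 h1 hl; omega, hl, h1⟩

theorem root {e : ℕ} (h : P.Ap (w ^ e) n c) (hc : c ≠ 0) (he : 0 < e) :
    ∃ n' c', e * n' = n ∧ c' ^ e = c ∧ c' ≠ 0 ∧ P.Ap w n' c' := by
  obtain ⟨n', c', h1, h2⟩ := P.ex (y := w) fun h0 => ne h hc (by rw [h0, zero_pow he.ne'])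
  obtain ⟨e1, e2⟩ := ord_eq (pow h2 e) h (pow_ne_zero e h1) hc
  exact ⟨n', c', e1, e2, h1, h2⟩

theorem zpow_sub_nat (h : P.Ap (Y - algebraMap K L y0) m l) (hm : 0 < m) (h0 : y0 ≠ 0) (j : ℕ) :
    P.Ap (Y ^ j - algebraMap K L (y0 ^ j)) m (j * y0 ^ j / y0 * l) := by
  induction j with
  | zero => simpa using P.zero m
  | succ j ih =>
    have h1 := P.add (zero_add m ▸ P.mul (res h hm) ih) (smul (y0 ^ j) h)
    have e1 : Y ^ (j + 1) - algebraMap K L (y0 ^ (j + 1)) = Y * (Y ^ j - algebraMap K L (y0 ^ j)) +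
        algebraMap K L (y0 ^ j) * (Y - algebraMap K L y0) := by
      simp only [map_pow]
      ring
    have e2 : ((j + 1 : ℕ) : K) * y0 ^ (j + 1) / y0 * l =
        y0 * (j * y0 ^ j / y0 * l) + y0 ^ j * l := by
      push_cast
      field_simp
      ring
    rwa [e1, e2]

/-- `Y ^ j - y0 ^ j = (Y - y0) * sum` for natural `j` (`Commute.geom_sum₂`, or induction on `j`),
and `Y⁻¹ - y0⁻¹ = -(Y - y0) / (Y y0)`. -/
theorem zpow_sub (h : P.Ap (Y - algebraMap K L y0) m l) (hm : 0 < m) (h0 : y0 ≠ 0) (j : ℤ) :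
    P.Ap (Y ^ j - algebraMap K L (y0 ^ j)) m (j * y0 ^ j / y0 * l) := by
  obtain ⟨i, rfl | rfl⟩ := j.eq_nat_or_neg
  · simpa only [zpow_natCast, Int.cast_natCast] using zpow_sub_nat h hm h0 i
  · have h1 := pow (res h hm) i
    have h2 := pow_ne_zero i h0
    have h3 := div (neg (zpow_sub_nat h hm h0 i)) (smul (y0 ^ i) h1) (mul_ne_zero h2 h2)
    have h4 := ne h1 h2
    have h5 : algebraMap K L (y0 ^ i) ≠ 0 := (_root_.map_ne_zero _).2 h2
    have e1 : Y ^ (-(i : ℤ)) - algebraMap K L (y0 ^ (-(i : ℤ))) =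
        -(Y ^ i - algebraMap K L (y0 ^ i)) / (algebraMap K L (y0 ^ i) * Y ^ i) := by
      rw [zpow_neg, zpow_neg, zpow_natCast, zpow_natCast, map_inv₀]
      field_simp
      ring
    have e2 : ((-(i : ℤ) : ℤ) : K) * y0 ^ (-(i : ℤ)) / y0 * l =
        -(i * y0 ^ i / y0 * l) / (y0 ^ i * y0 ^ i) := by
      rw [zpow_neg, zpow_natCast]
      push_cast
      field_simp
    rw [mul_zero, sub_zero] at h3
    rwa [e1, e2]

end Pool.Agent.NW.Pl
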