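import Pool.Agent.Lib.MP_d40963_nt.W.Unit

/-! Critical bases in the central fibre: `k ≤ m`. -/

namespace Pool.Agent.NW.Dat

variable {p : ℕ} [Fact p.Prime] {K L : Type} [Field K] [IsAlgClosed K] [CharP K p] [Field L]
  [Algebra K L] {D : Dat p K} {t x Y : L} {P : Pl K L} {ψ : RingAut L}
  {r r' q q0 : K × K} {n : ℕ}

/-- the central solutions with nonzero coordinates which are not critical -/
def SU (D : Dat p K) : Set (K × K) := {q | q ∈ Sol p D.s 2 2 ∧ q.1 ≠ 0 ∧ q.2 ≠ 0 ∧ ¬ Cq D.s q}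

/-- the critical ones -/
def SC (D : Dat p K) : Set (K × K) := {q | q ∈ Sol p D.s 2 2 ∧ q.1 ≠ 0 ∧ q.2 ≠ 0 ∧ Cq D.s q}

/-- the critical ones in the square class of `q0` -/
def SQ (D : Dat p K) (q0 : K × K) : Set (K × K) :=
  {q | q ∈ D.SC ∧ ∃ j : K, j ^ p = j ∧ q.1 * q.2 = j ^ 2 * (q0.1 * q0.2)}

theorem sc_fin (D : Dat p K) : D.SC.Finite := (sol_fin _ _ _).subset fun _ h => h.1

theorem su_fin (D : Dat p K) : D.SU.Finite := (sol_fin _ _ _).subset fun _ h => h.1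

theorem sq_fin (D : Dat p K) (q0 : K × K) : (D.SQ q0).Finite := D.sc_fin.subset fun _ h => h.1

theorem neg_rat {c : K} (h : c ^ p = c) : (-c) ^ p = -c :=
  (map_neg (frobenius K p) _).trans (congrArg _ h)

theorem sc_one (D : Dat p K) : ((1, -1) : K × K) ∈ D.SC :=
  ⟨⟨one_pow p, neg_rat (one_pow p), by norm_num, by
    simp only [D.odd.neg_one_pow, one_pow]; norm_num⟩, one_ne_zero, by simp,
    by simp [Cq, D.odd.neg_one_pow]⟩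

/-- the involution `(x, y) ↦ (-y, -x)` has the only fixed point `(1, -1)`
(compare `Nv_parity` in Lib/MP_d40963_nt/Nice) -/
theorem sc_odd (D : Dat p K) : Odd D.SC.ncard := by
  classical
  have := D.sc_fin.fintype
  let f : Function.End D.SC := fun q => ⟨(-q.1.2, -q.1.1), by
    obtain ⟨⟨a1, a2, a3, a4⟩, a5, a6, a7⟩ := q.2
    refine ⟨⟨neg_rat a2, neg_rat a1, by linear_combination a3, ?_⟩, neg_ne_zero.2 a6,
      neg_ne_zero.2 a5, ?_⟩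
    · simp only [D.odd.neg_pow]; linear_combination a4
    · simp only [Cq, D.odd.neg_pow] at a7 ⊢; linear_combination -a7⟩
  have h := Equiv.Perm.card_fixedPoints_modEq (f := f) (p := 2) (n := 1)
    (funext fun q => Subtype.ext (Prod.ext (neg_neg _) (neg_neg _)))
  rw [(Fintype.card_eq_one_iff (α := f.fixedPoints)).2 ⟨⟨⟨_, D.sc_one⟩,
      Subtype.ext (Prod.ext (neg_neg _) rfl)⟩,
    fun q => by
      have h1 : -q.1.1.1 = q.1.1.2 := congrArg (fun t => t.1.2) q.2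
      have h3 : q.1.1.1 = 1 := mul_left_cancel₀ D.hab.two (by linear_combination q.1.2.1.2.2.1 - h1)
      exact Subtype.ext (Subtype.ext (Prod.ext h3 (by rw [← h1, h3])))⟩] at h
  rw [← Nat.card_coe_set_eq, Nat.card_eq_fintype_card, Nat.odd_iff]
  exact h

/-- Split `SC` by `(q.1 q.2) ^ ((p - 1) / 2) = ± 1` and take `q0` in the larger class. A rational
`c` with `c ^ ((p - 1) / 2) = 1` is the square of a rational `j` (take any root in `K`). -/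
theorem sq_half (D : Dat p K) : ∃ q0 ∈ D.SC, D.SC.ncard + 1 ≤ 2 * (D.SQ q0).ncard := by
  obtain ⟨n, hn⟩ := (Fact.out : p.Prime).odd_of_ne_two fun h =>
    D.hab.two (by exact_mod_cast h ▸ CharP.cast_eq_zero K p)
  have key : ∀ ε : K, D.SC.ncard + 1 ≤ 2 * {q ∈ D.SC | (q.1 * q.2) ^ n = ε}.ncard →
      ∃ q0 ∈ D.SC, D.SC.ncard + 1 ≤ 2 * (D.SQ q0).ncard := fun ε h => by
    obtain ⟨q0, h0, e0⟩ := Set.nonempty_of_ncard_ne_zero
      (s := {q ∈ D.SC | (q.1 * q.2) ^ n = ε}) (by omega)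
    refine ⟨q0, h0, h.trans (Nat.mul_le_mul_left 2
      (Set.ncard_le_ncard (fun q hq => ⟨hq.1, ?_⟩) (D.sq_fin q0)))⟩
    have c0 := mul_ne_zero h0.2.1 h0.2.2.1
    obtain ⟨j, hj⟩ := IsAlgClosed.exists_pow_nat_eq (q.1 * q.2 / (q0.1 * q0.2)) two_pos
    exact ⟨j, by
      rw [hn, pow_succ, pow_mul, hj, div_pow, hq.2, ← e0, div_self (pow_ne_zero _ c0), one_mul],
      by rw [hj, div_mul_cancel₀ _ c0]⟩
  have h1 : D.SC ⊆ {q ∈ D.SC | (q.1 * q.2) ^ n = 1} ∪ {q ∈ D.SC | (q.1 * q.2) ^ n = -1} :=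
    fun q hq => by
    have h2 : ((q.1 * q.2) ^ n) ^ 2 = 1 := mul_right_cancel₀ (mul_ne_zero hq.2.1 hq.2.2.1) (by
      rw [← pow_mul, mul_comm n, ← pow_succ, ← hn, mul_pow, hq.1.1, hq.1.2.1, one_mul])
    exact (sq_eq_one_iff.1 h2).imp (fun h => ⟨hq, h⟩) fun h => ⟨hq, h⟩
  have h2 := (Set.ncard_le_ncard h1 ((D.sc_fin.sep _).union (D.sc_fin.sep _))).trans
    (Set.ncard_union_le _ _)
  obtain ⟨i, hi⟩ := D.sc_odd
  rcases le_total {q ∈ D.SC | (q.1 * q.2) ^ n = 1}.ncard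
    {q ∈ D.SC | (q.1 * q.2) ^ n = -1}.ncard with h | h
  · exact key (-1) (by omega)
  · exact key 1 (by omega)

open scoped Classical in
/-- the solutions with a zero coordinate are among `(0, -2)`, `(2, 0)` and need `2 ^ s = 2` -/
theorem k_le (D : Dat p K) :
    D.k ≤ D.SU.ncard + D.SC.ncard + 2 * (if (2 : K) ^ D.s = 2 then 1 else 0) := by
  have h1 : Sol p D.s (2 : K) 2 ⊆ D.SU ∪ D.SC ∪ {q ∈ ({(0, -2), (2, 0)} : Set (K × K)) |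
      (2 : K) ^ D.s = 2} := fun q hq => by
    obtain ⟨-, -, a3, a4⟩ := id hq
    by_cases b1 : q.1 = 0
    · have : q.2 = -2 := by linear_combination b1 - a3
      rw [b1, this, zero_pow D.odd.pos.ne', D.odd.neg_pow] at a4
      exact .inr ⟨.inl (Prod.ext b1 this), by linear_combination a4⟩
    by_cases b2 : q.2 = 0
    · have : q.1 = 2 := by linear_combination b2 + a3
      rw [b2, this, zero_pow D.odd.pos.ne', sub_zero] at a4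
      exact .inr ⟨.inr (Prod.ext this b2), a4⟩
    exact .inl ((em (Cq D.s q)).elim (fun h => .inr ⟨hq, b1, b2, h⟩) fun h => .inl ⟨hq, b1, b2, h⟩)
  refine D.nk ▸ (Set.ncard_le_ncard h1 ((D.su_fin.union D.sc_fin).union
    ((Set.toFinite _).sep _))).trans ((Set.ncard_union_le _ _).trans
      (add_le_add (Set.ncard_union_le _ _) ?_))
  split_ifs with h
  · exact (Set.ncard_le_ncard (Set.sep_subset _ _) (Set.toFinite _)).trans
      ((Set.ncard_insert_le _ _).trans (by simp))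
  · simp [h]

theorem be_up (h0 : q0 ∈ Sol p D.s (2 : K) 2) (h : D.At (sd D.s q0.1 q0.2) t x P ψ) (hn : 0 < n)
    (hx : P.Ap (x - algebraMap K L 1) n 1) :
    D.UP (sd D.s q0.1 q0.2) t x P ψ 1 (2 ^ D.b / 2 ^ D.a) ∧
      (sd D.s q0.1 q0.2).u D.b ((1 : K) ^ D.e) = 2 ∧
      (sd D.s q0.1 q0.2).U D.a ((1 : K) ^ D.e) = 2 := by
  have e1 : (sd D.s q0.1 q0.2).u D.b ((1 : K) ^ D.e) = 2 := by
    rw [Side.u_self, one_pow, one_pow, mul_one]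
    exact h0.2.2.1
  have e2 : (sd D.s q0.1 q0.2).U D.a ((1 : K) ^ D.e) = 2 := by
    rw [Side.U_self, one_pow, one_zpow, mul_one]
    exact h0.2.2.2
  refine ⟨⟨h, Pl.res hx (Int.natCast_pos.2 hn), pow_ne_zero _ one_ne_zero, e1 ▸ D.hab.two,
    e2 ▸ D.hab.two, ?_⟩, e1, e2⟩
  rw [e1, e2]
  exact div_mul_cancel₀ _ (zpow_ne_zero _ D.hab.two)

theorem be_ctx (h0 : q0 ∈ D.SC) (h : D.At (sd D.s q0.1 q0.2) t x P ψ) (hn : 0 < n)
    (hx : P.Ap (x - algebraMap K L 1) n 1) {ρ t0 : K} (hρ : ρ = q0.1 / q0.2)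
    (ht : t0 = 2 ^ D.b / 2 ^ D.a) :
    P.Ap (t - algebraMap K L t0) (2 * n : ℕ)
      (D.e ^ 2 * (t0 * D.a * D.b * dd D.a D.b * ρ) / (2 * (ρ - 1) ^ 2)) := by
  have hu := ht ▸ (be_up h0.1 h hn hx).1
  obtain ⟨N, c, N0, c0, hc⟩ := hu.ap_t
  obtain ⟨m, rfl, hm⟩ := tU2 D.hab h.ae.ge.ok h.ae.ge.sβ hc N0 c0 hu.sh0
    (by simpa [Crit, sd, Cq] using h0.2.2.2) (ρ := ρ) (by simpa [sd] using hρ)
  have h1 := Pl.zpow_sub_nat hx (Int.natCast_pos.2 hn) one_ne_zero D.e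
  obtain ⟨l, h2, h3⟩ := hm.ap _ h.sh (Pl.res h1 (Int.natCast_pos.2 hn))
  obtain ⟨e1, rfl⟩ := Pl.ord_eq h2 h1 (hm.congr_ne h3) (by simpa using D.e0)
  obtain ⟨h4, h5⟩ := div_ne_zero_iff.1 hm.κ0
  simp only [one_pow, mul_one, div_one] at h3 h4
  rwa [h3, div_mul_cancel₀ _ h5, mul_right_comm, mul_div_cancel_left₀ _
    (mul_ne_zero D.hab.two (right_ne_zero_of_mul h4)), ← Int.natCast_inj.1 e1]

theorem be_low2 (h0 : q0 ∈ D.SC) (h : D.At (sd D.s q0.1 q0.2) t x P ψ) (hn : 0 < n)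
    (hx : P.Ap (x - algebraMap K L 1) n 1) (hq : q ∈ D.SQ q0) (hr : r ∈ D.Rep q.1)
    (hr' : r' ∈ D.Rep q.2) : 2 ≤ (D.FxR (sd D.s q0.1 q0.2) x P ψ r r').ncard := by
  obtain ⟨hu, e1, e2⟩ := be_up h0.1 h hn hx
  obtain ⟨⟨h1, h2, h3, h4⟩, j, hj, e3⟩ := hq
  have two := D.hab.two
  have a0 := D.hab.aK
  have b0 := D.hab.bK
  have d0 := D.hab.dK
  have e0 := D.e0
  have q1 := h0.2.1
  have q2 := h0.2.2.1
  have t1 := hu.sh0.t_ne
  have j0 : j ≠ 0 := fun e => mul_ne_zero h2 h3 (by rw [e3, e, sq, zero_mul, zero_mul])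
  have f1 : q0.1 / q0.2 - 1 = 2 / q0.2 := by rw [div_sub_one q2, h0.1.2.2.1]
  have f2 : q.1 / q.2 - 1 = 2 / q.2 := by rw [div_sub_one h3, h1.2.2.1]
  have hc := be_ctx h0 h hn hx rfl rfl
  replace h1 : q ∈ Sol p D.s ((sd D.s q0.1 q0.2).u D.b ((1 : K) ^ D.e))
    ((sd D.s q0.1 q0.2).U D.a ((1 : K) ^ D.e)) := by rwa [e1, e2]
  have hy := (rep_tri h1 h2 h3 hr hr').sh hu.sh0
  rw [← div_pow] at hy
  obtain ⟨m, -, hm⟩ := tU2 D.hab (rep_ok hr hr').1 (h.ae.spl _ hr.1 _ hr'.1) hc (by omega)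
    (by rw [f1]; positivity) hy ((rep_crit h2 h3 hr hr').1.2 h4) (rep_crit h2 h3 hr hr').2.symm
  have y1 : ((r.2 / r'.2) ^ D.e) ^ p = (r.2 / r'.2) ^ D.e := by
    rw [pow_right_comm, div_pow, hr.2.1, hr'.2.1]
  have key : ∀ l : K, l ^ p = l → l ^ 2 = (D.e * (r.2 / r'.2) ^ D.e / j) ^ 2 →
      ∃ s ∈ D.FxR (sd D.s q0.1 q0.2) x P ψ r r',
        P.Ap ((s 2 / s 3) ^ D.e - algebraMap K L ((r.2 / r'.2) ^ D.e)) m l := fun l l1 l2 => by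
    obtain ⟨Y, hY, ha⟩ := hm.ex l (by
      rw [l2, f1, f2]
      field_simp
      linear_combination ((r.2 / r'.2) ^ D.e) ^ 2 * e3)
    obtain ⟨s, hs, rfl⟩ := hu.mk_fix h1 h2 h3 hr hr' ⟨hY, Pl.res ha (Int.natCast_pos.2 hm.m0)⟩
      (hm.fix h.fr h.frb (fun _ => h.sh_fr (rep_ok hr hr').2) y1 l1 hY ha)
    exact ⟨s, hs, ha⟩
  have l1 : (D.e * (r.2 / r'.2) ^ D.e / j) ^ p = D.e * (r.2 / r'.2) ^ D.e / j := by
    rw [div_pow, mul_pow, y1, hj, ← frobenius_def, map_natCast]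
  obtain ⟨s, hs, g1⟩ := key _ l1 rfl
  obtain ⟨s', hs', g2⟩ := key (-_) (by rw [neg_pow, neg_one_pow_char, l1, neg_one_mul]) (neg_sq _)
  refine (Set.one_lt_ncard h.fxr_fin).2 ⟨s, hs, s', hs', fun e => mul_ne_zero two
    (div_ne_zero (mul_ne_zero e0 hy.1) j0) ?_⟩
  linear_combination P.uniq (e ▸ g1) g2

theorem be_low0_alg {F : Type} [Field F] {a : ℤ} (ha : 0 < a) {b : ℕ} {τ' σ σ' W Z c : F}
    (hZ : Z ≠ 0) (h2 : (2 : F) ≠ 0) (hb : (b : F) ≠ 0) (hσ : σ ≠ 0) (e1 : Z ^ b * -τ' = 2)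
    (e2 : Z ^ a * -σ' = 2) (e3 : σ * W ^ a = c * 2 ^ a / (b * 2 ^ b / 2)) :
    (-σ') ^ b / (-τ') ^ a = 2 ^ b / 2 ^ a ∧
      (W / Z) ^ a.natAbs = c * (-τ') ^ a / (b * σ * (-σ') ^ b / (-σ')) := by
  obtain ⟨k, rfl⟩ := Int.eq_ofNat_of_zero_le ha.le
  simp only [zpow_natCast, Int.natAbs_natCast] at *
  rw [eq_div_of_mul_eq (pow_ne_zero b hZ) ((mul_comm _ _).trans e1),
    eq_div_of_mul_eq (pow_ne_zero k hZ) ((mul_comm _ _).trans e2), div_pow W,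
    eq_div_of_mul_eq hσ ((mul_comm _ _).trans e3), div_pow, div_pow, pow_right_comm Z k b]
  constructor <;> field_simp

/-- Let `c` be the coefficient of `be_ctx` (rational, nonzero), `c1 ^ s = c 2 ^ a / (b 2 ^ b / 2)`
(`D.surj`). With `Z0 = r'.2 ^ e`: `τ' Z0 ^ b = -2 = σ' Z0 ^ a` (`rep_pow`), so `v0 = t0`; `tO`, and
`l = (r.2 / r'.2) ^ e` satisfies `l ^ a = κ`. `Tab.ex`, `Tab.fix`, `At.mk_fix`, `Tri.lcZ` (near `0`,
`u` and `U` have residues `-τ'`, `-σ'`). -/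
theorem be_low0 (ha : 0 < D.a) (h0 : q0 ∈ D.SC) (h : D.At (sd D.s q0.1 q0.2) t x P ψ) (hn : 0 < n)
    (hx : P.Ap (x - algebraMap K L 1) n 1) (h2 : (2 : K) ^ D.s = 2) :
    ∃ c1 : K, c1 ^ p = c1 ∧ c1 ≠ 0 ∧ ∀ r ∈ D.Rep c1, ∀ r' ∈ D.Rep (-2),
      1 ≤ (D.FxR (sd D.s q0.1 q0.2) x P ψ r r').ncard := by
  have hT := be_ctx h0 h hn hx rfl rfl
  obtain ⟨hU, u2, U2⟩ := be_up h0.1 h hn hx
  obtain ⟨⟨a1, a2, a3, -⟩, a4, a5, -⟩ := h0
  have two := D.hab.two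
  have hρ : q0.1 / q0.2 - 1 ≠ 0 := fun e =>
    two (a3.symm.trans (sub_eq_zero.2 (eq_of_div_eq_one (sub_eq_zero.1 e))))
  generalize hc : (D.e : K) ^ 2 * (2 ^ D.b / 2 ^ D.a * D.a * D.b * dd D.a D.b * (q0.1 / q0.2)) /
    (2 * (q0.1 / q0.2 - 1) ^ 2) = c at hT
  have c0 : c ≠ 0 := hc ▸ div_ne_zero (mul_ne_zero (pow_ne_zero _ D.e0) (mul_ne_zero (mul_ne_zero
    (mul_ne_zero (mul_ne_zero (div_ne_zero (pow_ne_zero _ two) (zpow_ne_zero _ two)) D.hab.aK)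
      D.hab.bK) D.hab.dK) (div_ne_zero a4 a5))) (mul_ne_zero two (pow_ne_zero _ hρ))
  obtain ⟨c1, k1, k2⟩ := D.surj (c * 2 ^ D.a / (D.b * 2 ^ D.b / 2)) (by
    rw [← frobenius_def] at a1 a2 ⊢
    simp only [← hc, map_div₀, map_mul, map_pow, map_zpow₀, map_natCast, map_intCast, map_ofNat,
      map_sub, map_one, a1, a2])
  have k0 : c1 ≠ 0 := fun e => div_ne_zero (mul_ne_zero c0 (zpow_ne_zero _ two))
    (div_ne_zero (mul_ne_zero D.hab.bK (pow_ne_zero _ two)) two)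
    (by rw [← k2, e, zero_pow D.odd.pos.ne'])
  refine ⟨c1, k1, k0, fun r hr r' hr' => ?_⟩
  have n2 := neg_ne_zero.2 two
  obtain ⟨ok, rt⟩ := rep_ok hr hr'
  have z0 := pow_ne_zero D.e (rep_ne hr' n2).2
  have e1 : (r'.2 ^ D.e) ^ D.b * -r'.1 = 2 := by linear_combination -hr'.2.2
  have e2 : (r'.2 ^ D.e) ^ D.a * -r'.1 ^ D.s = 2 := by
    have := rep_pow hr' n2
    rw [D.odd.neg_pow, h2] at this
    linear_combination -this
  obtain ⟨f1, f2⟩ := be_low0_alg ha z0 two D.hab.bK ok.σ e1 e2 ((rep_pow hr k0).trans k2)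
  rw [← div_pow] at f2
  obtain ⟨m, -, hB⟩ := tO D.hab ok (h.ae.spl _ hr.1 _ hr'.1).1 ha
    ((show (sd D.s r.1 r'.1).v0 D.a D.b = _ from f1) ▸ hT) (by omega) c0
  obtain ⟨Y, hY, hA⟩ := hB.ex _ f2
  have hf := hB.fix h.fr h.frb (fun Y => h.sh_fr rt) (zero_pow (Fact.out : p.Prime).ne_zero)
    (by rw [pow_right_comm, div_pow, hr.2.1, hr'.2.1]) hY hA
  have y0 := Pl.res hA (Int.natCast_pos.2 hB.m0)
  rw [map_zero, sub_zero] at hA
  have x1 := Pl.pow hU.ap D.e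
  rw [mul_zero] at x1
  have g1 := ap_u (sd D.s r.1 r'.1) D.b y0
  have g2 := ap_U (sd D.s r.1 r'.1) y0 (Or.inr ha)
  rw [Side.u_self, zero_pow D.hab.b0.ne', mul_zero, zero_sub] at g1
  rw [Side.U_self, zero_zpow _ ha.ne', mul_zero, zero_sub] at g2
  obtain ⟨s, hs, -⟩ := h.mk_fix hr hr' k0 n2 hY hf ⟨hB.congr_ne f2, _, hA⟩ fun W Z hW e =>
    hW.lcZ D.hab ⟨two, 0, u2 ▸ ap_u _ D.b x1⟩ ⟨two, 0, U2 ▸ ap_U _ x1 (Or.inr ha)⟩
      ⟨neg_ne_zero.2 ok.τ', 0, e ▸ g1⟩ ⟨neg_ne_zero.2 ok.σ', 0, e ▸ g2⟩ z0 e1 e2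
  exact (Set.ncard_pos h.fxr_fin).2 ⟨s, hs⟩

open scoped Classical in
/-- `At.count_low` with `A = SU ∪ SQ q0 ∪ {(c1, -2)}` and weights `1`, `2`, `1`; the last point is
not a solution as `c1 ≠ 0`. -/
theorem be_low (ha : 0 < D.a) (h0 : q0 ∈ D.SC) (h : D.AE (sd D.s q0.1 q0.2) t)
    (hM : D.Mc (sd D.s q0.1 q0.2) t) :
    D.SU.ncard + 2 * (D.SQ q0).ncard + (if (2 : K) ^ D.s = 2 then 1 else 0) ≤ D.m := by
  obtain ⟨x, P, ψ, n, hA, hn, hx⟩ := h.at_ex (x0 := 1) (one_pow p)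
  obtain ⟨hU, e1, e2⟩ := be_up h0.1 hA hn hx
  have r2 : (-2 : K) ^ p = -2 := neg_rat (map_ofNat (frobenius K p) 2)
  obtain ⟨B, b1, b2⟩ : ∃ B : Finset (K × K), B.card = (if (2 : K) ^ D.s = 2 then 1 else 0) ∧
      ∀ q ∈ B, q.1 ^ p = q.1 ∧ q.1 ≠ 0 ∧ q.2 = -2 ∧ ∀ r ∈ D.Rep q.1, ∀ r' ∈ D.Rep (-2),
        1 ≤ (D.FxR (sd D.s q0.1 q0.2) x P ψ r r').ncard := by
    split_ifs with h2
    · obtain ⟨c, c1, c2, c3⟩ := be_low0 ha h0 hA hn hx h2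
      exact ⟨{(c, -2)}, rfl, fun q hq => by rw [Finset.mem_singleton.1 hq]; exact ⟨c1, c2, rfl, c3⟩⟩
    · exact ⟨∅, rfl, by simp⟩
  have nb : ∀ q ∈ B, q ∉ Sol p D.s (2 : K) 2 := fun q hq hs =>
    (b2 q hq).2.1 (by linear_combination hs.2.2.1 + (b2 q hq).2.2.1)
  have h3 := hA.count_low (D.su_fin.toFinset ∪ (D.sq_fin q0).toFinset ∪ B)
    (fun q => if q ∈ D.SQ q0 then 2 else 1) (fun q hq => by
      simp only [Finset.mem_union, Set.Finite.mem_toFinset] at hq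
      rcases hq with (hq | hq) | hq
      · exact ⟨hq.1.1, hq.2.1, hq.1.2.1, hq.2.2.1⟩
      · exact ⟨hq.1.1.1, hq.1.2.1, hq.1.1.2.1, hq.1.2.2.1⟩
      · exact ⟨(b2 q hq).1, (b2 q hq).2.1, (b2 q hq).2.2.1 ▸ r2,
          (b2 q hq).2.2.1 ▸ neg_ne_zero.2 D.hab.two⟩) fun q hq r hr r' hr' => by
      split_ifs with h4
      · exact be_low2 h0 hA hn hx h4 hr hr'
      simp only [Finset.mem_union, Set.Finite.mem_toFinset] at hq
      rcases hq with (hq | hq) | hq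
      · exact hU.low1 (by rw [e1, e2]; exact hq.1) hq.2.1 hq.2.2.1 hq.2.2.2 hr hr'
      · exact absurd hq h4
      · exact (b2 q hq).2.2.2 r hr r' ((b2 q hq).2.2.1 ▸ hr')
  rw [hM x hA.sh ψ hA.fr, Finset.sum_union, Finset.sum_union,
    Finset.sum_congr rfl fun q hq => if_neg fun h4 =>
      (D.su_fin.mem_toFinset.1 hq).2.2.2 h4.1.2.2.2,
    Finset.sum_congr rfl fun q hq => if_pos ((D.sq_fin q0).mem_toFinset.1 hq),
    Finset.sum_congr rfl fun q hq => if_neg fun h4 => nb q hq h4.1.1] at h3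
  · have h5 := Nat.le_of_mul_le_mul_left h3 (pow_pos D.e_pos 2)
    simp only [Finset.sum_const, smul_eq_mul, mul_one, b1,
      ← Set.ncard_eq_toFinset_card _ D.su_fin, ← Set.ncard_eq_toFinset_card _ (D.sq_fin q0)] at h5
    omega
  · exact Finset.disjoint_left.2 fun q h1 h2 =>
      (D.su_fin.mem_toFinset.1 h1).2.2.2 ((D.sq_fin q0).mem_toFinset.1 h2).1.2.2.2
  · refine Finset.disjoint_right.2 fun q h1 h2 => nb q h1 ?_
    simp only [Finset.mem_union, Set.Finite.mem_toFinset] at h2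
    exact h2.elim (·.1) (·.1.1)

theorem beta (ha : 0 < D.a) (hF : D.Fam) : D.k ≤ D.m := by
  obtain ⟨q0, h0, h1⟩ := D.sq_half
  obtain ⟨L, _, _, t, h, hM⟩ := hF q0.1 q0.2 h0.1.1 h0.2.1 h0.1.2.1 h0.2.2.1
  have h2 := be_low ha h0 h hM
  have h3 := D.k_le
  split_ifs at h2 h3 <;> omega

/-- `Sol 2 2 = {(1, -1)}`; `be_up`, `UP.up` with weight `2` -/
theorem gamma (hF : D.Fam) (hk : D.k = 1) : D.m ≤ 2 := by
  have h0 := D.sc_one
  obtain ⟨L, _, _, t, h, hM⟩ := hF 1 (-1 : K) h0.1.1 h0.2.1 h0.1.2.1 h0.2.2.1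
  obtain ⟨x, P, ψ, n, hA, hn, hx⟩ := h.at_ex (x0 := 1) (one_pow p)
  obtain ⟨hU, e1, e2⟩ := be_up (q0 := (1, -1)) h0.1 hA hn hx
  obtain ⟨q, hq⟩ := Set.ncard_eq_one.1 (D.nk.trans hk)
  have h1 : (1, -1) = q := (hq ▸ h0.1 : _ ∈ ({q} : Set _))
  have h3 := hU.up {(1, -1)} (fun _ => 2) (fun q' => by rw [e1, e2, hq, ← h1]; simp)
    (fun q' h => by rw [Finset.mem_singleton.1 h]; simp) (by simp)
  rw [hM x hA.sh ψ hA.fr] at h3
  simpa using Nat.le_of_mul_le_mul_left h3 (pow_pos D.e_pos 2)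

end Pool.Agent.NW.Dat
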