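import Pool.Agent.Lib.MP_d40963_nt.W.CStep

/-! Point counts on an arbitrary absolutely irreducible plane curve, by a linear change of
coordinates. -/

namespace Pool.Agent.NW.Ch

open Polynomial Pool.Agent.Lib.Common.Stepanov

variable {K : Type*} [Field K]

/-- the substitution `x ↦ x + c y`, `y ↦ u y` -/
noncomputable def phi (c u : K) : K[X][X] →+* K[X][X] :=
  eval₂RingHom (aeval (C X + C (C c) * X) : K[X] →ₐ[K] K[X][X]).toRingHom (C (C u) * X)

@[simp] theorem phi_C (c u : K) (h : K[X]) : phi c u (C h) = aeval (C X + C (C c) * X) h := by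
  simp [phi]

@[simp] theorem phi_X (c u : K) : phi c u X = C (C u) * X := by simp [phi]

theorem phi_eval (c u a b : K) (g : K[X][X]) :
    (phi c u g).evalEval a b = g.evalEval (a + c * b) (u * b) := by
  have : (evalEvalRingHom a b).comp (phi c u) = evalEvalRingHom (a + c * b) (u * b) := by
    ext <;> simp [Polynomial.algebraMap_apply]
  exact RingHom.congr_fun this g

theorem phi_psi (u : K) (g : K[X][X]) :
    (phi 1 u g).map (evalRingHom 0) = (psi K g).map (evalRingHom u) := by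
  have : (mapRingHom (evalRingHom 0)).comp (phi 1 u) =
      (mapRingHom (evalRingHom u)).comp (psi K) := by
    refine Polynomial.ringHom_ext' (Polynomial.ringHom_ext (fun a => ?_) ?_) ?_ <;>
      simp [psi, Polynomial.algebraMap_apply]
  exact RingHom.congr_fun this g

theorem phi_phi (c u c' u' : K) (g : K[X][X]) :
    phi c u (phi c' u' g) = phi (c + c' * u) (u' * u) g := by
  have : (phi c u).comp (phi c' u') = phi (c + c' * u) (u' * u) := by
    refine Polynomial.ringHom_ext' (Polynomial.ringHom_ext (fun a => ?_) ?_) ?_ <;>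
      simp [Polynomial.algebraMap_apply] <;> ring
  exact RingHom.congr_fun this g

theorem phi_id (g : K[X][X]) : phi 0 1 g = g := by
  have : phi (0 : K) 1 = RingHom.id _ := by
    refine Polynomial.ringHom_ext' (Polynomial.ringHom_ext (fun a => ?_) ?_) ?_ <;>
      simp [Polynomial.algebraMap_apply]
  exact RingHom.congr_fun this g

theorem phi_irr {u : K} (hu : u ≠ 0) {g : K[X][X]} (hg : Irreducible g) :
    Irreducible (phi 1 u g) := by
  let e : K[X][X] ≃+* K[X][X] := RingEquiv.ofRingHom (phi 1 u) (phi (-u⁻¹) u⁻¹)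
    (RingHom.ext fun g => by
      rw [RingHom.comp_apply, phi_phi, neg_mul, inv_mul_cancel₀ hu, add_neg_cancel, phi_id]; rfl)
    (RingHom.ext fun g => by
      rw [RingHom.comp_apply, phi_phi, one_mul, mul_inv_cancel₀ hu, neg_add_cancel, phi_id]; rfl)
  exact (MulEquiv.irreducible_iff e).2 hg

theorem Fil_aeval {z : K[X][X]} (hz : z ∈ Fil K 1) (h : K[X]) :
    aeval z h ∈ Fil K h.natDegree := by
  rw [aeval_eq_sum_range]
  refine Submodule.sum_mem _ fun i hi => Submodule.smul_mem _ _ (Fil_mono (Fil_pow hz i) ?_)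
  have := Finset.mem_range.1 hi
  omega

theorem Fil_CC (c : K) : (C (C c) : K[X][X]) ∈ Fil K 0 := Fil_C (by simp)

theorem phi_Fil (c u : K) {n : ℕ} {g : K[X][X]} (hg : g ∈ Fil K n) : phi c u g ∈ Fil K n := by
  rw [g.as_sum_support_C_mul_X_pow, map_sum]
  refine Submodule.sum_mem _ fun b hb => ?_
  have h1 : b ≤ n := not_lt.1 fun h => mem_support_iff.1 hb (Fil_coeff_zero hg h)
  have h2 := Fil_coeff hg b
  rw [map_mul, map_pow, phi_C, phi_X]
  exact Fil_mono (Fil_mul (Fil_aeval (Submodule.add_mem _ Fil_CX (Fil_mul (Fil_CC c) Fil_X)) _)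
    (Fil_pow (Fil_mul (Fil_CC u) Fil_X) b)) (by omega)

/-- the prime field as a finite set -/
noncomputable def FP (p : ℕ) [Fact p.Prime] (K : Type*) [Field K] [CharP K p] : Finset K :=
  Finset.univ.map ⟨ZMod.castHom (dvd_refl p) K, RingHom.injective _⟩

theorem card_FP (p : ℕ) [Fact p.Prime] [CharP K p] : (FP p K).card = p := by simp [FP]

theorem mem_FP {p : ℕ} [Fact p.Prime] [CharP K p] {x : K} : x ∈ FP p K ↔ x ^ p = x := by
  classical
  have h1 : ∀ x ∈ FP p K, x ^ p = x := by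
    intro x hx
    obtain ⟨a, -, rfl⟩ := Finset.mem_map.1 hx
    simp only [Function.Embedding.coeFn_mk, ← map_pow, ZMod.pow_card]
  refine ⟨h1 x, fun hx => ?_⟩
  by_contra hn
  have hp := (Fact.out : p.Prime).one_lt
  have h2 := card_le_degree_of_subset_roots (p := (X ^ p - X : K[X])) (Z := insert x (FP p K))
    fun y hy => (mem_roots (FiniteField.X_pow_card_sub_X_ne_zero K hp)).2 (by
      rcases Finset.mem_insert.1 hy with rfl | hy
      · simp [hx]
      · simp [h1 y hy])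
  rw [FiniteField.X_pow_card_sub_X_natDegree_eq K hp, Finset.card_insert_of_notMem hn,
    card_FP] at h2
  omega

theorem exists_FP (p : ℕ) [Fact p.Prime] [CharP K p] {f : K[X]} (hf : f ≠ 0)
    (h : f.natDegree < p) : ∃ u : K, u ^ p = u ∧ f.eval u ≠ 0 := by
  by_contra hc
  push Not at hc
  have := card_le_degree_of_subset_roots (p := f) (Z := FP p K)
    fun y hy => (mem_roots hf).2 (hc y (mem_FP.1 hy))
  rw [card_FP] at this
  omega

theorem exists_lin (p : ℕ) [Fact p.Prime] [CharP K p] {B : K[X][X]} (hB : Irreducible B) {D : ℕ}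
    (hD : B ∈ Fil K D) (hp : D + 1 < p) : ∃ (B' : K[X][X]) (u : K), IsCurve B' ∧
      B'.natDegree ≤ D ∧ u ^ p = u ∧ u ≠ 0 ∧
      ∀ a b, B'.evalEval a b = 0 ↔ B.evalEval (a + b) (u * b) = 0 := by
  obtain ⟨d, hd⟩ : ∃ d, d = (psi K B).natDegree := ⟨_, rfl⟩
  have h1 : B ∈ Fil K d := mem_Fil_iff.2 hd.ge
  have h2 : d ≤ D := hd ▸ mem_Fil_iff.1 hD
  have h3 : psi K B ≠ 0 := fun h0 => hB.ne_zero (by
    ext b a
    have := psi_coeff B (a + b) b
    rw [h0] at this
    simpa using this.symm)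
  have h4 : (psi K B).coeff d ≠ 0 := hd ▸ leadingCoeff_ne_zero.2 h3
  have h5 : ((psi K B).coeff d).natDegree ≤ d := natDegree_le_iff_coeff_eq_zero.2 fun b hb => by
    rw [psi_coeff, if_neg (by omega)]
  obtain ⟨u, hu, h6⟩ := exists_FP p (mul_ne_zero X_ne_zero h4)
    (by rw [natDegree_X_mul h4]; omega)
  rw [eval_mul, eval_X] at h6
  have h7 := phi_Fil 1 u h1
  obtain ⟨c, hc⟩ : ∃ c, (phi 1 u B).coeff d = C c :=
    ⟨_, eq_C_of_natDegree_le_zero (by simpa using Fil_coeff h7 d)⟩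
  have h8 : c ≠ 0 := by
    have := congrArg (fun f => coeff f d) (phi_psi u B)
    simp only [coeff_map, hc, coe_evalRingHom, eval_C] at this
    exact this ▸ right_ne_zero_of_mul h6
  have h9 : C (C c⁻¹) * phi 1 u B ∈ Fil K d := by simpa using Fil_mul (Fil_CC c⁻¹) h7
  have h10 : (C (C c⁻¹) * phi 1 u B).natDegree ≤ d :=
    natDegree_le_iff_coeff_eq_zero.2 fun _ h => Fil_coeff_zero h9 h
  have h11 : (C (C c⁻¹) * phi 1 u B).coeff d = 1 := by
    rw [coeff_C_mul, hc, ← C_mul, inv_mul_cancel₀ h8, C_1]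
  have h12 := natDegree_eq_of_le_of_coeff_ne_zero h10 (h11 ▸ one_ne_zero)
  refine ⟨C (C c⁻¹) * phi 1 u B, u, ⟨monic_of_natDegree_le_of_coeff_eq_one d h10 h11,
    h12.symm ▸ h9, ?_⟩, h10.trans h2, hu, left_ne_zero_of_mul h6, fun a b => ?_⟩
  · exact (irreducible_isUnit_mul (((inv_ne_zero h8).isUnit.map C).map C)).2
      (phi_irr (left_ne_zero_of_mul h6) hB)
  · rw [evalEval_mul, phi_eval, evalEval_CC, one_mul, mul_eq_zero, or_iff_right (inv_ne_zero h8)]

theorem succ_lt_of_step {R D p : ℕ} (hp2 : 1 < p) (hR : 0 < R) (hp : 8 * R ^ 2 * D ^ 5 < p) :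
    D + 1 < p := by
  have e1 : D ≤ D ^ 5 := Nat.le_self_pow (by norm_num) _
  have e2 : D ^ 5 ≤ R ^ 2 * D ^ 5 := Nat.le_mul_of_pos_left _ (by positivity)
  rw [mul_assoc] at hp
  omega

theorem upperL [IsAlgClosed K] (p R : ℕ) [Fact p.Prime] [CharP K p] {B : K[X][X]}
    (hB : Irreducible B) {D : ℕ} (hD : B ∈ Fil K D) (hR : 0 < R) (hp : 8 * R ^ 2 * D ^ 5 < p)
    (N : Finset (K × K)) (hN : ∀ q ∈ N, B.evalEval q.1 q.2 = 0 ∧ q.1 ^ p = q.1 ∧ q.2 ^ p = q.2) :
    R * N.card ≤ (R + 2) * p + R * D ^ 2 := by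
  classical
  obtain ⟨B', u, h1, h2, h3, h4, h5⟩ := exists_lin p hB hD
    (succ_lt_of_step (Fact.out : p.Prime).one_lt hR hp)
  let f : N → Pts B' := fun q => ⟨(q.1.1 - u⁻¹ * q.1.2, u⁻¹ * q.1.2), (h5 _ _).2 (by
    rw [sub_add_cancel, mul_inv_cancel_left₀ h4]; exact (hN _ q.2).1)⟩
  have hf : Function.Injective f := fun q q' e => by
    have e0 : (q.1.1 - u⁻¹ * q.1.2, u⁻¹ * q.1.2) = (q'.1.1 - u⁻¹ * q'.1.2, u⁻¹ * q'.1.2) :=
      congrArg Subtype.val e
    obtain ⟨e1, e2⟩ := Prod.mk.inj e0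
    rw [e2, sub_left_inj] at e1
    exact Subtype.ext (Prod.ext e1 (mul_left_cancel₀ (inv_ne_zero h4) e2))
  have := upperR p R h1 hR (lt_of_le_of_lt (by gcongr) hp) (Finset.univ.map ⟨f, hf⟩) fun q hq => by
    obtain ⟨q, -, rfl⟩ := Finset.mem_map.1 hq
    obtain ⟨-, a1, a2⟩ := hN _ q.2
    simp [f, sub_pow_char, mul_pow, h3, a1, a2]
  rw [Finset.card_map, Finset.card_univ, Fintype.card_coe] at this
  exact this.trans (by gcongr)

theorem lowerL [IsAlgClosed K] (p R : ℕ) [Fact p.Prime] [CharP K p] {B : K[X][X]}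
    (hB : Irreducible B) {D : ℕ} (hD : B ∈ Fil K D) (hR : 0 < R) (hp : 8 * R ^ 2 * D ^ 5 < p)
    (hF : ∀ x y, B.evalEval x y = 0 → B.evalEval (x ^ p) (y ^ p) = 0)
    (N : Finset (K × K)) (hN : ∀ x y, B.evalEval x y = 0 → x ^ p = x → y ^ p = y → (x, y) ∈ N) :
    R * p ≤ R * N.card + 2 * p + R * D ^ 3 := by
  classical
  obtain ⟨B', u, h1, h2, h3, h4, h5⟩ := exists_lin p hB hD
    (succ_lt_of_step (Fact.out : p.Prime).one_lt hR hp)
  let f : Pts B' → K × K := fun q => (q.1.1 + q.1.2, u * q.1.2)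
  have hf : Function.Injective f := fun q q' e => by
    obtain ⟨e1, e2⟩ := Prod.mk.inj e
    have e3 := mul_left_cancel₀ h4 e2
    rw [e3, add_left_inj] at e1
    exact Subtype.ext (Prod.ext e1 e3)
  have := lowerR p R h1 hR (lt_of_le_of_lt (by gcongr) hp) (fun x y hx h => by
    have := hF _ _ ((h5 _ _).1 h)
    rwa [add_pow_char, mul_pow, hx, h3, ← h5] at this) (N.preimage f hf.injOn) fun q a1 a2 =>
      Finset.mem_preimage.2 (hN _ _ ((h5 _ _).1 q.2) (by rw [add_pow_char, a1, a2])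
        (by rw [mul_pow, h3, a2]))
  have h6 : (N.preimage f hf.injOn).card ≤ N.card :=
    Finset.card_le_card_of_injOn f (fun q hq => Finset.mem_preimage.1 hq) hf.injOn
  exact this.trans (by gcongr)

end Pool.Agent.NW.Ch
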