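import Pool.Agent.Lib.MP_d40963_nt.W.CReg

/-! The plane curve of an orbit and the number of fixed points of Frobenius elements on it. -/

namespace Pool.Agent.NW.Ch

open Polynomial Pool.Agent.Lib.Common.Stepanov
open scoped Classical

variable {p : ℕ} {K L : Type} [Field K] [Field L] [Algebra K L] {x : L} {w : ℕ} {Y : Finset L}

theorem prod_stab {ι M : Type} [CommMonoid M] {s : Finset ι} {e : ι → ι} (he : Function.Injective e)
    (h : ∀ i ∈ s, e i ∈ s) (f : ι → M) : ∏ i ∈ s, f (e i) = ∏ i ∈ s, f i := by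
  have : s.image e = s := Finset.eq_of_subset_of_card_le (Finset.image_subset_iff.2 h)
    (Finset.card_image_of_injective s he).ge
  rw [← Finset.prod_image (g := e) he.injOn, this]

theorem wt_coeff (hY : ∀ y ∈ Y, Wt K w x y) (j : ℕ) :
    Wt K (Y.card * w) x ((∏ y ∈ Y, (X - C y)).coeff j) := by
  induction Y using Finset.cons_induction generalizing j with
  | empty => simpa [coeff_one] using Wt.const (a := 0) (x := x) (if j = 0 then 1 else 0 : K)
  | cons y s hy ih =>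
    have h1 := ih fun j hj => hY j (Finset.mem_cons_of_mem hj)
    rw [Finset.prod_cons, Finset.card_cons, add_mul, one_mul, sub_mul, coeff_sub, coeff_C_mul]
    refine Wt.sub ?_ (add_comm w _ ▸ (hY y (Finset.mem_cons_self _ _)).mul (h1 j))
    cases j with
    | zero => simpa using Wt.const (x := x) (0 : K)
    | succ j => rw [coeff_X_mul]; exact (h1 j).mono (Nat.le_add_right _ _)

theorem aut_coeff {g : RingAut L} (h : ∀ y ∈ Y, g y ∈ Y) (j : ℕ) :
    g ((∏ y ∈ Y, (X - C y)).coeff j) = (∏ y ∈ Y, (X - C y)).coeff j := by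
  conv_rhs => rw [← prod_stab g.injective h fun y => X - C y]
  have := coeff_map (p := ∏ y ∈ Y, (X - C y)) (g : L →+* L) j
  rw [Polynomial.map_prod] at this
  simpa using this.symm

/-- the number of fixed points on a finite set -/
noncomputable def fx (ψ : RingAut L) (Y : Finset L) : ℕ := (Y.filter fun y => ψ y = y).card

variable [Fact p.Prime] [IsAlgClosed K] [CharP K p]

theorem exists_curve (hP : PlaceStmt) (hx : Cov p K x) (hY : ∀ y ∈ Y, Wt K w x y)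
    (hG : ∀ g ∈ Gx K x, ∀ y ∈ Y, g y ∈ Y) : ∃ B : K[X][X], B.Monic ∧ B.natDegree = Y.card ∧
      B ∈ Fil K (Y.card * w + Y.card) ∧
      B.map (aeval x : K[X] →ₐ[K] L).toRingHom = ∏ y ∈ Y, (X - C y) := by
  have h1 := fun j => Wt.exists_poly hP hx (wt_coeff hY j) fun g hg => aut_coeff (hG g hg) j
  obtain ⟨B, h2, h3, h4⟩ := lifts_and_natDegree_eq_and_monic
    (f := (aeval x : K[X] →ₐ[K] L).toRingHom) (p := ∏ y ∈ Y, (X - C y))
    ((lifts_iff_coeff_lifts _).2 fun j => let ⟨f, _, e⟩ := h1 j; ⟨f, e⟩) (monic_prod_X_sub_C _ _)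
  rw [natDegree_finsetProd_X_sub_C_eq_card] at h3
  refine ⟨B, h4, h3, fun a b hab => ?_, h2⟩
  rcases lt_or_ge Y.card b with h | h
  · rw [coeff_eq_zero_of_natDegree_lt (h3.trans_lt h), coeff_zero]
  obtain ⟨f, h5, e⟩ := h1 b
  rw [← h2, coeff_map] at e
  obtain rfl : f = B.coeff b := sub_eq_zero.1 (hx.tr _ (by rw [map_sub, e]; exact sub_self _))
  exact coeff_eq_zero_of_natDegree_lt (by omega)

theorem exists_disc (hP : PlaceStmt) (hx : Cov p K x) (hY : ∀ y ∈ Y, Wt K w x y)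
    (hG : ∀ g ∈ Gx K x, ∀ y ∈ Y, g y ∈ Y) : ∃ Δ : K[X], Δ ≠ 0 ∧ Δ.natDegree ≤ Y.card ^ 2 * w ∧
      aeval x Δ = ∏ q ∈ Y.offDiag, (q.1 - q.2) := by
  obtain ⟨Δ, h1, h2⟩ := Wt.exists_poly hP hx (Wt.prod Y.offDiag (f := fun q => q.1 - q.2)
    fun q hq => (hY _ (Finset.mem_offDiag.1 hq).1).sub (hY _ (Finset.mem_offDiag.1 hq).2.1))
    fun g hg => by
      rw [map_prod, ← prod_stab (e := Prod.map g g) (g.injective.prodMap g.injective)
        (fun q hq => ?_) fun q => q.1 - q.2]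
      · simp
      · obtain ⟨a, b, c⟩ := Finset.mem_offDiag.1 hq
        exact Finset.mem_offDiag.2 ⟨hG g hg _ a, hG g hg _ b, g.injective.ne c⟩
  refine ⟨Δ, fun e => ?_, h1.trans (Nat.mul_le_mul_right _ ?_), h2⟩
  · rw [e, map_zero, eq_comm, Finset.prod_eq_zero_iff] at h2
    obtain ⟨q, hq, e⟩ := h2
    exact (Finset.mem_offDiag.1 hq).2.2 (sub_eq_zero.1 e)
  · rw [Finset.offDiag_card, sq]; omega

omit [IsAlgClosed K] in
theorem fx_eq {B : K[X][X]} {Δ : K[X]} (hY : ∀ y ∈ Y, Wt K w x y)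
    (hB : B.map (aeval x : K[X] →ₐ[K] L).toRingHom = ∏ y ∈ Y, (X - C y))
    (hΔ : aeval x Δ = ∏ q ∈ Y.offDiag, (q.1 - q.2)) {P : Pl K L} {a : K} (ha : P.Ap x 0 a)
    (h0 : Δ.eval a ≠ 0) {ψ : RingAut L} (hψ : P.Frb p ψ) (hS : ∀ y ∈ Y, ψ y ∈ Y) :
    fx ψ Y = ((FP p K).filter fun b => B.evalEval a b = 0).card := by
  choose! r hr using fun y hy => (hY y hy P).1 ⟨a, ha⟩
  have h1 : ∀ b, B.evalEval a b = ∏ y ∈ Y, (b - r y) := fun b => by
    refine P.uniq (ap_aeval ha (B.eval (C b))) ?_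
    have e := congrArg (eval (algebraMap K L b)) hB
    rw [eval_map, eval_prod, ← aeval_C x b] at e
    erw [eval₂_at_apply] at e
    erw [e]
    exact ap_prod _ fun y hy => by simpa using ap_sub (P.const b) (hr y hy)
  have h2 : Set.InjOn r Y := fun y hy z hz e => by
    by_contra hne
    have := ap_aeval ha Δ
    rw [hΔ] at this
    refine h0 ((P.uniq this (ap_prod _ (c := fun q : L × L => r q.1 - r q.2) fun q hq =>
      ap_sub (hr _ (Finset.mem_offDiag.1 hq).1) (hr _ (Finset.mem_offDiag.1 hq).2.1))).trans ?_)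
    exact Finset.prod_eq_zero (i := (y, z)) (Finset.mem_offDiag.2 ⟨hy, hz, hne⟩) (sub_eq_zero.2 e)
  have h3 : ∀ y ∈ Y, r (ψ y) = r y ^ p := fun y hy => P.uniq (hr _ (hS y hy)) (hψ _ _ _ (hr y hy))
  refine Finset.card_bij (fun y _ => r y) (fun y hy => ?_) (fun y hy z hz e => h2
    (Finset.mem_filter.1 hy).1 (Finset.mem_filter.1 hz).1 e) fun b hb => ?_
  · obtain ⟨a1, a2⟩ := Finset.mem_filter.1 hy
    exact Finset.mem_filter.2 ⟨mem_FP.2 (by rw [← h3 y a1, a2]),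
      (h1 _).trans (Finset.prod_eq_zero a1 (sub_self _))⟩
  · obtain ⟨a1, a2⟩ := Finset.mem_filter.1 hb
    obtain ⟨y, hy, e⟩ := Finset.prod_eq_zero_iff.1 ((h1 b).symm.trans a2)
    obtain rfl := sub_eq_zero.1 e
    exact ⟨y, Finset.mem_filter.2 ⟨hy, h2 (hS y hy) hy ((h3 y hy).trans (mem_FP.1 a1))⟩, rfl⟩

omit [Fact p.Prime] [IsAlgClosed K] [CharP K p] in
theorem curve_irr {B : K[X][X]} (hm : B.Monic) (hd : B.natDegree = Y.card)
    (hB : B.map (aeval x : K[X] →ₐ[K] L).toRingHom = ∏ y ∈ Y, (X - C y)) (hn : Y.Nonempty)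
    (hT : ∀ y ∈ Y, ∀ z ∈ Y, ∃ g ∈ Gx K x, g y = z) : Irreducible B := by
  have key : ∀ f : K[X][X], f.Monic → ∀ y ∈ Y,
      (f.map (aeval x : K[X] →ₐ[K] L).toRingHom).eval y = 0 → Y.card ≤ f.natDegree := by
    intro f hf y hy e
    refine (card_le_degree_of_subset_roots fun z hz => (mem_roots (hf.map _).ne_zero).2 ?_).trans
      (hf.natDegree_map (aeval x : K[X] →ₐ[K] L).toRingHom).le
    obtain ⟨g, hg, rfl⟩ := hT y hy z hz
    have := congrArg (g : L →+* L) e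
    rw [eval_map, hom_eval₂, map_zero] at this
    rw [IsRoot, eval_map, ← this]
    exact congrArg (eval₂ · _ f) (RingHom.ext fun h => (Gx_aeval hg h).symm)
  obtain ⟨y, hy⟩ := hn
  refine hm.irreducible_iff_natDegree.2 ⟨fun e => ?_, fun f g hf hg e => ?_⟩
  · rw [e, natDegree_one, eq_comm, Finset.card_eq_zero] at hd
    simp [hd] at hy
  · have h1 := congrArg (eval y) hB
    rw [eval_prod, Finset.prod_eq_zero hy (by simp), ← e, Polynomial.map_mul, eval_mul] at h1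
    rw [← e, hf.natDegree_mul hg] at hd
    rcases mul_eq_zero.1 h1 with h | h
    · have := key f hf y hy h; omega
    · have := key g hg y hy h; omega

omit [IsAlgClosed K] in
theorem curve_frob (hx : Cov p K x) {B : K[X][X]}
    (hB : B.map (aeval x : K[X] →ₐ[K] L).toRingHom = ∏ y ∈ Y, (X - C y)) {ψ : RingAut L}
    (hψ : ψ ∈ Fr p K x) (hS : ∀ y ∈ Y, ψ y ∈ Y) (a b : K) (h : B.evalEval a b = 0) :
    B.evalEval (a ^ p) (b ^ p) = 0 := by
  have h1 : B.map (mapRingHom (frobenius K p)) = B := by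
    ext1 j
    have := aut_coeff hS j
    rw [← hB, coeff_map] at this
    refine sub_eq_zero.1 (hx.tr _ ?_)
    rw [map_sub, coeff_map, coe_mapRingHom, sub_eq_zero]
    exact ((aut_aeval (frobenius K p) hψ.1 x _).trans (by rw [hψ.2])).symm.trans this
  have := map_mapRingHom_evalEval (frobenius K p) B a b
  rwa [h1, h, map_zero] at this

theorem orbit_count (hP : PlaceStmt) (hx : Cov p K x) (hY : ∀ y ∈ Y, Wt K w x y)
    (hG : ∀ g ∈ Gx K x, ∀ y ∈ Y, g y ∈ Y) (hn : Y.Nonempty)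
    (hT : ∀ y ∈ Y, ∀ z ∈ Y, ∃ g ∈ Gx K x, g y = z) (hS : ∀ ψ ∈ Fr p K x, ∀ y ∈ Y, ψ y ∈ Y)
    (hF : (Fr p K x).Nonempty) {R Z : ℕ} (hR : 0 < R) (hp : 8 * R ^ 2 * Z ^ 5 < p)
    (hZ : Y.card * w + Y.card ≤ Z) {A : Finset K} (hA : A ⊆ FP p K) (hc : p ≤ A.card + Z)
    {Ψ : K → RingAut L} (hΨ : ∀ a ∈ A, Ψ a ∈ Fr p K x ∧ ∃ P : Pl K L, P.Ap x 0 a ∧ P.Frb p (Ψ a)) :
    R * ∑ a ∈ A, fx (Ψ a) Y ≤ (R + 3) * p ∧ R * p ≤ R * ∑ a ∈ A, fx (Ψ a) Y + 3 * p := by
  obtain ⟨B, hm, hd, hf, hB⟩ := exists_curve hP hx hY hG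
  obtain ⟨Δ, h0, h1, hΔ⟩ := exists_disc hP hx hY hG
  obtain ⟨ψ, hψ⟩ := hF
  have hi := curve_irr hm hd hB hn hT
  let N := (FP p K ×ˢ FP p K).filter fun q => B.evalEval q.1 q.2 = 0
  have u1 := upperL p R hi (Fil_mono hf hZ) hR hp N fun q hq => by
    obtain ⟨a1, a2⟩ := Finset.mem_filter.1 hq
    exact ⟨a2, mem_FP.1 (Finset.mem_product.1 a1).1, mem_FP.1 (Finset.mem_product.1 a1).2⟩
  have u2 := lowerL p R hi (Fil_mono hf hZ) hR hp (curve_frob hx hB hψ (hS ψ hψ)) N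
    fun a b e h1 h2 => Finset.mem_filter.2 ⟨Finset.mem_product.2 ⟨mem_FP.2 h1, mem_FP.2 h2⟩, e⟩
  let n : K → ℕ := fun a => ((FP p K).filter fun b => B.evalEval a b = 0).card
  have h2 : N.card = ∑ a ∈ FP p K, n a := by
    simp only [N, n, Finset.card_filter, Finset.sum_product]
  have h3 : ∀ a, n a ≤ Y.card := fun a =>
    (card_le_degree_of_subset_roots fun b hb => (mem_roots (hm.map (evalRingHom a)).ne_zero).2 (by
      rw [IsRoot, map_evalRingHom_eval]; exact (Finset.mem_filter.1 hb).2)).trans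
      ((hm.natDegree_map _).trans hd).le
  let A' := A.filter fun a => Δ.eval a ≠ 0
  have h4 : A' ⊆ A := Finset.filter_subset _ _
  have h5 : ∑ a ∈ A', fx (Ψ a) Y = ∑ a ∈ A', n a := Finset.sum_congr rfl fun a ha => by
    obtain ⟨a1, a2⟩ := Finset.mem_filter.1 ha
    obtain ⟨a3, P, a4, a5⟩ := hΨ a a1
    exact fx_eq hY hB hΔ a4 a2 a5 (hS _ a3)
  have h6 : (A \ A').card ≤ Y.card ^ 2 * w :=
    (card_le_degree_of_subset_roots fun a ha => (mem_roots h0).2 (by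
      obtain ⟨a1, a2⟩ := Finset.mem_sdiff.1 ha
      exact not_not.1 fun e => a2 (Finset.mem_filter.2 ⟨a1, e⟩))).trans h1
  have h7 := Finset.sum_sdiff (f := fun a => fx (Ψ a) Y) h4
  have h8 := Finset.sum_sdiff (f := fun a => n a) (h4.trans hA)
  have h9 := Finset.sum_le_card_nsmul (A \ A') (fun a => fx (Ψ a) Y) Y.card
    fun _ _ => Finset.card_filter_le _ _
  have h10 := Finset.sum_le_card_nsmul (FP p K \ A') (fun a => n a) Y.card fun a _ => h3 a
  have h11 := Finset.card_sdiff_add_card_eq_card h4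
  have h12 := Finset.card_sdiff_add_card_eq_card (h4.trans hA)
  rw [card_FP] at h12
  rw [smul_eq_mul] at h9 h10
  have hk : 0 < Y.card := hn.card_pos
  have z0 : 0 < Z := by omega
  have z1 : Y.card ^ 2 * w * Y.card ≤ Z ^ 3 := by
    calc _ = Y.card * w * Y.card * Y.card := by ring
      _ ≤ Z * Z * Z := by gcongr <;> omega
      _ = _ := by ring
  have z2 : Z ^ 2 ≤ Z ^ 3 := Nat.pow_le_pow_right z0 (by norm_num)
  have z3 : Z * Y.card ≤ Z ^ 2 := by rw [sq]; gcongr; omega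
  have z4 : R * Z ^ 3 ≤ R ^ 2 * Z ^ 5 :=
    Nat.mul_le_mul (Nat.le_self_pow (by norm_num) _) (Nat.pow_le_pow_right z0 (by norm_num))
  have v1 : ∑ a ∈ A, fx (Ψ a) Y ≤ N.card + Z ^ 3 := by
    have := Nat.mul_le_mul_right Y.card h6
    omega
  have v2 : N.card ≤ ∑ a ∈ A, fx (Ψ a) Y + 2 * Z ^ 3 := by
    have := Nat.mul_le_mul_right Y.card (show (FP p K \ A').card ≤ Y.card ^ 2 * w + Z by omega)
    rw [add_mul] at this
    omega
  have w1 := Nat.mul_le_mul_left R v1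
  have w2 := Nat.mul_le_mul_left R v2
  have w3 := Nat.mul_le_mul_left R z2
  constructor <;> linarith

end Pool.Agent.NW.Ch
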