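import Pool.Agent.Lib.MP_d40963_nt.W.Cov
import Pool.Agent.Lib.MP_d40963_nt.W.CLin

/-! Functions with poles only at infinity, of bounded order; the plane curve of a finite set. -/

namespace Pool.Agent.NW.Ch

open Polynomial Pool.Agent.Lib.Common.Stepanov

variable {p : ℕ} {K L : Type} [Field K] [Field L] [Algebra K L] {P : Pl K L} {x y z : L}

theorem ap_lt {n m : ℤ} {c : K} (h : P.Ap y n c) (hm : m < n) : P.Ap y m 0 := by
  obtain ⟨k, rfl⟩ : ∃ k : ℕ, n = m + k + 1 := ⟨(n - m - 1).toNat, by omega⟩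
  clear hm
  induction k generalizing c with
  | zero => exact P.down (by simpa using h)
  | succ k ih => exact ih (c := 0) (by simpa [add_assoc] using P.down h)

theorem ap_mul {a b : K} (h : P.Ap y 0 a) (h' : P.Ap z 0 b) : P.Ap (y * z) 0 (a * b) := by
  simpa using P.mul h h'

theorem ap_one : P.Ap 1 0 1 := by simpa using P.const 1

theorem ap_sub {a b : K} (h : P.Ap y 0 a) (h' : P.Ap z 0 b) : P.Ap (y - z) 0 (a - b) := by
  simpa [sub_eq_add_neg] using P.add h (ap_mul (P.const (-1)) h')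

theorem ap_pow {a : K} (h : P.Ap y 0 a) (n : ℕ) : P.Ap (y ^ n) 0 (a ^ n) := by
  induction n with
  | zero => simpa using ap_one
  | succ n ih => rw [pow_succ, pow_succ]; exact ap_mul ih h

theorem ap_prod {ι : Type} (s : Finset ι) {f : ι → L} {c : ι → K}
    (h : ∀ i ∈ s, P.Ap (f i) 0 (c i)) : P.Ap (∏ i ∈ s, f i) 0 (∏ i ∈ s, c i) := by
  induction s using Finset.cons_induction with
  | empty => simpa using ap_one
  | cons i s hi ih =>
    rw [Finset.prod_cons, Finset.prod_cons]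
    exact ap_mul (h i (Finset.mem_cons_self _ _)) (ih fun j hj => h j (Finset.mem_cons_of_mem hj))

theorem ap_aeval {a : K} (h : P.Ap x 0 a) (f : K[X]) : P.Ap (aeval x f) 0 (f.eval a) := by
  induction f using Polynomial.induction_on' with
  | add f g h1 h2 => rw [map_add, eval_add]; exact P.add h1 h2
  | monomial n c => rw [aeval_monomial, eval_monomial]; exact ap_mul (P.const c) (ap_pow h n)

/-- the local ring of a place -/
def reg (P : Pl K L) : Subalgebra K L where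
  carrier := {y | ∃ c, P.Ap y 0 c}
  mul_mem' := fun ⟨_, h⟩ ⟨_, h'⟩ => ⟨_, ap_mul h h'⟩
  add_mem' := fun ⟨_, h⟩ ⟨_, h'⟩ => ⟨_, P.add h h'⟩
  algebraMap_mem' := fun c => ⟨c, P.const c⟩

theorem reg_of {n : ℤ} {c : K} (h : P.Ap y n c) (hn : 0 ≤ n) : y ∈ reg P := by
  rcases hn.eq_or_lt with rfl | hn
  · exact ⟨c, h⟩
  · exact ⟨0, ap_lt h hn⟩

theorem reg_total (P : Pl K L) (y : L) : y ∈ reg P ∨ y⁻¹ ∈ reg P := by
  rcases eq_or_ne y 0 with rfl | h0
  · exact Or.inl (zero_mem _)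
  obtain ⟨n, c, hc, h⟩ := P.ex h0
  obtain ⟨m, d, hd, h'⟩ := P.ex (inv_ne_zero h0)
  by_contra hn
  push Not at hn
  have h1 : n < 0 := not_le.1 fun e => hn.1 (reg_of h e)
  have h2 : m < 0 := not_le.1 fun e => hn.2 (reg_of h' e)
  have h3 := P.mul h h'
  rw [mul_inv_cancel₀ h0] at h3
  exact mul_ne_zero hc hd (P.uniq h3 (ap_lt ap_one (by omega)))

theorem lead_reg {n : ℕ} {b : ℕ → L} (hb : ∀ j, b j ∈ reg P)
    (h : ∑ j ∈ Finset.range (n + 1), b j * y ^ j = 0) : b n * y ∈ reg P := by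
  rcases eq_or_ne y 0 with rfl | h0
  · simp
  rcases reg_total P y with hy | hy
  · exact mul_mem (hb n) hy
  rw [Finset.sum_range_succ] at h
  have : b n * y = -∑ j ∈ Finset.range n, b j * y⁻¹ ^ (n - 1 - j) := by
    refine mul_right_cancel₀ (pow_ne_zero n h0) ?_
    rw [mul_assoc, ← pow_succ', pow_succ, ← mul_assoc, ← neg_eq_of_add_eq_zero_right h, neg_mul,
      neg_mul, Finset.sum_mul, Finset.sum_mul]
    refine congrArg _ (Finset.sum_congr rfl fun j hj => ?_)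
    obtain ⟨k, rfl⟩ := Nat.exists_eq_add_of_lt (Finset.mem_range.1 hj)
    rw [show j + k + 1 - 1 - j = k by omega, inv_pow]
    field_simp
    ring
  rw [this]
  exact neg_mem (sum_mem fun j _ => mul_mem (hb j) (pow_mem hy _))

variable (K) in
/-- `y` has poles only where `x` has, of order at most `a` times that of `x` -/
def Wt (a : ℕ) (x y : L) : Prop :=
  ∀ P : Pl K L, (x ∈ reg P → y ∈ reg P) ∧ (x⁻¹ ∈ reg P → y * x⁻¹ ^ a ∈ reg P)

variable {a b : ℕ}

theorem Wt.add (h : Wt K a x y) (h' : Wt K a x z) : Wt K a x (y + z) := fun P =>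
  ⟨fun e => add_mem ((h P).1 e) ((h' P).1 e),
    fun e => add_mul y z _ ▸ add_mem ((h P).2 e) ((h' P).2 e)⟩

theorem Wt.sub (h : Wt K a x y) (h' : Wt K a x z) : Wt K a x (y - z) := fun P =>
  ⟨fun e => sub_mem ((h P).1 e) ((h' P).1 e),
    fun e => sub_mul y z _ ▸ sub_mem ((h P).2 e) ((h' P).2 e)⟩

theorem Wt.mul (h : Wt K a x y) (h' : Wt K b x z) : Wt K (a + b) x (y * z) := fun P =>
  ⟨fun e => mul_mem ((h P).1 e) ((h' P).1 e),
    fun e => by rw [pow_add, mul_mul_mul_comm]; exact mul_mem ((h P).2 e) ((h' P).2 e)⟩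

theorem Wt.const (c : K) : Wt K a x (algebraMap K L c) := fun _ =>
  ⟨fun _ => algebraMap_mem _ c, fun e => mul_mem (algebraMap_mem _ c) (pow_mem e _)⟩

theorem Wt.mono (h : Wt K a x y) (hab : a ≤ b) : Wt K b x y := by
  simpa [hab] using h.mul (Wt.const (a := b - a) 1)

theorem Wt.sum {ι : Type} (s : Finset ι) {f : ι → L} (h : ∀ i ∈ s, Wt K a x (f i)) :
    Wt K a x (∑ i ∈ s, f i) :=
  Finset.sum_induction f _ (fun _ _ => Wt.add) (by simpa using Wt.const (a := a) (x := x) (0 : K)) h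

theorem Wt.prod {ι : Type} (s : Finset ι) {f : ι → L} (h : ∀ i ∈ s, Wt K a x (f i)) :
    Wt K (s.card * a) x (∏ i ∈ s, f i) := by
  induction s using Finset.cons_induction with
  | empty => simpa using Wt.const (a := 0) (x := x) (1 : K)
  | cons i s hi ih =>
    rw [Finset.prod_cons, Finset.card_cons, add_mul, one_mul, add_comm]
    exact (h i (Finset.mem_cons_self _ _)).mul (ih fun j hj => h j (Finset.mem_cons_of_mem hj))

theorem aeval_refl (hx : x ≠ 0) {f : K[X]} (hf : f.natDegree ≤ a) :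
    aeval x f * x⁻¹ ^ a = aeval x⁻¹ (reflect a f) := by
  let _ := invertibleOfNonzero hx
  rw [aeval_def, ← eval₂_reflect_mul_pow _ x a f hf, invOf_eq_inv, mul_assoc, ← mul_pow,
    mul_inv_cancel₀ hx, one_pow, mul_one, aeval_def]

theorem Wt.poly (hx : x ≠ 0) {f : K[X]} (hf : f.natDegree ≤ a) : Wt K a x (aeval x f) := fun _ =>
  ⟨fun ⟨_, e⟩ => ⟨_, ap_aeval e f⟩, fun ⟨_, e⟩ => aeval_refl hx hf ▸ ⟨_, ap_aeval e _⟩⟩

theorem Wt.lead (hx : x ≠ 0) {B : K[X][X]} (hB : B ∈ Fil K a)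
    (h : B.eval₂ (aeval x : K[X] →ₐ[K] L).toRingHom y = 0) :
    Wt K a x (aeval x B.leadingCoeff * y) := by
  have h1 : ∀ j, Wt K a x (aeval x (B.coeff j)) := fun j =>
    Wt.poly hx ((Fil_coeff hB j).trans (Nat.sub_le _ _))
  rw [eval₂_eq_sum_range] at h
  refine fun P => ⟨fun e => lead_reg (fun j => (h1 j P).1 e) h, fun e => ?_⟩
  rw [mul_right_comm]
  refine lead_reg (fun j => (h1 j P).2 e) ?_
  simp only [mul_right_comm _ (x⁻¹ ^ a)]
  rw [← Finset.sum_mul]
  exact mul_eq_zero_of_left h _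

theorem loc_ap {T : L} (l : Loc K T) : l.P.Ap T 0 0 := ap_lt l.ap (by exact_mod_cast l.pos)

theorem loc_sub {c : K} (l : Loc K (x - algebraMap K L c)) : l.P.Ap x 0 c := by
  simpa using l.P.add (loc_ap l) (l.P.const c)

variable [Fact p.Prime] [IsAlgClosed K] [CharP K p]

theorem Wt.exists_poly (hP : PlaceStmt) (hx : Cov p K x) (h : Wt K a x y)
    (hy : ∀ g ∈ Gx K x, g y = y) : ∃ f : K[X], f.natDegree ≤ a ∧ aeval x f = y := by
  obtain ⟨f, Q, hQ, e⟩ := hx.fix y hy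
  have h1 : ∃ f : K[X], aeval x f = y := by
    induction hd : Q.natDegree using Nat.strong_induction_on generalizing f Q with
    | _ d ih =>
      by_cases h0 : Q.degree = 0
      · rw [eq_C_of_degree_eq_zero h0] at e hQ
        refine ⟨f * C (Q.coeff 0)⁻¹, ?_⟩
        rw [map_mul, ← e, mul_assoc, ← map_mul, ← C_mul, mul_inv_cancel₀ (C_ne_zero.1 hQ)]
        simp
      obtain ⟨c, hc⟩ := IsAlgClosed.exists_root Q h0
      obtain ⟨l, -⟩ := hP p K L _ (cov_sub hx c)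
      obtain ⟨r, hr⟩ := (h l.P).1 ⟨_, loc_sub l⟩
      have h2 := ap_mul hr (ap_aeval (loc_sub l) Q)
      rw [e, hc.eq_zero, mul_zero] at h2
      obtain ⟨f, rfl⟩ := dvd_iff_isRoot.2 (l.P.uniq (ap_aeval (loc_sub l) f) h2)
      obtain ⟨Q, rfl⟩ := dvd_iff_isRoot.2 hc
      rw [map_mul, map_mul, mul_left_comm] at e
      refine ih _ ?_ f Q (right_ne_zero_of_mul hQ)
        (mul_left_cancel₀ (hx.ne (X_sub_C_ne_zero c)) e) rfl
      rw [← hd, natDegree_mul (X_sub_C_ne_zero c) (right_ne_zero_of_mul hQ), natDegree_X_sub_C]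
      omega
  obtain ⟨f, rfl⟩ := h1
  refine ⟨f, not_lt.1 fun hlt => ?_, rfl⟩
  obtain ⟨l, -⟩ := hP p K L _ (cov_inv hx)
  obtain ⟨r, hr⟩ := (h l.P).2 ⟨_, loc_ap l⟩
  have h2 := ap_mul hr (ap_pow (loc_ap l) (f.natDegree - a))
  rw [mul_assoc, ← pow_add, Nat.add_sub_cancel' hlt.le, aeval_refl hx.ne_zero le_rfl,
    zero_pow (by omega), mul_zero] at h2
  have h3 := l.P.uniq (ap_aeval (loc_ap l) _) h2
  rw [← coeff_zero_eq_eval_zero, coeff_reflect, revAt_zero, coeff_natDegree,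
    leadingCoeff_eq_zero] at h3
  simp [h3] at hlt

end Pool.Agent.NW.Ch
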