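import Pool.Agent.Lib.Common.Stepanov.Weil

/-! The Stepanov-Schmidt bound with an error term `2 p / R`. -/

namespace Pool.Agent.NW.Ch

open Polynomial Pool.Agent.Lib.Common.Stepanov

variable {K : Type*} [Field K]

theorem lt_of_step {R β p : ℕ} (hR : 0 < R) (hp : 8 * R ^ 2 * β ^ 5 < p) : β < p := by
  have e1 : β ≤ β ^ 5 := Nat.le_self_pow (by norm_num) _
  have e2 : β ^ 5 ≤ 8 * R ^ 2 * β ^ 5 := Nat.le_mul_of_pos_left _ (by positivity)
  omega

theorem stepR [IsAlgClosed K] (p R : ℕ) [Fact p.Prime] [CharP K p] {B : K[X][X]}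
    (hB : IsCurve B) (hR : 0 < R) (hp : 8 * R ^ 2 * B.natDegree ^ 5 < p) (lam : ℕ) (hl : lam ≤ B.natDegree)
    (b : Fin B.natDegree → Fin lam → AdjoinRoot B) (hb : ∀ l l', b l l' ∈ W B B.natDegree)
    (S : Finset (Pts B)) (hS1 : ∀ q ∈ S, q.1.1 ^ p = q.1.1)
    (hS2 : ∀ q ∈ S, pt q (mkK B (derivative B)) ≠ 0)
    (hS3 : ∀ q ∈ S, ∃ ω : Fin lam → K, ∀ l : Fin B.natDegree,
      (q.1.2 ^ p) ^ (l : ℕ) = ∑ l', pt q (b l l') * ω l') :
    R * S.card ≤ (R * lam + 2) * p := by
  classical
  have := hB.isDomain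
  let β := B.natDegree
  have hβdef : β = B.natDegree := rfl
  have hβ : 0 < β := hB.pos
  replace hp : 8 * R ^ 2 * β ^ 5 < p := hp
  replace hl : lam ≤ β := hl
  obtain ⟨M, hM⟩ : ∃ M, M = R * β ^ 2 := ⟨_, rfl⟩
  obtain ⟨L, hL⟩ : ∃ L, L = β * (R * lam + 1) := ⟨_, rfl⟩
  obtain ⟨D, hD⟩ : ∃ D, D = 7 * (R ^ 2 * β ^ 4) := ⟨_, rfl⟩
  obtain ⟨T, hT⟩ : ∃ T, T = D + β + M * β + L + β := ⟨_, rfl⟩
  have mono : ∀ {i j k l : ℕ}, i ≤ k → j ≤ l → R ^ i * β ^ j ≤ R ^ k * β ^ l := fun h1 h2 =>
    Nat.mul_le_mul (Nat.pow_le_pow_right hR h1) (Nat.pow_le_pow_right hβ h2)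
  have e0 : 0 < R ^ 2 * β ^ 4 := by positivity
  have e1 := mono (i := 1) (j := 1) (k := 2) (l := 4) (by norm_num) (by norm_num)
  have e2 := mono (i := 1) (j := 2) (k := 2) (l := 4) (by norm_num) (by norm_num)
  have e3 := mono (i := 2) (j := 3) (k := 2) (l := 4) (by norm_num) (by norm_num)
  have e4 := mono (i := 0) (j := 2) (k := 2) (l := 5) (by norm_num) (by norm_num)
  have e5 := mono (i := 1) (j := 2) (k := 2) (l := 5) (by norm_num) (by norm_num)
  have e6 := mono (i := 0) (j := 1) (k := 2) (l := 5) (by norm_num) (by norm_num)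
  have hDp : β * (D + β) < p := by rw [hD]; linarith
  let t : Fin M → Fin lam → (Fin L × Fin β) × (Fin D × Fin β) → AdjoinRoot B := fun i l' z =>
    it (th B) i (mon B z.2.1 z.2.2) * (mkK B (C X) ^ (z.1.1 : ℕ) * b z.1.2 l')
  let v : (Fin L × Fin β) × (Fin D × Fin β) → (Fin M × Fin lam × Fin β × Fin (T + 1) → K) :=
    fun z w => ((AdjoinRoot.modByMonicHom hB.monic (t w.1 w.2.1 z)).coeff w.2.2.1).coeff w.2.2.2
  have hdep : ¬ LinearIndependent K v := fun h => by
    have h1 := h.fintype_card_le_finrank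
    simp only [Fintype.card_prod, Fintype.card_fin, Module.finrank_fintype_fun_eq_card] at h1
    have h2 : R * lam * (T + 1) < (R * lam + 1) * D := by
      have : R * lam * (2 * β + M * β + L + 1) < D := by
        calc R * lam * (2 * β + M * β + L + 1) ≤ R * β * (2 * β + M * β + β * (R * β + 1) + 1) := by
              rw [hL]; gcongr
          _ < D := by rw [hM, hD]; linarith
      rw [hT]; linarith
    have h3 := Nat.mul_lt_mul_of_pos_left h2 (pow_pos hβ 3)
    rw [hL, hM] at h1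
    linarith
  obtain ⟨c, hc, z0, hz0⟩ := Fintype.not_linearIndependent_iff.1 hdep
  have hmon : ∀ z : Fin D × Fin β, mon B z.1 z.2 ∈ W B (D + β) := fun z =>
    W_mono (mon_mem B _ _) (by have := z.1.2; have := z.2.2; omega)
  have hcond : ∀ i l', ∑ z, c z • t i l' z = 0 := by
    intro i l'
    refine eq_zero_of_coord hB (n := T) (Submodule.sum_mem _ fun z _ => Submodule.smul_mem _ _
      (W_mono (W_mul (W_it hB (hmon z.2) i) (W_mul (W_pow (mem_W Fil_CX) z.1.1) (hb z.1.2 l')))
        ?_)) fun j a => ?_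
    · have h1 := Nat.mul_le_mul_right β i.2.le
      have := z.1.1.2
      rw [← hβdef]
      omega
    · have := congrFun hc (i, l', j, a)
      simpa only [map_sum, LinearMap.map_smul_of_tower, finsetSum_coeff, coeff_smul,
        Finset.sum_apply, Pi.smul_apply, Pi.zero_apply] using this
  set Ψ : AdjoinRoot B := ∑ z, c z • (mon B z.2.1 z.2.2 * mon B z.1.1 z.1.2 ^ p) with hΨ
  have hit : ∀ (q : Pts B) i, pt q (it (th B) i Ψ) = ∑ z, c z * (pt q (it (th B) i
      (mon B z.2.1 z.2.2)) * pt q (mon B z.1.1 z.1.2) ^ p) := by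
    intro q i
    simp only [hΨ, map_sum, map_smul, it_mul_const _ (th_pow_char p B _), map_mul, map_pow,
      smul_eq_mul]
  have hd := derivative_ne_zero p hB (by rw [← hβdef]; linarith)
  have hΨ0 : Ψ ≠ 0 := by
    intro h0
    have hp0 : 0 < p := (Fact.out : p.Prime).pos
    choose r hr using fun z => IsAlgClosed.exists_pow_nat_eq (c z) hp0
    let w : Fin D × Fin β → AdjoinRoot B := fun y => ∑ x, r (x, y) • mon B x.1 x.2
    have hw : w z0.2 ≠ 0 := fun h => hz0 (by
      rw [← hr, show r z0 = 0 from mon_indep hB _ h z0.1, zero_pow hp0.ne'])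
    obtain ⟨q, hq⟩ := exists_pt hB (mul_ne_zero hw hd)
    rw [map_mul] at hq
    have := eq_zero_of_van p hB hDp (u := ∑ y, pt q (w y) ^ p • mon B y.1 y.2)
      (Submodule.sum_mem _ fun y _ => Submodule.smul_mem _ _ (hmon y)) q
      (right_ne_zero_of_mul hq) fun i => by
        have := hit q i
        rw [h0, map_zero, map_zero, Fintype.sum_prod_type_right] at this
        rw [this]
        simp only [map_sum, map_smul, smul_eq_mul, w, sum_pow_char, mul_pow, hr, Finset.sum_mul]
        exact Finset.sum_congr rfl fun _ _ => Finset.sum_congr rfl fun _ _ => by ring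
    exact pow_ne_zero p (left_ne_zero_of_mul hq) (mon_indep hB _ this z0.2)
  have hcount := count hB S M (fun _ => hS2) (factorial_ne_zero_of_le p (by rw [hM]; linarith))
    hΨ0 fun q hq i hi => by
      obtain ⟨ω, hω⟩ := hS3 q hq
      have h1 : ∑ l', pt q (∑ z, c z • t ⟨i, hi⟩ l' z) * ω l' = 0 := by simp [hcond]
      rw [hit, ← h1]
      simp only [map_sum, map_smul, smul_eq_mul, t, map_mul, map_pow, Finset.sum_mul, pt_x]
      rw [Finset.sum_comm]
      refine Finset.sum_congr rfl fun z _ => ?_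
      have : pt q (mon B z.1.1 z.1.2) ^ p =
          q.1.1 ^ (z.1.1 : ℕ) * ∑ l', pt q (b z.1.2 l') * ω l' := by
        rw [← hω, mon, map_mul, map_pow, map_pow, pt_x, pt_y, mul_pow, pow_right_comm, hS1 q hq,
          pow_right_comm]
      rw [this, Finset.mul_sum, Finset.mul_sum, Finset.mul_sum]
      exact Finset.sum_congr rfl fun _ _ => by ring
  have hdeg : Ψ ∈ W B (p * (L + β)) := Submodule.sum_mem _ fun z _ => Submodule.smul_mem _ _
    (W_mono (W_mul (hmon z.2) (W_pow (mon_mem B z.1.1 z.1.2) p)) (by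
      have h1 := z.1.1.2
      have h2 := z.1.2.2
      have h3 : p * (z.1.1 + z.1.2 + 1) ≤ p * (L + β) := Nat.mul_le_mul_left _ (by omega)
      nlinarith))
  have h4 := hcount.trans (ell_le hB hdeg)
  rw [hM, hL, ← hβdef] at h4
  refine Nat.le_of_mul_le_mul_left (c := β ^ 2) ?_ (by positivity)
  linarith

theorem upperR [IsAlgClosed K] (p R : ℕ) [Fact p.Prime] [CharP K p] {B : K[X][X]}
    (hB : IsCurve B) (hR : 0 < R) (hp : 8 * R ^ 2 * B.natDegree ^ 5 < p) (N : Finset (Pts B))
    (hN : ∀ q ∈ N, q.1.1 ^ p = q.1.1 ∧ q.1.2 ^ p = q.1.2) :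
    R * N.card ≤ (R + 2) * p + R * B.natDegree ^ 2 := by
  classical
  have e1 := lt_of_step hR hp
  have h1 := card_sing p hB e1 (N.filter fun q => pt q (mkK B (derivative B)) = 0)
    fun q hq => (Finset.mem_filter.1 hq).2
  have h2 := stepR p R hB hR hp 1 hB.pos (fun l _ => mkK B X ^ (l : ℕ))
    (fun l _ => W_mono (W_pow (mem_W Fil_X) l) (by have := l.2; omega))
    (N.filter fun q => ¬ pt q (mkK B (derivative B)) = 0)
    (fun q hq => (hN q (Finset.mem_filter.1 hq).1).1) (fun q hq => (Finset.mem_filter.1 hq).2)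
    (fun q hq => ⟨fun _ => 1, fun l => by simp [pt_y, (hN q (Finset.mem_filter.1 hq).1).2]⟩)
  have := Finset.card_filter_add_card_filter_not (s := N)
    fun q => pt q (mkK B (derivative B)) = 0
  have h3 := Nat.mul_le_mul_left R h1
  rw [← this]
  linarith

theorem lowerR [IsAlgClosed K] (p R : ℕ) [Fact p.Prime] [CharP K p] {B : K[X][X]}
    (hB : IsCurve B) (hR : 0 < R) (hp : 8 * R ^ 2 * B.natDegree ^ 5 < p)
    (hFrob : ∀ x y : K, x ^ p = x → B.evalEval x y = 0 → B.evalEval x (y ^ p) = 0)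
    (N : Finset (Pts B)) (hN : ∀ q : Pts B, q.1.1 ^ p = q.1.1 → q.1.2 ^ p = q.1.2 → q ∈ N) :
    R * p ≤ R * N.card + 2 * p + R * B.natDegree ^ 3 := by
  classical
  have hβ := hB.pos
  have e1 := lt_of_step hR hp
  let F : Finset K := Finset.univ.map ⟨ZMod.castHom (dvd_refl p) K, RingHom.injective _⟩
  have hF : ∀ x ∈ F, x ^ p = x := by
    intro x hx
    obtain ⟨a, -, rfl⟩ := Finset.mem_map.1 hx
    simp only [Function.Embedding.coeFn_mk, ← map_pow, ZMod.pow_card]
  have hFc : F.card = p := by simp [F]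
  let Bx : K → K[X] := fun x => B.map (evalRingHom x)
  have hm : ∀ x, (Bx x).Monic := fun x => hB.monic.map _
  have hdg : ∀ x, (Bx x).natDegree = B.natDegree := fun x => hB.monic.natDegree_map _
  let A : Finset (Pts B) := (F.biUnion fun x => (Bx x).roots.toFinset.image fun y => (x, y)).subtype
    fun q => B.evalEval q.1 q.2 = 0
  have hA : ∀ q : Pts B, q ∈ A ↔ q.1.1 ∈ F := by
    rintro ⟨⟨x, y⟩, h⟩
    simp only [A, Finset.mem_subtype, Finset.mem_biUnion, Finset.mem_image, Multiset.mem_toFinset,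
      Prod.mk.injEq, mem_roots (hm _).ne_zero]
    constructor
    · rintro ⟨a, ha, b, -, rfl, -⟩; exact ha
    · exact fun hx => ⟨x, hx, y, by rwa [IsRoot, map_evalRingHom_eval], rfl, rfl⟩
  let S0 := A.filter fun q => pt q (mkK B (derivative B)) = 0
  let S := A.filter fun q => ¬ pt q (mkK B (derivative B)) = 0
  have h0 : S0.card ≤ B.natDegree ^ 2 :=
    card_sing p hB e1 _ fun q hq => (Finset.mem_filter.1 hq).2
  have hS : (F \ S0.image fun q => q.1.1).card * B.natDegree ≤ S.card := by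
    rw [Finset.card_eq_sum_card_fiberwise (f := fun q : Pts B => q.1.1) (s := S) (t := F)
      (fun q hq => (hA q).1 (Finset.mem_filter.1 hq).1), ← smul_eq_mul, ← Finset.sum_const]
    refine (Finset.sum_le_sum fun x hx => ?_).trans
      (Finset.sum_le_sum_of_subset Finset.sdiff_subset)
    obtain ⟨hx1, hx2⟩ := Finset.mem_sdiff.1 hx
    have hns : ∀ y (h : B.evalEval x y = 0), pt ⟨(x, y), h⟩ (mkK B (derivative B)) ≠ 0 :=
      fun y h h' => hx2 (Finset.mem_image.2 ⟨⟨(x, y), h⟩,
        Finset.mem_filter.2 ⟨(hA _).2 hx1, h'⟩, rfl⟩)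
    have hnd : (Bx x).roots.Nodup := Multiset.nodup_iff_count_le_one.2 fun y => by
      rw [count_roots]
      by_contra hc
      obtain ⟨r1, r2⟩ := (one_lt_rootMultiplicity_iff_isRoot (hm x).ne_zero).1 (not_le.1 hc)
      rw [IsRoot, map_evalRingHom_eval] at r1
      rw [IsRoot, derivative_map, map_evalRingHom_eval] at r2
      exact hns y r1 (by rwa [pt_mk])
    rw [← hdg x, (IsAlgClosed.splits (Bx x)).natDegree_eq_card_roots,
      ← Multiset.toFinset_card_of_nodup hnd]
    refine Finset.card_le_card_of_surjOn (fun q => q.1.2) fun y hy => ?_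
    have h : B.evalEval x y = 0 := by
      have := (mem_roots (hm x).ne_zero).1 (Multiset.mem_toFinset.1 hy)
      rwa [IsRoot, map_evalRingHom_eval] at this
    exact ⟨⟨(x, y), h⟩, Finset.mem_coe.2 (Finset.mem_filter.2
      ⟨Finset.mem_filter.2 ⟨(hA _).2 hx1, hns y h⟩, rfl⟩), rfl⟩
  have h1 : (S.filter fun q => q.1.2 ^ p = q.1.2).card ≤ N.card :=
    Finset.card_le_card fun q hq => hN q
      (hF _ ((hA q).1 (Finset.mem_filter.1 (Finset.mem_filter.1 hq).1).1))
      (Finset.mem_filter.1 hq).2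
  have h2 := stepR p R hB hR hp (B.natDegree - 1) (Nat.sub_le _ _)
    (fun l l' => if (l : ℕ) < B.natDegree - 1 then (if (l : ℕ) = l' then 1 else 0) else
      -mkK B (∑ i ∈ Finset.Icc ((l' : ℕ) + 1) B.natDegree, X ^ (i - (l' + 1)) * C (B.coeff i)))
    (fun l l' => by
      split_ifs
      · exact W_one _ _
      · exact zero_mem _
      · refine neg_mem (mem_W (Submodule.sum_mem _ fun i hi => ?_))
        have := Finset.mem_Icc.1 hi
        exact Fil_mono (Fil_mul (Fil_pow Fil_X _) (Fil_C (Fil_coeff hB.fil i))) (by omega))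
    (S.filter fun q => ¬ q.1.2 ^ p = q.1.2)
    (fun q hq => hF _ ((hA q).1 (Finset.mem_filter.1 (Finset.mem_filter.1 hq).1).1))
    (fun q hq => (Finset.mem_filter.1 (Finset.mem_filter.1 hq).1).2)
    (fun q hq => ⟨fun l' => (q.1.2 ^ p) ^ (l' : ℕ), fun l => by
      obtain ⟨hq1, hq2⟩ := Finset.mem_filter.1 hq
      split_ifs with hl
      · rw [Finset.sum_eq_single ⟨l, hl⟩]
        · simp
        · intro j _ hj
          rw [if_neg fun e => hj (Fin.ext e.symm)]; simp
        · simp
      · have hl' : (l : ℕ) = B.natDegree - 1 := by have := l.2; omega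
        have hr : (Bx q.1.1).IsRoot q.1.2 := by rw [IsRoot, map_evalRingHom_eval]; exact q.2
        have he := mul_divByMonic_eq_iff_isRoot.2 hr
        have hz : eval (q.1.2 ^ p) (Bx q.1.1 /ₘ (X - C q.1.2)) = 0 := by
          have := hFrob _ _ (hF _ ((hA q).1 (Finset.mem_filter.1 hq1).1)) q.2
          rw [← map_evalRingHom_eval] at this
          change eval _ (Bx q.1.1) = 0 at this
          rw [← he, eval_mul] at this
          exact (mul_eq_zero.1 this).resolve_left (by simpa [sub_eq_zero] using hq2)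
        rw [eval_eq_sum_range' (n := B.natDegree - 1 + 1) (by
          rw [natDegree_divByMonic _ (monic_X_sub_C _), hdg, natDegree_X_sub_C]; omega),
          Finset.sum_range_succ, ← Fin.sum_univ_eq_sum_range
            (fun i => (Bx q.1.1 /ₘ (X - C q.1.2)).coeff i * (q.1.2 ^ p) ^ i)] at hz
        simp only [coeff_divByMonic_X_sub_C, hdg, Nat.sub_add_cancel hβ, Finset.Icc_self,
          Finset.sum_singleton, Nat.sub_self, pow_zero, one_mul] at hz
        rw [← hdg q.1.1, (hm _).coeff_natDegree, one_mul, hdg] at hz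
        rw [hl', eq_neg_of_add_eq_zero_right hz, ← Finset.sum_neg_distrib]
        refine Finset.sum_congr rfl fun j _ => ?_
        rw [map_neg, pt_mk, evalEval_finsetSum, neg_mul]
        simp only [evalEval_mul, evalEval_pow, evalEval_X, evalEval_C, Bx, coeff_map,
          coe_evalRingHom]⟩)
  have h3 := Finset.card_filter_add_card_filter_not (s := S) fun q => q.1.2 ^ p = q.1.2
  have h4 := Finset.le_card_sdiff (S0.image fun q => q.1.1) F
  have h5 := Finset.card_image_le (s := S0) (f := fun q => q.1.1)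
  have h6 : p ≤ (F \ S0.image fun q => q.1.1).card + B.natDegree ^ 2 := by omega
  have h7 := Nat.mul_le_mul_right B.natDegree h6
  obtain ⟨γ, hγ⟩ : ∃ γ, B.natDegree = γ + 1 := ⟨_, (Nat.sub_add_cancel hβ).symm⟩
  rw [show B.natDegree - 1 = γ by omega] at h2
  rw [hγ] at h7 hS ⊢
  have h8 := Nat.mul_le_mul_left R (h7.trans (add_mul _ _ (γ + 1)).le)
  have h9 := Nat.mul_le_mul_left R hS
  have h10 := Nat.mul_le_mul_left R h1
  rw [← h3] at h9
  linarith

end Pool.Agent.NW.Ch
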