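import Pool.Agent.Lib.MP_d40963_nt.W.COrb

/-! A form of the Chebotarev density theorem for the number of fixed points. -/

namespace Pool.Agent.NW.Ch

open Polynomial Pool.Agent.Lib.Common.Stepanov
open scoped Classical

variable {p : ℕ} {K L : Type} [Field K] [Field L] [Algebra K L] {x : L} {w : ℕ} {Y : Finset L}

theorem fr_finite (hx : Cov p K x) : (Fr p K x).Finite := by
  rcases (Fr p K x).eq_empty_or_nonempty with h | ⟨ψ, hψ⟩
  · simp [h]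
  have := hx.fin
  exact (Set.finite_range fun g : Gx K x => ψ * g).subset fun φ h => ⟨⟨_, Fr_inv_mul hψ h⟩, by simp⟩

theorem burn {Φ : Finset (RingAut L)} (hΦ : ∀ ψ, ψ ∈ Φ ↔ ψ ∈ Fr p K x) (hn : Y.Nonempty)
    (hT : ∀ y ∈ Y, ∀ z ∈ Y, ∃ g ∈ Gx K x, g y = z) (hS : ∀ ψ ∈ Fr p K x, ∀ y ∈ Y, ψ y ∈ Y) :
    ∑ ψ ∈ Φ, fx ψ Y = Φ.card := by
  obtain ⟨z, hz⟩ := hn
  rw [Finset.card_eq_sum_card_fiberwise (f := fun ψ => ψ z) (t := Y)
    fun ψ h => hS ψ ((hΦ ψ).1 h) z hz]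
  simp only [fx, Finset.card_filter]
  rw [Finset.sum_comm]
  refine Finset.sum_congr rfl fun y hy => ?_
  obtain ⟨g, hg, rfl⟩ := hT z hz y hy
  exact Finset.sum_equiv (Equiv.mulRight g) (fun ψ => by
    rw [hΦ, hΦ]
    exact ⟨fun h => Fr_mul_Gx h hg, fun h => by simpa using Fr_mul_Gx h (inv_mem hg)⟩)
    fun ψ _ => rfl

variable [Fact p.Prime] [IsAlgClosed K] [CharP K p]

omit [CharP K p] in
theorem Fr_mul_inv {ψ φ : RingAut L} (hφ : φ ∈ Fr p K x) (hψ : ψ ∈ Fr p K x) :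
    φ * ψ⁻¹ ∈ Gx K x := by
  refine ⟨fun c => ?_, (congrArg φ (ψ.symm_apply_eq.2 hψ.2.symm)).trans hφ.2⟩
  obtain ⟨d, rfl⟩ := IsAlgClosed.exists_pow_nat_eq c (Fact.out : p.Prime).pos
  exact (congrArg φ (ψ.symm_apply_eq.2 (hψ.1 d).symm)).trans (hφ.1 d)

theorem set_count (hP : PlaceStmt) (hx : Cov p K x) {Φ : Finset (RingAut L)}
    (hΦ : ∀ ψ, ψ ∈ Φ ↔ ψ ∈ Fr p K x) {R Z : ℕ} (hR : 0 < R) (hp : 8 * R ^ 2 * Z ^ 5 < p)
    {A : Finset K} (hA : A ⊆ FP p K) (hc : p ≤ A.card + Z) {Ψ : K → RingAut L}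
    (hΨ : ∀ a ∈ A, Ψ a ∈ Fr p K x ∧ ∃ P : Pl K L, P.Ap x 0 a ∧ P.Frb p (Ψ a)) (Y : Finset L)
    (hY : ∀ y ∈ Y, Wt K w x y) (hG : ∀ g ∈ Gx K x, ∀ y ∈ Y, g y ∈ Y)
    (hZ : Y.card * w + Y.card ≤ Z) : ∃ c : ℕ, ∑ ψ ∈ Φ, fx ψ Y = c * Φ.card ∧
      R * ∑ a ∈ A, fx (Ψ a) Y ≤ c * ((R + 3) * p) ∧
      c * (R * p) ≤ R * ∑ a ∈ A, fx (Ψ a) Y + c * (3 * p) := by
  induction Y using Finset.strongInduction with
  | H Y ih =>
    rcases Y.eq_empty_or_nonempty with rfl | ⟨z, hz⟩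
    · exact ⟨0, by simp [fx]⟩
    let O := Y.filter fun y => ∃ g ∈ Gx K x, g z = y
    have h1 : z ∈ O := Finset.mem_filter.2 ⟨hz, 1, one_mem _, rfl⟩
    have h2 : O ⊆ Y := Finset.filter_subset _ _
    have h3 : ∀ g ∈ Gx K x, ∀ y ∈ O, g y ∈ O := fun g hg y hy => by
      obtain ⟨a, h, b, rfl⟩ := Finset.mem_filter.1 hy
      exact Finset.mem_filter.2 ⟨hG g hg _ a, g * h, mul_mem hg b, rfl⟩
    have h4 : ∀ y ∈ O, ∀ y' ∈ O, ∃ g ∈ Gx K x, g y = y' := fun y hy y' hy' => by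
      obtain ⟨-, g, a, rfl⟩ := Finset.mem_filter.1 hy
      obtain ⟨-, h, b, rfl⟩ := Finset.mem_filter.1 hy'
      exact ⟨h * g⁻¹, mul_mem b (inv_mem a), congrArg h (g.symm_apply_apply z)⟩
    have h5 : ∀ ψ, fx ψ Y = fx ψ (Y \ O) + fx ψ O := fun ψ => by
      simp only [fx, Finset.card_filter]
      exact (Finset.sum_sdiff h2).symm
    have hb : ∀ {S : Finset L}, S ⊆ Y → S.card * w + S.card ≤ Z := fun h =>
      le_trans (by gcongr) hZ
    obtain ⟨c, e1, e2, e3⟩ := ih (Y \ O) (Finset.sdiff_ssubset h2 ⟨z, h1⟩)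
      (fun y hy => hY y (Finset.mem_sdiff.1 hy).1) (fun g hg y hy => Finset.mem_sdiff.2
        ⟨hG g hg y (Finset.mem_sdiff.1 hy).1, fun h => (Finset.mem_sdiff.1 hy).2
          (g.symm_apply_apply y ▸ h3 g⁻¹ (inv_mem hg) _ h)⟩) (hb Finset.sdiff_subset)
    simp only [h5, Finset.sum_add_distrib]
    by_cases hf : ∃ ψ ∈ Fr p K x, ∃ y ∈ O, ψ y = y
    · obtain ⟨ψ, hψ, y, hy, e⟩ := hf
      have h6 : ∀ φ ∈ Fr p K x, ∀ y ∈ O, φ y ∈ O := fun φ hφ y' hy' => by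
        obtain ⟨g, hg, rfl⟩ := h4 y hy y' hy'
        have := h3 _ (Fr_mul_inv (Fr_mul_Gx hφ hg) hψ) _ hy
        rwa [show (φ * g * ψ⁻¹) y = φ (g y) from
          congrArg (φ * g) (ψ.symm_apply_eq.2 e.symm)] at this
      obtain ⟨e4, e5⟩ := orbit_count hP hx (fun y hy => hY y (h2 hy)) h3 ⟨z, h1⟩ h4 h6 ⟨ψ, hψ⟩ hR
        hp (hb h2) hA hc hΨ
      refine ⟨c + 1, by rw [e1, burn hΦ ⟨z, h1⟩ h4 h6]; ring, by linarith, by linarith⟩
    · have h6 : ∀ ψ ∈ Fr p K x, fx ψ O = 0 := fun ψ hψ => Finset.card_eq_zero.2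
        (Finset.filter_eq_empty_iff.2 fun y hy e => hf ⟨ψ, hψ, y, hy, e⟩)
      rw [Finset.sum_eq_zero fun ψ h => h6 ψ ((hΦ ψ).1 h),
        Finset.sum_eq_zero fun a h => h6 _ (hΨ a h).1]
      exact ⟨c, e1, e2, e3⟩

omit [IsAlgClosed K] in
theorem sep_form {ι : Type} [Fintype ι] (S : Finset (ι → L))
    (hp : S.card ^ 2 * Fintype.card ι < p) : ∃ κ : ι → K, (∀ i, κ i ^ p = κ i) ∧
      Set.InjOn (fun s : ι → L => ∑ i, algebraMap K L (κ i) * s i) S := by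
  have : CharP L p := charP_of_injective_algebraMap (algebraMap K L).injective p
  let e := Fintype.equivFin ι
  let f : (ι → L) × (ι → L) → L[X] := fun q => ∑ i, monomial (e i) (q.1 i - q.2 i)
  have h1 : ∀ q ∈ S.offDiag, f q ≠ 0 := fun q hq h0 =>
    (Finset.mem_offDiag.1 hq).2.2 (funext fun i => by
      have := congrArg (coeff · (e i)) h0
      simp only [f, finsetSum_coeff, coeff_monomial, Fin.val_inj, e.injective.eq_iff,
        Finset.sum_ite_eq', Finset.mem_univ, if_true, coeff_zero] at this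
      exact sub_eq_zero.1 this)
  obtain ⟨u, hu, h2⟩ := exists_FP p (Finset.prod_ne_zero_iff.2 h1) (lt_of_le_of_lt
    ((natDegree_prod_le _ _).trans ((Finset.sum_le_card_nsmul _ _ (Fintype.card ι) fun q _ =>
      natDegree_sum_le_of_forall_le _ _ fun i _ => (natDegree_monomial_le _).trans (e i).2.le).trans
      (Nat.mul_le_mul_right _ (by rw [Finset.offDiag_card, sq]; omega)))) hp)
  obtain ⟨a, -, rfl⟩ := Finset.mem_map.1 (mem_FP.2 hu)
  refine ⟨fun i => ZMod.castHom (dvd_refl p) K a ^ (e i : ℕ), fun i => by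
    rw [pow_right_comm, ← map_pow, ZMod.pow_card], fun s hs s' hs' h => ?_⟩
  by_contra hne
  rw [eval_prod] at h2
  refine h2 (Finset.prod_eq_zero (i := (s, s')) (Finset.mem_offDiag.2 ⟨hs, hs', hne⟩) ?_)
  have h3 : algebraMap K L (ZMod.castHom (dvd_refl p) K a) = ZMod.castHom (dvd_refl p) L a :=
    RingHom.congr_fun (Subsingleton.elim ((algebraMap K L).comp _) _) a
  simp only [map_pow, h3] at h
  rw [← sub_eq_zero, ← Finset.sum_sub_distrib] at h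
  simp only [f, eval_finsetSum, eval_monomial, ← h]
  exact Finset.sum_congr rfl fun i _ => by rw [← mul_sub, mul_comm]; rfl

omit [IsAlgClosed K] in
theorem exists_set {ι : Type} [Fintype ι] {S : Set (ι → L)} (hS : S.Finite)
    (hp : S.ncard ^ 2 * Fintype.card ι < p) (hG : ∀ g ∈ Gx K x, ∀ s ∈ S, (fun i => g (s i)) ∈ S)
    (hF : ∀ ψ ∈ Fr p K x, ∀ s ∈ S, (fun i => ψ (s i)) ∈ S) {h : L} (h0 : h ≠ 0)
    (h1 : ∀ g ∈ Gx K x, g h = h) (h2 : ∀ ψ ∈ Fr p K x, ψ h = h)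
    (h3 : ∀ s ∈ S, ∀ i, Wt K w x (h * s i)) : ∃ Y : Finset L, Y.card ≤ S.ncard ∧
      (∀ y ∈ Y, Wt K w x y) ∧ (∀ g ∈ Gx K x, ∀ y ∈ Y, g y ∈ Y) ∧
      ∀ ψ ∈ Fr p K x, fx ψ Y = fixN ψ S := by
  rw [Set.ncard_eq_toFinset_card S hS] at hp ⊢
  obtain ⟨κ, k1, k2⟩ := sep_form (K := K) _ hp
  rw [hS.coe_toFinset] at k2
  let F : (ι → L) → L := fun s => h * ∑ i, algebraMap K L (κ i) * s i
  have hF1 : ∀ g : RingAut L, g h = h → (∀ i, g (algebraMap K L (κ i)) = algebraMap K L (κ i)) →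
      ∀ s, g (F s) = F fun i => g (s i) := fun g a b s => by simp [F, a, b]
  have hi : Set.InjOn F S := fun s hs s' hs' e => k2 hs hs' (mul_left_cancel₀ h0 e)
  refine ⟨hS.toFinset.image F, Finset.card_image_le, fun y hy => ?_, fun g hg y hy => ?_,
    fun ψ hψ => ?_⟩
  · obtain ⟨s, hs, rfl⟩ := Finset.mem_image.1 hy
    simp only [F, Finset.mul_sum, mul_left_comm h]
    exact Wt.sum _ fun i _ => by
      simpa using (Wt.const (a := 0) (κ i)).mul (h3 s (hS.mem_toFinset.1 hs) i)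
  · obtain ⟨s, hs, rfl⟩ := Finset.mem_image.1 hy
    exact Finset.mem_image.2 ⟨_, hS.mem_toFinset.2 (hG g hg s (hS.mem_toFinset.1 hs)),
      (hF1 g (h1 g hg) (fun i => hg.1 _) s).symm⟩
  · have e := hF1 ψ (h2 ψ hψ) fun i => (hψ.1 _).trans (by rw [k1])
    rw [fixN, ← Set.InjOn.ncard_image (hi.mono (Set.sep_subset _ _)), fx, ← Set.ncard_coe_finset]
    refine congrArg _ (Set.ext fun y => ⟨fun hy => ?_, ?_⟩)
    · obtain ⟨a, b⟩ := Finset.mem_filter.1 hy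
      obtain ⟨s, hs, rfl⟩ := Finset.mem_image.1 a
      have hs := hS.mem_toFinset.1 hs
      exact ⟨s, ⟨hs, congrFun (hi (hF ψ hψ s hs) hs ((e s).symm.trans b))⟩, rfl⟩
    · rintro ⟨s, ⟨hs, b⟩, rfl⟩
      exact Finset.mem_filter.2 ⟨Finset.mem_image_of_mem _ (hS.mem_toFinset.2 hs),
        (e s).trans (congrArg F (funext b))⟩

/-- pairs of elements of `S` -/
def sqS {ι M : Type} (S : Set (ι → M)) : Set (ι ⊕ ι → M) :=
  Equiv.sumArrowEquivProdArrow ι ι M ⁻¹' S ×ˢ S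

theorem ncard_sqS {ι M : Type} (S : Set (ι → M)) : (sqS S).ncard = S.ncard ^ 2 := by
  rw [sqS, ← Equiv.image_symm_eq_preimage, Set.ncard_image_of_injective _ (Equiv.injective _),
    Set.ncard_prod, sq]

theorem fixN_sqS {ι : Type} (ψ : RingAut L) (S : Set (ι → L)) :
    fixN ψ (sqS S) = fixN ψ S ^ 2 := by
  rw [fixN, fixN, ← ncard_sqS]
  refine congrArg _ (Set.ext fun s => ?_)
  simp only [sqS, Set.mem_ofPred_eq, Set.mem_preimage, Set.mem_prod, Sum.forall]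
  exact and_and_and_comm

omit [IsAlgClosed K] in
theorem exists_den (hx : Cov p K x) {ι : Type} [Fintype ι] {S : Set (ι → L)} (hS : S.Finite) {H : ℕ}
    (hC : ∀ s ∈ S, ∀ i, Cx p K H x (s i)) : ∃ h : L, h ≠ 0 ∧ (∀ g ∈ Gx K x, g h = h) ∧
      (∀ ψ ∈ Fr p K x, ψ h = h) ∧
      ∀ s ∈ S, ∀ i, Wt K (S.ncard * Fintype.card ι * H) x (h * s i) := by
  choose! B b1 b2 b3 b4 using hC
  let T := hS.toFinset ×ˢ (Finset.univ : Finset ι)
  have hT : ∀ q ∈ T, q.1 ∈ S := fun q hq => hS.mem_toFinset.1 (Finset.mem_product.1 hq).1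
  refine ⟨∏ q ∈ T, aeval x (B q.1 q.2).leadingCoeff, Finset.prod_ne_zero_iff.2 fun q hq =>
    hx.ne (leadingCoeff_ne_zero.2 (b1 _ (hT q hq) _)), fun g hg => ?_, fun ψ hψ => ?_,
    fun s hs i => ?_⟩
  · simp only [map_prod, Gx_aeval hg]
  · rw [map_prod]
    refine Finset.prod_congr rfl fun q hq => ?_
    rw [aut_aeval (frobenius K p) hψ.1, hψ.2]
    exact congrArg _ (Polynomial.ext fun j => (coeff_map _ _).trans (b3 _ (hT q hq) _ _ _))
  · have h1 : (s, i) ∈ T := Finset.mem_product.2 ⟨hS.mem_toFinset.2 hs, Finset.mem_univ _⟩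
    rw [← Finset.prod_erase_mul _ _ h1, mul_assoc (∏ q ∈ _, _)]
    refine ((Wt.prod (a := H) _ fun q hq => Wt.poly hx.ne_zero ((Fil_coeff (b2 _ (hT q
      (Finset.mem_of_mem_erase hq)) _) _).trans (Nat.sub_le _ _))).mul
      (Wt.lead hx.ne_zero (b2 s hs i) (b4 s hs i))).mono (le_of_eq ?_)
    rw [← add_one_mul, Finset.card_erase_add_one h1, Finset.card_product, Finset.card_univ,
      Set.ncard_eq_toFinset_card S hS]

theorem cheb' (hP : PlaceStmt) : ChebStmt 12544 29 := by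
  intro p _ K L _ _ _ _ _ x ι _ S bad H M hx hn hS hG hF hC hH h1 h2 h3 hp hM
  obtain ⟨h, d0, d1, d2, d3⟩ := exists_den hx hS hC
  have mono : ∀ {i j : ℕ}, i ≤ j → H ^ i ≤ H ^ j := Nat.pow_le_pow_right hH
  have m1 : H ≤ H ^ 5 := by simpa using mono (i := 1) (j := 5) (by norm_num)
  have m2 := mono (i := 2) (j := 5) (by norm_num)
  have m3 := mono (i := 5) (j := 29) (by norm_num)
  have m4 := mono (i := 4) (j := 29) (by norm_num)
  replace d3 : ∀ s ∈ S, ∀ i, Wt K (H ^ 3) x (h * s i) := fun s hs i => (d3 s hs i).mono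
    (le_trans (by gcongr) (show H * H * H = H ^ 3 by ring).le)
  have q1 : S.ncard ^ 2 ≤ H ^ 2 := by gcongr
  obtain ⟨Y, y1, y2, y3, y4⟩ := exists_set hS (lt_of_le_of_lt (Nat.mul_le_mul q1 h1)
    (by have := mono (i := 3) (j := 29) (by norm_num); linarith)) hG hF d0 d1 d2 d3
  obtain ⟨Y', z1, z2, z3, z4⟩ := exists_set (S := sqS S) (w := H ^ 3)
    ((hS.prod hS).preimage (Equiv.injective _).injOn) (by
      rw [ncard_sqS, Fintype.card_sum]
      exact lt_of_le_of_lt (Nat.mul_le_mul (Nat.pow_le_pow_left q1 2) (add_le_add h1 h1))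
        (by linarith))
    (fun g hg s hs => ⟨hG g hg _ hs.1, hG g hg _ hs.2⟩)
    (fun g hg s hs => ⟨hF g hg _ hs.1, hF g hg _ hs.2⟩) d0 d1 d2
    fun s hs i => i.rec (d3 _ hs.1) (d3 _ hs.2)
  rw [ncard_sqS] at z1
  let A := FP p K \ bad
  have hA : A ⊆ FP p K := Finset.sdiff_subset
  have a1 : A.card ≤ p := (Finset.card_le_card hA).trans (card_FP p).le
  have a2 : p ≤ A.card + H := by
    have := Finset.le_card_sdiff bad (FP p K)
    rw [card_FP] at this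
    exact le_trans (by omega) (add_le_add this h3)
  have : ∀ a ∈ A, ∃ ψ, fixN ψ S = M ∧ ψ ∈ Fr p K x ∧ ∃ P : Pl K L, P.Ap x 0 a ∧ P.Frb p ψ := by
    intro a ha
    obtain ⟨b1, b2⟩ := Finset.mem_sdiff.1 ha
    obtain ⟨l, hl⟩ := hP p K L _ (cov_sub hx a)
    rw [Fr_sub x (mem_FP.1 b1)] at hl
    obtain ⟨ψ, b3, b4⟩ := hl hn
    exact ⟨ψ, hM a (mem_FP.1 b1) b2 l ψ b3 b4, b3, l.P, loc_sub l, b4⟩
  choose! Ψ e1 e2 using this
  have hΦ := fun ψ => (fr_finite hx).mem_toFinset (a := ψ)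
  have hR : 0 < 7 * H ^ 2 := by positivity
  have hp' : 8 * (7 * H ^ 2) ^ 2 * (2 * H ^ 5) ^ 5 < p := by linarith
  have hb : ∀ {n : ℕ}, n ≤ H ^ 2 → n * H ^ 3 + n ≤ 2 * H ^ 5 := fun h => by
    have := Nat.mul_le_mul_right (H ^ 3) h
    linarith
  have q2 : H ≤ H ^ 2 := Nat.le_self_pow (by norm_num) _
  obtain ⟨c, c1, c2, -⟩ := set_count hP hx hΦ hR hp' hA (by omega) e2 Y y2 y3 (hb (by omega))
  obtain ⟨d, f1, -, f2⟩ := set_count hP hx hΦ hR hp' hA (by omega) e2 Y' z2 z3 (hb (by omega))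
  rw [Finset.sum_congr rfl fun a ha => (y4 _ (e2 a ha).1).trans (e1 a ha), Finset.sum_const,
    smul_eq_mul] at c2
  rw [Finset.sum_congr rfl fun a ha => (z4 _ (e2 a ha).1).trans ((fixN_sqS _ _).trans
    (congrArg (· ^ 2) (e1 a ha))), Finset.sum_const, smul_eq_mul] at f2
  rw [Finset.sum_congr rfl fun ψ h => y4 _ ((hΦ ψ).1 h)] at c1
  rw [Finset.sum_congr rfl fun ψ h => (z4 _ ((hΦ ψ).1 h)).trans (fixN_sqS _ _)] at f1
  have hMH : M ≤ H := by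
    obtain ⟨a, ha⟩ := Finset.card_pos.1 (show 0 < A.card by omega)
    exact e1 a ha ▸ (Set.ncard_le_ncard (Set.sep_subset _ _) hS).trans h2
  have g1 : M ≤ c := not_lt.1 fun hlt => by
    have t1 : 7 * H ^ 2 * (p * (c + 1)) ≤ 7 * H ^ 2 * ((A.card + H) * M) := by gcongr; exact hlt
    have t2 : 7 * H ^ 2 * (H * M) ≤ 7 * H ^ 2 * (H * H) := by gcongr
    have t3 : c * p ≤ H ^ 2 * p := by gcongr; omega
    have t4 : p ≤ H ^ 2 * p := Nat.le_mul_of_pos_left _ (by positivity)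
    linarith
  have g2 : d ≤ M ^ 2 := not_lt.1 fun hlt => by
    obtain ⟨k, rfl⟩ := Nat.exists_eq_add_of_lt hlt
    have t1 : 7 * H ^ 2 * (A.card * M ^ 2) ≤ 7 * H ^ 2 * (p * M ^ 2) := by gcongr
    have t2 : M ^ 2 * p ≤ H ^ 2 * p := by gcongr
    have t3 : k * p ≤ H ^ 2 * (k * p) := Nat.le_mul_of_pos_left _ (by positivity)
    have t4 : p ≤ H ^ 2 * p := Nat.le_mul_of_pos_left _ (by positivity)
    have t5 : 0 < p := by omega
    linarith [Nat.zero_le (k * p)]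
  have g3 : ∑ ψ ∈ (fr_finite hx).toFinset, ((fixN ψ S : ℤ) - M) ^ 2 ≤ 0 := by
    simp only [sub_sq, Finset.sum_add_distrib, Finset.sum_sub_distrib, ← Finset.sum_mul,
      ← Finset.mul_sum, Finset.sum_const, nsmul_eq_mul]
    zify at c1 f1
    rw [c1, f1]
    have t1 := Nat.mul_le_mul_right (fr_finite hx).toFinset.card g2
    have t2 := Nat.mul_le_mul_right ((fr_finite hx).toFinset.card * M) g1
    zify at t1 t2
    linarith
  intro ψ hψ
  have := (Finset.sum_eq_zero_iff_of_nonneg fun _ _ => sq_nonneg _).1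
    (g3.antisymm (Finset.sum_nonneg fun _ _ => sq_nonneg _)) ψ ((hΦ ψ).2 hψ)
  exact_mod_cast sub_eq_zero.1 (pow_eq_zero_iff two_ne_zero |>.1 this)

end Pool.Agent.NW.Ch

theorem Pool.Agent.NW.cheb (hP : Pool.Agent.NW.PlaceStmt) : Pool.Agent.NW.ChebStmt 12544 29 :=
  Pool.Agent.NW.Ch.cheb' hP
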