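import Pool.Agent.Lib.MP_d40963_nt.W.Ap

/-! Leading coefficients, roots, Frobenius and inertia. -/

namespace Pool.Agent.NW

open Polynomial

variable {p : ℕ} {K L : Type} [Field K] [Field L] [Algebra K L] {P : Pl K L} {x y z w V T : L}
  {n : ℤ} {c c' : K} {ψ g : RingAut L} {e : ℕ}

theorem Pl.Lc.ne (h : P.Lc y c) : y ≠ 0 := h.2.elim fun _ a => Pl.ne a h.1

theorem Pl.Lc.uniq (h : P.Lc y c) (h' : P.Lc y c') : c = c' :=
  h.2.elim fun _ a => h'.2.elim fun _ b => (Pl.ord_eq a b h.1 h'.1).2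

theorem Pl.Lc.mul (h : P.Lc y c) (h' : P.Lc z c') : P.Lc (y * z) (c * c') :=
  h.2.elim fun _ a => h'.2.elim fun _ b => ⟨mul_ne_zero h.1 h'.1, _, P.mul a b⟩

theorem Pl.Lc.inv (h : P.Lc y c) : P.Lc y⁻¹ c⁻¹ :=
  h.2.elim fun _ a => ⟨inv_ne_zero h.1, _, Pl.inv a h.1⟩

theorem Pl.Lc.div (h : P.Lc y c) (h' : P.Lc z c') : P.Lc (y / z) (c / c') :=
  h.2.elim fun _ a => h'.2.elim fun _ b => ⟨div_ne_zero h.1 h'.1, _, Pl.div a b h'.1⟩

theorem Pl.Lc.pow (h : P.Lc y c) (j : ℕ) : P.Lc (y ^ j) (c ^ j) :=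
  h.2.elim fun _ a => ⟨pow_ne_zero j h.1, _, Pl.pow a j⟩

theorem Pl.Lc.zpow (h : P.Lc y c) (j : ℤ) : P.Lc (y ^ j) (c ^ j) :=
  h.2.elim fun _ a => ⟨zpow_ne_zero j h.1, _, Pl.zpow a h.1 j⟩

theorem Pl.lc_const (P : Pl K L) (hc : c ≠ 0) : P.Lc (algebraMap K L c) c := ⟨hc, 0, P.const c⟩

theorem Pl.lc_ex (P : Pl K L) (hy : y ≠ 0) : ∃ c, P.Lc y c :=
  (P.ex hy).elim fun n ⟨c, h0, h⟩ => ⟨c, h0, n, h⟩

theorem Pl.Lc.of_ap (h : P.Lc y c) (h' : P.Ap y n c') (hc : c' ≠ 0) : c = c' :=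
  h.uniq ⟨hc, n, h'⟩

theorem Pl.Frb.rat (hψ : P.Frb p ψ) (hy : ψ y = y) (h : P.Ap y n c) : c ^ p = c :=
  P.uniq (hy ▸ hψ y n c h) h

theorem Pl.Frb.lc_rat (hψ : P.Frb p ψ) (hy : ψ y = y) (h : P.Lc y c) : c ^ p = c :=
  h.2.elim fun _ a => hψ.rat hy a

theorem Pl.Act.pow {ζ : K} (hg : P.Act g ζ) (hζ : ζ ≠ 0) (j : ℕ) (h : P.Ap y n c) :
    P.Ap ((g ^ j) y) n (ζ ^ (j * n) * c) := by
  induction j with
  | zero => rwa [Nat.cast_zero, zero_mul, zpow_zero, one_mul]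
  | succ j ih =>
    have h1 := hg _ _ _ ih
    rw [← mul_assoc, ← zpow_add₀ hζ] at h1
    rw [pow_succ', Nat.cast_succ, add_one_mul, add_comm]
    exact h1

/-- the roots of unity of `L` lie in `K` (`X ^ e - 1` splits over `K`) -/
theorem root_const [IsAlgClosed K] (he : 0 < e) (hw : w ≠ 0) (h : y ^ e = w ^ e) :
    ∃ k : K, k ^ e = 1 ∧ y = algebraMap K L k * w := by
  have h1 : (y / w) ^ e = 1 := by rw [div_pow, h, div_self (pow_ne_zero _ hw)]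
  obtain ⟨k, hk⟩ := (IsAlgClosed.splits (X ^ e - C (1 : K))).mem_range_of_isRoot
    (X_pow_sub_C_ne_zero he 1) (i := algebraMap K L) (x := y / w) (by simp [h1])
  refine ⟨k, (algebraMap K L).injective ?_, by rw [hk, div_mul_cancel₀ _ hw]⟩
  rw [map_pow, hk, h1, map_one]

theorem lc_root_eq [IsAlgClosed K] (he : 0 < e) (h : y ^ e = w ^ e) (hy : P.Lc y c)
    (hw : P.Lc w c) : y = w := by
  obtain ⟨k, hk, rfl⟩ := root_const (K := K) he hw.ne h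
  have hk0 : k ≠ 0 := by
    rintro rfl
    simp [he.ne'] at hk
  have h1 : k * c = 1 * c := by
    rw [one_mul]
    exact ((P.lc_const hk0).mul hw).uniq hy
  rw [mul_right_cancel₀ hw.1 h1, map_one, one_mul]

/-- rescale the root by the root of unity `c / lc w` -/
theorem lift_lc (he : 0 < e) (hw : w ^ e = V) (hc : c ≠ 0) (h : P.Lc V (c ^ e)) :
    ∃ w', w' ^ e = V ∧ P.Lc w' c := by
  subst hw
  have hw0 : w ≠ 0 := fun h0 => h.ne (by rw [h0, zero_pow he.ne'])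
  obtain ⟨c0, h0⟩ := P.lc_ex hw0
  have h1 : c0 ^ e = c ^ e := (h0.pow e).uniq h
  refine ⟨algebraMap K L (c / c0) * w, ?_, ?_⟩
  · rw [mul_pow, ← map_pow, div_pow, h1, div_self (pow_ne_zero _ hc), map_one, one_mul]
  · have h2 := (P.lc_const (div_ne_zero hc h0.1)).mul h0
    rwa [div_mul_cancel₀ _ h0.1] at h2

theorem fix_lc [IsAlgClosed K] (he : 0 < e) (hψ : P.Frb p ψ) (hw : ψ (w ^ e) = w ^ e)
    (h : P.Lc w c) (hc : c ^ p = c) : ψ w = w := by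
  refine lc_root_eq he (by rw [← map_pow, hw]) ?_ h
  obtain ⟨h0, n, hn⟩ := h
  exact ⟨h0, n, hc ▸ hψ w n c hn⟩

/-- the action of inertia on a root -/
theorem root_loc [IsAlgClosed K] (l : Loc K T) (he : 0 < e) {j : ℕ}
    (hw : (l.g ^ j) (w ^ e) = w ^ e) (h : l.P.Ap (w ^ e) n c) (hc : c ≠ 0) :
    ∃ n' : ℤ, e * n' = n ∧ (l.g ^ j) w = algebraMap K L (l.ζ ^ (j * n')) * w := by
  obtain ⟨n', c', h1, -, h3, h4⟩ := Pl.root h hc he
  obtain ⟨k, -, hk⟩ := root_const (K := K) (y := (l.g ^ j) w) he (Pl.ne h4 h3)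
    (by rw [← map_pow, hw])
  have h5 := l.act.pow (l.prim.ne_zero l.pos.ne') j h4
  rw [hk] at h5
  rw [hk, mul_right_cancel₀ h3 (l.P.uniq (Pl.smul k h4) h5)]
  exact ⟨n', h1, rfl⟩

theorem unit_loc [IsAlgClosed K] (l : Loc K T) (he : 0 < e) {j : ℕ}
    (hw : (l.g ^ j) (w ^ e) = w ^ e) (h : l.P.Ap (w ^ e) 0 c) (hc : c ≠ 0) :
    (l.g ^ j) w = w := by
  obtain ⟨n', h1, h2⟩ := root_loc l he hw h hc
  have h3 : n' = 0 := (mul_eq_zero.mp h1).resolve_left (by exact_mod_cast he.ne')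
  rw [h2, h3, mul_zero, zpow_zero, map_one, one_mul]

theorem prim_loc (l : Loc K T) {k : ℤ} (h : (k * e).natAbs = l.N) :
    IsPrimitiveRoot (l.ζ ^ k) e := by
  have h1 : IsPrimitiveRoot (l.ζ ^ k.natAbs) e :=
    l.prim.pow l.pos (by rw [← h, Int.natAbs_mul, Int.natAbs_natCast])
  rcases Int.natAbs_eq k with h2 | h2
  · rw [h2, zpow_natCast]
    exact h1
  · rw [h2, zpow_neg, zpow_natCast]
    exact h1.inv

end Pool.Agent.NW
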