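import Pool.Agent.Lib.MP_d40963_nt.W.Sh
import Pool.Agent.Lib.MP_d40963_nt.W.Lc

/-! Classification of the sheets at a place. -/

namespace Pool.Agent.NW

variable {K L : Type} [Field K] [Field L] [Algebra K L] {a : ℤ} {b : ℕ} {β γ : Side K}
  {P : Pl K L} {t X Y W Z : L} {y0 t0 l : K} {m : ℤ}

theorem ap_u (γ : Side K) (b : ℕ) (h : P.Ap Y 0 y0) : P.Ap (γ.u b Y) 0 (γ.u b y0) := by
  have h1 := Pl.pow h b
  rw [mul_zero] at h1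
  exact Pl.sub (Pl.smul γ.τ h1) (P.const γ.τ')

theorem ap_U (γ : Side K) {a : ℤ} (h : P.Ap Y 0 y0) (h0 : y0 ≠ 0 ∨ 0 < a) :
    P.Ap (γ.U a Y) 0 (γ.U a y0) := by
  have h1 : P.Ap (Y ^ a) 0 (y0 ^ a) := by
    rcases h0 with h0 | h0
    · have h2 := Pl.zpow h h0 a
      rwa [mul_zero] at h2
    · obtain ⟨n, rfl⟩ := Int.eq_ofNat_of_zero_le h0.le
      have h2 := Pl.pow h n
      rw [mul_zero] at h2
      rwa [zpow_natCast, zpow_natCast]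
  exact Pl.sub (Pl.smul γ.σ h1) (P.const γ.σ')

/-- `Pl.zpow_sub` -/
theorem ap_u_sub (h : P.Ap (Y - algebraMap K L y0) m l) (hm : 0 < m) (h0 : y0 ≠ 0)
    (hu : γ.u b y0 = 0) : P.Ap (γ.u b Y) m (γ.τ * b * y0 ^ b / y0 * l) := by
  have h1 := Pl.smul γ.τ (Pl.zpow_sub h hm h0 (b : ℤ))
  rw [Side.u_self, sub_eq_zero] at hu
  rw [zpow_natCast, zpow_natCast, mul_sub, ← map_mul, hu, Int.cast_natCast] at h1
  rw [show γ.τ * b * y0 ^ b / y0 * l = γ.τ * (b * y0 ^ b / y0 * l) by ring]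
  exact h1

theorem ap_U_sub (h : P.Ap (Y - algebraMap K L y0) m l) (hm : 0 < m) (h0 : y0 ≠ 0)
    (hU : γ.U a y0 = 0) : P.Ap (γ.U a Y) m (γ.σ * a * y0 ^ a / y0 * l) := by
  have h1 := Pl.smul γ.σ (Pl.zpow_sub h hm h0 a)
  rw [Side.U_self, sub_eq_zero] at hU
  rw [mul_sub, ← map_mul, hU] at h1
  rw [show γ.σ * a * y0 ^ a / y0 * l = γ.σ * (a * y0 ^ a / y0 * l) by ring]
  exact h1

theorem cls_unit_ord (ht : P.Ap t 0 t0) (h0 : t0 ≠ 0) (hY : Sh a b γ t Y) {n1 n2 : ℤ} {c1 c2 : K}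
    (h1 : P.Ap (γ.u b Y) n1 c1) (h2 : P.Ap (γ.U a Y) n2 c2) (hc1 : c1 ≠ 0) (hc2 : c2 ≠ 0) :
    a * n1 = b * n2 ∧ t0 * c1 ^ a = c2 ^ b := by
  have h3 := P.mul ht (Pl.zpow h1 hc1 a)
  rw [zero_add, hY.2.2.2] at h3
  exact Pl.ord_eq h3 (Pl.pow h2 b) (mul_ne_zero h0 (zpow_ne_zero _ hc1)) (pow_ne_zero _ hc2)

/-- If `u (y0)` or `U (y0)` vanishes then `t = U ^ b / u ^ a` has order `≠ 0` (at a common zero
the order is `(b - a) m > 0`). -/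
theorem cls_unit (h : Hab K a b) (hγ : γ.Ok) (ht : P.Ap t 0 t0) (h0 : t0 ≠ 0)
    (hY : Sh a b γ t Y) (hy : P.Ap Y 0 y0) (hy0 : y0 ≠ 0) : Sh a b γ t0 y0 := by
  have h1 := ap_u γ b hy
  have h2 := ap_U γ (a := a) hy (Or.inl hy0)
  by_cases hh : γ.u b y0 ≠ 0 ∧ γ.U a y0 ≠ 0
  · exact ⟨hy0, hh.1, hh.2, (cls_unit_ord ht h0 hY h1 h2 hh.1 hh.2).2⟩
  exfalso
  have hne : Y ≠ algebraMap K L y0 := by
    rintro rfl
    refine hh ⟨fun e => hY.2.1 ?_, fun e => hY.2.2.1 ?_⟩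
    · have e1 := congrArg (algebraMap K L) e
      rwa [Side.u_self, map_zero, map_sub, map_mul, map_pow] at e1
    · have e1 := congrArg (algebraMap K L) e
      rwa [Side.U_self, map_zero, map_sub, map_mul, map_zpow₀] at e1
  obtain ⟨m, l, hm, hl, h3⟩ := Pl.pos hy hne
  have c1 : γ.τ * b * y0 ^ b / y0 * l ≠ 0 :=
    mul_ne_zero (div_ne_zero (mul_ne_zero (mul_ne_zero hγ.τ h.bK) (pow_ne_zero _ hy0)) hy0) hl
  have c2 : γ.σ * a * y0 ^ a / y0 * l ≠ 0 :=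
    mul_ne_zero (div_ne_zero (mul_ne_zero (mul_ne_zero hγ.σ h.aK) (zpow_ne_zero _ hy0)) hy0) hl
  have hb : (0 : ℤ) < b := by exact_mod_cast h.b0
  by_cases e1 : γ.u b y0 = 0
  · by_cases e2 : γ.U a y0 = 0
    · have e := (cls_unit_ord ht h0 hY (ap_u_sub h3 hm hy0 e1) (ap_U_sub h3 hm hy0 e2) c1 c2).1
      exact h.lt.ne (mul_right_cancel₀ hm.ne' e)
    · have e := (cls_unit_ord ht h0 hY (ap_u_sub h3 hm hy0 e1) h2 c1 e2).1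
      rw [mul_zero] at e
      exact mul_ne_zero h.a0 hm.ne' e
  · have e2 : γ.U a y0 = 0 := by
      by_contra e2
      exact hh ⟨e1, e2⟩
    have e := (cls_unit_ord ht h0 hY h1 (ap_U_sub h3 hm hy0 e2) e1 c2).1
    rw [mul_zero] at e
    exact mul_ne_zero hb.ne' hm.ne' e.symm

theorem cls_zero (h : Hab K a b) (hγ : γ.Ok) (ht : P.Ap t 0 t0) (hY : Sh a b γ t Y)
    (hy : P.Ap Y 0 0) : 0 < a ∧ t0 = γ.v0 a b := by
  have h1 := ap_u γ b hy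
  rw [Side.u_self, zero_pow h.b0.ne', mul_zero, zero_sub] at h1
  have c1 : -γ.τ' ≠ 0 := neg_ne_zero.2 hγ.τ'
  have h2 := P.mul ht (Pl.zpow h1 c1 a)
  rw [mul_zero, add_zero, hY.2.2.2] at h2
  rcases lt_or_gt_of_ne h.a0 with ha | ha
  · exfalso
    obtain ⟨n, c, hc, h3⟩ := P.ex hY.1
    have hn : 0 < n := lt_of_le_of_ne (Pl.ord_le hy h3 hc) fun e => hc (P.uniq (e ▸ h3) hy)
    have hn' : a * n < 0 := mul_neg_of_neg_of_pos ha hn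
    have h4 := Pl.sub (Pl.smul γ.σ (Pl.zpow h3 hc a)) (Pl.lt (P.const γ.σ') hn')
    rw [sub_zero] at h4
    have h5 := Pl.ord_le h2 (Pl.pow h4 b) (pow_ne_zero _ (mul_ne_zero hγ.σ (zpow_ne_zero _ hc)))
    have hb : (0 : ℤ) < b := by exact_mod_cast h.b0
    exact absurd (mul_neg_of_pos_of_neg hb hn') (not_lt.2 h5)
  · have h3 := Pl.pow (ap_U γ hy (Or.inr ha)) b
    rw [Side.U_self, zero_zpow a h.a0, mul_zero, mul_zero, zero_sub] at h3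
    exact ⟨ha, eq_div_of_mul_eq (zpow_ne_zero _ c1) (P.uniq h2 h3)⟩

theorem cls (h : Hab K a b) (hγ : γ.Ok) (ht : P.Ap t 0 t0) (h0 : t0 ≠ 0) (hY : Sh a b γ t Y) :
    (∃ y0, Sh a b γ t0 y0 ∧ P.Ap Y 0 y0) ∨ (0 < a ∧ t0 = γ.v0 a b ∧ P.Ap Y 0 0) ∨
      (0 < a ∧ t0 = γ.flip.v0 a b ∧ P.Ap Y⁻¹ 0 0) := by
  rcases P.tri Y with ⟨y0, hy⟩ | hy
  · by_cases e : y0 = 0
    · subst e
      obtain ⟨h1, h2⟩ := cls_zero h hγ ht hY hy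
      exact Or.inr (Or.inl ⟨h1, h2, hy⟩)
    · exact Or.inl ⟨y0, cls_unit h hγ ht h0 hY hy e, hy⟩
  · obtain ⟨h1, h2⟩ := cls_zero h hγ.flip ht (sh_flip.2 ((inv_inv Y).symm ▸ hY)) hy
    exact Or.inr (Or.inr ⟨h1, h2, hy⟩)

theorem cls0 (h : Hab K a b) (hγ : γ.Ok) (ht : P.Ap t 0 0) (hY : Sh a b γ t Y) :
    ∃ y0, y0 ≠ 0 ∧ P.Ap Y 0 y0 ∧ (γ.U a y0 = 0 ∨ (a < 0 ∧ γ.u b y0 = 0)) := by
  rcases P.tri Y with ⟨y0, hy⟩ | hy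
  · have hy0 : y0 ≠ 0 := by
      rintro rfl
      exact hγ.v0 (cls_zero h hγ ht hY hy).2.symm
    refine ⟨y0, hy0, hy, ?_⟩
    by_cases hU : γ.U a y0 = 0
    · exact Or.inl hU
    have h1 := Pl.pow (ap_U γ (a := a) hy (Or.inl hy0)) b
    rw [← hY.2.2.2, mul_zero] at h1
    have key : ∀ c, ¬ P.Ap (γ.u b Y ^ a) 0 c := fun c hc => by
      have h2 := P.mul ht hc
      rw [add_zero, zero_mul] at h2
      exact pow_ne_zero b hU (P.uniq h1 h2)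
    have hu : γ.u b y0 = 0 := by
      by_contra hu
      have h2 := Pl.zpow (ap_u γ b hy) hu a
      rw [mul_zero] at h2
      exact key _ h2
    refine Or.inr ⟨?_, hu⟩
    by_contra ha
    obtain ⟨k, rfl⟩ := Int.eq_ofNat_of_zero_le (not_lt.1 ha)
    have h2 := Pl.pow (ap_u γ b hy) k
    rw [mul_zero, ← zpow_natCast] at h2
    exact key _ h2
  · exact absurd (cls_zero h hγ.flip ht (sh_flip.2 (by rwa [inv_inv])) hy).2.symm hγ.flip.v0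

theorem clsI (h : Hab K a b) (hγ : γ.Ok) (ha : a < 0) (ht : P.Ap t⁻¹ 0 0) (hY : Sh a b γ t Y) :
    P.Ap Y 0 0 ∨ P.Ap Y⁻¹ 0 0 := by
  rcases P.tri Y with ⟨y0, hy⟩ | hy
  · by_cases hy0 : y0 = 0
    · exact Or.inl (hy0 ▸ hy)
    obtain ⟨k, hk⟩ := Int.eq_ofNat_of_zero_le (neg_nonneg.2 ha.le)
    have h1 := P.mul (P.mul (Pl.pow (ap_U γ (a := a) hy (Or.inl hy0)) b)
      (Pl.pow (ap_u γ b hy) k)) ht
    have e : γ.U a Y ^ b * γ.u b Y ^ k = t := by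
      rw [hY.t_eq, ← zpow_natCast (γ.u b Y), ← hk, zpow_neg, div_eq_mul_inv]
    rw [e, mul_inv_cancel₀ hY.t_ne] at h1
    simp only [mul_zero, add_zero] at h1
    exact absurd (P.uniq Pl.one h1) one_ne_zero
  · exact Or.inr hy

/-- the leading coefficient of `Z` from `Tri.u`, `Tri.U` and `Hab.pow_inj` -/
theorem Tri.lcZ (h : Hab K a b) (hT : Tri a b β γ X W Z) {c1 c2 c3 c4 z0 : K}
    (h1 : P.Lc (β.u b X) c1) (h2 : P.Lc (β.U a X) c2) (h3 : P.Lc (γ.u b (W / Z)) c3)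
    (h4 : P.Lc (γ.U a (W / Z)) c4) (hz : z0 ≠ 0) (e1 : z0 ^ b * c3 = c1)
    (e2 : z0 ^ a * c4 = c2) : P.Lc Z z0 := by
  obtain ⟨c, hc⟩ := P.lc_ex hT.2.1
  have k1 := (hc.pow b).mul h3
  have k2 := (hc.zpow a).mul h4
  rw [hT.u] at k1
  rw [hT.U] at k2
  rwa [← h.pow_inj hc.1 hz (mul_right_cancel₀ h3.1 ((k1.uniq h1).trans e1.symm))
    (mul_right_cancel₀ h4.1 ((k2.uniq h2).trans e2.symm))]

/-- the order of `Z` from `Tri.u` -/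
theorem Tri.ordZ (h : Hab K a b) (hT : Tri a b β γ X W Z) {c1 c3 : K} {n1 n3 : ℤ}
    (h1 : P.Ap (β.u b X) n1 c1) (h3 : P.Ap (γ.u b (W / Z)) n3 c3) (hc1 : c1 ≠ 0) (hc3 : c3 ≠ 0) :
    ∃ n c, c ≠ 0 ∧ P.Ap Z n c ∧ b * n = n1 - n3 := by
  obtain ⟨n, c, hc, hn⟩ := P.ex hT.2.1
  have k := P.mul (Pl.pow hn b) h3
  rw [hT.u] at k
  exact ⟨n, c, hc, hn, eq_sub_of_add_eq
    (Pl.ord_eq k h1 (mul_ne_zero (pow_ne_zero b hc) hc3) hc1).1⟩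

theorem Tri.ordZ' (hT : Tri a b β γ X W Z) {c2 c4 : K} {n2 n4 : ℤ}
    (h2 : P.Ap (β.U a X) n2 c2) (h4 : P.Ap (γ.U a (W / Z)) n4 c4) (hc2 : c2 ≠ 0) (hc4 : c4 ≠ 0) :
    ∃ n c, c ≠ 0 ∧ P.Ap Z n c ∧ a * n = n2 - n4 := by
  obtain ⟨n, c, hc, hn⟩ := P.ex hT.2.1
  have k := P.mul (Pl.zpow hn hc a) h4
  rw [hT.U] at k
  exact ⟨n, c, hc, hn, eq_sub_of_add_eq
    (Pl.ord_eq k h2 (mul_ne_zero (zpow_ne_zero a hc) hc4) hc2).1⟩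

theorem Tri.lim_t (hX : Sh a b β t X) {x0 : K} (hx : P.Ap X 0 x0) (hx0 : Sh a b β t0 x0) :
    P.Ap t 0 t0 := by
  have k := Pl.div (Pl.pow (ap_U β (a := a) hx (Or.inl hx0.1)) b)
    (Pl.zpow (ap_u β b hx) hx0.2.1 a) (zpow_ne_zero a hx0.2.1)
  rwa [← hX.t_eq, ← hx0.t_eq, mul_zero, mul_zero, sub_zero] at k

theorem Tri.lim_zpow (hy : P.Ap Y 0 y0) (h0 : y0 ≠ 0 ∨ 0 < a) : P.Ap (Y ^ a) 0 (y0 ^ a) := by
  rcases h0 with h0 | h0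
  · simpa using Pl.zpow hy h0 a
  · obtain ⟨k, rfl⟩ := Int.eq_ofNat_of_zero_le h0.le
    simpa using Pl.pow hy k

theorem Tri.lim_one (h : Hab K a b) (hT : Tri a b β γ X W Z) {x0 : K} (hx : P.Ap X 0 x0)
    (hx0 : Sh a b β t0 x0) (hy : P.Ap (W / Z) 0 y0) (hu : γ.u b y0 ≠ 0) (h0 : y0 ≠ 0 ∨ 0 < a) :
    ∃ w0 z0, P.Ap W 0 w0 ∧ P.Ap Z 0 z0 ∧ γ.τ * w0 ^ b - γ.τ' * z0 ^ b = β.u b x0 ∧
      γ.σ * w0 ^ a - γ.σ' * z0 ^ a = β.U a x0 := by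
  obtain ⟨n, c, hc, hn, e⟩ := hT.ordZ h (ap_u β b hx) (ap_u γ b hy) hx0.2.1 hu
  obtain rfl : n = 0 := by
    rw [sub_zero, mul_eq_zero] at e
    exact e.resolve_left (Int.natCast_ne_zero.2 h.b0.ne')
  have hw := P.mul hy hn
  rw [div_mul_cancel₀ W hT.2.1, add_zero] at hw
  have k1 := Pl.sub (Pl.smul γ.τ (Pl.pow hw b)) (Pl.smul γ.τ' (Pl.pow hn b))
  have k2 := Pl.sub (Pl.smul γ.σ (Tri.lim_zpow hw (h0.imp_left fun h0 => mul_ne_zero h0 hc)))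
    (Pl.smul γ.σ' (Tri.lim_zpow (a := a) hn (Or.inl hc)))
  rw [hT.2.2.1, mul_zero] at k1
  rw [hT.2.2.2] at k2
  exact ⟨_, _, hw, hn, P.uniq k1 (ap_u β b hx), P.uniq k2 (ap_U β hx (Or.inl hx0.1))⟩

theorem Tri.lim_u0 (h : Hab K a b) (hγ : γ.Ok) : γ.u b (0 : K) ≠ 0 := by
  rw [Side.u_self, zero_pow h.b0.ne', mul_zero, zero_sub]
  exact neg_ne_zero.2 hγ.τ'

/-- At a place where the base is a unit point, `W` and `Z` are integral. Use `cls` for `W / Z`;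
the case of a pole follows from the case of a zero by `tri_flip`. -/
theorem Tri.lim (h : Hab K a b) (hβ : β.Ok) (hγ : γ.Ok) (hT : Tri a b β γ X W Z)
    (hX : Sh a b β t X) {x0 : K} (hx : P.Ap X 0 x0) (hx0 : Sh a b β t0 x0) :
    ∃ w0 z0, P.Ap W 0 w0 ∧ P.Ap Z 0 z0 ∧ γ.τ * w0 ^ b - γ.τ' * z0 ^ b = β.u b x0 ∧
      γ.σ * w0 ^ a - γ.σ' * z0 ^ a = β.U a x0 := by
  rcases cls h hγ (Tri.lim_t hX hx hx0) hx0.t_ne (hT.sh hX) with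
    ⟨y0, h1, h2⟩ | ⟨ha, -, h2⟩ | ⟨ha, -, h2⟩
  · exact hT.lim_one h hx hx0 h2 h1.2.1 (Or.inl h1.1)
  · exact hT.lim_one h hx hx0 h2 (Tri.lim_u0 h hγ) (Or.inr ha)
  · rw [inv_div] at h2
    obtain ⟨z0, w0, hz, hw, e1, e2⟩ :=
      (tri_flip.2 hT).lim_one h hx hx0 h2 (Tri.lim_u0 h hγ.flip) (Or.inr ha)
    refine ⟨w0, z0, hw, hz, ?_, ?_⟩
    · rw [← e1]; simp only [Side.flip]; ring
    · rw [← e2]; simp only [Side.flip]; ring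

theorem Sh.ap_t (hX : Sh a b β t X) {x0 : K} (hx : P.Ap X 0 x0) (hx0 : Sh a b β t0 x0) :
    P.Ap t 0 t0 := Tri.lim_t hX hx hx0

end Pool.Agent.NW
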