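import Pool.Agent.Lib.MP_d40963_nt.W.Sig

/-! Counting the fixed solutions by their leading coefficients. -/

namespace Pool.Agent.NW.Dat

variable {p : ℕ} [Fact p.Prime] {K L : Type} [Field K] [IsAlgClosed K] [CharP K p] [Field L]
  [Algebra K L] {D : Dat p K} {β : Side K} {t x Y : L} {P : Pl K L} {ψ : RingAut L}
  {r r' : K × K} {c c' : K} {s : Fin 4 → L}

/-- settings exist for all rational bases -/
def Fam (D : Dat p K) : Prop :=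
  ∀ τ τ' : K, τ ^ p = τ → τ ≠ 0 → τ' ^ p = τ' → τ' ≠ 0 →
    ∃ (L : Type) (_ : Field L) (_ : Algebra K L) (t : L),
      D.AE (sd D.s τ τ') t ∧ D.Mc (sd D.s τ τ') t

theorem rep_rat (hr : r ∈ D.Rep c) : c ^ p = c := by
  obtain ⟨h1, h2, h3⟩ := hr
  rw [← h3, mul_pow, (D.R0 _ h1).1, ← pow_mul r.2, pow_right_comm, h2]

theorem rep_ne (hr : r ∈ D.Rep c) (hc : c ≠ 0) : r.1 ≠ 0 ∧ r.2 ≠ 0 := by
  obtain ⟨h1, -, h3⟩ := hr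
  refine ⟨(D.R0 _ h1).2, fun e => hc ?_⟩
  have hb : D.b ≠ 0 := fun e => D.hab.a0 (by have := D.hab.le; omega)
  rw [← h3, e, zero_pow D.e_pos.ne', zero_pow hb, mul_zero]

theorem rep_pow (hr : r ∈ D.Rep c) (hc : c ≠ 0) : r.1 ^ D.s * (r.2 ^ D.e) ^ D.a = c ^ D.s := by
  have h0 := (rep_ne hr hc).2
  obtain ⟨-, h2, h3⟩ := hr
  rw [← h3, mul_pow, D.key _ h2 h0]

theorem rep_ok (hr : r ∈ D.Rep c) (hr' : r' ∈ D.Rep c') :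
    (sd D.s r.1 r'.1).Ok ∧ (sd D.s r.1 r'.1).Rt p := by
  obtain ⟨a1, a2⟩ := D.R0 _ hr.1
  obtain ⟨b1, b2⟩ := D.R0 _ hr'.1
  exact ⟨⟨a2, b2, pow_ne_zero _ a2, pow_ne_zero _ b2⟩, a1, b1,
    (pow_right_comm _ _ _).trans (congrArg (· ^ D.s) a1),
    (pow_right_comm _ _ _).trans (congrArg (· ^ D.s) b1)⟩

/-- `GE.exX`, `cov_x`, `GE.fr_x_ne`, `cov_sub`, `Fr_sub` -/
theorem AE.at_ex (h : D.AE β t) {x0 : K} (h0 : x0 ^ p = x0) :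
    ∃ (x : L) (P : Pl K L) (ψ : RingAut L) (n : ℕ), D.At β t x P ψ ∧ 0 < n ∧
      P.Ap (x - algebraMap K L x0) n 1 := by
  obtain ⟨x, hx⟩ := h.ge.exX
  obtain ⟨l, hl⟩ := h.ge.loc _ (cov_sub (cov_x h.ge.hab h.ge.cov hx).1 x0)
  rw [Fr_sub x h0] at hl
  obtain ⟨ψ, h1, h2⟩ := hl (h.ge.fr_x_ne hx)
  exact ⟨x, l.P, ψ, l.N, ⟨h, hx, h1, h2⟩, l.pos, l.ap⟩

theorem At.fin (h : D.At β t x P ψ) : (D.Sig β x).Finite := (D.sig_card h.sh).1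

theorem At.sh_fr (h : D.At β t x P ψ) {γ : Side K} (hγ : γ.Rt p) (hY : Sh D.a D.b γ t Y) :
    Sh D.a D.b γ t (ψ Y) := hY.fr h.fr (fr_x h.ae.ge.rt h.sh h.fr) hγ

theorem At.fxr_tri (h : D.At β t x P ψ) (hs : s ∈ D.FxR β x P ψ r r') :
    Tri D.a D.b β (sd D.s r.1 r'.1) (x ^ D.e) (s 2 ^ D.e) (s 3 ^ D.e) ∧
      Sh D.a D.b (sd D.s r.1 r'.1) t ((s 2 / s 3) ^ D.e) ∧
      P.Lc ((s 2 / s 3) ^ D.e) ((r.2 / r'.2) ^ D.e) := by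
  obtain ⟨⟨τ, -, τ', -, a1, a2, a3⟩, -, b1, b2, b3, b4⟩ := hs
  obtain rfl : τ = r.1 := (algebraMap K L).injective (a1.symm.trans b1)
  obtain rfl : τ' = r'.1 := (algebraMap K L).injective (a2.symm.trans b2)
  refine ⟨a3, ?_, (b3.div b4).pow _⟩
  rw [div_pow]
  exact a3.sh h.sh

/-- `s ↦ (s 2 / s 3) ^ e` is injective on `FxR` (`Tri.uniq`, `lc_root_eq`) -/
theorem At.fxr_le (h : D.At β t x P ψ) {T : Set L} (hT : T.Finite)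
    (h1 : ∀ s ∈ D.FxR β x P ψ r r', (s 2 / s 3) ^ D.e ∈ T) :
    (D.FxR β x P ψ r r').ncard ≤ T.ncard := by
  refine Set.ncard_le_ncard_of_injOn (fun s => (s 2 / s 3) ^ D.e) h1 (fun s hs s' hs' e => ?_) hT
  obtain ⟨e2, e3⟩ := Tri.uniq D.hab h.sh (h.fxr_tri hs).1 (h.fxr_tri hs').1
    (by rw [← div_pow, ← div_pow]; exact e)
  obtain ⟨-, -, a0, a1, a2, a3⟩ := hs
  obtain ⟨-, -, b0, b1, b2, b3⟩ := hs'
  funext i
  fin_cases i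
  · exact a0.trans b0.symm
  · exact a1.trans b1.symm
  · exact lc_root_eq D.e_pos e2 a2 b2
  · exact lc_root_eq D.e_pos e3 a3 b3

/-- `tri_ex`, `AE.lift`, `lift_lc`, `Tri.fix_fr`, `fix_lc` -/
theorem At.mk_fix (h : D.At β t x P ψ) (hr : r ∈ D.Rep c) (hr' : r' ∈ D.Rep c') (hc : c ≠ 0)
    (hc' : c' ≠ 0) (hY : Sh D.a D.b (sd D.s r.1 r'.1) t Y) (hf : ψ Y = Y)
    (hl : P.Lc Y ((r.2 / r'.2) ^ D.e))
    (hZ : ∀ W Z, Tri D.a D.b β (sd D.s r.1 r'.1) (x ^ D.e) W Z → W / Z = Y →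
      P.Lc Z (r'.2 ^ D.e)) : ∃ s ∈ D.FxR β x P ψ r r', (s 2 / s 3) ^ D.e = Y := by
  have he := h.ae.ge.epos
  obtain ⟨W, Z, hT, e⟩ := tri_ex D.hab h.sh hY
  obtain ⟨⟨y, hy⟩, z, hz⟩ := h.ae.lift _ hr.1 _ hr'.1 _ W Z h.sh hT
  have h1 := hZ W Z hT e
  have h2 := hl.mul h1
  rw [← e, div_mul_cancel₀ W hT.2.1, ← mul_pow, div_mul_cancel₀ _ (rep_ne hr' hc').2] at h2
  obtain ⟨y, rfl, h3⟩ := lift_lc he hy (rep_ne hr hc).2 h2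
  obtain ⟨z, rfl, h4⟩ := lift_lc he hz (rep_ne hr' hc').2 h1
  obtain ⟨h5, h6⟩ := Tri.fix_fr D.hab h.fr h.ae.ge.rt (rep_ok hr hr').2 h.sh hT
    (by rw [map_pow, h.fr.2]) (by rw [e, hf])
  refine ⟨![algebraMap K L r.1, algebraMap K L r'.1, y, z], ⟨⟨_, hr.1, _, hr'.1, rfl, rfl, hT⟩,
    fun i => ?_, rfl, rfl, h3, h4⟩, (div_pow y z _).trans e⟩
  fin_cases i
  · exact (h.fr.1 _).trans (congrArg _ (D.R0 _ hr.1).1)
  · exact (h.fr.1 _).trans (congrArg _ (D.R0 _ hr'.1).1)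
  · exact fix_lc he h.frb h5 h3 hr.2.1
  · exact fix_lc he h.frb h6 h4 hr'.2.1

theorem At.fxr_fin (h : D.At β t x P ψ) : (D.FxR β x P ψ r r').Finite := h.fin.subset fun _ hs => hs.1

theorem At.count_up_le {α ι : Type} {I : Set ι} (hI : I.Finite) {F : ι → Set α} {n : ℕ}
    (h : ∀ i ∈ I, (F i).ncard ≤ n) : (⋃ i ∈ I, F i).ncard ≤ I.ncard * n := by
  lift I to Finset ι using hI
  rw [Set.ncard_coe_finset]
  exact (Finset.set_ncard_biUnion_le I F).trans (Finset.sum_le_card_nsmul I _ n h)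

theorem At.count_up (h : D.At β t x P ψ) (A : Finset (K × K)) (w : K × K → ℕ)
    (h0 : ∀ q ∈ A, q.1 ^ p = q.1 ∧ q.1 ≠ 0 ∧ q.2 ^ p = q.2 ∧ q.2 ≠ 0)
    (h1 : ∀ c c' r r', r ∈ D.Rep c → r' ∈ D.Rep c' → (D.FxR β x P ψ r r').Nonempty → (c, c') ∈ A)
    (h2 : ∀ q ∈ A, ∀ r ∈ D.Rep q.1, ∀ r' ∈ D.Rep q.2, (D.FxR β x P ψ r r').ncard ≤ w q) :
    fixN ψ (D.Sig β x) ≤ D.e ^ 2 * ∑ q ∈ A, w q := by
  have he := h.ae.ge.epos
  have hf : ∀ c, c ^ p = c → c ≠ 0 → (D.Rep c).ncard = D.e ∧ (D.Rep c).Finite := fun c a b =>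
    ⟨D.rep c a b, Set.finite_of_ncard_pos ((D.rep c a b).symm ▸ he)⟩
  have e : {s ∈ D.Sig β x | ∀ i, ψ (s i) = s i} =
      ⋃ q ∈ A, ⋃ r ∈ D.Rep q.1, ⋃ r' ∈ D.Rep q.2, D.FxR β x P ψ r r' := by
    ext s
    simp only [Set.mem_iUnion]
    refine ⟨fun ⟨hs, h3⟩ => ?_, fun ⟨_, _, _, _, _, _, hs⟩ => ⟨hs.1, hs.2.1⟩⟩
    obtain ⟨τ, hτ, τ', hτ', e0, e1, hT⟩ := id hs
    obtain ⟨c, hc⟩ := P.lc_ex (ne_zero_pow he.ne' hT.1)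
    obtain ⟨c', hc'⟩ := P.lc_ex (ne_zero_pow he.ne' hT.2.1)
    have r1 : (τ, c) ∈ D.Rep _ := ⟨hτ, h.frb.lc_rat (h3 2) hc, rfl⟩
    have r2 : (τ', c') ∈ D.Rep _ := ⟨hτ', h.frb.lc_rat (h3 3) hc', rfl⟩
    have h4 : s ∈ D.FxR β x P ψ (τ, c) (τ', c') := ⟨hs, h3, e0, e1, hc, hc'⟩
    exact ⟨_, h1 _ _ _ _ r1 r2 ⟨s, h4⟩, _, r1, _, r2, h4⟩
  rw [fixN, e, Finset.mul_sum]
  refine (Finset.set_ncard_biUnion_le A _).trans (Finset.sum_le_sum fun q hq => ?_)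
  obtain ⟨a1, a2, a3, a4⟩ := h0 q hq
  refine (At.count_up_le (hf _ a1 a2).2 fun r hr =>
    At.count_up_le (hf _ a3 a4).2 (h2 q hq r hr)).trans_eq ?_
  rw [(hf _ a1 a2).1, (hf _ a3 a4).1, sq, mul_assoc]

/-- the sets `FxR r r'` are pairwise disjoint (`Pl.Lc.uniq`) -/
theorem At.count_low (h : D.At β t x P ψ) (A : Finset (K × K)) (w : K × K → ℕ)
    (h0 : ∀ q ∈ A, q.1 ^ p = q.1 ∧ q.1 ≠ 0 ∧ q.2 ^ p = q.2 ∧ q.2 ≠ 0)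
    (h2 : ∀ q ∈ A, ∀ r ∈ D.Rep q.1, ∀ r' ∈ D.Rep q.2, w q ≤ (D.FxR β x P ψ r r').ncard) :
    D.e ^ 2 * ∑ q ∈ A, w q ≤ fixN ψ (D.Sig β x) := by
  classical
  have h3 : ∀ c : K, ∃ T : Finset (K × K), c ^ p = c → c ≠ 0 →
      T.card = D.e ∧ ∀ r, r ∈ T ↔ r ∈ D.Rep c := fun c => by
    by_cases hf : (D.Rep c).Finite
    · exact ⟨hf.toFinset, fun h4 h5 => ⟨(Set.ncard_eq_toFinset_card _ hf).symm.trans
        (D.rep c h4 h5), fun _ => hf.mem_toFinset⟩⟩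
    · exact ⟨∅, fun h4 h5 => absurd (Set.finite_of_ncard_pos
        (h.ae.ge.epos.trans_eq (D.rep c h4 h5).symm)) hf⟩
  choose T hT using h3
  have hm : ∀ j ∈ A.sigma fun q => T q.1 ×ˢ T q.2,
      j.1 ∈ A ∧ j.2.1 ∈ D.Rep j.1.1 ∧ j.2.2 ∈ D.Rep j.1.2 := fun j hj => by
    obtain ⟨h4, h5⟩ := Finset.mem_sigma.1 hj
    obtain ⟨a1, a2, a3, a4⟩ := h0 _ h4
    exact ⟨h4, ((hT _ a1 a2).2 _).1 (Finset.mem_product.1 h5).1,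
      ((hT _ a3 a4).2 _).1 (Finset.mem_product.1 h5).2⟩
  have hF : {s ∈ D.Sig β x | ∀ i, ψ (s i) = s i}.Finite := h.fin.subset fun _ hs => hs.1
  calc D.e ^ 2 * ∑ q ∈ A, w q = ∑ j ∈ A.sigma fun q => T q.1 ×ˢ T q.2, w j.1 := by
        rw [Finset.sum_sigma, Finset.mul_sum]
        refine Finset.sum_congr rfl fun q hq => ?_
        obtain ⟨a1, a2, a3, a4⟩ := h0 _ hq
        rw [Finset.sum_const_nat (m := w q) fun _ _ => rfl, Finset.card_product, (hT _ a1 a2).1,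
          (hT _ a3 a4).1, sq]
    _ ≤ ∑ j ∈ A.sigma fun q => T q.1 ×ˢ T q.2,
          (h.fxr_fin (r := j.2.1) (r' := j.2.2)).toFinset.card :=
        Finset.sum_le_sum fun j hj => (h2 _ (hm j hj).1 _ (hm j hj).2.1 _ (hm j hj).2.2).trans_eq
          (Set.ncard_eq_toFinset_card _ _)
    _ = ((A.sigma fun q => T q.1 ×ˢ T q.2).biUnion fun j =>
          (h.fxr_fin (r := j.2.1) (r' := j.2.2)).toFinset).card := by
        refine (Finset.card_biUnion fun j hj k hk hne => Finset.disjoint_left.2 fun s a b =>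
          hne ?_).symm
        rw [Set.Finite.mem_toFinset] at a b
        have i := (algebraMap K L).injective
        have e1 : j.2.1 = k.2.1 :=
          Prod.ext (i (a.2.2.1.symm.trans b.2.2.1)) (a.2.2.2.2.1.uniq b.2.2.2.2.1)
        have e2 : j.2.2 = k.2.2 :=
          Prod.ext (i (a.2.2.2.1.symm.trans b.2.2.2.1)) (a.2.2.2.2.2.uniq b.2.2.2.2.2)
        refine Sigma.ext (Prod.ext ?_ ?_) (heq_of_eq (Prod.ext e1 e2))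
        · rw [← (hm j hj).2.1.2.2, ← (hm k hk).2.1.2.2, e1]
        · rw [← (hm j hj).2.2.2.2, ← (hm k hk).2.2.2.2, e2]
    _ ≤ hF.toFinset.card := Finset.card_le_card fun s hs => by
        obtain ⟨j, -, a⟩ := Finset.mem_biUnion.1 hs
        rw [Set.Finite.mem_toFinset] at a ⊢
        exact ⟨a.1, a.2.1⟩
    _ = fixN ψ (D.Sig β x) := (Set.ncard_eq_toFinset_card _ hF).symm

end Pool.Agent.NW.Dat
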