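import Pool.Agent.Lib.MP_d40963_nt.W.Cnt

/-! The trivial solutions. -/

namespace Pool.Agent.NW.Dat

variable {p : ℕ} [Fact p.Prime] {K L : Type} [Field K] [IsAlgClosed K] [CharP K p] [Field L]
  [Algebra K L] {D : Dat p K} {t x : L} {ψ : RingAut L} {τ τ' : K}

/-- The solutions `![r.1, r'.1, r.2 x, r'.2]` with `r ∈ Rep τ`, `r' ∈ Rep τ'` and
`![r.1, r'.1, r.2, r'.2 x]` with `r ∈ Rep (-τ')`, `r' ∈ Rep (-τ)` (`rep_pow`, `D.odd`, `D.rep`); the
two families are disjoint as `x` is not constant. -/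
theorem triv (h1 : τ ^ p = τ) (h1' : τ ≠ 0) (h2 : τ' ^ p = τ') (h2' : τ' ≠ 0)
    (hx : ∀ c : K, x ≠ algebraMap K L c) (hψ : ψ ∈ Fr p K x) :
    ∃ T ⊆ {s ∈ D.Sig (sd D.s τ τ') x | ∀ i, ψ (s i) = s i}, T.ncard = 2 * D.e ^ 2 ∧
      ∀ s ∈ T, ∃ c : K, c ≠ 0 ∧
        (s 2 / s 3 = algebraMap K L c * x ∨ s 2 / s 3 * x = algebraMap K L c) := by
  have x0 : x ≠ 0 := by simpa using hx 0
  have inj := (algebraMap K L).injective
  have ng : ∀ {c : K}, c ^ p = c → (-c) ^ p = -c := fun h =>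
    (map_neg (frobenius K p) _).trans (congrArg _ h)
  let f1 : (K × K) × K × K → Fin 4 → L := fun q => ![algebraMap K L q.1.1, algebraMap K L q.2.1,
    algebraMap K L q.1.2 * x, algebraMap K L q.2.2]
  let f2 : (K × K) × K × K → Fin 4 → L := fun q => ![algebraMap K L q.1.1, algebraMap K L q.2.1,
    algebraMap K L q.1.2, algebraMap K L q.2.2 * x]
  have i1 : Function.Injective f1 := fun q q' h => Prod.ext
    (Prod.ext (inj (congrFun h 0)) (inj (mul_right_cancel₀ x0 (congrFun h 2))))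
    (Prod.ext (inj (congrFun h 1)) (inj (congrFun h 3)))
  have i2 : Function.Injective f2 := fun q q' h => Prod.ext
    (Prod.ext (inj (congrFun h 0)) (inj (congrFun h 2)))
    (Prod.ext (inj (congrFun h 1)) (inj (mul_right_cancel₀ x0 (congrFun h 3))))
  have fx : ∀ {c : K}, c ^ p = c → ψ (algebraMap K L c) = algebraMap K L c := fun h => by
    rw [hψ.1, h]
  have tr : ∀ {c : K} {r : K × K}, r ∈ D.Rep c → c ≠ 0 → algebraMap K L r.2 ≠ 0 ∧
      algebraMap K L r.1 * (algebraMap K L r.2 ^ D.e) ^ D.b = algebraMap K L c ∧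
      algebraMap K L (r.1 ^ D.s) * (algebraMap K L r.2 ^ D.e) ^ D.a =
        algebraMap K L (c ^ D.s) := fun hr hc =>
    ⟨(map_ne_zero _).2 (rep_ne hr hc).2, by rw [← hr.2.2]; simp, by rw [← rep_pow hr hc]; simp⟩
  refine ⟨f1 '' (D.Rep τ ×ˢ D.Rep τ') ∪ f2 '' (D.Rep (-τ') ×ˢ D.Rep (-τ)), ?_, ?_, ?_⟩
  · rintro _ (⟨q, ⟨hr, hr'⟩, rfl⟩ | ⟨q, ⟨hr, hr'⟩, rfl⟩)
    · obtain ⟨a1, a2, a3⟩ := tr hr h1'
      obtain ⟨b1, b2, b3⟩ := tr hr' h2'
      refine ⟨⟨_, hr.1, _, hr'.1, rfl, rfl, pow_ne_zero _ (mul_ne_zero a1 x0), pow_ne_zero _ b1,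
        ?_, ?_⟩, fun i => ?_⟩
      · simp only [f1, sd, Side.u, Matrix.cons_val, mul_pow]
        rw [← a2, ← b2]; ring
      · simp only [f1, sd, Side.U, Matrix.cons_val, mul_pow, mul_zpow]
        rw [← a3, ← b3]; ring
      · fin_cases i <;>
          simp [f1, hψ.2, fx hr.2.1, fx hr'.2.1, fx (D.R0 _ hr.1).1, fx (D.R0 _ hr'.1).1]
    · obtain ⟨a1, a2, a3⟩ := tr hr (neg_ne_zero.2 h2')
      obtain ⟨b1, b2, b3⟩ := tr hr' (neg_ne_zero.2 h1')
      rw [D.odd.neg_pow, map_neg] at a3 b3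
      rw [map_neg] at a2 b2
      refine ⟨⟨_, hr.1, _, hr'.1, rfl, rfl, pow_ne_zero _ a1, pow_ne_zero _ (mul_ne_zero b1 x0),
        ?_, ?_⟩, fun i => ?_⟩
      · simp only [f2, sd, Side.u, Matrix.cons_val, mul_pow]
        linear_combination a2 - (x ^ D.e) ^ D.b * b2
      · simp only [f2, sd, Side.U, Matrix.cons_val, mul_pow, mul_zpow]
        linear_combination a3 - (x ^ D.e) ^ D.a * b3
      · fin_cases i <;>
          simp [f2, hψ.2, fx hr.2.1, fx hr'.2.1, fx (D.R0 _ hr.1).1, fx (D.R0 _ hr'.1).1]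
  · have rp : ∀ c : K, c ^ p = c → c ≠ 0 → (D.Rep c).ncard = D.e := D.rep
    rw [Set.ncard_union_eq ?_ (((D.rep_fin _).prod (D.rep_fin _)).image _)
      (((D.rep_fin _).prod (D.rep_fin _)).image _), Set.ncard_image_of_injective _ i1,
      Set.ncard_image_of_injective _ i2, Set.ncard_prod, Set.ncard_prod, rp _ h1 h1', rp _ h2 h2',
      rp _ (ng h1) (neg_ne_zero.2 h1'), rp _ (ng h2) (neg_ne_zero.2 h2')]
    · ring
    · rw [Set.disjoint_left]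
      rintro _ ⟨q, ⟨hr, -⟩, rfl⟩ ⟨q', -, h⟩
      have h3 : algebraMap K L q'.1.2 = algebraMap K L q.1.2 * x := congrFun h 2
      exact hx (q'.1.2 / q.1.2) (by
        rw [map_div₀, h3, mul_div_cancel_left₀ _ (tr hr h1').1])
  · rintro _ (⟨q, ⟨hr, hr'⟩, rfl⟩ | ⟨q, ⟨hr, hr'⟩, rfl⟩)
    · exact ⟨q.1.2 / q.2.2, div_ne_zero (rep_ne hr h1').2 (rep_ne hr' h2').2, .inl (by
        simp only [f1, Matrix.cons_val, map_div₀]; ring)⟩
    · have := (tr hr' (neg_ne_zero.2 h1')).1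
      exact ⟨q.1.2 / q.2.2, div_ne_zero (rep_ne hr (neg_ne_zero.2 h2')).2
        (rep_ne hr' (neg_ne_zero.2 h1')).2, .inr (by
        simp only [f2, Matrix.cons_val, map_div₀]; field_simp)⟩

/-- The solution `![1, 1, y, z]` (`D.R1`, `sd_one`) is fixed and is not trivial: otherwise
`(y / z) ^ e` and `x ^ e` have the same stabiliser. So `2 e ^ 2 < e ^ 2 m` (`cov_x`, `sig_card`). -/
theorem fin (h1' : τ ≠ 0) (h2' : τ' ≠ 0) (h : D.AE (sd D.s τ τ') t) (hM : D.Mc (sd D.s τ τ') t)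
    (hG : Goal D.a D.b D.e p (sd D.s τ τ') t) : 2 < D.m := by
  obtain ⟨ψ, hψ, x, y, z, hx, hT, e1, e2, e3, g, hg, hn⟩ := hG
  have hψ' : ψ ∈ Fr p K x := ⟨hψ.1, e1⟩
  obtain ⟨T, hTs, hc, hT'⟩ := triv (D := D) (τ := τ) (τ' := τ') h.ge.rt.τ h1' h.ge.rt.τ' h2'
    (cov_x D.hab h.ge.cov hx).1.nconst hψ'
  have hf := (D.sig_card hx).1.subset (Set.sep_subset _ fun s => ∀ i, ψ (s i) = s i)
  have hs : ![algebraMap K L 1, algebraMap K L 1, y, z] ∈
      {s ∈ D.Sig (sd D.s τ τ') x | ∀ i, ψ (s i) = s i} :=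
    ⟨⟨1, D.R1, 1, D.R1, rfl, rfl, by rw [sd_one]; exact hT⟩, fun i => by
      fin_cases i <;> simp [e2, e3]⟩
  have hne : ![algebraMap K L 1, algebraMap K L 1, y, z] ∉ T := fun hh => by
    obtain ⟨c, c0, hc⟩ := hT' _ hh
    have c1 : algebraMap K L c ^ D.e ≠ 0 := pow_ne_zero _ ((map_ne_zero _).2 c0)
    have c2 : g (algebraMap K L c ^ D.e) = algebraMap K L c ^ D.e := by rw [map_pow, hg.1]
    simp only [Matrix.cons_val] at hc
    refine hn ?_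
    rcases hc with hc | hc
    · rw [hc, mul_pow, map_mul, c2, mul_right_inj' c1]
    · have x0 : x ≠ 0 := fun h0 => hx.1 (by rw [h0, zero_pow D.e_pos.ne'])
      rw [eq_div_of_mul_eq x0 hc, div_pow, map_div₀, c2, div_eq_mul_inv, div_eq_mul_inv,
        mul_right_inj' c1, inv_inj]
  have h3 := Set.ncard_lt_ncard (s := T) ⟨hTs, fun hh => hne (hh hs)⟩ hf
  have h4 : fixN ψ (D.Sig (sd D.s τ τ') x) = _ := hM x hx ψ hψ'
  rw [fixN] at h4
  rw [hc, h4, mul_comm] at h3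
  exact lt_of_mul_lt_mul_left h3 (Nat.zero_le _)

end Pool.Agent.NW.Dat
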