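import Pool.Agent.Lib.MP_d40963_nt.W.Unit

/-! The number of fixed solutions is constant. -/

namespace Pool.Agent.NW.Dat

variable {p : ℕ} [Fact p.Prime] {K L : Type} [Field K] [IsAlgClosed K] [CharP K p] [Field L]
  [Algebra K L] {D : Dat p K} {t : L} {τ τ' x0 : K}

/-- `U = x1 ^ s - τ' ^ s` with `x1 = τ (x0 ^ e) ^ b` (`D.key`), nonzero by `D.inj` -/
theorem base_sh (h1 : τ ^ p = τ) (h2 : τ' ^ p = τ') (h3 : x0 ^ p = x0) (h0 : x0 ≠ 0)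
    (hu : (sd D.s τ τ').u D.b (x0 ^ D.e) ≠ 0) :
    (sd D.s τ τ').U D.a (x0 ^ D.e) = (τ * (x0 ^ D.e) ^ D.b) ^ D.s - τ' ^ D.s ∧
      Sh D.a D.b (sd D.s τ τ') ((sd D.s τ τ').U D.a (x0 ^ D.e) ^ D.b /
        (sd D.s τ τ').u D.b (x0 ^ D.e) ^ D.a) (x0 ^ D.e) := by
  have e1 : (sd D.s τ τ').U D.a (x0 ^ D.e) = (τ * (x0 ^ D.e) ^ D.b) ^ D.s - τ' ^ D.s := by
    rw [mul_pow, D.key x0 h3 h0]; rfl
  refine ⟨e1, pow_ne_zero _ h0, hu, fun h => hu (sub_eq_zero.2 (D.inj _ _ ?_ h2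
    (sub_eq_zero.1 (e1 ▸ h)))), div_mul_cancel₀ _ (zpow_ne_zero _ hu)⟩
  show (τ * (x0 ^ D.e) ^ D.b) ^ p = τ * (x0 ^ D.e) ^ D.b
  rw [mul_pow, h1, pow_right_comm, pow_right_comm x0, h3]

/-- If a coordinate vanishes then `w2 = w1 ^ s`. If `q` is critical, `ρ = q.1 / q.2` has
`ρ ^ s = ρ`, so `ρ ^ (e d) = 1` by `D.key`, and `w2 = v w1 ^ s`. Finally
`((w1 ^ s) ^ e) ^ b = (w1 ^ e) ^ a` by `D.key`. -/
theorem bad_val {w1 w2 : K} {q : K × K} (hq : q ∈ Sol p D.s w1 w2) (h1 : w1 ≠ 0)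
    (hb : q.1 = 0 ∨ q.2 = 0 ∨ Cq D.s q) : ∃ ρ v : K, ρ ^ (D.e * dd D.a D.b) = 1 ∧
      (v = 1 ∨ v = (ρ - 1) / (ρ - 1) ^ D.s) ∧ (w2 ^ D.b / w1 ^ D.a) ^ D.e = (v ^ D.b) ^ D.e := by
  obtain ⟨r1, r2, e1, e2⟩ := hq
  have hw : w1 ^ p = w1 := by rw [← e1, sub_pow_char, r1, r2]
  have k : ∀ v, w2 = v * w1 ^ D.s → (w2 ^ D.b / w1 ^ D.a) ^ D.e = (v ^ D.b) ^ D.e := by
    rintro v rfl
    have : ((w1 ^ D.s) ^ D.b) ^ D.e = ((w1 ^ D.e) ^ D.b) ^ D.s := by ring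
    rw [mul_pow, mul_div_assoc, mul_pow, div_pow, ← zpow_natCast (w1 ^ D.a), ← zpow_mul, mul_comm D.a,
      zpow_mul, zpow_natCast, ← D.key w1 hw h1, this,
      div_self (pow_ne_zero _ (pow_ne_zero _ (pow_ne_zero _ h1))), mul_one]
  have s0 : D.s ≠ 0 := D.odd.pos.ne'
  by_cases z1 : q.1 = 0
  · refine ⟨1, 1, one_pow _, .inl rfl, k _ ?_⟩
    rw [← e1, ← e2, z1, zero_pow s0, zero_sub, zero_sub, D.odd.neg_pow, one_mul]
  by_cases z2 : q.2 = 0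
  · refine ⟨1, 1, one_pow _, .inl rfl, k _ ?_⟩
    rw [← e1, ← e2, z2, zero_pow s0, sub_zero, sub_zero, one_mul]
  have hc : q.1 * q.2 ^ D.s = q.1 ^ D.s * q.2 := (hb.resolve_left z1).resolve_left z2
  have r0 : q.1 / q.2 ≠ 0 := div_ne_zero z1 z2
  have hρ : (q.1 / q.2) ^ D.s = q.1 / q.2 := by
    rw [div_pow, div_eq_div_iff (pow_ne_zero _ z2) z2, hc]
  have e3 : q.1 / q.2 - 1 = w1 / q.2 := by rw [← e1, sub_div, div_self z2]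
  refine ⟨q.1 / q.2, _, ?_, .inr rfl, k _ ?_⟩
  · have := D.key (q.1 / q.2) (by rw [div_pow, r1, r2]) r0
    rw [pow_right_comm, pow_right_comm (q.1 / q.2), hρ] at this
    rw [pow_mul, ← zpow_natCast _ (dd _ _), D.hab.dd_eq, zpow_sub₀ (pow_ne_zero _ r0), zpow_natCast,
      this, div_self (zpow_ne_zero _ (pow_ne_zero _ r0))]
  · rw [e3, div_pow, ← e2]
    field_simp
    linear_combination -hc + q.2 ^ D.s * e1

/-- At most `e d + 1` values `v`, `e` values `t0` for each, `2 |a| b` points for each `t0`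
(`sh_card` with `L = K`), `e` roots `x0` for each; besides `0` and the `e b` zeros of `u`. -/
theorem bad_ex (h1 : τ ^ p = τ) (h1' : τ ≠ 0) (h2 : τ' ^ p = τ') (h2' : τ' ≠ 0) :
    ∃ bad : Finset K, bad.card ≤ D.H ∧ ∀ x0 : K, x0 ^ p = x0 → x0 ∉ bad → x0 ≠ 0 ∧
      (sd D.s τ τ').u D.b (x0 ^ D.e) ≠ 0 ∧ ∀ q ∈ Sol p D.s ((sd D.s τ τ').u D.b (x0 ^ D.e))
        ((sd D.s τ τ').U D.a (x0 ^ D.e)), q.1 ≠ 0 ∧ q.2 ≠ 0 ∧ ¬ Cq D.s q := by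
  have e0 := D.e_pos
  have b0 := D.hab.b0
  have hB := env_card (env_root (L := K) (Nat.mul_pos e0 D.hab.d0) 1) fun ρ _ =>
    env_card (A := {1, (ρ - 1) / (ρ - 1) ^ D.s}) ⟨Set.toFinite _,
      (Set.ncard_insert_le _ _).trans (congrArg (· + 1) (Set.ncard_singleton _)).le⟩ fun v _ =>
      env_card (env_root e0 ((v ^ D.b) ^ D.e)) fun t0 _ =>
        env_card (sh_card D.hab (sd_ok D.s h1' h2') t0) fun X _ => env_root e0 X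
  have hU := env_card (env_root (L := K) b0 (τ' / τ)) fun X _ => env_root e0 X
  refine ⟨((hB.1.union hU.1).insert 0).toFinset, ?_, fun x0 h3 hb => ?_⟩
  · rw [← Set.ncard_eq_toFinset_card _ ((hB.1.union hU.1).insert 0)]
    refine (Set.ncard_insert_le _ _).trans ((Nat.succ_le_succ ((Set.ncard_union_le _ _).trans
      (add_le_add hB.2 hU.2))).trans ?_)
    obtain ⟨n, hn⟩ : ∃ n, n = D.a.natAbs + D.b := ⟨_, rfl⟩
    have d1 : dd D.a D.b ≤ n := by have := D.hab.dd_eq; omega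
    have a1 : D.a.natAbs ≤ n := by omega
    have b1 : D.b ≤ n := by omega
    have m1 : 1 ≤ D.e * n := Nat.mul_pos e0 (by omega)
    rw [Dat.H, ← hn]
    calc _ ≤ D.e * n * (2 * (D.e * (2 * (n * n) * D.e))) + n * D.e + 1 := by
          rw [Nat.succ_eq_add_one]; gcongr
      _ = 4 * (D.e * n) ^ 3 + (D.e * n) ^ 1 + (D.e * n) ^ 0 := by ring
      _ ≤ 4 * (D.e * n) ^ 4 + (D.e * n) ^ 4 + (D.e * n) ^ 4 := by gcongr <;> omega
      _ ≤ _ := by omega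
  · rw [Set.Finite.mem_toFinset, Set.mem_insert_iff, Set.mem_union, not_or, not_or] at hb
    have hu : (sd D.s τ τ').u D.b (x0 ^ D.e) ≠ 0 := fun h => hb.2.2
      (Set.mem_biUnion (x := x0 ^ D.e) ((eq_div_iff h1').2
        ((mul_comm _ _).trans (sub_eq_zero.1 h))) rfl)
    refine ⟨hb.1, hu, fun q hq => ?_⟩
    by_contra hn
    obtain ⟨ρ, v, k1, k2, k3⟩ := bad_val hq hu (by tauto)
    exact hb.2.1 (Set.mem_biUnion (x := ρ) k1 (Set.mem_biUnion (x := v) k2 (Set.mem_biUnion k3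
      (Set.mem_biUnion (x := x0 ^ D.e) (base_sh h1 h2 h3 hb.1 hu).2 rfl))))

/-- `Dat.cheb` (W/Mc0) with `bad_ex`. At a good point use `base_sh`, `UP.good` and `D.nm` (a solution
`(y, -y)` is critical as `s` is odd). -/
theorem AE.mc (hp : 12544 * D.H ^ 29 < p) (h1' : τ ≠ 0) (h2' : τ' ≠ 0)
    (h : D.AE (sd D.s τ τ') t) : D.Mc (sd D.s τ τ') t := by
  have h1 : τ ^ p = τ := h.ge.rt.τ
  have h2 : τ' ^ p = τ' := h.ge.rt.τ'
  obtain ⟨bad, hb, hg⟩ := bad_ex (D := D) h1 h1' h2 h2'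
  refine fun x hx => D.cheb h.ge hp hx bad hb fun x0 h3 hn l ψ hψ hf => ?_
  obtain ⟨h0, hu, hq⟩ := hg x0 h3 hn
  obtain ⟨e1, e2⟩ := base_sh h1 h2 h3 h0 hu
  rw [UP.good ⟨⟨h, hx, hψ, hf⟩, l.apc, e2⟩ hq]
  rw [e1] at hq ⊢
  refine congrArg _ (D.nm (τ * (x0 ^ D.e) ^ D.b) τ' ?_ h2 (sub_ne_zero.1 hu) fun y hy =>
    (hq _ hy).2.2 ?_)
  · rw [mul_pow, h1, pow_right_comm, pow_right_comm x0, h3]
  · show y * (-y) ^ D.s = y ^ D.s * -y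
    rw [D.odd.neg_pow]; ring

end Pool.Agent.NW.Dat
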