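import Pool.Agent.Lib.MP_d40963_nt.W.Unit

/-! Negative exponents: the place `x = 0`. -/

namespace Pool.Agent.NW.Dat

variable {p : ℕ} [Fact p.Prime] {K L : Type} [Field K] [IsAlgClosed K] [CharP K p] [Field L]
  [Algebra K L] {D : Dat p K} {t x Y : L} {P : Pl K L} {ψ : RingAut L}
  {r r' : K × K} {c c' : K} {s : Fin 4 → L} {n : ℕ}

theorem ne_ctx_neg (ha : D.a < 0) (hn : 0 < n) : D.a * D.e * n < 0 :=
  mul_neg_of_neg_of_pos (mul_neg_of_neg_of_pos ha (by exact_mod_cast D.e_pos))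
    (by exact_mod_cast hn)

/-- `u (X)` has residue `-1`, and `U (X) = X ^ a - 1` has a pole with coefficient `1` -/
theorem ne_ctx (ha : D.a < 0) (h : D.At std t x P ψ) (hn : 0 < n) (hx : P.Ap x n 1) :
    P.Ap ((std : Side K).u D.b (x ^ D.e)) 0 (-1) ∧
      P.Ap ((std : Side K).U D.a (x ^ D.e)) (D.a * D.e * n) 1 ∧
      ∃ (N : ℕ) (c : K), 0 < N ∧ c ≠ 0 ∧ P.Ap t⁻¹ N c := by
  have h0 := ne_ctx_neg ha hn
  have h1 := Pl.pow hx D.e
  have h2 := ap_u (std : Side K) D.b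
    (Pl.lt h1 (mul_pos (by exact_mod_cast D.e_pos) (by exact_mod_cast hn)))
  rw [Side.u_self, zero_pow D.hab.b0.ne', mul_zero, zero_sub] at h2
  have h3 := Pl.smul 1 (Pl.zpow h1 (by simp) D.a)
  rw [← mul_assoc, one_pow, one_zpow, one_mul] at h3
  have h4 := Pl.sub h3 (Pl.lt (P.const 1) h0)
  rw [sub_zero] at h4
  refine ⟨h2, h4, ?_⟩
  have h5 := Pl.div (Pl.zpow h2 (by simp [std]) D.a) (Pl.pow h4 D.b) (by simp)
  have h6 : 0 < D.a * 0 - D.b * (D.a * D.e * n) := by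
    have : (0 : ℤ) < D.b := by exact_mod_cast D.hab.b0
    nlinarith
  generalize D.a * 0 - D.b * (D.a * D.e * n) = m at h5 h6
  lift m to ℕ using h6.le
  refine ⟨m, _, by exact_mod_cast h6, ?_, by rw [h.sh.t_eq, inv_div]; exact h5⟩
  exact div_ne_zero (zpow_ne_zero _ (by simp [std])) (by simp)

/-- If `W / Z` is near `0` then `Z` is a unit with `τ' z0 ^ b = 1` (`Tri.ordZ`, `Tri.u`), and
`σ W ^ a = U (X) + σ' Z ^ a` has leading coefficient `1`. -/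
theorem ne_zero {γ : Side K} (hγ : γ.Ok) (ha : D.a < 0) (h : D.At std t x P ψ) (hn : 0 < n)
    (hx : P.Ap x n 1) {W Z : L} (hT : Tri D.a D.b std γ (x ^ D.e) W Z) (hY : P.Ap (W / Z) 0 0)
    {w0 z0 : K} (hW : P.Lc W w0) (hZ : P.Lc Z z0) :
    γ.τ' * z0 ^ D.b = 1 ∧ γ.σ * w0 ^ D.a = 1 := by
  obtain ⟨h1, h2, -⟩ := ne_ctx ha h hn hx
  have h3 := ap_u γ D.b hY
  rw [Side.u_self, zero_pow D.hab.b0.ne', mul_zero, zero_sub] at h3
  have h4 := neg_ne_zero.2 hγ.τ'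
  constructor
  · have h5 := (hZ.pow D.b).mul ⟨h4, 0, h3⟩
    rw [hT.u] at h5
    linear_combination -h5.of_ap h1 (by simp)
  · obtain ⟨m, c, a1, a2, a3⟩ := hT.ordZ D.hab h1 h3 (by simp) h4
    obtain rfl : m = 0 := (mul_eq_zero.1 (a3.trans (sub_zero 0))).resolve_left
      (by exact_mod_cast D.hab.b0.ne')
    have h5 := Pl.smul γ.σ' (Pl.zpow a2 a1 D.a)
    rw [mul_zero] at h5
    have h6 := P.add h2 (Pl.lt h5 (ne_ctx_neg ha hn))
    rw [← hT.2.2.2, sub_add_cancel, add_zero] at h6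
    exact ((P.lc_const hγ.σ).mul (hW.zpow D.a)).of_ap h6 one_ne_zero

/-- `clsI`, `ne_zero` (for a pole use `tri_flip`), `rep_pow`, `D.inj` -/
theorem ne_up (ha : D.a < 0) (h : D.At std t x P ψ) (hn : 0 < n) (hx : P.Ap x n 1)
    (hr : r ∈ D.Rep c) (hr' : r' ∈ D.Rep c') (hs : s ∈ D.FxR std x P ψ r r') :
    (c = 1 ∧ c' = 1 ∧ P.Ap ((s 2 / s 3) ^ D.e) 0 0) ∨
      (c = -1 ∧ c' = -1 ∧ P.Ap ((s 2 / s 3) ^ D.e)⁻¹ 0 0) := by
  obtain ⟨-, -, N, k, a1, -, a2⟩ := ne_ctx ha h hn hx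
  obtain ⟨b1, b2, -⟩ := h.fxr_tri hs
  have ok := (rep_ok hr hr').1
  have l2 := hs.2.2.2.2.1.pow D.e
  have l3 := hs.2.2.2.2.2.pow D.e
  have hc : c ≠ 0 := hr.2.2 ▸ mul_ne_zero ok.τ (pow_ne_zero _ l2.1)
  have hc' : c' ≠ 0 := hr'.2.2 ▸ mul_ne_zero ok.τ' (pow_ne_zero _ l3.1)
  rcases clsI D.hab ok ha (Pl.lt a2 (by exact_mod_cast a1)) b2 with e | e
  · obtain ⟨d1, d2⟩ := ne_zero ok ha h hn hx b1 (by rw [← div_pow]; exact e) l2 l3
    refine Or.inl ⟨D.inj _ _ (rep_rat hr) (one_pow p) ?_, hr'.2.2.symm.trans d1, e⟩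
    rw [← rep_pow hr hc, one_pow]
    exact d2
  · obtain ⟨d1, d2⟩ := ne_zero ok.flip ha h hn hx (tri_flip.2 b1)
      (by rw [← inv_div, ← div_pow]; exact e) l3 l2
    refine Or.inr ⟨?_, D.inj _ _ (rep_rat hr') (neg_one_pow_char K p) ?_, e⟩
    · rw [← hr.2.2]
      change -r.1 * _ = 1 at d1
      linear_combination -d1
    · rw [← rep_pow hr' hc', D.odd.neg_one_pow]
      change -r'.1 ^ D.s * _ = 1 at d2
      linear_combination -d2

/-- `At.count_up` with `A = {(1, 1), (-1, -1)}`, `w = 1`; `At.fxr_le` with the set of sheets near `0`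
(or with a pole) with the given leading coefficient, which has at most one element (`tO'`, `tI'`,
`Cel.lc`, `Cel.card`) -/
theorem neg (ha : D.a < 0) (h : D.AE (std : Side K) t) (hM : D.Mc (std : Side K) t) :
    D.m ≤ 2 := by
  classical
  obtain ⟨x, P, ψ, n, hA, hn, hx⟩ := h.at_ex (x0 := 0) (zero_pow (Fact.out : p.Prime).ne_zero)
  rw [map_zero, sub_zero] at hx
  obtain ⟨-, -, N, c, hN, hc, ht⟩ := ne_ctx ha hA hn hx
  have h2 : (1 : K) ≠ -1 := fun e => D.hab.two (by linear_combination e)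
  have h3 := hA.count_up {(1, 1), (-1, -1)} (fun _ => 1) (fun q hq => by
    have : (-1 : K) ^ p = -1 := (map_neg (frobenius K p) 1).trans (by simp)
    rcases Finset.mem_insert.1 hq with rfl | hq
    · simp
    · rw [Finset.mem_singleton.1 hq]; simp [this]) (fun c c' r r' hr hr' ⟨s, hs⟩ => by
    rcases ne_up ha hA hn hx hr hr' hs with ⟨rfl, rfl, -⟩ | ⟨rfl, rfl, -⟩ <;> simp)
    fun q hq r hr r' hr' => by
      have ok := (rep_ok hr hr').1
      have sp := h.spl _ hr.1 _ hr'.1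
      refine (hA.fxr_le (T := (fun s : Fin 4 → L => (s 2 / s 3) ^ D.e) '' D.FxR std x P ψ r r')
        (hA.fxr_fin.image _) fun s hs => ⟨s, hs, rfl⟩).trans
        ((Set.ncard_le_one (hA.fxr_fin.image _)).2 ?_)
      rintro _ ⟨s, hs, rfl⟩ _ ⟨s', hs', rfl⟩
      obtain ⟨-, a1, a2⟩ := hA.fxr_tri hs
      obtain ⟨-, b1, b2⟩ := hA.fxr_tri hs'
      rcases ne_up ha hA hn hx hr hr' hs with ⟨e1, -, a3⟩ | ⟨e1, -, a3⟩ <;>
        rcases ne_up ha hA hn hx hr hr' hs' with ⟨e2, -, b3⟩ | ⟨e2, -, b3⟩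
      · exact (tO' D.hab ok sp.1 ha ht hN hc).lc ⟨a1, a3⟩ ⟨b1, b3⟩ (by simpa using a2)
          (by simpa using b2)
      · exact absurd (e1.symm.trans e2) h2
      · exact absurd (e2.symm.trans e1) h2
      · exact inv_injective ((tI' D.hab ok sp ha ht hN hc).lc (nrI_iff.1 ⟨a1, a3⟩)
          (nrI_iff.1 ⟨b1, b3⟩) (by simpa using a2.inv) (by simpa using b2.inv))
  rw [hM x hA.sh ψ hA.fr] at h3
  refine (Nat.le_of_mul_le_mul_left h3 (pow_pos D.e_pos 2)).trans ?_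
  simpa using Finset.card_le_two

end Pool.Agent.NW.Dat
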