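import Pool.Agent.Lib.MP_d40963_nt.Nice

/-! Exponents that are congruent to `1` modulo `(p - 1) / e` with `e` small are not nice. -/

namespace Pool.Agent.NW

open Finset Pool.Agent.Lib.MP_d40963_nt

theorem one_sum {F : Type} [Field F] [Fintype F] [DecidableEq F] (χ : F →*₀ F) (hm : χ (-1) = 1)
    (h3 : 3 * (univ.filter fun y => χ y = 1 ∧ χ (1 + y) ≠ χ 2).card <
      (univ.filter fun y => χ y = 1).card) (h2 : (2 : F) ≠ 0) {h : F} (hh : χ h = 1)
    (h1 : 1 + h ≠ 0) : χ (1 + h) = χ 2 ^ 2 := by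
  have h0 : h ≠ 0 := fun e => by simp [e] at hh
  have hc : χ 2 ≠ 0 := (map_ne_zero χ).2 h2
  set B := univ.filter fun y => χ y = 1 ∧ χ (1 + y) ≠ χ 2 with hB
  have a1 : (univ.filter fun y => -y / h ∈ B).card ≤ B.card :=
    card_le_card_of_injOn (fun y => -y / h) (fun y hy => (mem_filter.1 hy).2)
      fun y _ z _ e => neg_injective ((div_left_inj' h0).1 e)
  have a2 : (univ.filter fun y => (1 + h) / (1 + y) - 1 ∈ B).card ≤ B.card :=
    card_le_card_of_injOn (fun y => (1 + h) / (1 + y) - 1) (fun y hy => (mem_filter.1 hy).2)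
      fun y _ z _ e => add_left_cancel (inv_injective (mul_left_cancel₀ h1
        (by simpa only [div_eq_mul_inv, sub_left_inj] using e)))
  obtain ⟨y, hy, hn⟩ := exists_mem_notMem_of_card_lt_card (s := B ∪ (univ.filter fun y =>
    -y / h ∈ B) ∪ univ.filter fun y => (1 + h) / (1 + y) - 1 ∈ B)
    (((card_union_le _ _).trans (add_le_add (card_union_le _ _) a2)).trans_lt
      (lt_of_le_of_lt (by omega) h3))
  simp only [mem_union, hB, mem_filter, mem_univ, true_and, not_or, not_and, not_not] at hy hn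
  obtain ⟨⟨b1, b2⟩, b3⟩ := hn
  replace b1 := b1 hy
  replace b2 := b2 (by rw [map_div₀, neg_eq_neg_one_mul, map_mul, hm, hy, hh]; simp)
  have b4 : 1 + y ≠ 0 := fun e => hc (by rw [← b1, e, map_zero])
  have b5 := b3 (by
    rw [show (1 + h) / (1 + y) - 1 = h * (1 + -y / h) / (1 + y) by field_simp; ring, map_div₀,
      map_mul, hh, b2, b1, one_mul, div_self hc])
  rwa [add_sub_cancel, map_div₀, b1, div_eq_iff hc, ← sq] at b5

theorem one_one (p : ℕ) [Fact p.Prime] (s e : ℕ) (hs : s.Coprime (p - 1))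
    (h1 : ¬ s ≡ 1 [MOD p - 1]) (he : 0 < e) (hes : e * s ≡ e [MOD p - 1]) (hp : 100 * e ^ 4 < p) :
    ¬ (Set.range fun v : ZMod p => Nv s v).ncard ≤ 3 := by
  intro hn
  have e1 : e ≤ e ^ 4 := Nat.le_self_pow (by norm_num) _
  have e3 : e ^ 3 ≤ e ^ 4 := Nat.pow_le_pow_right he (by norm_num)
  have e2 : e ^ 2 ≤ e ^ 4 := Nat.pow_le_pow_right he (by norm_num)
  have hodd : Odd s := (hs.coprime_dvd_right (even_iff_two_dvd.1 ((Fact.out : p.Prime).even_sub_one
    (by omega)))).odd_of_right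
  have hs0 : s ≠ 0 := hodd.pos.ne'
  have hc : Fintype.card (ZMod p) = p := ZMod.card p
  have h2 : (2 : ZMod p) ≠ 0 := fun h => by
    have := Nat.le_of_dvd two_pos ((ZMod.natCast_eq_zero_iff 2 p).1 h)
    omega
  let χ : ZMod p →*₀ ZMod p :=
    { toFun := fun x => x ^ s / x
      map_zero' := div_zero _
      map_one' := by simp
      map_mul' := fun x y => by rw [mul_pow, mul_div_mul_comm] }
  have hχ : ∀ x, x ^ s = χ x * x := fun x => by
    rcases eq_or_ne x 0 with rfl | hx
    · simp [hs0]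
    · exact (div_mul_cancel₀ _ hx).symm
  obtain ⟨μ, hμ, m1⟩ : ∃ μ : Finset (ZMod p), μ.card ≤ e + 1 ∧ ∀ x, χ x ∈ μ := by
    refine ⟨insert 0 (Polynomial.nthRoots e 1).toFinset, (card_insert_le _ _).trans
      (Nat.succ_le_succ ((Multiset.toFinset_card_le _).trans (Polynomial.card_nthRoots _ _))),
      fun x => ?_⟩
    rcases eq_or_ne x 0 with rfl | hx
    · simp
    refine mem_insert_of_mem (Multiset.mem_toFinset.2 ((Polynomial.mem_nthRoots he).2 ?_))
    change (x ^ s / x) ^ e = 1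
    rw [div_pow, ← pow_mul, mul_comm, pow_congr (mul_ne_zero he.ne' hs0) he.ne' (by rwa [hc]),
      div_self (pow_ne_zero _ hx)]
  let f : ZMod p → ZMod p := fun x => x ^ s + (1 - x) ^ s
  have f1 : ∀ x, χ x = χ (1 - x) → f x = χ x := fun x h => by
    simp only [f, hχ, ← h]; ring
  have f2 : ∀ v, (univ.filter fun x => χ x ≠ χ (1 - x) ∧ f x = v).card ≤ (e + 1) ^ 2 := fun v =>
    (card_le_card_of_injOn (t := μ ×ˢ μ) (fun x => (χ x, χ (1 - x)))
      (fun x _ => mem_product.2 ⟨m1 _, m1 _⟩) fun x hx y hy h => by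
        obtain ⟨a, b⟩ := Prod.mk.inj h
        obtain ⟨-, c, d⟩ := mem_filter.1 hx
        have d' := d.trans (mem_filter.1 hy).2.2.symm
        simp only [f, hχ, ← a, ← b] at d'
        exact mul_left_cancel₀ (sub_ne_zero.2 c) (by linear_combination d')).trans
      (by rw [card_product, sq]; gcongr)
  have fib : ∀ (S : Finset (ZMod p)) (g : ZMod p → ZMod p) (n : ℕ), (∀ x ∈ S, g x ∈ μ) →
      (∀ v, (S.filter fun x => g x = v).card ≤ n) → S.card ≤ (e + 1) * n := fun S g n a b => by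
    rw [card_eq_sum_card_fiberwise (t := μ) a]
    exact (sum_le_card_nsmul _ _ n fun v _ => b v).trans (Nat.mul_le_mul_right _ hμ)
  set H := univ.filter fun y => χ y = 1 with hH
  have H1 : p ≤ (e + 1) * H.card := by
    have := fib univ χ H.card (fun x _ => m1 x) fun v => by
      rcases (univ.filter fun x => χ x = v).eq_empty_or_nonempty with h | ⟨z, hz⟩
      · simp [h]
      rcases eq_or_ne z 0 with rfl | h0
      · refine (card_le_one.2 fun a ha b hb => ?_).trans (card_pos.2 ⟨1, by simp [hH]⟩)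
        have z := (mem_filter.1 hz).2.symm.trans (map_zero χ)
        exact ((map_eq_zero χ).1 ((mem_filter.1 ha).2.trans z)).trans
          ((map_eq_zero χ).1 ((mem_filter.1 hb).2.trans z)).symm
      · obtain rfl := (mem_filter.1 hz).2
        exact card_le_card_of_injOn (fun x => x / z) (fun x hx => mem_filter.2 ⟨mem_univ _, by
          rw [map_div₀, (mem_filter.1 hx).2, div_self ((map_ne_zero χ).2 h0)]⟩)
          fun _ _ _ _ h => (div_left_inj' h0).1 h
    rwa [card_univ, hc] at this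
  obtain ⟨g, g0, g1⟩ : ∃ g, g ≠ 0 ∧ χ g ≠ 1 := by
    obtain ⟨g, hg⟩ := IsCyclic.exists_ofOrder_eq_natCard (α := (ZMod p)ˣ)
    refine ⟨g, g.ne_zero, fun h => h1 ?_⟩
    rw [Nat.card_eq_fintype_card, ZMod.card_units] at hg
    rw [← hg, ← pow_eq_pow_iff_modEq, pow_one, ← Units.val_inj, Units.val_pow_eq_pow_val, hχ, h,
      one_mul]
  have H2 : 2 * H.card ≤ p := by
    have a := card_le_card_of_injOn (s := H) (t := Hᶜ) (fun x => g * x) (fun x hx => by
      simp only [hH, coe_compl, coe_filter, mem_univ, true_and, Set.mem_compl_iff,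
        Set.mem_ofPred_eq] at hx ⊢
      rwa [map_mul, hx, mul_one]) fun _ _ _ _ h => mul_left_cancel₀ g0 h
    have := card_add_card_compl H
    omega
  have v0 : f 2⁻¹ = χ 2⁻¹ := f1 _ (congrArg χ (by field_simp; ring))
  have st1 : ∀ v, f 2⁻¹ ≠ v → Nv s v ≤ (e + 1) ^ 2 := fun v hv => not_lt.1 fun hl => by
    have a1 : ∀ x, f x ∈ μ := fun x => by
      by_contra hx
      have c0 := Nv_zero hodd (pow_inj (F := ZMod p) hs0 (by rwa [hc]))
      have c1 := Nv_parity s h2 (f 2⁻¹)
      have c2 := Nv_parity s h2 v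
      have c3 := Nv_parity s h2 (f x)
      rw [if_pos rfl] at c1
      rw [if_neg hv] at c2
      rw [if_neg fun h : f 2⁻¹ = f x => hx (h ▸ v0 ▸ m1 _)] at c3
      have c4 : 0 < Nv s (f x) := by rw [Nv_eq]; exact card_pos.2 ⟨x, by simp [f]⟩
      have c5 : Nv s (f x) ≤ (e + 1) ^ 2 := by
        rw [Nv_eq]
        exact (card_le_card fun y hy => mem_filter.2 ⟨mem_univ _, fun h => hx
          (Set.mem_of_eq_of_mem (s := μ) ((mem_filter.1 hy).2.symm.trans (f1 y h)) (m1 y)),
          (mem_filter.1 hy).2⟩).trans (f2 (f x))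
      have := (Set.three_lt_ncard (Set.finite_range fun v : ZMod p => Nv s v)).2
        ⟨_, ⟨0, rfl⟩, _, ⟨f 2⁻¹, rfl⟩, _, ⟨v, rfl⟩, _, ⟨f x, rfl⟩, by simp only []; omega⟩
      omega
    have a2 := fib (univ.filter fun x => χ x ≠ χ (1 - x)) f _ (fun x _ => a1 x)
      fun v => by rw [filter_filter]; exact f2 v
    have a3 : (univ.filter fun x => ¬ χ x ≠ χ (1 - x)).card ≤ H.card := by
      have a : ∀ x, ¬ χ x ≠ χ (1 - x) → 1 - x ≠ 0 := fun x hx h => hx (by
        rw [h, ← sub_eq_zero.1 h]; simp)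
      exact card_le_card_of_injOn (fun x => x / (1 - x)) (fun x hx => mem_filter.2 ⟨mem_univ _, by
        rw [map_div₀, not_not.1 (mem_filter.1 hx).2,
          div_self ((map_ne_zero χ).2 (a x (mem_filter.1 hx).2))]⟩) fun x hx y hy h => by
        have := (div_eq_div_iff (a x (mem_filter.1 hx).2) (a y (mem_filter.1 hy).2)).1 h
        linear_combination this
    have := card_filter_add_card_filter_not (s := univ) fun x => χ x ≠ χ (1 - x)
    rw [card_univ, hc] at this
    nlinarith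
  have st2 : (univ.filter fun y => χ y = 1 ∧ χ (1 + y) ≠ χ 2).card ≤ (e + 1) * (e + 1) ^ 2 + 1 := by
    have a := fib (univ.filter fun x => χ x = χ (1 - x) ∧ f 2⁻¹ ≠ f x) f ((e + 1) ^ 2)
      (fun x hx => (f1 x (mem_filter.1 hx).2.1).symm ▸ m1 x) fun v => by
        by_cases hv : f 2⁻¹ = v
        · rw [filter_eq_empty_iff.2 fun x hx h => (mem_filter.1 hx).2.2 (hv.trans h.symm)]
          simp
        · exact (card_le_card (filter_subset_filter _ (subset_univ _))).trans
            ((Nv_eq s v).ge.trans (st1 v hv))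
    refine (card_le_card_of_injOn (fun y => (1 + y)⁻¹) (fun y hy => ?_) fun y _ z _ h =>
      add_left_cancel (inv_injective h)).trans ((card_insert_le 0 _).trans (Nat.succ_le_succ a))
    obtain ⟨-, b1, b2⟩ := mem_filter.1 hy
    rcases eq_or_ne (1 + y) 0 with h | h
    · simp [h]
    have b3 : χ (1 + y)⁻¹ = χ (1 - (1 + y)⁻¹) := by
      rw [show 1 - (1 + y)⁻¹ = y * (1 + y)⁻¹ by field_simp; ring, map_mul, b1, one_mul]
    refine mem_insert_of_mem (mem_filter.2 ⟨mem_univ _, b3, fun e => b2 ?_⟩)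
    rw [v0, f1 _ b3, map_inv₀, map_inv₀, inv_inj] at e
    exact e.symm
  have key := fun h => one_sum χ (h := h) (by
    change (-1 : ZMod p) ^ s / (-1) = 1
    rw [hodd.neg_one_pow, div_self (neg_ne_zero.2 one_ne_zero)]) (not_le.1 fun h => by
      have := H1.trans (Nat.mul_le_mul_left _ (h.trans (Nat.mul_le_mul_left 3 st2)))
      nlinarith) h2
  have k2 : χ 2 = 1 := by
    have := key 1 (map_one χ) (by rwa [one_add_one_eq_two])
    rw [one_add_one_eq_two, sq] at this
    exact (mul_eq_left₀ ((map_ne_zero χ).2 h2)).1 this.symm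
  have k3 : ∀ n : ℕ, (n : ZMod p) ≠ 0 → χ n = 1 := fun n => by
    induction n with
    | zero => simp
    | succ n ih =>
      intro h
      rw [Nat.cast_succ, add_comm] at h ⊢
      rcases eq_or_ne (n : ZMod p) 0 with h0 | h0
      · simp [h0]
      · rw [key _ (ih h0) h, k2, one_pow]
  obtain ⟨n, rfl⟩ := ZMod.natCast_zmod_surjective g
  exact g1 (k3 n g0)

end Pool.Agent.NW
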