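import Pool.Agent.Lib.MP_d40963_nt.W.Mk
import Pool.Agent.Lib.MP_d40963_nt.W.One
import Pool.Agent.Lib.MP_d40963_nt.Main

/-! Reduction of the main theorem to the statement on arithmetic data. -/

namespace Pool.Agent.NW

open Pool.Agent.Lib.MP_d40963_nt

/-- the statement on arithmetic data -/
def Core (c k : ℕ) : Prop :=
  ∀ (p : ℕ) [Fact p.Prime] (K : Type) [Field K] [IsAlgClosed K] [CharP K p] (D : Dat p K),
    c * (D.e * (D.a.natAbs + D.b)) ^ k < p → D.e = 1 ∧ (D.a = 1 ∨ D.a = -1 ∧ D.b = 1)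

variable {p : ℕ} [Fact p.Prime] {s t : ℕ}

theorem top_odd (hp : 2 < p) (hs : s.Coprime (p - 1)) : Odd s :=
  (hs.coprime_dvd_right ((Fact.out : p.Prime).even_sub_one (by omega)).two_dvd).odd_of_right

theorem top_zero (hp : 2 < p) (hs : s.Coprime (p - 1)) : Nv s (0 : ZMod p) = 0 :=
  Nv_zero (top_odd hp hs) (pow_inj (top_odd hp hs).pos.ne' (by rwa [ZMod.card]))

theorem top_inv (hp : 2 < p) (h : t * s ≡ 1 [MOD p - 1])
    (hn : (Set.range fun v : ZMod p => Nv s v).ncard ≤ 3) :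
    (Set.range fun v : ZMod p => Nv t v).ncard ≤ 3 := by
  have ht := Nat.coprime_of_mul_modEq_one s h
  have hs := Nat.coprime_of_mul_modEq_one t (mul_comm t s ▸ h)
  refine (Set.ncard_le_ncard ?_ (Set.finite_range _)).trans hn
  rintro _ ⟨w, rfl⟩
  rcases eq_or_ne w 0 with rfl | hw
  · exact ⟨0, (top_zero hp hs).trans (top_zero hp ht).symm⟩
  · refine ⟨_, (Nv_inv (fun x => ?_) hw).symm⟩
    rw [← pow_mul, pow_congr ((top_odd hp ht).mul (top_odd hp hs)).pos.ne' one_ne_zero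
      (by rwa [ZMod.card]), pow_one]

theorem top_norm {c k : ℕ} (core : Core c k) (hk : 5 ≤ k)
    (hN : ∀ a : ℕ, Odd a → 5 ≤ a → 50 * a ^ 5 ≤ p → Nv a (0 : ZMod p) = 0 →
      ¬ (Set.range fun v : ZMod p => Nv a v).ncard ≤ 3)
    (hs : s.Coprime (p - 1)) (h1 : ¬ s ≡ 1 [MOD p - 1])
    (hn : (Set.range fun v : ZMod p => Nv s v).ncard ≤ 3) {A B : ℤ} (hB : 0 < B)
    (hA : A.natAbs ≤ B.natAbs) (hp : (c + 200) * (A.natAbs + B.natAbs) ^ k < p)
    (hd : ((p - 1 : ℕ) : ℤ) ∣ B * s - A) : 3 * s ≡ 1 [MOD p - 1] ∨ s ≡ p - 2 [MOD p - 1] := by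
  obtain ⟨g, a, b, g0, cop, rfl, rfl⟩ := Int.exists_gcd_one' (Int.gcd_pos_of_ne_zero_right A hB.ne')
  lift b to ℕ using (pos_of_mul_pos_left hB (Nat.cast_nonneg g)).le
  have b0 : 0 < b := Nat.pos_of_ne_zero fun h => by simp [h] at hB
  simp only [Int.natAbs_mul, Int.natAbs_natCast, ← add_mul] at hA hp
  replace hA := Nat.le_of_mul_le_mul_right hA g0
  obtain ⟨e, he⟩ : ∃ e : ℕ, ∀ j : ℕ, ((p - 1 : ℕ) : ℤ) ∣ j * (b * s - a) ↔ e ∣ j :=
    ⟨addOrderOf ((b * s - a : ℤ) : ZMod (p - 1)), fun j => by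
      rw [addOrderOf_dvd_iff_nsmul_eq_zero, ← ZMod.intCast_zmod_eq_zero_iff_dvd, Int.cast_mul,
        Int.cast_natCast, nsmul_eq_mul]⟩
  have eg : e ≤ g := Nat.le_of_dvd g0 ((he g).1 (by rwa [mul_comm, sub_mul, mul_right_comm]))
  obtain ⟨h, hh⟩ : ∃ h, h = (a.natAbs + b) * g := ⟨_, rfl⟩
  have hb : b ≤ h := hh ▸ (Nat.le_add_left _ _).trans (Nat.le_mul_of_pos_right _ g0)
  have hg : g ≤ h := hh ▸ Nat.le_mul_of_pos_left _ (by omega)
  rw [← hh] at hp
  have m5 : h ^ 5 ≤ h ^ k := Nat.pow_le_pow_right (by omega) hk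
  have m4 : h ^ 4 ≤ h ^ 5 := Nat.pow_le_pow_right (by omega) (by norm_num)
  have m1 : h ≤ h ^ 5 := Nat.le_self_pow (by norm_num) _
  have hp' : 200 * h ^ 5 < p := by nlinarith [Nat.zero_le (c * h ^ k)]
  have e0 : 0 < e := Nat.pos_of_dvd_of_pos ((he _).1 (dvd_mul_right _ _)) (by omega)
  have a0 : a ≠ 0 := by
    rintro rfl
    obtain rfl : b = 1 := by simpa using cop
    have := Nat.le_of_dvd g0 (hs.symm.dvd_of_dvd_mul_right (k := p - 1) (m := g) (n := s)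
      (by simpa [← Int.natCast_dvd_natCast] using hd))
    omega
  by_cases hab : a = b
  · subst hab
    obtain rfl : b = 1 := by simpa using cop
    refine (one_one p s e hs h1 e0 (Nat.modEq_iff_dvd.2 (dvd_sub_comm.1 ?_))
      (lt_of_le_of_lt ?_ hp') hn).elim
    · simpa [mul_sub] using (he e).2 dvd_rfl
    · have : e ^ 4 ≤ h ^ 4 := Nat.pow_le_pow_left (eg.trans hg) 4
      omega
  obtain ⟨D, rfl, rfl, rfl, rfl⟩ := mk_dat (AlgebraicClosure (ZMod p)) hs hn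
    ⟨a0, by omega, hA, cop, fun n n0 n1 h => by
      have := Nat.le_of_dvd n0 ((CharP.cast_eq_zero_iff _ p n).1 h)
      omega⟩ he
  obtain ⟨e1, h⟩ := core p _ D (lt_of_le_of_lt (by
    rw [hh, mul_comm _ g]; gcongr; exact Nat.le_add_right _ _) hp)
  have h2 := (he 1).2 (e1 ▸ dvd_rfl)
  rcases h with h | ⟨h, h'⟩
  · have h3 : D.b * D.s ≡ 1 [MOD p - 1] :=
      Nat.modEq_iff_dvd.2 (dvd_sub_comm.1 (by simpa [h] using h2))
    have h4 := Nat.coprime_of_mul_modEq_one _ h3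
    have h5 := top_odd (by omega) h4
    by_cases h6 : D.b = 3
    · exact Or.inl (h6 ▸ h3)
    · refine (hN D.b h5 (by rw [Nat.odd_iff] at h5; omega) ?_ (top_zero (by omega) h4)
        (top_inv (by omega) h3 hn)).elim
      have := Nat.pow_le_pow_left hb 5
      omega
  · refine Or.inr (Nat.modEq_iff_dvd.2 ?_)
    rw [h, h'] at h2
    rw [show ((p - 2 : ℕ) : ℤ) - D.s = (p - 1 : ℕ) - (1 : ℕ) * ((1 : ℕ) * D.s - -1) by omega]
    exact dvd_sub dvd_rfl h2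

theorem top {c k : ℕ} (core : Core c k) (hk : 5 ≤ k) :
    ∃ C : ℕ, ∀ p : ℕ, p.Prime → C ≤ p → ∀ s : ℕ, Nat.Coprime s (p - 1) →
      ¬ (s ≡ 1 [MOD p - 1]) →
      (Set.range (fun v : ZMod p =>
          Nat.card {xy : ZMod p × ZMod p //
            xy.1 + xy.2 = 1 ∧ xy.1 ^ s + xy.2 ^ s = v})).ncard ≤ 3 →
      ∀ A B : ℤ, B ≠ 0 → (|A| + |B|) ^ (k + 1) ≤ p → B * s ≡ A [ZMOD p - 1] →
      ((s ≡ 3 [MOD p - 1] ∨ 3 * s ≡ 1 [MOD p - 1]) ∨
       (s ≡ p - 2 [MOD p - 1] ∨ (p - 2) * s ≡ 1 [MOD p - 1])) := by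
  obtain ⟨N, hN⟩ := not_nice
  refine ⟨N + 3 + (c + 200) ^ (k + 1), fun p hp hC s hs h1 hn A B hB hh hd => ?_⟩
  have : Fact p.Prime := ⟨hp⟩
  have h0 : 0 < A.natAbs + B.natAbs := by omega
  have h2 : (c + 200) * (A.natAbs + B.natAbs) ^ k < p := by
    rw [← Int.natCast_natAbs, ← Int.natCast_natAbs] at hh
    norm_cast at hh
    rcases le_or_gt (A.natAbs + B.natAbs) (c + 200) with h | h
    · exact lt_of_le_of_lt (by rw [pow_succ']; gcongr) (show (c + 200) ^ (k + 1) < p by omega)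
    · exact lt_of_lt_of_le (by rw [pow_succ']; gcongr) hh
  have key : ∀ s : ℕ, s.Coprime (p - 1) → ¬ s ≡ 1 [MOD p - 1] →
      (Set.range fun v : ZMod p => Nv s v).ncard ≤ 3 → ∀ A B : ℤ, B ≠ 0 → A.natAbs ≤ B.natAbs →
      (c + 200) * (A.natAbs + B.natAbs) ^ k < p → ((p - 1 : ℕ) : ℤ) ∣ B * s - A →
      3 * s ≡ 1 [MOD p - 1] ∨ s ≡ p - 2 [MOD p - 1] := fun s hs h1 hn A B hB hA h2 hd => by
    rcases lt_or_gt_of_ne hB with h | h
    · exact top_norm core hk (hN p (by omega)) hs h1 hn (A := -A) (B := -B) (by omega)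
        (by simpa using hA) (by simpa using h2) (by
          rw [show -B * s - -A = -(B * s - A) by ring]; exact hd.neg_right)
    · exact top_norm core hk (hN p (by omega)) hs h1 hn h hA h2 hd
  have h3 : ((p - 1 : ℕ) : ℤ) ∣ B * s - A := by
    rw [Nat.cast_sub hp.one_le]; exact hd.symm.dvd
  rcases le_total A.natAbs B.natAbs with h | h
  · exact (key s hs h1 hn A B hB h h2 h3).elim (fun h => .inl (.inr h)) fun h => .inr (.inl h)
  · obtain ⟨t, -, ht⟩ := Nat.exists_mul_mod_eq_one_of_coprime hs (show 1 < p - 1 by omega)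
    have h4 : t * s ≡ 1 [MOD p - 1] := by
      rw [mul_comm, Nat.ModEq, ht, Nat.mod_eq_of_lt (by omega)]
    have h5 := key t (Nat.coprime_of_mul_modEq_one s h4)
      (fun h => h1 (by simpa using (h.mul_right s).symm.trans h4)) (top_inv (by omega) h4 hn) B A
      (by omega) h (by rwa [add_comm B.natAbs]) (by
        have := Nat.modEq_iff_dvd.1 h4
        rw [show A * t - B = -(t * (B * s - A)) - B * ((1 : ℕ) - (t * s : ℕ)) by push_cast; ring]
        exact dvd_sub (h3.mul_left _).neg_right (this.mul_left _))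
    rcases h5 with h5 | h5
    · refine .inl (.inl ?_)
      have := (h5.mul_right s).symm.trans (mul_assoc 3 t s ▸ h4.mul_left 3)
      simpa using this
    · exact .inr (.inr ((h5.mul_right s).symm.trans h4))

end Pool.Agent.NW
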