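import Pool.Agent.Lib.MP_d40963_nt.W.Sel
import Pool.Agent.Lib.MP_d40963_nt.W.Mc
import Pool.Agent.Lib.MP_d40963_nt.W.Al
import Pool.Agent.Lib.MP_d40963_nt.W.Be
import Pool.Agent.Lib.MP_d40963_nt.W.Ne
import Pool.Agent.Lib.MP_d40963_nt.W.Fin
import Pool.Agent.Lib.MP_d40963_nt.W.Top

/-! Only the exceptional data survive. -/

namespace Pool.Agent.NW.Dat

variable {p : ℕ} [Fact p.Prime] {K : Type} [Field K] [IsAlgClosed K] [CharP K p]

/-- `env_ex`, `AE.mc` -/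
theorem fam (D : Dat p K) (hp : 12544 * D.H ^ 29 < p) : D.Fam := fun τ τ' h1 h1' h2 h2' => by
  obtain ⟨L, _, _, t, h⟩ := env_ex D (sd_ok D.s h1' h2') (sd_rt p D.s h1 h2)
    (lt_of_le_of_lt (by nlinarith [Nat.le_self_pow (n := 29) (by norm_num) D.H]) hp)
  exact ⟨L, _, _, t, h, h.mc hp h1' h2'⟩

/-- For `a < 0` use `neg`. For `a > 0`: `m ∣ p - 1` (`alpha`), `p = k + m t`, `1 ≤ k ≤ m` (`beta`;
`(1, -1)` is a solution), so `k = 1`; `gamma`. -/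
theorem m_le (D : Dat p K) (hF : D.Fam) : D.m ≤ 2 := by
  obtain ⟨L, _, _, t, h, hM⟩ := hF 1 (1 : K) (one_pow p) one_ne_zero (one_pow p) one_ne_zero
  rw [sd_one] at h hM
  rcases lt_or_gt_of_ne D.hab.a0 with ha | ha
  · exact neg ha h hM
  · have h1 := alpha ha h hM
    have h2 := beta ha hF
    have h3 : 0 < D.k := D.nk ▸ (Set.ncard_pos (sol_fin _ _ _)).2 ⟨(1, -1), one_pow p,
      (map_neg (frobenius K p) 1).trans (by simp), by norm_num, by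
        simp only [D.odd.neg_one_pow, one_pow]; norm_num⟩
    obtain ⟨j, hj⟩ := D.sum
    have h4 : D.m ∣ D.k - 1 := (Nat.dvd_add_left (Dvd.intro j rfl)).1
      ((show p - 1 = D.k - 1 + D.m * j by omega) ▸ h1)
    exact gamma hF (by have := Nat.eq_zero_of_dvd_of_lt h4 (by omega); omega)

theorem core (D : Dat p K) (hF : D.Fam) : D.e = 1 ∧ (D.a = 1 ∨ (D.a = -1 ∧ D.b = 1)) := by
  by_contra hn
  obtain ⟨τ, τ', h1, h1', h2, h2', hG⟩ := D.sel hn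
  obtain ⟨L, _, _, t, h, hM⟩ := hF τ τ' h1 h1' h2 h2'
  exact absurd (fin h1' h2' h hM (hG L t h.ge)) (not_lt.2 (D.m_le hF))

end Pool.Agent.NW.Dat

theorem Pool.Agent.NW.core : Pool.Agent.NW.Core (12544 * 10 ^ 29) 116 :=
  fun _ _ _ _ _ _ D hp => D.core (D.fam (by
    rwa [Pool.Agent.NW.Dat.H, mul_pow, ← pow_mul, ← mul_assoc]))
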