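import Pool.Agent.Lib.MP_d40963_nt.W.Def

/-! Coverings of the line: Galois theory over `K(x)`. -/

namespace Pool.Agent.NW

open Polynomial IntermediateField

variable {p : ℕ} {K L : Type} [Field K] [Field L] [Algebra K L] {x t y : L} {g ψ : RingAut L}

theorem mem_Gx : g ∈ Gx K x ↔ (∀ c, g (algebraMap K L c) = algebraMap K L c) ∧ g x = x := Iff.rfl

theorem mem_Fr : ψ ∈ Fr p K x ↔
    (∀ c, ψ (algebraMap K L c) = algebraMap K L (c ^ p)) ∧ ψ x = x := Iff.rfl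

theorem aut_aeval (σ : K →+* K) (hg : ∀ c, g (algebraMap K L c) = algebraMap K L (σ c)) (y : L)
    (P : K[X]) : g (aeval y P) = aeval (g y) (P.map σ) := by
  induction P using Polynomial.induction_on' with
  | add f h a b => simp [a, b, Polynomial.map_add]
  | monomial n c => simp [aeval_monomial, hg]

theorem Gx_aeval' (hg : g ∈ Gx K x) (y : L) (P : K[X]) : g (aeval y P) = aeval (g y) P := by
  simpa using aut_aeval (RingHom.id K) hg.1 y P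

theorem Gx_aeval (hg : g ∈ Gx K x) (P : K[X]) : g (aeval x P) = aeval x P := by
  rw [Gx_aeval' hg, hg.2]

theorem Gx_adj (hg : g ∈ Gx K x) (hy : y ∈ K⟮x⟯) : g y = y := by
  obtain ⟨P, Q, rfl⟩ := (mem_adjoin_simple_iff K y).1 hy
  rw [map_div₀, Gx_aeval hg, Gx_aeval hg]

theorem Gx_le (ht : t ∈ K⟮x⟯) : Gx K x ≤ Gx K t := fun _ hg => ⟨hg.1, Gx_adj hg ht⟩

theorem Gx_eq (ht : t ∈ K⟮x⟯) (hx : x ∈ K⟮t⟯) : Gx K x = Gx K t :=
  le_antisymm (Gx_le ht) (Gx_le hx)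

theorem aeval_adj (x : L) (P : K[X]) : aeval x P ∈ K⟮x⟯ :=
  (mem_adjoin_simple_iff K _).2 ⟨P, 1, by simp⟩

theorem adj_of_eq {P Q : K[X]} (hQ : aeval x Q ≠ 0) (h : t * aeval x Q = aeval x P) :
    t ∈ K⟮x⟯ := (mem_adjoin_simple_iff K _).2 ⟨P, Q, eq_div_of_mul_eq hQ h⟩

theorem Cov.ne (h : Cov p K x) {Q : K[X]} (hQ : Q ≠ 0) : aeval x Q ≠ 0 := fun e => hQ (h.tr Q e)

theorem Cov.ne_zero (h : Cov p K x) : x ≠ 0 := by simpa using h.ne X_ne_zero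

theorem Cov.trans' (h : Cov p K x) : Transcendental K x := fun ⟨P, h0, e⟩ => h0 (h.tr P e)

theorem Cov.mem_adj (h : Cov p K x) (hy : ∀ g ∈ Gx K x, g y = y) : y ∈ K⟮x⟯ :=
  let ⟨_, _, hQ, e⟩ := h.fix y hy
  adj_of_eq (h.ne hQ) e

theorem eq_of_adj (hy : y ∈ K⟮x⟯) : ∃ P Q : K[X], Q ≠ 0 ∧ y * aeval x Q = aeval x P := by
  obtain ⟨P, Q, rfl⟩ := (mem_adjoin_simple_iff K y).1 hy
  by_cases h : aeval x Q = 0
  · exact ⟨0, 1, one_ne_zero, by simp [h]⟩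
  · exact ⟨P, Q, fun e => h (by simp [e]), div_mul_cancel₀ _ h⟩

theorem Cov.gal (h : Cov p K x) : IsGaloisGroup (Gx K x) K⟮x⟯ L where
  faithful := inferInstance
  commutes := ⟨fun g a y => by
    change g.1 (a.1 * y) = a.1 * g.1 y
    rw [map_mul, Gx_adj g.2 a.2]⟩
  isInvariant := ⟨fun y hy => ⟨⟨y, h.mem_adj fun g hg => hy ⟨g, hg⟩⟩, rfl⟩⟩

theorem tr_of_adj (h : Transcendental K t) (ht : t ∈ K⟮x⟯) : Transcendental K x := fun hx => by
  have := adjoin.finiteDimensional hx.isIntegral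
  exact h (isAlgebraic_iff.1 (Algebra.IsAlgebraic.isAlgebraic (⟨t, ht⟩ : K⟮x⟯)))

/-- `L` is Galois over every field between `K(t)` and `L` -/
theorem Cov.up (h : Cov p K t) (ht : t ∈ K⟮x⟯) : Cov p K x := by
  have := h.fin
  have := h.gal
  have hle := Gx_le ht
  refine ⟨fun P e => ?_, Finite.of_injective _ (Subgroup.inclusion_injective hle),
    fun e => h.nd (e.trans (Subgroup.card_dvd_of_le hle)), fun y hy => eq_of_adj ?_⟩
  · by_contra h0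
    exact tr_of_adj h.trans' ht ⟨P, h0, e⟩
  · have h1 : K⟮t⟯ ≤ K⟮x⟯ := adjoin_simple_le_iff.2 ht
    let _ : Algebra K⟮t⟯ K⟮x⟯ := (inclusion h1).toAlgebra
    have : IsScalarTower K⟮t⟯ K⟮x⟯ L := IsScalarTower.of_algebraMap_eq fun _ => rfl
    obtain ⟨a, rfl⟩ := (IsGaloisGroup.of_isScalarTower (Gx K t) K⟮t⟯ L K⟮x⟯).isInvariant.isInvariant
      y fun g => hy g.1.1 ⟨g.1.2.1, g.2 ⟨x, ⟨x, mem_adjoin_simple_self K x⟩, rfl⟩⟩
    exact a.2

theorem adj_sub (x : L) (c : K) : x ∈ K⟮x - algebraMap K L c⟯ := by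
  simpa using add_mem (mem_adjoin_simple_self K (x - algebraMap K L c))
    (IntermediateField.algebraMap_mem _ c)

theorem adj_inv (x : L) : x ∈ K⟮x⁻¹⟯ := by
  simpa using inv_mem (mem_adjoin_simple_self K x⁻¹)

theorem adj_mul (x : L) {c : K} (hc : c ≠ 0) : x ∈ K⟮algebraMap K L c * x⟯ := by
  simpa [hc] using mul_mem (IntermediateField.algebraMap_mem _ c⁻¹)
    (mem_adjoin_simple_self K (algebraMap K L c * x))

theorem cov_sub (h : Cov p K x) (c : K) : Cov p K (x - algebraMap K L c) := h.up (adj_sub x c)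

theorem cov_inv (h : Cov p K x) : Cov p K x⁻¹ := h.up (adj_inv x)

theorem cov_mul (h : Cov p K x) {c : K} (hc : c ≠ 0) : Cov p K (algebraMap K L c * x) :=
  h.up (adj_mul x hc)

theorem cov_root (h : Cov p K t) {P Q : K[X]} (hQ : aeval x Q ≠ 0)
    (e : t * aeval x Q = aeval x P) : Cov p K x := h.up (adj_of_eq hQ e)

theorem Gx_sub (x : L) (c : K) : Gx K (x - algebraMap K L c) = Gx K x :=
  Gx_eq (adj_sub x c) (sub_mem (mem_adjoin_simple_self K x) (IntermediateField.algebraMap_mem _ c))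

theorem Gx_inv (x : L) : Gx K x⁻¹ = Gx K x :=
  Gx_eq (adj_inv x) (inv_mem (mem_adjoin_simple_self K x))

theorem Fr_sub (x : L) {c : K} (hc : c ^ p = c) : Fr p K (x - algebraMap K L c) = Fr p K x := by
  ext ψ
  refine and_congr_right fun h => ?_
  rw [map_sub, h, hc, sub_left_inj]

theorem Fr_inv (x : L) : Fr p K x⁻¹ = Fr p K x := by
  ext ψ
  refine and_congr_right fun _ => ?_
  rw [map_inv₀, inv_inj]

theorem Fr_mul_Gx (hψ : ψ ∈ Fr p K x) (hg : g ∈ Gx K x) : ψ * g ∈ Fr p K x :=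
  ⟨fun c => (congrArg ψ (hg.1 c)).trans (hψ.1 c), (congrArg ψ hg.2).trans hψ.2⟩

theorem Gx_mul_Fr (hg : g ∈ Gx K x) (hψ : ψ ∈ Fr p K x) : g * ψ ∈ Fr p K x :=
  ⟨fun c => (congrArg g (hψ.1 c)).trans (hg.1 _), (congrArg g hψ.2).trans hg.2⟩

theorem Fr_inv_mul {ψ' : RingAut L} (hψ : ψ ∈ Fr p K x) (h : ψ' ∈ Fr p K x) :
    ψ⁻¹ * ψ' ∈ Gx K x :=
  ⟨fun c => ψ.injective ((ψ.apply_symm_apply _).trans ((h.1 c).trans (hψ.1 c).symm)),
    ψ.injective ((ψ.apply_symm_apply _).trans (h.2.trans hψ.2.symm))⟩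

theorem Fr_conj (hψ : ψ ∈ Fr p K x) (hg : g ∈ Gx K x) : ψ⁻¹ * g * ψ ∈ Gx K x :=
  mul_assoc ψ⁻¹ g ψ ▸ Fr_inv_mul hψ (Gx_mul_Fr hg hψ)

end Pool.Agent.NW
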