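import Pool.Agent.Lib.MP_d40963_nt.W.Cov

/-! Conjugacy of the roots of `N - t D`. -/

namespace Pool.Agent.NW

open Polynomial IntermediateField

variable {p : ℕ} {K L : Type} [Field K] [Field L] [Algebra K L] {t x y : L}

/-- The isomorphism `K(x) → K(y)` with `x ↦ y` fixes `t`, and `L` is Galois over `K(t)`. -/
theorem cov_trans (h : Cov p K t) {N D : K[X]} (hx0 : aeval x D ≠ 0) (hy0 : aeval y D ≠ 0)
    (hx : t * aeval x D = aeval x N) (hy : t * aeval y D = aeval y N) :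
    ∃ g ∈ Gx K t, g x = y := by
  have ht := adj_of_eq hx0 hx
  have h1 : K⟮t⟯ ≤ K⟮x⟯ := adjoin_simple_le_iff.2 ht
  let φ : K⟮x⟯ →ₐ[K] L := K⟮y⟯.val.comp ((RatFunc.algEquivOfTranscendental x
    (h.up ht).trans').symm.trans (RatFunc.algEquivOfTranscendental y
      (h.up (adj_of_eq hy0 hy)).trans')).toAlgHom
  have h2 : φ (AdjoinSimple.gen K x) = y := by simp [φ]
  have h3 : φ ⟨t, ht⟩ = t := by
    have e : ⟨t, ht⟩ * aeval (AdjoinSimple.gen K x) D = aeval (AdjoinSimple.gen K x) N :=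
      Subtype.ext (by simpa using hx)
    have := congrArg φ e
    rw [map_mul, ← aeval_algHom_apply, ← aeval_algHom_apply, h2, ← hy] at this
    exact mul_right_cancel₀ hy0 this
  have h4 : φ.comp (inclusion h1) = K⟮t⟯.val :=
    adjoin_algHom_ext K fun z hz => by obtain rfl := Set.mem_singleton_iff.1 hz; exact h3
  let _ : Algebra K⟮t⟯ K⟮x⟯ := (inclusion h1).toAlgebra
  have : IsScalarTower K⟮t⟯ K⟮x⟯ L := IsScalarTower.of_algebraMap_eq fun _ => rfl
  let φ' : K⟮x⟯ →ₐ[K⟮t⟯] L := { φ with commutes' := AlgHom.congr_fun h4 }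
  have := h.fin
  have := h.gal
  have := IsGaloisGroup.isGalois (Gx K t) K⟮t⟯ L
  have h5 : IsConjRoot K⟮t⟯ y x :=
    (h2 ▸ minpoly.algHom_eq φ' φ'.injective (AdjoinSimple.gen K x)).trans
      (minpoly.algebraMap_eq (algebraMap K⟮x⟯ L).injective (AdjoinSimple.gen K x)).symm
  obtain ⟨g, hg⟩ := h5.exists_algEquiv
  exact ⟨g.toRingEquiv, ⟨fun c => g.commutes (algebraMap K K⟮t⟯ c),
    g.commutes (AdjoinSimple.gen K t)⟩, hg⟩

theorem Cov.nconst (h : Cov p K x) (c : K) : x ≠ algebraMap K L c :=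
  sub_ne_zero.1 (h.up (adj_sub x c)).ne_zero

theorem Fr_mul_inv' [Fact p.Prime] [CharP K p] {ψ ψ' : RingAut L} (hψ : ψ ∈ Fr p K x)
    (h : ψ' ∈ Fr p K x) : ψ * ψ'⁻¹ ∈ Gx K x := by
  have : CharP L p := charP_of_injective_algebraMap (algebraMap K L).injective p
  refine ⟨fun c => frobenius_inj L p ?_, (congrArg ψ (ψ'.symm_apply_eq.2 h.2.symm)).trans hψ.2⟩
  rw [frobenius_def, frobenius_def, ← map_pow, ← map_pow]
  exact (congrArg ψ (ψ'.symm_apply_eq.2 (h.1 c).symm)).trans (hψ.1 c)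

end Pool.Agent.NW
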