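import Pool.Agent.Lib.MP_d40963_nt.W.Def

/-! Definitions: local tables, sides, sheets, Kummer vectors, arithmetic data. -/

namespace Pool.Agent.NW

open Polynomial

section
variable {K L : Type} [Field K] [Field L] [Algebra K L]

theorem aut_mul (g h : RingAut L) (x : L) : (g * h) x = g (h x) := rfl

theorem aut_one (x : L) : (1 : RingAut L) x = x := rfl

/-- `c` is the leading coefficient of `y` -/
def Pl.Lc (P : Pl K L) (y : L) (c : K) : Prop := c ≠ 0 ∧ ∃ n, P.Ap y n c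

/-- the elements of `S` with residue `y0` -/
def Nr (P : Pl K L) (S : L → Prop) (y0 : K) : Set L := {Y | S Y ∧ P.Ap Y 0 y0}

/-- the elements of `S` with a pole -/
def NrI (P : Pl K L) (S : L → Prop) : Set L := {Y | S Y ∧ P.Ap Y⁻¹ 0 0}

/-- The elements of `S` near `y0` are `y0 + l π ^ m + ...`, one for each `l` with `l ^ ε = κ`. -/
structure Tab (P : Pl K L) (S : L → Prop) (y0 : K) (ε m : ℕ) (κ : K) : Prop where
  κ0 : κ ≠ 0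
  ε0 : (ε : K) ≠ 0
  m0 : 0 < m
  ap : ∀ Y, S Y → P.Ap Y 0 y0 → ∃ l, P.Ap (Y - algebraMap K L y0) m l ∧ l ^ ε = κ
  ex : ∀ l, l ^ ε = κ → ∃ Y, S Y ∧ P.Ap (Y - algebraMap K L y0) m l
  un : ∀ Y Y' l, S Y → S Y' → P.Ap (Y - algebraMap K L y0) m l →
    P.Ap (Y' - algebraMap K L y0) m l → Y = Y'

/-- a point of index `ε` -/
def Cel (P : Pl K L) (S : L → Prop) (y0 : K) (ε N : ℕ) : Prop :=
  ∃ m κ, ε * m = N ∧ Tab P S y0 ε m κ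

/-- `N0 = (X - y0) ^ ε N1` with `N1 (y0) = v` -/
def Fac (N0 : K[X]) (y0 : K) (ε : ℕ) (v : K) : Prop :=
  ∃ N1, N0 = (X - C y0) ^ ε * N1 ∧ N1.eval y0 = v

/-- `w` has period `n` under `g` -/
def Per (g : RingAut L) (w : L) (n : ℕ) : Prop := ∀ j : ℕ, (g ^ j) w = w ↔ n ∣ j

/-- `Δ` is a cycle of `g` of length `δ` -/
structure Cyc (g : RingAut L) (Δ : Set L) (δ : ℕ) : Prop where
  pos : 0 < δ
  card : Δ.ncard = δ
  mem : ∀ w ∈ Δ, g w ∈ Δ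
  orb : ∀ w ∈ Δ, ∀ w' ∈ Δ, ∃ j : ℕ, (g ^ j) w = w'
  per : ∀ w ∈ Δ, Per g w δ

def Stb (G : Subgroup (RingAut L)) (Ω : Set L) : Prop := ∀ g ∈ G, ∀ w ∈ Ω, g w ∈ Ω

def Trn (G : Subgroup (RingAut L)) (Ω : Set L) : Prop := ∀ w ∈ Ω, ∀ w' ∈ Ω, ∃ g ∈ G, g w = w'

def Two (G : Subgroup (RingAut L)) (Ω : Set L) : Prop :=
  ∀ v ∈ Ω, ∀ w ∈ Ω, ∀ v' ∈ Ω, ∀ w' ∈ Ω, v ≠ w → v' ≠ w' → ∃ g ∈ G, g v = v' ∧ g w = w'

/-- blocks -/
def Blk (G : Subgroup (RingAut L)) (B : Set L) : Prop :=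
  ∀ g ∈ G, ∀ w ∈ B, g w ∈ B → ∀ w' ∈ B, g w' ∈ B

def Prim (G : Subgroup (RingAut L)) (Ω : Set L) : Prop :=
  ∀ B ⊆ Ω, Blk G B → B.ncard ≤ 1 ∨ B = Ω

/-- the quotient by inversion -/
def pi (Y : L) : L := Y + Y⁻¹

end

/-- the conditions on the exponents -/
structure Hab (K : Type) [Field K] (a : ℤ) (b : ℕ) : Prop where
  a0 : a ≠ 0
  lt : a < b
  le : a.natAbs ≤ b
  cop : Nat.Coprime a.natAbs b
  ne : ∀ n : ℕ, 0 < n → n ≤ 4 * b + 100 → (n : K) ≠ 0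

/-- `d = b - a` -/
def dd (a : ℤ) (b : ℕ) : ℕ := ((b : ℤ) - a).toNat

/-- the coefficients of `u = τ Y ^ b - τ'` and `U = σ Y ^ a - σ'` -/
structure Side (K : Type) where
  τ : K
  τ' : K
  σ : K
  σ' : K

section
variable {K L : Type} [Field K] [Field L] [Algebra K L]

structure Side.Ok (γ : Side K) : Prop where
  τ : γ.τ ≠ 0
  τ' : γ.τ' ≠ 0
  σ : γ.σ ≠ 0
  σ' : γ.σ' ≠ 0

structure Side.Rt (p : ℕ) (γ : Side K) : Prop where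
  τ : γ.τ ^ p = γ.τ
  τ' : γ.τ' ^ p = γ.τ'
  σ : γ.σ ^ p = γ.σ
  σ' : γ.σ' ^ p = γ.σ'

def std : Side K := ⟨1, 1, 1, 1⟩

def sd (s : ℕ) (τ τ' : K) : Side K := ⟨τ, τ', τ ^ s, τ' ^ s⟩

def Side.flip (γ : Side K) : Side K := ⟨-γ.τ', -γ.τ, -γ.σ', -γ.σ⟩

def Side.u (γ : Side K) (b : ℕ) (Y : L) : L :=
  algebraMap K L γ.τ * Y ^ b - algebraMap K L γ.τ'

def Side.U (γ : Side K) (a : ℤ) (Y : L) : L :=
  algebraMap K L γ.σ * Y ^ a - algebraMap K L γ.σ'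

theorem Side.u_self (γ : Side K) (b : ℕ) (y : K) : γ.u b y = γ.τ * y ^ b - γ.τ' := rfl

theorem Side.U_self (γ : Side K) (a : ℤ) (y : K) : γ.U a y = γ.σ * y ^ a - γ.σ' := rfl

noncomputable def Side.up (γ : Side K) (b : ℕ) : K[X] := C γ.τ * X ^ b - C γ.τ'

noncomputable def Side.Up (γ : Side K) (a : ℤ) : K[X] :=
  C γ.σ * X ^ a.toNat - C γ.σ' * X ^ (-a).toNat

noncomputable def Side.N (γ : Side K) (a : ℤ) (b : ℕ) : K[X] :=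
  γ.Up a ^ b * γ.up b ^ (-a).toNat

noncomputable def Side.D (γ : Side K) (a : ℤ) (b : ℕ) : K[X] :=
  γ.up b ^ a.toNat * X ^ ((-a).toNat * b)

noncomputable def Side.Cr (γ : Side K) (a : ℤ) (b : ℕ) : K[X] :=
  C (γ.τ * γ.σ') * X ^ (b + (-a).toNat) - C (γ.σ * γ.τ') * X ^ a.toNat

/-- the value of `F = U ^ b / u ^ a` at `0` for `a > 0` -/
def Side.v0 (γ : Side K) (a : ℤ) (b : ℕ) : K := (-γ.σ') ^ b / (-γ.τ') ^ a

variable (a : ℤ) (b e : ℕ)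

/-- `Y` is a sheet: `F (Y) = t` -/
def Sh (γ : Side K) (t Y : L) : Prop :=
  Y ≠ 0 ∧ γ.u b Y ≠ 0 ∧ γ.U a Y ≠ 0 ∧ t * γ.u b Y ^ a = γ.U a Y ^ b

def Spl1 (γ : Side K) (t : L) : Prop :=
  ((γ.N a b).map (algebraMap K L) - C t * (γ.D a b).map (algebraMap K L)).Splits

def Spl (γ : Side K) (t : L) : Prop := Spl1 a b γ t ∧ Spl1 a b γ.flip t

/-- critical points of `F` -/
def Crit (γ : Side K) (y : K) : Prop := γ.τ * γ.σ' * y ^ b = γ.σ * γ.τ' * y ^ a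

/-- `u` and `U` have no common zero -/
def NoC (γ : Side K) : Prop := ∀ y : K, y ≠ 0 → γ.u b y = 0 → γ.U a y ≠ 0

/-- `x1 - x2 = x3 - x4` and `x1 ^ s - x2 ^ s = x3 ^ s - x4 ^ s` -/
def Tri (β γ : Side K) (X W Z : L) : Prop :=
  W ≠ 0 ∧ Z ≠ 0 ∧ algebraMap K L γ.τ * W ^ b - algebraMap K L γ.τ' * Z ^ b = β.u b X ∧
    algebraMap K L γ.σ * W ^ a - algebraMap K L γ.σ' * Z ^ a = β.U a X

/-- Kummer vectors of a pair of sheets -/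
def Lv (β : Side K) (t X Y : L) (l1 l2 l3 : K) : Prop :=
  ∀ x y z : L, x ^ e = X → (y / z) ^ e = Y → Tri a b β std X (y ^ e) (z ^ e) →
    ∃ g ∈ Gx K t, g x = algebraMap K L l1 * x ∧ g y = algebraMap K L l2 * y ∧
      g z = algebraMap K L l3 * z

variable (K) in
def Par (t X Y : L) : Prop :=
  ∀ x η : L, x ^ e = X → η ^ 2 = Y → ∃ g ∈ Gx K t, g x = x ∧ g η = -η

def Flip (t X Y : L) (ε : K) : Prop :=
  ∀ x η : L, x ^ e = X → η ^ 2 = Y → ∃ g ∈ Gx K t, g x = x ∧ g η * η = algebraMap K L ε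

variable (K) in
/-- the stabilisers differ -/
def NT (t X Y : L) : Prop := ∃ g ∈ Gx K t, ¬ (g X = X ↔ g Y = Y)

variable (p : ℕ)

/-- a nontrivial solution fixed by a Frobenius element -/
def Goal (β : Side K) (t : L) : Prop :=
  ∃ ψ ∈ Fr p K t, ∃ x y z : L, Sh a b β t (x ^ e) ∧ Tri a b β std (x ^ e) (y ^ e) (z ^ e) ∧
    ψ x = x ∧ ψ y = y ∧ ψ z = z ∧ NT K t (x ^ e) ((y / z) ^ e)

/-- a Frobenius stable orbit of pairs of sheets -/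
structure Prs (β : Side K) (t : L) (Q : L → L → Prop) : Prop where
  sh : ∀ X Y, Q X Y → Sh a b β t X ∧ Sh a b (std : Side K) t Y
  tr : ∀ X Y X' Y', Q X Y → Q X' Y' → ∃ g ∈ Gx K t, g X = X' ∧ g Y = Y'
  fr : ∀ ψ ∈ Fr p K t, ∀ X Y, Q X Y → Q (ψ X) (ψ Y)

variable (K) in
/-- the pairs of standard sheets in general position -/
def Q2 (t X Y : L) : Prop :=
  Sh a b (std : Side K) t X ∧ Sh a b (std : Side K) t Y ∧ Y ≠ X ∧ X * Y ≠ 1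

/-- the geometric setting -/
structure GE (β : Side K) (t : L) : Prop where
  hab : Hab K a b
  e0 : (e : K) ≠ 0
  ok : β.Ok
  rt : β.Rt p
  cov : Cov p K t
  fr : (Fr p K t).Nonempty
  loc : ∀ T : L, Cov p K T →
    ∃ l : Loc K T, (Fr p K T).Nonempty → ∃ ψ ∈ Fr p K T, l.P.Frb p ψ
  sβ : Spl a b β t
  s1 : Spl a b (std : Side K) t
  root : ∀ X, Sh a b β t X → ∃ x, x ^ e = X
  lift : ∀ X W Z, Sh a b β t X → Tri a b β std X W Z → (∃ y, y ^ e = W) ∧ ∃ z, z ^ e = Z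

/-- the rational solutions of `x - y = w1`, `x ^ s - y ^ s = w2` -/
def Sol (s : ℕ) (w1 w2 : K) : Set (K × K) :=
  {q | q.1 ^ p = q.1 ∧ q.2 ^ p = q.2 ∧ q.1 - q.2 = w1 ∧ q.1 ^ s - q.2 ^ s = w2}

/-- critical solutions -/
def Cq (s : ℕ) (q : K × K) : Prop := q.1 * q.2 ^ s = q.1 ^ s * q.2

end

/-- the arithmetic data of a nice exponent -/
structure Dat (p : ℕ) (K : Type) [Field K] where
  s : ℕ
  a : ℤ
  b : ℕ
  e : ℕ
  R : Finset K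
  m : ℕ
  k : ℕ
  hab : Hab K a b
  e0 : (e : K) ≠ 0
  odd : Odd s
  inj : ∀ x y : K, x ^ p = x → y ^ p = y → x ^ s = y ^ s → x = y
  surj : ∀ c : K, c ^ p = c → ∃ x : K, x ^ p = x ∧ x ^ s = c
  key : ∀ r : K, r ^ p = r → r ≠ 0 → ((r ^ e) ^ b) ^ s = (r ^ e) ^ a
  tw : ∀ ω : K, ω ^ e = 1 → ∃ τ : K, τ ^ p = τ ∧ τ ≠ 0 ∧ (τ ^ s) ^ b = ω * τ ^ a
  R0 : ∀ τ ∈ R, τ ^ p = τ ∧ τ ≠ 0
  R1 : 1 ∈ R
  Rc : R.card ≤ e
  rep : ∀ c : K, c ^ p = c → c ≠ 0 →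
    {r : K × K | r.1 ∈ R ∧ r.2 ^ p = r.2 ∧ r.1 * (r.2 ^ e) ^ b = c}.ncard = e
  nm : ∀ x1 x2 : K, x1 ^ p = x1 → x2 ^ p = x2 → x1 ≠ x2 →
    (∀ y, (y, -y) ∉ Sol p s (x1 - x2) (x1 ^ s - x2 ^ s)) →
    (Sol p s (x1 - x2) (x1 ^ s - x2 ^ s)).ncard = m
  nk : (Sol p s (2 : K) 2).ncard = k
  sum : ∃ t, p = k + m * t

namespace Dat

variable {p : ℕ} {K L : Type} [Field K] [Field L] [Algebra K L] (D : Dat p K)

/-- the representations `c = τ r ^ (e b)` -/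
def Rep (c : K) : Set (K × K) := {r | r.1 ∈ D.R ∧ r.2 ^ p = r.2 ∧ r.1 * (r.2 ^ D.e) ^ D.b = c}

/-- the height -/
def H : ℕ := 10 * (D.e * (D.a.natAbs + D.b)) ^ 4

/-- all solutions over the base `x` -/
def Sig (β : Side K) (x : L) : Set (Fin 4 → L) :=
  {s | ∃ τ ∈ D.R, ∃ τ' ∈ D.R, s 0 = algebraMap K L τ ∧ s 1 = algebraMap K L τ' ∧
    Tri D.a D.b β (sd D.s τ τ') (x ^ D.e) (s 2 ^ D.e) (s 3 ^ D.e)}

/-- the fixed solutions with given coefficients and leading coefficients -/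
def FxR (β : Side K) (x : L) (P : Pl K L) (ψ : RingAut L) (r r' : K × K) : Set (Fin 4 → L) :=
  {s | s ∈ D.Sig β x ∧ (∀ i, ψ (s i) = s i) ∧ s 0 = algebraMap K L r.1 ∧
    s 1 = algebraMap K L r'.1 ∧ P.Lc (s 2) r.2 ∧ P.Lc (s 3) r'.2}

/-- the arithmetic setting -/
structure AE (β : Side K) (t : L) : Prop where
  ge : GE D.a D.b D.e p β t
  spl : ∀ τ ∈ D.R, ∀ τ' ∈ D.R, Spl D.a D.b (sd D.s τ τ') t
  lift : ∀ τ ∈ D.R, ∀ τ' ∈ D.R, ∀ X W Z, Sh D.a D.b β t X →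
    Tri D.a D.b β (sd D.s τ τ') X W Z → (∃ y, y ^ D.e = W) ∧ ∃ z, z ^ D.e = Z

/-- a base sheet, a place and a local Frobenius -/
structure At (β : Side K) (t x : L) (P : Pl K L) (ψ : RingAut L) : Prop where
  ae : D.AE β t
  sh : Sh D.a D.b β t (x ^ D.e)
  fr : ψ ∈ Fr p K x
  frb : P.Frb p ψ

/-- a rational place where the base is a unit point, with limit `(w1, w2)` -/
structure UP (β : Side K) (t x : L) (P : Pl K L) (ψ : RingAut L) (x0 t0 : K) : Prop where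
  toAt : D.At β t x P ψ
  ap : P.Ap x 0 x0
  sh0 : Sh D.a D.b β t0 (x0 ^ D.e)

/-- the number of fixed solutions is constant on the Frobenius coset -/
def Mc (β : Side K) (t : L) : Prop :=
  ∀ x, Sh D.a D.b β t (x ^ D.e) → ∀ ψ ∈ Fr p K x, fixN ψ (D.Sig β x) = D.e ^ 2 * D.m

end Dat

end Pool.Agent.NW
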