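import Pool.Agent.Lib.Common.Stepanov.Fil

/-! Places as leading term relations, coverings of the line, Frobenius elements. -/

namespace Pool.Agent.NW

open Polynomial Pool.Agent.Lib.Common.Stepanov

variable (p : ℕ) (K : Type) {L : Type} [Field K] [Field L] [Algebra K L]

variable (L) in
/-- A place of `L` with residue field `K` and a chosen uniformiser `π`; `Ap y n c` says
`y = c π ^ n +` terms of higher order (`c = 0` is allowed). -/
structure Pl where
  Ap : L → ℤ → K → Prop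
  uniq : ∀ {y n c c'}, Ap y n c → Ap y n c' → c = c'
  add : ∀ {y z n c c'}, Ap y n c → Ap z n c' → Ap (y + z) n (c + c')
  mul : ∀ {y z n m c c'}, Ap y n c → Ap z m c' → Ap (y * z) (n + m) (c * c')
  const : ∀ c, Ap (algebraMap K L c) 0 c
  up : ∀ {y n}, Ap y n 0 → ∃ c, Ap y (n + 1) c
  down : ∀ {y n c}, Ap y (n + 1) c → Ap y n 0
  zero : ∀ n, Ap 0 n 0
  ex : ∀ {y}, y ≠ 0 → ∃ n c, c ≠ 0 ∧ Ap y n c

/-- the automorphisms that fix the constants and `x` -/
def Gx (x : L) : Subgroup (RingAut L) where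
  carrier := {g | (∀ c, g (algebraMap K L c) = algebraMap K L c) ∧ g x = x}
  one_mem' := ⟨fun _ => rfl, rfl⟩
  mul_mem' := fun {g h} hg hh => ⟨fun c => (congrArg g (hh.1 c)).trans (hg.1 c),
    (congrArg g hh.2).trans hg.2⟩
  inv_mem' := fun {g} hg => ⟨fun c => g.injective ((g.apply_symm_apply _).trans (hg.1 c).symm),
    g.injective ((g.apply_symm_apply _).trans hg.2.symm)⟩

/-- the automorphisms that fix `x` and raise constants to the power `p` -/
def Fr (x : L) : Set (RingAut L) :=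
  {ψ | (∀ c, ψ (algebraMap K L c) = algebraMap K L (c ^ p)) ∧ ψ x = x}

/-- `L` is a finite Galois extension of `K(x)` of degree prime to `p` -/
structure Cov (x : L) : Prop where
  tr : ∀ P : K[X], aeval x P = 0 → P = 0
  fin : Finite (Gx K x)
  nd : ¬ p ∣ Nat.card (Gx K x)
  fix : ∀ y : L, (∀ g ∈ Gx K x, g y = y) → ∃ P Q : K[X], Q ≠ 0 ∧ y * aeval x Q = aeval x P

variable {K}

/-- `g` fixes the place and multiplies the uniformiser by `ζ` -/
def Pl.Act (P : Pl K L) (g : RingAut L) (ζ : K) : Prop :=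
  ∀ y n c, P.Ap y n c → P.Ap (g y) n (ζ ^ n * c)

/-- `ψ` fixes the place and the uniformiser and is the Frobenius on residues -/
def Pl.Frb (P : Pl K L) (ψ : RingAut L) : Prop := ∀ y n c, P.Ap y n c → P.Ap (ψ y) n (c ^ p)

variable (K) in
/-- a place above `T = 0` with a generator of its inertia group -/
structure Loc (T : L) where
  P : Pl K L
  N : ℕ
  ζ : K
  g : RingAut L
  pos : 0 < N
  prim : IsPrimitiveRoot ζ N
  ap : P.Ap T N 1
  mem : g ∈ Gx K T
  act : P.Act g ζ

/-- the number of fixed points -/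
noncomputable def fixN {ι : Type} (ψ : RingAut L) (S : Set (ι → L)) : ℕ :=
  {s ∈ S | ∀ i, ψ (s i) = s i}.ncard

variable (K) in
/-- `y` satisfies an equation of total degree at most `D` over the prime field and `x` -/
def Cx (D : ℕ) (x y : L) : Prop :=
  ∃ B : K[X][X], B ≠ 0 ∧ B ∈ Fil K D ∧ (∀ i j, (B.coeff i).coeff j ^ p = (B.coeff i).coeff j) ∧
    B.eval₂ (aeval x : K[X] →ₐ[K] L).toRingHom y = 0

/-- the existence of places -/
def PlaceStmt : Prop :=
  ∀ (p : ℕ) [Fact p.Prime] (K L : Type) [Field K] [IsAlgClosed K] [CharP K p] [Field L]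
    [Algebra K L] (T : L), Cov p K T →
    ∃ l : Loc K T, (Fr p K T).Nonempty → ∃ ψ ∈ Fr p K T, l.P.Frb p ψ

/-- If the Frobenius elements at almost all rational points have `M` fixed points, then all
elements of the Frobenius coset have `M` fixed points. -/
def ChebStmt (C k : ℕ) : Prop :=
  ∀ (p : ℕ) [Fact p.Prime] (K L : Type) [Field K] [IsAlgClosed K] [CharP K p] [Field L]
    [Algebra K L] (x : L) (ι : Type) [Fintype ι] (S : Set (ι → L)) (bad : Finset K) (H M : ℕ),
    Cov p K x → (Fr p K x).Nonempty → S.Finite →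
    (∀ g ∈ Gx K x, ∀ s ∈ S, (fun i => g (s i)) ∈ S) →
    (∀ ψ ∈ Fr p K x, ∀ s ∈ S, (fun i => ψ (s i)) ∈ S) →
    (∀ s ∈ S, ∀ i, Cx p K H x (s i)) → 0 < H → Fintype.card ι ≤ H → S.ncard ≤ H → bad.card ≤ H →
    C * H ^ k < p →
    (∀ x₀ : K, x₀ ^ p = x₀ → x₀ ∉ bad → ∀ l : Loc K (x - algebraMap K L x₀), ∀ ψ ∈ Fr p K x,
      l.P.Frb p ψ → fixN ψ S = M) →
    ∀ ψ ∈ Fr p K x, fixN ψ S = M

end Pool.Agent.NW
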