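import Pool.Agent.Lib.MP_d40963_nt.W.D2

/-! Blocks and cycles. -/

namespace Pool.Agent.NW

variable {L : Type} [Field L] {G N : Subgroup (RingAut L)} {Ω B S Δ Δ' : Set L} {g : RingAut L}
  {w w' v v' : L} {n δ δ' : ℕ}

theorem Per.fix (h : Per g w n) {j : ℕ} (hj : n ∣ j) : (g ^ j) w = w := (h j).2 hj

theorem Per.one (h : Per g w 1) : g w = w := by simpa using h.fix dvd_rfl

theorem pow_mem_aux (hg : ∀ w ∈ S, g w ∈ S) (hw : w ∈ S) (j : ℕ) : (g ^ j) w ∈ S := by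
  induction j with
  | zero => exact hw
  | succ j ih => exact pow_succ' g j ▸ hg _ ih

theorem Cyc.pow_mem (h : Cyc g Δ δ) (hw : w ∈ Δ) (j : ℕ) : (g ^ j) w ∈ Δ :=
  pow_mem_aux h.mem hw j

theorem Cyc.fin (h : Cyc g Δ δ) : Δ.Finite ∧ Δ.Nonempty :=
  ⟨Set.finite_of_ncard_pos (h.card ▸ h.pos), Set.nonempty_of_ncard_ne_zero (h.card ▸ h.pos.ne')⟩

theorem Per.step_mod (h : Per g w n) {i j : ℕ} : (g ^ i) w = (g ^ j) w ↔ i ≡ j [MOD n] := by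
  wlog hij : i ≤ j generalizing i j
  · rw [eq_comm, this (le_of_not_ge hij), Nat.ModEq.comm]
  obtain ⟨d, rfl⟩ := Nat.exists_eq_add_of_le hij
  rw [pow_add, aut_mul, (g ^ i).injective.eq_iff, eq_comm, h d, Nat.modEq_iff_dvd' hij,
    Nat.add_sub_cancel_left]

theorem Cyc.step (h : Cyc g Δ δ) (hn : Nat.Coprime n δ) (hw : w ∈ Δ) (hw' : w' ∈ Δ) :
    ∃ j : ℕ, (g ^ (n * j)) w = w' := by
  obtain ⟨i, rfl⟩ := h.orb w hw w' hw'
  obtain ⟨k, h1, h2⟩ := Nat.chineseRemainder hn 0 i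
  obtain ⟨j, rfl⟩ := Nat.modEq_zero_iff_dvd.1 h1
  exact ⟨j, (h.per w hw).step_mod.2 h2⟩

/-- Chinese remainder theorem -/
theorem Cyc.pair (h : Cyc g Δ δ) (h' : Cyc g Δ' δ') (hn : Nat.Coprime δ δ') (hw : w ∈ Δ)
    (hw' : w' ∈ Δ) (hv : v ∈ Δ') (hv' : v' ∈ Δ') :
    ∃ j : ℕ, (g ^ j) w = w' ∧ (g ^ j) v = v' := by
  obtain ⟨i, rfl⟩ := h.orb w hw w' hw'
  obtain ⟨i', rfl⟩ := h'.orb v hv v' hv'
  obtain ⟨k, h1, h2⟩ := Nat.chineseRemainder hn i i'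
  exact ⟨k, (h.per w hw).step_mod.2 h1, (h'.per v hv).step_mod.2 h2⟩

/-- induction on the size: remove one orbit, which has `n` elements -/
theorem per_dvd (hS : S.Finite) (hg : ∀ w ∈ S, g w ∈ S) (h : ∀ w ∈ S, Per g w n) :
    n ∣ S.ncard := by
  induction hN : S.ncard using Nat.strong_induction_on generalizing S with
  | _ N ih =>
  subst hN
  rcases S.eq_empty_or_nonempty with rfl | ⟨w, hw⟩
  · simp
  obtain _ | n := n
  · exact absurd hS (Set.infinite_of_injective_forall_mem (f := fun j : ℕ => (g ^ j) w)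
      (fun i j e => Nat.modEq_zero_iff.1 ((h w hw).step_mod.1 e)) (pow_mem_aux hg hw))
  have hO : ((fun j : ℕ => (g ^ j) w) '' Set.Iio (n + 1)).ncard = n + 1 := by
    exact (Set.InjOn.ncard_image fun i hi j hj e =>
      ((h w hw).step_mod.1 e).eq_of_lt_of_lt hi hj).trans (Set.ncard_Iio_nat _)
  have h1 := Set.ncard_sdiff_add_ncard_of_subset
    (s := (fun j : ℕ => (g ^ j) w) '' Set.Iio (n + 1))
    (by rintro _ ⟨j, -, rfl⟩; exact pow_mem_aux hg hw j) hS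
  rw [hO] at h1
  rw [← h1]
  refine dvd_add (ih _ (by omega) hS.sdiff (fun v hv => ⟨hg v hv.1, ?_⟩) (fun v hv => h v hv.1) rfl)
    dvd_rfl
  rintro ⟨j, -, e⟩
  refine hv.2 ⟨(n + j) % (n + 1), Nat.mod_lt _ n.succ_pos,
    ((h w hw).step_mod.2 (Nat.mod_modEq _ _)).trans ?_⟩
  rw [pow_add, aut_mul, show (g ^ j) w = g v from e, ← aut_mul, ← pow_succ]
  exact (h v hv.1).fix dvd_rfl

theorem Blk.image_l (g : RingAut L) (x : L) : g⁻¹ (g x) = x := g.symm_apply_apply x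

theorem Blk.image_r (g : RingAut L) (x : L) : g (g⁻¹ x) = x := g.apply_symm_apply x

theorem Blk.image (h : Blk G B) (hg : g ∈ G) : Blk G (g '' B) := by
  rintro f hf _ ⟨x, hx, rfl⟩ ⟨y, hy, e⟩ _ ⟨x', hx', rfl⟩
  refine ⟨_, h (g⁻¹ * f * g) (mul_mem (mul_mem (inv_mem hg) hf) hg) x hx ?_ x' hx',
    Blk.image_r g _⟩
  rwa [aut_mul, aut_mul, ← e, Blk.image_l]

/-- Induction on the size of `S`: remove one translate of `B`; two translates are equal or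
disjoint. -/
theorem Blk.dvd (h : Blk G B) (ht : Trn G Ω) (hB : B ⊆ Ω) (hne : B.Nonempty) (hS : S.Finite)
    (hSΩ : S ⊆ Ω) (hs : ∀ g ∈ G, ∀ w ∈ B, g w ∈ S → ∀ w' ∈ B, g w' ∈ S) :
    B.ncard ∣ S.ncard := by
  induction hn : S.ncard using Nat.strong_induction_on generalizing S with
  | _ m ih =>
    rcases S.eq_empty_or_nonempty with rfl | ⟨s, hsS⟩
    · rw [← hn, Set.ncard_empty]
      exact dvd_zero _
    obtain ⟨b, hb⟩ := hne
    obtain ⟨g, hg, e⟩ := ht b (hB hb) s (hSΩ hsS)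
    have h1 : g '' B ⊆ S := by
      rintro _ ⟨x, hx, rfl⟩
      exact hs g hg b hb (e ▸ hsS) x hx
    have h2 := Set.ncard_sdiff_add_ncard_of_subset h1 hS
    rw [Set.ncard_image_of_injective _ g.injective, hn] at h2
    have h3 : (S \ g '' B).ncard < m :=
      hn ▸ Set.ncard_lt_ncard (Set.sdiff_ssubset_left_iff.2 ⟨s, hsS, b, hb, e⟩) hS
    rw [← h2]
    refine dvd_add (ih _ h3 hS.sdiff (Set.sdiff_subset.trans hSΩ) ?_ rfl) dvd_rfl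
    intro f hf w hw hfw w' hw'
    refine ⟨hs f hf w hw hfw.1 w' hw', fun ⟨y, hy, e'⟩ => hfw.2 ⟨_,
      h (g⁻¹ * f) (mul_mem (inv_mem hg) hf) w' hw' ?_ w hw, Blk.image_r g _⟩⟩
    rwa [aut_mul, ← e', Blk.image_l]

theorem Blk.absorb (h : Blk G B) (hg : g ∈ G) (hc : Cyc g Δ δ) (hn : Nat.Coprime n δ)
    (hw : w ∈ B) (hwΔ : w ∈ Δ) (hw' : w' ∈ B) (hf : (g ^ n) w' = w') : Δ ⊆ B := by
  intro v hv
  obtain ⟨j, rfl⟩ := hc.step hn hwΔ hv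
  have e : ∀ j : ℕ, (g ^ (n * j)) w' = w' := fun j => by
    induction j with
    | zero => rfl
    | succ j ih => rw [Nat.mul_succ, pow_add, aut_mul, hf, ih]
  exact h _ (pow_mem hg _) w' hw' ((e j).symm ▸ hw') w hw

/-- the orbit of `w` under `N` is a block -/
theorem normal_trn (hΩ : Ω.Finite) (hs : Stb G Ω) (hp : Prim G Ω) (hN : N ≤ G)
    (hn : ∀ g ∈ G, ∀ n ∈ N, g * n * g⁻¹ ∈ N) (hg : g ∈ N) (hw : w ∈ Ω) (hm : g w ≠ w) :
    Trn N Ω := by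
  have h1 : {v | ∃ n ∈ N, n w = v} ⊆ Ω := by
    rintro _ ⟨n, hn, rfl⟩
    exact hs n (hN hn) w hw
  have h2 : Blk G {v | ∃ n ∈ N, n w = v} := by
    rintro f hf _ ⟨n, h1, rfl⟩ ⟨n', h2, e⟩ _ ⟨m, h3, rfl⟩
    refine ⟨f * (m * n⁻¹) * f⁻¹ * n', mul_mem (hn f hf _ (mul_mem h3 (inv_mem h1))) h2, ?_⟩
    simp only [aut_mul, e, Blk.image_l]
  rcases hp _ h1 h2 with h | h
  · exact absurd ((Set.one_lt_ncard (hΩ.subset h1)).2
      ⟨_, ⟨g, hg, rfl⟩, _, ⟨1, one_mem _, rfl⟩, hm⟩) (not_lt.2 h)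
  · rw [← h]
    rintro _ ⟨n, h1, rfl⟩ _ ⟨n', h2, rfl⟩
    exact ⟨n' * n⁻¹, mul_mem h2 (inv_mem h1), by rw [aut_mul, Blk.image_l]⟩

/-- `g (g w) = ± (g n g⁻¹) (g w) = (g n g⁻¹) n w` -/
theorem par_sq (hn : ∀ n ∈ N, g * n * g⁻¹ ∈ N) (h : ∃ n ∈ N, n w = g w ∨ n w = -g w)
    (hg : g (g w) = -w) : ∃ n ∈ N, n w = -w := by
  obtain ⟨n, h1, h2⟩ := h
  refine ⟨g * n * g⁻¹ * n, mul_mem (hn n h1) h1, ?_⟩
  rcases h2 with e | e
  · simp only [aut_mul, e, Blk.image_l, hg]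
  · simp only [aut_mul, e, map_neg, Blk.image_l, hg, neg_neg]

end Pool.Agent.NW
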