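import Pool.Agent.Lib.MP_d40963_nt.W.Tbl
import Pool.Agent.Lib.MP_d40963_nt.W.Cls
import Pool.Agent.Lib.MP_d40963_nt.W.Grp

/-! Places and cycles in the geometric setting. -/

namespace Pool.Agent.NW

open Polynomial

variable {p : ℕ} {K L : Type} [Field K] [Field L] [Algebra K L] {a : ℤ} {b e : ℕ}
  {β γ : Side K} {t x x' X Y : L} {ψ : RingAut L} {t0 y0 : K}

theorem Loc.ap0 {T : L} (l : Loc K T) : l.P.Ap T 0 0 := Pl.lt l.ap (Int.natCast_pos.2 l.pos)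

theorem Loc.apc (l : Loc K (t - algebraMap K L t0)) : l.P.Ap t 0 t0 :=
  Pl.res l.ap (Int.natCast_pos.2 l.pos)

theorem Loc.memc (l : Loc K (t - algebraMap K L t0)) : l.g ∈ Gx K t := Gx_sub t t0 ▸ l.mem

theorem Loc.memI (l : Loc K t⁻¹) : l.g ∈ Gx K t := Gx_inv (K := K) t ▸ l.mem

theorem GE.epos (h : GE a b e p β t) : 0 < e :=
  Nat.pos_of_ne_zero fun h0 => h.e0 (by rw [h0, Nat.cast_zero])

theorem GE.loc0 (h : GE a b e p β t) : ∃ l : Loc K t, ∃ ψ ∈ Fr p K t, l.P.Frb p ψ :=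
  (h.loc t h.cov).imp fun _ hl => hl h.fr

theorem GE.locc (h : GE a b e p β t) (t0 : K) : Nonempty (Loc K (t - algebraMap K L t0)) :=
  (h.loc _ (cov_sub h.cov t0)).nonempty

theorem GE.locI (h : GE a b e p β t) : Nonempty (Loc K t⁻¹) :=
  (h.loc _ (cov_inv h.cov)).nonempty

theorem trn_pow_eq (h : Hab K a b) (hx : Sh a b γ t (x ^ e)) :
    aeval x (expand K e (γ.D a b)) ≠ 0 ∧
      t * aeval x (expand K e (γ.D a b)) = aeval x (expand K e (γ.N a b)) := by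
  rw [expand_aeval, expand_aeval]
  exact ⟨((sh_iff h).1 hx).2.1, ((sh_iff h).1 hx).2.2.2⟩

/-- `cov_trans` for the polynomials `N (X ^ e)`, `D (X ^ e)` (`Polynomial.expand`) -/
theorem trn_pow (h : Hab K a b) (hc : Cov p K t) (hx : Sh a b γ t (x ^ e))
    (hx' : Sh a b γ t (x' ^ e)) : ∃ g ∈ Gx K t, g x = x' :=
  cov_trans hc (trn_pow_eq h hx).1 (trn_pow_eq h hx').1 (trn_pow_eq h hx).2 (trn_pow_eq h hx').2

theorem trn_sh (h : Hab K a b) (hc : Cov p K t) (γ : Side K) :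
    Trn (Gx K t) {Y | Sh a b γ t Y} := fun w hw w' hw' =>
  trn_pow (e := 1) h hc ((pow_one w).symm ▸ hw) ((pow_one w').symm ▸ hw')

theorem stb_sh (γ : Side K) (t : L) : Stb (Gx K t) {Y | Sh a b γ t Y} :=
  fun _ hg _ hw => Sh.map hg hg.2 hw

/-- `cov_root`, `Gx_le`, `adj_of_eq` -/
theorem cov_x (h : Hab K a b) (hc : Cov p K t) (hx : Sh a b γ t (x ^ e)) :
    Cov p K x ∧ Gx K x ≤ Gx K t :=
  ⟨cov_root hc (trn_pow_eq h hx).1 (trn_pow_eq h hx).2,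
    Gx_le (adj_of_eq (trn_pow_eq h hx).1 (trn_pow_eq h hx).2)⟩

/-- `Sh.t_eq` -/
theorem fr_x (hγ : γ.Rt p) (hx : Sh a b γ t (x ^ e)) (hψ : ψ ∈ Fr p K x) : ψ t = t := by
  rw [hx.t_eq]
  simp only [Side.U, Side.u, map_div₀, map_pow, map_zpow₀, map_sub, map_mul, hψ.1, hψ.2, hγ.σ,
    hγ.σ', hγ.τ, hγ.τ']

theorem GE.fr_x_ne (h : GE a b e p β t) (hx : Sh a b β t (x ^ e)) : (Fr p K x).Nonempty := by
  obtain ⟨ψ, hψ⟩ := h.fr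
  have h1 := hx.fr hψ hψ.2 h.rt
  rw [map_pow] at h1
  obtain ⟨g, hg, h2⟩ := trn_pow h.hab h.cov h1 hx
  exact ⟨g * ψ, (Gx_mul_Fr hg hψ).1, h2⟩

theorem GE.tri (h : GE a b e p β t) (hX : Sh a b β t X) (hY : Sh a b (std : Side K) t Y) :
    ∃ x y z : L, x ^ e = X ∧ (y / z) ^ e = Y ∧ Tri a b β std X (y ^ e) (z ^ e) := by
  obtain ⟨x, hx⟩ := h.root X hX
  obtain ⟨W, Z, h1, h2⟩ := tri_ex h.hab hX hY
  obtain ⟨⟨y, rfl⟩, z, rfl⟩ := h.lift X W Z hX h1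
  exact ⟨x, y, z, hx, (div_pow y z e).trans h2, h1⟩

variable [IsAlgClosed K]

theorem GE.exX (h : GE a b e p β t) : ∃ x, Sh a b β t (x ^ e) := by
  obtain ⟨y0, h0, hU⟩ : ∃ y0 : K, y0 ≠ 0 ∧ β.U a y0 = 0 := by
    have h1 := Int.natAbs_pos.2 h.hab.a0
    obtain ⟨z, hz⟩ := IsAlgClosed.exists_pow_nat_eq (β.σ' / β.σ) h1
    have h2 : z ≠ 0 := fun e => div_ne_zero h.ok.σ' h.ok.σ (by rw [← hz, e, zero_pow h1.ne'])
    rcases Int.natAbs_eq a with e | e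
    · exact ⟨z, h2, by rw [Side.U_self, e, zpow_natCast, hz, mul_div_cancel₀ _ h.ok.σ, sub_self]⟩
    · exact ⟨z⁻¹, inv_ne_zero h2, by rw [Side.U_self, e, inv_zpow', neg_neg, zpow_natCast, hz,
        mul_div_cancel₀ _ h.ok.σ, sub_self]⟩
  obtain ⟨l, -⟩ := h.loc0
  obtain ⟨Y, hY, -⟩ : (Nr l.P (Sh a b β t) y0).Nonempty := by
    by_cases hu : β.u b y0 = 0
    · exact (Tab.cel (tD h.hab h.ok h.sβ l.ap l.pos one_ne_zero h0 hu hU)).ex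
    · exact (tZ h.hab h.ok h.sβ l.ap l.pos one_ne_zero h0 hu hU).ex
  obtain ⟨x, rfl⟩ := h.root Y hY
  exact ⟨x, hY⟩

theorem cycU_cyc {T : L} {ε : ℕ} (l : Loc K T) (hg : l.g ∈ Gx K t)
    (h : Cel l.P (Sh a b γ t) y0 ε l.N) : Cyc l.g (Nr l.P (Sh a b γ t) y0) ε :=
  h.cyc l fun _ hY => hY.map hg hg.2

theorem cycU_inv {T : L} {ε : ℕ} (l : Loc K T) (hg : l.g ∈ Gx K t)
    (h : Cel l.P (fun Y => Sh a b γ t Y⁻¹) 0 ε l.N) : Cyc l.g (NrI l.P (Sh a b γ t)) ε :=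
  (h.cyc l fun Y hY => map_inv₀ l.g Y ▸ hY.map hg hg.2).inv

/-- the cycle at a unit point: length `2` or `1` -/
theorem cycU (h : Hab K a b) (hγ : γ.Ok) (hs : Spl a b γ t)
    (l : Loc K (t - algebraMap K L t0)) (hy : Sh a b γ t0 y0) :
    (Nr l.P (Sh a b γ t) y0).Nonempty ∧ ∀ Y ∈ Nr l.P (Sh a b γ t) y0,
      (l.g ^ 2) Y = Y ∧ (¬ Crit a b γ y0 → l.g Y = Y) := by
  by_cases hc : Crit a b γ y0
  · have h1 := Tab.cel (tU2 h hγ hs l.ap l.pos one_ne_zero hy hc rfl)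
    exact ⟨h1.ex, fun Y hY => ⟨((cycU_cyc l l.memc h1).per Y hY 2).2 dvd_rfl, fun e => (e hc).elim⟩⟩
  · have h1 := tU1 h hγ hs l.ap l.pos one_ne_zero hy hc
    have h2 := fun Y hY j => ((cycU_cyc l l.memc h1).per Y hY j).2 (one_dvd j)
    exact ⟨h1.ex, fun Y hY => ⟨h2 Y hY 2, fun _ => pow_one l.g ▸ h2 Y hY 1⟩⟩

theorem cycO (h : Hab K a b) (hγ : γ.Ok) (hs : Spl a b γ t) (ha : 0 < a)
    (l : Loc K (t - algebraMap K L t0)) (h0 : t0 = γ.v0 a b) :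
    Cel l.P (Sh a b γ t) 0 a.natAbs l.N ∧ Cyc l.g (Nr l.P (Sh a b γ t) 0) a.natAbs := by
  subst h0
  have h1 := Tab.cel (tO h hγ hs.1 ha l.ap l.pos one_ne_zero)
  exact ⟨h1, cycU_cyc l l.memc h1⟩

theorem cycI (h : Hab K a b) (hγ : γ.Ok) (hs : Spl a b γ t) (ha : 0 < a)
    (l : Loc K (t - algebraMap K L t0)) (h0 : t0 = γ.flip.v0 a b) :
    Cel l.P (fun Y => Sh a b γ t Y⁻¹) 0 a.natAbs l.N ∧
      Cyc l.g (NrI l.P (Sh a b γ t)) a.natAbs := by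
  subst h0
  have h1 := tI h hγ hs ha l.ap l.pos one_ne_zero
  exact ⟨h1, cycU_inv l l.memc h1⟩

theorem cycZ (h : Hab K a b) (hγ : γ.Ok) (hs : Spl a b γ t) (l : Loc K t) (h0 : y0 ≠ 0)
    (hu : γ.u b y0 ≠ 0) (hU : γ.U a y0 = 0) : Cyc l.g (Nr l.P (Sh a b γ t) y0) b := by
  exact cycU_cyc l l.mem (tZ h hγ hs l.ap l.pos one_ne_zero h0 hu hU)

theorem cycZ' (h : Hab K a b) (hγ : γ.Ok) (hs : Spl a b γ t) (l : Loc K t) (ha : a < 0)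
    (h0 : y0 ≠ 0) (hu : γ.u b y0 = 0) (hU : γ.U a y0 ≠ 0) :
    Cyc l.g (Nr l.P (Sh a b γ t) y0) a.natAbs := by
  exact cycU_cyc l l.mem (tZ' h hγ hs l.ap l.pos one_ne_zero ha h0 hu hU)

theorem cycD (h : Hab K a b) (hs : Spl a b (std : Side K) t) (l : Loc K t) :
    Cel l.P (Sh a b (std : Side K) t) 1 (dd a b) l.N ∧
      Cyc l.g (Nr l.P (Sh a b (std : Side K) t) 1) (dd a b) := by
  have h1 := Tab.cel (tD (y0 := 1) h std_ok hs l.ap l.pos one_ne_zero one_ne_zero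
    (by simp [Side.u_self, std]) (by simp [Side.U_self, std]))
  exact ⟨h1, cycU_cyc l l.mem h1⟩

theorem cycOI (h : Hab K a b) (hγ : γ.Ok) (hs : Spl a b γ t) (ha : a < 0) (l : Loc K t⁻¹) :
    Cel l.P (Sh a b γ t) 0 (a.natAbs * b) l.N ∧
      Cyc l.g (Nr l.P (Sh a b γ t) 0) (a.natAbs * b) ∧
      Cel l.P (fun Y => Sh a b γ t Y⁻¹) 0 (a.natAbs * b) l.N ∧
      Cyc l.g (NrI l.P (Sh a b γ t)) (a.natAbs * b) := by
  have h1 := tO' h hγ hs.1 ha l.ap l.pos one_ne_zero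
  have h2 := tI' h hγ hs ha l.ap l.pos one_ne_zero
  exact ⟨h1, cycU_cyc l l.memI h1, h2, cycU_inv l l.memI h2⟩

/-- the sheets above `t = 0` which are not near a common zero -/
theorem per0 (h : Hab K a b) (hγ : γ.Ok) (hs : Spl a b γ t) (l : Loc K t) (hY : Sh a b γ t Y) :
    ∃ y0, y0 ≠ 0 ∧ l.P.Ap Y 0 y0 ∧ ((γ.u b y0 = 0 ∧ γ.U a y0 = 0) ∨
      (γ.U a y0 = 0 ∧ Per l.g Y b) ∨ (a < 0 ∧ γ.u b y0 = 0 ∧ Per l.g Y a.natAbs)) := by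
  obtain ⟨y0, h0, h1, h2⟩ := cls0 h hγ l.ap0 hY
  refine ⟨y0, h0, h1, ?_⟩
  by_cases hu : γ.u b y0 = 0
  · by_cases hU : γ.U a y0 = 0
    · exact Or.inl ⟨hu, hU⟩
    · have ha := (h2.resolve_left hU).1
      exact Or.inr (Or.inr ⟨ha, hu, (cycZ' h hγ hs l ha h0 hu hU).per Y ⟨hY, h1⟩⟩)
  · have hU := h2.resolve_right fun e => hu e.2
    exact Or.inr (Or.inl ⟨hU, (cycZ h hγ hs l h0 hu hU).per Y ⟨hY, h1⟩⟩)

/-- the sheets above `t = t0 ≠ 0` for `a > 0` -/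
theorem perc (h : Hab K a b) (hγ : γ.Ok) (hs : Spl a b γ t) (l : Loc K (t - algebraMap K L t0))
    (h0 : t0 ≠ 0) (hY : Sh a b γ t Y) :
    ((∃ y0, y0 ≠ 0 ∧ l.P.Ap Y 0 y0) ∧ (l.g ^ 2) Y = Y) ∨
      (t0 = γ.v0 a b ∧ l.P.Ap Y 0 0 ∧ (l.g ^ a.natAbs) Y = Y) ∨
      (l.P.Ap Y⁻¹ 0 0 ∧ (l.g ^ a.natAbs) Y = Y) := by
  rcases cls h hγ l.apc h0 hY with ⟨y0, h1, h2⟩ | ⟨ha, h1, h2⟩ | ⟨ha, h1, h2⟩
  · exact Or.inl ⟨⟨y0, h1.1, h2⟩, ((cycU h hγ hs l h1).2 Y ⟨hY, h2⟩).1⟩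
  · exact Or.inr (Or.inl ⟨h1, h2, ((cycO h hγ hs ha l h1).2.per Y ⟨hY, h2⟩ _).2 dvd_rfl⟩)
  · exact Or.inr (Or.inr ⟨h2, ((cycI h hγ hs ha l h1).2.per Y ⟨hY, h2⟩ _).2 dvd_rfl⟩)

end Pool.Agent.NW
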