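import Pool.Agent.Lib.MP_d40963_nt.W.Cov

/-! Construction of coverings inside the separable closure of the rational function field. -/

namespace Pool.Agent.NW

open Polynomial IntermediateField

theorem splits_small (p : ℕ) {Ω : Type} [Field Ω] [IsSepClosed Ω] [CharP Ω p] (Q : Polynomial Ω)
    (h : Q.natDegree < p) : Q.Splits := by
  induction Q using WfDvdMonoid.induction_on_irreducible with
  | zero => exact Splits.zero
  | unit u hu => exact Splits.of_natDegree_eq_zero (natDegree_eq_zero_of_isUnit hu)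
  | mul a f ha hf ih =>
    rw [natDegree_mul hf.ne_zero ha] at h
    refine (IsSepClosed.splits_of_separable f ((separable_iff_derivative_ne_zero hf).2
      fun h0 => ?_)).mul (ih (by omega))
    have h1 := coeff_derivative f (f.natDegree - 1)
    have h2 := hf.natDegree_pos
    rw [h0, Nat.sub_add_cancel h2, ← Nat.cast_succ, Nat.succ_eq_add_one, Nat.sub_add_cancel h2,
      coeff_zero, eq_comm, coeff_natDegree, mul_eq_zero, leadingCoeff_eq_zero,
      or_iff_right hf.ne_zero, CharP.cast_eq_zero_iff Ω p] at h1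
    exact absurd (Nat.le_of_dvd h2 h1) (by omega)

theorem exists_ext {F : Type} [Field F] (σ : F ≃+* F) :
    ∃ ψ : RingAut (SeparableClosure F), ∀ a, ψ (algebraMap F _ a) = algebraMap F _ (σ a) := by
  let i : Algebra F (SeparableClosure F) := inferInstance
  let j : Algebra F (SeparableClosure F) := ((algebraMap F _).comp (σ : F →+* F)).toAlgebra
  have h : @IsSepClosure F _ (SeparableClosure F) _ j := @IsSepClosure.mk _ _ _ _ j inferInstance
    (@Algebra.IsSeparable.of_equiv_equiv F _ F _ _ _ _ _ i j σ.symm (RingEquiv.refl _)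
      (RingHom.ext fun a => congrArg (@algebraMap F _ _ _ i) (σ.apply_symm_apply a)) _)
  let e := @IsSepClosure.equiv F _ (SeparableClosure F) (SeparableClosure F) _ _ j h i inferInstance
  exact ⟨@AlgEquiv.toRingEquiv _ _ _ _ _ _ i j e, @AlgEquiv.commutes _ _ _ _ _ _ i j e⟩

/-- `Ω` is the separable closure of `RatFunc K`. An irreducible polynomial of degree `< p` is
separable, so every nonzero polynomial of degree `< p` splits in `Ω`. The Frobenius of the
coefficients extends to `Ω`. For `S` take the field generated by `t` and `S`: it is normal over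
`K(t)`, its group acts faithfully on `S`. -/
theorem exists_big (p : ℕ) [Fact p.Prime] (K : Type) [Field K] [IsAlgClosed K] [CharP K p] :
    ∃ (Ω : Type) (_ : Field Ω) (_ : Algebra K Ω) (t : Ω), (∀ P : K[X], aeval t P = 0 → P = 0) ∧
      (∀ Q : Polynomial Ω, Q.natDegree < p → Q.Splits) ∧
      ∀ S : Set Ω, S.Finite → S.ncard < p → (∀ g ∈ Gx K t, ∀ y ∈ S, g y ∈ S) →
        (∀ ψ ∈ Fr p K t, ∀ y ∈ S, ψ y ∈ S) →
        ∃ (L : IntermediateField K Ω) (ht : t ∈ L), S ⊆ L ∧ Cov p K (⟨t, ht⟩ : L) ∧
          (Fr p K (⟨t, ht⟩ : L)).Nonempty := by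
  let F := RatFunc K
  let Ω := SeparableClosure F
  have : CharP Ω p := charP_of_injective_algebraMap (algebraMap K Ω).injective p
  have h0 : ∀ {E : Type} [Field E] [Algebra K E] [Algebra F E] [IsScalarTower K F E] (P : K[X]),
      aeval (algebraMap F E RatFunc.X) P = algebraMap F E (algebraMap K[X] F P) := fun P => by
    rw [aeval_algebraMap_apply, RatFunc.aeval_X_left_eq_algebraMap]
  have h1 : ∀ {E : Type} [Field E] [Algebra K E] [Algebra F E] [IsScalarTower K F E] (P : K[X]),
      aeval (algebraMap F E RatFunc.X) P = 0 → P = 0 := fun P e => by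
    rwa [h0, _root_.map_eq_zero, FaithfulSMul.algebraMap_eq_zero_iff] at e
  have h2 : ∀ {E : Type} [Field E] [Algebra K E] [Algebra F E] [IsScalarTower K F E] (a : F),
      algebraMap F E a ∈ K⟮algebraMap F E RatFunc.X⟯ := fun a =>
    (mem_adjoin_simple_iff K _).2 ⟨a.num, a.denom, by
      rw [h0, h0, ← map_div₀, RatFunc.num_div_denom]⟩
  have h3 : ∀ {E : Type} [Field E] [Algebra K E] [Algebra F E] [IsScalarTower K F E]
      (g : E ≃ₐ[F] E), g.toRingEquiv ∈ Gx K (algebraMap F E RatFunc.X) := fun g =>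
    ⟨fun c => by rw [IsScalarTower.algebraMap_apply K F]; exact g.commutes _, g.commutes _⟩
  refine ⟨Ω, inferInstance, inferInstance, algebraMap F Ω RatFunc.X, h1, splits_small p,
    fun S hS hp hG hF => ?_⟩
  let E := adjoin F S
  have hE : S ⊆ E := subset_adjoin F S
  have := hS.to_subtype
  have : FiniteDimensional F E :=
    finiteDimensional_adjoin fun y _ => Algebra.IsIntegral.isIntegral y
  have : Normal F E := normal_iff_forall_map_le'.2 fun g => by
    rw [adjoin_map]
    exact adjoin.mono _ _ _ (Set.image_subset_iff.2 (hG _ (h3 g)))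
  have : IsGalois F E := {}
  let T : E := algebraMap F E RatFunc.X
  have h4 : ∀ g ∈ Gx K T, ∀ y : E, y.1 ∈ S → (g y).1 ∈ S := fun g hg y hy => by
    let g' : E ≃ₐ[F] E := AlgEquiv.ofRingEquiv (f := g) fun a => Gx_adj hg (h2 a)
    exact Set.mem_of_eq_of_mem (g'.liftNormal_commutes Ω y).symm
      (hG _ (h3 (g'.liftNormal Ω)) _ hy)
  let r : Gx K T →* Equiv.Perm S := MonoidHom.toHomPerm
    { toFun := fun g y => ⟨_, h4 g g.2 ⟨y, hE y.2⟩ y.2⟩
      map_one' := rfl
      map_mul' := fun _ _ => rfl }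
  have h5 : Function.Injective r := (injective_iff_map_eq_one _).2 fun g hg =>
    Subtype.ext (RingEquiv.ext fun ⟨y, hy⟩ => by
      change g.1 _ = _
      induction hy using adjoin_induction with
      | mem y hy => exact Subtype.ext (congrArg (fun z : S => z.1) (Equiv.congr_fun hg ⟨y, hy⟩))
      | algebraMap a => exact Gx_adj g.2 (h2 a)
      | add y z hy hz a b => exact (map_add g.1 ⟨y, hy⟩ ⟨z, hz⟩).trans (congrArg₂ _ a b)
      | inv y hy a => exact (map_inv₀ g.1 (⟨y, hy⟩ : E)).trans (congrArg _ a)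
      | mul y z hy hz a b => exact (map_mul g.1 ⟨y, hy⟩ ⟨z, hz⟩).trans (congrArg₂ _ a b))
  have h6 : Cov p K T := ⟨h1, Finite.of_injective _ h5, fun e => by
    have := e.trans (Subgroup.card_dvd_of_injective r h5)
    rw [Nat.card_perm, (Fact.out : p.Prime).dvd_factorial, Nat.card_coe_set_eq] at this
    omega, fun y hy => by
      obtain ⟨a, rfl⟩ := (IsGalois.mem_range_algebraMap_iff_fixed (F := F) y).2
        fun g => hy _ (h3 g)
      exact eq_of_adj (h2 a)⟩
  obtain ⟨ψ, hψ⟩ := exists_ext (IsFractionRing.ringEquivOfRingEquiv (K := F) (L := F)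
    (mapEquiv (frobeniusEquiv K p)))
  have h7' : ∀ P : K[X], ψ (algebraMap F Ω (algebraMap K[X] F P)) =
      algebraMap F Ω (algebraMap K[X] F (P.map (frobenius K p))) := fun P =>
    (hψ _).trans (congrArg _ (IsFractionRing.ringEquivOfRingEquiv_algebraMap _ P))
  have h7 : ψ ∈ Fr p K (algebraMap F Ω RatFunc.X) :=
    ⟨fun c => by simpa only [← h0, map_C, aeval_C, frobenius_def] using h7' (C c),
      by simpa only [← h0, map_X, aeval_X] using h7' X⟩
  have h8 : ∀ y ∈ E, ψ y ∈ E := fun y hy => by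
    induction hy using adjoin_induction with
    | mem y hy => exact hE (hF ψ h7 y hy)
    | algebraMap a => exact hψ a ▸ E.algebraMap_mem _
    | add y z _ _ a b => exact map_add ψ y z ▸ add_mem a b
    | inv y _ a => exact map_inv₀ ψ y ▸ inv_mem a
    | mul y z _ _ a b => exact map_mul ψ y z ▸ mul_mem a b
  have h9 : ∀ y ∈ E, ψ.symm y ∈ E := fun y hy => by
    induction hy using adjoin_induction with
    | mem y hy =>
      obtain ⟨z, hz, rfl⟩ :=
        ((hS.injOn_iff_bijOn_of_mapsTo (hF ψ h7)).1 ψ.injective.injOn).surjOn hy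
      exact (ψ.symm_apply_apply z).symm ▸ hE hz
    | algebraMap a =>
      exact (ψ.symm_apply_eq.2 ((hψ _).trans
        (congrArg _ (RingEquiv.apply_symm_apply _ a))).symm).symm ▸ E.algebraMap_mem _
    | add y z _ _ a b => exact (ψ.symm.map_add y z).symm ▸ add_mem a b
    | inv y _ a => rw [map_inv₀ (RingEquiv.symm ψ)]; exact inv_mem a
    | mul y z _ _ a b => exact (ψ.symm.map_mul y z).symm ▸ mul_mem a b
  let φ : E ≃+* E :=
    { toFun := fun y => ⟨ψ y, h8 _ y.2⟩
      invFun := fun y => ⟨ψ.symm y, h9 _ y.2⟩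
      left_inv := fun y => Subtype.ext (ψ.symm_apply_apply y)
      right_inv := fun y => Subtype.ext (ψ.apply_symm_apply y)
      map_mul' := fun y z => Subtype.ext (map_mul ψ y.1 z.1)
      map_add' := fun y z => Subtype.ext (map_add ψ y.1 z.1) }
  have h10 : φ ∈ Fr p K T := ⟨fun c => Subtype.ext (h7.1 c), Subtype.ext h7.2⟩
  exact ⟨E.restrictScalars K, T.2, hE, h6, φ, h10⟩

end Pool.Agent.NW
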