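import Pool.Agent.Lib.MP_d40963_nt.W.Cov
import Pool.Agent.Lib.MP_751085_ag.ZC.V.Tam
import Pool.Agent.Lib.MP_751085_ag.ZC.V.Ext
import Pool.Agent.Lib.MP_751085_ag.ZC.V.Har

/-! The existence of places, tame inertia generators and Frobenius elements. -/

namespace Pool.Agent.NW.Ch

open Polynomial IntermediateField Pool.Agent.ZCy
open scoped WithZero
open WithZero (exp)

variable {p : ℕ} {K L : Type} [Field K] [Field L] [Algebra K L] {w : Vl L} {π a b : L} {c d : K}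

theorem nr_le (hK : Triv (algebraMap K L) w) (h : w (a - algebraMap K L c) < 1) : w a ≤ 1 := by
  rw [← sub_add_cancel a (algebraMap K L c)]
  refine w.map_add_le h.le ?_
  rcases eq_or_ne c 0 with rfl | h0
  · simp
  · exact (hK c h0).le

theorem nr_mul (hK : Triv (algebraMap K L) w) (h : w (a - algebraMap K L c) < 1)
    (h' : w (b - algebraMap K L d) < 1) : w (a * b - algebraMap K L (c * d)) < 1 := by
  have : a * b - algebraMap K L (c * d) =
      a * (b - algebraMap K L d) + algebraMap K L d * (a - algebraMap K L c) := by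
    rw [map_mul]; ring
  rw [this]
  refine w.map_add_lt ?_ ?_ <;> rw [map_mul]
  · exact mul_lt_one_of_nonneg_of_lt_one_right (nr_le hK h) zero_le h'
  · exact mul_lt_one_of_nonneg_of_lt_one_right (nr_le hK (c := d) (by simp)) zero_le h

theorem nr_zpow (hK : Triv (algebraMap K L) w) (h : w (a - algebraMap K L c) < 1) (hc : c ≠ 0)
    (n : ℤ) : w (a ^ n - algebraMap K L (c ^ n)) < 1 := by
  have h0 := (_root_.map_ne_zero (algebraMap K L)).2 hc
  have h1 := vtam_zpow (w := w) (a := a / algebraMap K L c)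
    (by rwa [div_sub_one h0, map_div₀, hK c hc, div_one]) n
  rwa [div_zpow, div_sub_one (zpow_ne_zero _ h0), map_div₀, ← map_zpow₀, hK _ (zpow_ne_zero _ hc),
    div_one] at h1

theorem nr_uniq (hK : Triv (algebraMap K L) w) (h : w (a - algebraMap K L c) < 1)
    (h' : w (a - algebraMap K L d) < 1) : c = d := by
  by_contra hne
  have := w.map_sub_lt h' h
  rw [sub_sub_sub_cancel_left, ← map_sub, hK _ (sub_ne_zero.2 hne)] at this
  exact this.false

theorem nr_unit (h1 : w a = 1) (h : w (a - algebraMap K L c) < 1) : c ≠ 0 := by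
  rintro rfl
  rw [map_zero, sub_zero, h1] at h
  exact h.false

theorem ne_of_unif (hπ : w π = exp (-1)) : π ≠ 0 := w.ne_zero_iff.1 (hπ ▸ WithZero.exp_ne_zero)

/-- the place of a discrete valuation with residue field `K` -/
def mkPl (hπ : w π = exp (-1)) (hK : Triv (algebraMap K L) w)
    (hr : ∀ y, w y ≤ 1 → ∃ c, w (y - algebraMap K L c) < 1) : Pl K L where
  Ap y n c := w (y / π ^ n - algebraMap K L c) < 1
  uniq := nr_uniq hK
  add h h' := by
    rw [add_div, map_add, add_sub_add_comm]; exact w.map_add_lt h h'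
  mul h h' := by
    rw [zpow_add₀ (ne_of_unif hπ), mul_div_mul_comm]; exact nr_mul hK h h'
  const c := by simp
  up {y n} h := hr _ (by
    rw [map_zero, sub_zero, lt_one_iff_le_exp] at h
    rwa [zpow_add_one₀ (ne_of_unif hπ), ← div_div, map_div₀, hπ, div_le_one₀ WithZero.exp_pos])
  down {y n c} h := by
    have := nr_le hK h
    rw [zpow_add_one₀ (ne_of_unif hπ), ← div_div, map_div₀, hπ,
      div_le_one₀ WithZero.exp_pos] at this
    rwa [map_zero, sub_zero, lt_one_iff_le_exp]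
  zero n := by simp
  ex {y} hy := by
    have h1 := zpow_ne_zero (ord w y) (ne_of_unif hπ)
    have h2 : w (y / π ^ ord w y) = 1 := (ord_eq_zero_v w (div_ne_zero hy h1)).1 (by
      rw [ord_div_v w hy h1, ord_zpow_v, ord_eq_of w hπ, mul_one, sub_self])
    obtain ⟨c, hc⟩ := hr _ h2.le
    exact ⟨_, c, nr_unit h2 hc, hc⟩

theorem mkPl_act (hπ : w π = exp (-1)) (hK : Triv (algebraMap K L) w)
    (hr : ∀ y, w y ≤ 1 → ∃ c, w (y - algebraMap K L c) < 1) {φ : RingAut L}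
    (h1 : ∀ y, w (φ y) = w y) {σ : K → K} (h2 : ∀ c, φ (algebraMap K L c) = algebraMap K L (σ c)) :
    ∃ ζ, ζ ≠ 0 ∧ ∀ y n c, (mkPl hπ hK hr).Ap y n c → (mkPl hπ hK hr).Ap (φ y) n (ζ ^ n * σ c) := by
  have h0 := ne_of_unif hπ
  have h3 : w (φ π / π) = 1 := by rw [map_div₀, h1, div_self (w.ne_zero_iff.2 h0)]
  obtain ⟨ζ, hζ⟩ := hr _ h3.le
  refine ⟨ζ, nr_unit h3 hζ, fun y n c h => ?_⟩
  have h4 : w (φ y / φ π ^ n - algebraMap K L (σ c)) < 1 := by
    rwa [← h2, ← map_zpow₀, ← map_div₀, ← map_sub, h1]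
  have := nr_mul hK (nr_zpow hK hζ (nr_unit h3 hζ) n) h4
  rwa [div_zpow, mul_comm, div_mul_div_cancel₀ (zpow_ne_zero _ ((_root_.map_ne_zero φ).2 h0))] at this

theorem act_pow {P : Pl K L} {g : RingAut L} {ζ : K} (h : P.Act g ζ) (j : ℕ) :
    P.Act (g ^ j) (ζ ^ j) := by
  induction j with
  | zero => intro y n c e; simpa using e
  | succ j ih =>
    intro y n c e
    rw [pow_succ', pow_succ', mul_zpow, mul_assoc]
    exact h _ _ _ (ih _ _ _ e)

theorem place' : PlaceStmt := by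
  intro p _ K L _ _ _ _ _ T hT
  have := hT.fin
  have := hT.gal
  have := IsGaloisGroup.isGalois (Gx K T) K⟮T⟯ L
  have := IsGaloisGroup.finiteDimensional (Gx K T) K⟮T⟯ L
  let α : K[X] →+* K⟮T⟯ := (aeval T : K[X] →ₐ[K] L).toRingHom.codRestrict K⟮T⟯ (aeval_adj T)
  have hα : IsFr α := ⟨(injective_iff_map_eq_zero _).2 fun f e => hT.tr f (congrArg Subtype.val e),
    fun y => let ⟨f, g, h, e⟩ := eq_of_adj y.2; ⟨f, g, h, Subtype.ext e⟩⟩
  have hαL : ∀ f, algebraMap K⟮T⟯ L (α f) = aeval T f := fun _ => rfl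
  obtain ⟨v, hv, hv1⟩ := exists_vcen hα prime_X
  obtain ⟨w, hw, ho⟩ := exists_over_nrm (E := L) ⟨_, hv1⟩
  obtain ⟨N, hN, hi⟩ := ho.idx ⟨_, hv1⟩
  obtain ⟨ρ₀, r1, r2, -⟩ := hv.exists_red hα prime_X (l := evalRingHom 0)
    fun f => by rw [X_dvd_iff, coeff_zero_eq_eval_zero, coe_evalRingHom]
  obtain ⟨ρ, r3, r4⟩ := exists_red_over ho r1
  have hK : Triv (algebraMap K L) w := fun c hc => by
    rw [← aeval_C T c, ← hαL, ho.eq_one, hv.eq_one, X_dvd_iff, coeff_C_zero]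
    exact hc
  have hr : ∀ y, w y ≤ 1 → ∃ c, w (y - algebraMap K L c) < 1 := fun y hy => ⟨ρ ⟨y, hy⟩, by
    have := (r3.eq_iff ⟨y, hy⟩ (ho.int ⟨α (C (ρ ⟨y, hy⟩)), hv.1 _⟩)).1 (by rw [r4, r2]; simp)
    rwa [ho.coe_int, hαL, aeval_C] at this⟩
  have hX : w T = exp (-1) ^ N := by
    rw [← hv1, ← hi _ (ne_of_unif hv1), hαL, aeval_X]
  obtain ⟨π, hπ, hT1⟩ : ∃ π, w π = exp (-1) ∧ w (T / π ^ (N : ℤ) - algebraMap K L 1) < 1 := by
    obtain ⟨π, hπ⟩ := hw
    have h1 : w (T / π ^ (N : ℤ)) = 1 := by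
      rw [map_div₀, zpow_natCast, map_pow, hX, hπ, div_self (pow_ne_zero _ WithZero.exp_ne_zero)]
    obtain ⟨c, hc⟩ := hr _ h1.le
    obtain ⟨d, rfl⟩ := IsAlgClosed.exists_pow_nat_eq c (Nat.pos_of_ne_zero hN)
    have h2 := nr_unit h1 hc
    refine ⟨π * algebraMap K L d, by rw [map_mul, hπ, hK d fun e => h2 (by simp [e, hN]), mul_one],
      ?_⟩
    have := nr_mul hK hc (b := algebraMap K L (d ^ N)⁻¹) (d := (d ^ N)⁻¹) (by simp)
    rwa [mul_inv_cancel₀ h2, map_inv₀, ← div_eq_mul_inv, div_div, map_pow, ← zpow_natCast,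
      ← mul_zpow] at this
  have ht : w (Nat.card (L ≃ₐ[K⟮T⟯] L) : L) = 1 := by
    rw [← Nat.card_congr (IsGaloisGroup.mulEquivAlgEquiv (Gx K T) K⟮T⟯ L).toEquiv,
      ← map_natCast (algebraMap K L)]
    exact hK _ (by rw [Ne, CharP.cast_eq_zero_iff K p]; exact hT.nd)
  have hm : ∀ g : L ≃ₐ[K⟮T⟯] L, g.toRingEquiv ∈ Gx K T := fun g =>
    ⟨fun c => g.commutes (algebraMap K K⟮T⟯ c), g.commutes ⟨T, mem_adjoin_simple_self K T⟩⟩
  obtain ⟨s, hs⟩ := (ine_cyclic (tame_of_card ht)).exists_ofOrder_eq_natCard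
  rw [card_ine_eq ⟨_, hv1⟩ hw hi (tame_of_card ht)] at hs
  let P := mkPl hπ hK hr
  have hP : P.Ap T N 1 := hT1
  have hP1 : P.Ap π 1 1 := by
    change w _ < 1
    simp [ne_of_unif hπ]
  obtain ⟨ζ, -, hζ⟩ := mkPl_act hπ hK hr (φ := s.1.toRingEquiv) s.2.1 (σ := id) (hm s).1
  replace hζ : P.Act s.1.toRingEquiv ζ := hζ
  have hz : IsPrimitiveRoot ζ N := ⟨by
    have := hζ _ _ _ hP
    rw [(hm s).2] at this
    simpa using P.uniq this hP, fun l hl => by
      have h1 := act_pow hζ l _ _ _ hP1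
      rw [hl] at h1
      have h2 : ∀ (l : ℕ) y, (s.1.toRingEquiv ^ l) y = (s.1 ^ l) y := fun l y => by
        induction l with
        | zero => rfl
        | succ l ih => rw [pow_succ', pow_succ']; exact congrArg s.1 ih
      rw [← hs]
      refine orderOf_dvd_of_pow_eq_one (Subtype.ext (eq_one_of_theta hπ (s ^ l).2
        (tame_iff.1 (tame_of_card ht) _ (s ^ l).2) ?_))
      rw [h2] at h1
      simpa [P, mkPl] using h1⟩
  refine ⟨⟨P, N, ζ, s.1.toRingEquiv, Nat.pos_of_ne_zero hN, hz, hP, hm s, hζ⟩, fun ⟨ψ, hψ⟩ => ?_⟩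
  have h1 : ∀ f, ψ (aeval T f) = aeval T (f.map (frobenius K p)) := fun f => by
    rw [aut_aeval (frobenius K p) hψ.1, hψ.2]
  have h2 : Over (algebraMap K⟮T⟯ L) v (w.comap (ψ : L →+* L)) :=
    hv.iff hα prime_X (v' := (w.comap (ψ : L →+* L)).comap (algebraMap K⟮T⟯ L)) ⟨fun f => by
      change w (ψ (aeval T f)) ≤ 1
      rw [h1, ← hαL, ho]
      exact hv.1 _, fun f => by
      change w (ψ (aeval T f)) < 1 ↔ _
      rw [h1, ← hαL, ho.lt_one, hv.2, X_dvd_iff, X_dvd_iff, coeff_map, _root_.map_eq_zero]⟩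
  obtain ⟨g, hg⟩ := conj_nrm ho h2 hw (let ⟨π, h⟩ := hw; ⟨ψ.symm π, by simpa using h⟩)
  have h3 := Fr_mul_Gx hψ (inv_mem (hm g))
  obtain ⟨η, -, hη⟩ := mkPl_act hπ hK hr (φ := ψ * g.toRingEquiv⁻¹)
    (fun y => (hg _).trans (congrArg w (g.apply_symm_apply y))) h3.1
  have h4 : η ^ N = 1 := by
    have := hη _ _ _ hP
    rw [h3.2] at this
    simpa using P.uniq this hP
  have := NeZero.mk hN
  obtain ⟨j, -, hj⟩ := hz.eq_pow_of_pow_eq_one (ξ := η⁻¹) (by rw [inv_pow, h4, inv_one])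
  refine ⟨_, Gx_mul_Fr (pow_mem (hm s) j) h3, fun y n c h => ?_⟩
  have := act_pow hζ j _ _ _ (hη _ _ _ h)
  rwa [hj, ← mul_assoc, ← mul_zpow, inv_mul_cancel₀ fun e => hN (by simp [e, hN] at h4), one_zpow,
    one_mul] at this

end Pool.Agent.NW.Ch

theorem Pool.Agent.NW.place : Pool.Agent.NW.PlaceStmt := Pool.Agent.NW.Ch.place'
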