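import Pool.Agent.Lib.MP_d40963_nt.W.Fac2
import Pool.Agent.Lib.MP_d40963_nt.W.Ex
import Pool.Agent.Lib.MP_d40963_nt.W.Place

/-! The existence of the arithmetic setting. -/

namespace Pool.Agent.NW

open Polynomial

section
variable {K L M : Type} [Field K] [Field L] [Field M] [Algebra K L] [Algebra K M] {a : ℤ} {b : ℕ}
  {β γ : Side K} {t X Y W Z : L}

theorem env_u (f : L →ₐ[K] M) (γ : Side K) (b : ℕ) (Y : L) : γ.u b (f Y) = f (γ.u b Y) := by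
  simp [Side.u]

theorem env_U (f : L →ₐ[K] M) (γ : Side K) (a : ℤ) (Y : L) : γ.U a (f Y) = f (γ.U a Y) := by
  simp [Side.U]

theorem env_sh (f : L →ₐ[K] M) : Sh a b γ (f t) (f Y) ↔ Sh a b γ t Y := by
  simp only [Sh, env_u, env_U, ← map_zpow₀, ← map_pow, ← map_mul,
    (show Function.Injective f from f.toRingHom.injective).eq_iff, _root_.map_ne_zero]

theorem env_tri (f : L →ₐ[K] M) : Tri a b β γ (f X) (f W) (f Z) ↔ Tri a b β γ X W Z := by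
  simp only [Tri, env_u, env_U, ← map_zpow₀, ← map_pow, ← f.commutes, ← map_mul, ← map_sub,
    (show Function.Injective f from f.toRingHom.injective).eq_iff, _root_.map_ne_zero]

theorem env_spl [IsAlgClosed K] (h : Hab K a b) (hγ : γ.Ok) (E : IntermediateField K M) (t : E)
    (hs : ∀ Q : M[X], Q.natDegree ≤ 2 * (a.natAbs * b) → Q.Splits)
    (hE : ∀ Y : M, Sh a b γ t.1 Y → Y ∈ E) : Spl1 a b γ t := by
  have e : ((γ.N a b).map (algebraMap K E) - C t * (γ.D a b).map (algebraMap K E)).map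
      (algebraMap E M) = (γ.N a b).map (algebraMap K M) - C t.1 * (γ.D a b).map (algebraMap K M) := by
    simp [Polynomial.map_map, ← IsScalarTower.algebraMap_eq]
  refine Splits.of_splits_map (algebraMap E M) (e ▸ hs _ (ND_deg h γ _)) fun Y hY => ?_
  rw [e, mem_roots (ND_ne h hγ _), IsRoot, eval_sub, eval_mul, eval_C, eval_map_algebraMap,
    eval_map_algebraMap, sub_eq_zero] at hY
  suffices Y ∈ E from ⟨⟨Y, this⟩, rfl⟩
  have alg : ∀ Q : K[X], Q ≠ 0 → aeval Y Q = 0 → Y ∈ E := fun Q h0 hQ => by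
    obtain ⟨c, rfl⟩ := minpoly.mem_range_of_degree_eq_one K Y (IsAlgClosed.degree_eq_one_of_irreducible
      K (minpoly.irreducible (IsAlgebraic.isIntegral ⟨Q, h0, hQ⟩)))
    exact E.algebraMap_mem c
  by_cases h0 : Y = 0
  · exact h0 ▸ zero_mem E
  by_cases h1 : aeval Y (γ.D a b) = 0
  · refine alg _ (mul_ne_zero (pow_ne_zero _ fun e => hγ.τ' ?_) (pow_ne_zero _ X_ne_zero)) h1
    simpa [Side.up, h.b0.ne'] using congrArg (eval 0) e
  by_cases h2 : aeval Y (γ.N a b) = 0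
  · exact alg _ (by simpa using ND_ne (L := K) h hγ 0) h2
  exact hE Y ((sh_iff h).2 ⟨h0, h1, h2, hY.symm⟩)

theorem env_card {α β : Type} {A : Set α} {m n : ℕ} (hA : A.Finite ∧ A.ncard ≤ m) {F : α → Set β}
    (h : ∀ x ∈ A, (F x).Finite ∧ (F x).ncard ≤ n) :
    (⋃ x ∈ A, F x).Finite ∧ (⋃ x ∈ A, F x).ncard ≤ m * n := by
  lift A to Finset α using hA.1
  refine ⟨hA.1.biUnion fun x hx => (h x hx).1, (A.set_ncard_biUnion_le F).trans
    ((Finset.sum_le_card_nsmul _ _ n fun x hx => (h x hx).2).trans ?_)⟩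
  exact Nat.mul_le_mul_right _ ((Set.ncard_coe_finset A).ge.trans hA.2)

theorem env_root {e : ℕ} (he : 0 < e) (W : L) :
    {y | y ^ e = W}.Finite ∧ {y | y ^ e = W}.ncard ≤ e := by
  classical
  have : {y | y ^ e = W} = ((nthRoots e W).toFinset : Set L) := by
    ext y; simp [mem_nthRoots he]
  rw [this, Set.ncard_coe_finset]
  exact ⟨Finset.finite_toSet _, (Multiset.toFinset_card_le _).trans (card_nthRoots _ _)⟩

theorem env_pairs (h : Hab K a b) (hγ : γ.Ok) (hX : Sh a b β t X) :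
    {q : L × L | Tri a b β γ X q.1 q.2}.Finite ∧
      {q : L × L | Tri a b β γ X q.1 q.2}.ncard ≤ 2 * (a.natAbs * b) := by
  have hi : Set.InjOn (fun q : L × L => q.1 / q.2) {q | Tri a b β γ X q.1 q.2} :=
    fun q hq q' hq' e => let ⟨e1, e2⟩ := Tri.uniq h hX hq hq' e; Prod.ext e1 e2
  have hm : Set.MapsTo (fun q : L × L => q.1 / q.2) {q | Tri a b β γ X q.1 q.2}
      {Y | Sh a b γ t Y} := fun q hq => Tri.sh hq hX
  exact ⟨(sh_card h hγ t).1.of_injOn hm hi,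
    (Set.ncard_le_ncard_of_injOn _ hm hi (sh_card h hγ t).1).trans (sh_card h hγ t).2⟩

end

theorem env_ex {p : ℕ} [Fact p.Prime] {K : Type} [Field K] [IsAlgClosed K] [CharP K p]
    (D : Dat p K) {β : Side K} (hβ : β.Ok) (hr : β.Rt p) (hp : D.H < p) :
    ∃ (L : Type) (_ : Field L) (_ : Algebra K L) (t : L), D.AE β t := by
  obtain ⟨Ω, _, _, t, -, hs, hS⟩ := exists_big p K
  have hab := D.hab
  have he : 0 < D.e := Nat.pos_of_ne_zero fun h => D.e0 (by simp [h])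
  obtain ⟨n, hn⟩ : ∃ n, n = 2 * (D.a.natAbs * D.b) := ⟨_, rfl⟩
  have hn0 : 0 < n := hn ▸ Nat.mul_pos two_pos (Nat.mul_pos (Int.natAbs_pos.2 hab.a0) hab.b0)
  have hH : 10 * (D.e ^ 4 * n ^ 2) < p := by
    have : n ≤ (D.a.natAbs + D.b) ^ 2 := by
      rw [hn, add_sq]; linarith [Nat.zero_le (D.a.natAbs ^ 2), Nat.zero_le (D.b ^ 2)]
    have := Nat.mul_le_mul_left (D.e ^ 4) (Nat.pow_le_pow_left this 2)
    rw [Dat.H] at hp
    linarith
  have mono : ∀ i j : ℕ, i ≤ 4 → j ≤ 2 → D.e ^ i * n ^ j ≤ D.e ^ 4 * n ^ 2 := fun _ _ h1 h2 =>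
    Nat.mul_le_mul (Nat.pow_le_pow_right he h1) (Nat.pow_le_pow_right hn0 h2)
  have m1 := mono 0 1 (by norm_num) (by norm_num)
  have m2 := mono 1 0 (by norm_num) (by norm_num)
  have m3 := mono 1 1 (by norm_num) (by norm_num)
  have m4 := mono 2 1 (by norm_num) (by norm_num)
  have m5 := mono 3 2 (by norm_num) (by norm_num)
  have hok : ∀ τ ∈ D.R, ∀ τ' ∈ D.R, (sd D.s τ τ').Ok := fun τ h τ' h' =>
    sd_ok _ (D.R0 τ h).2 (D.R0 τ' h').2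
  have hrt : ∀ τ ∈ D.R, ∀ τ' ∈ D.R, (sd D.s τ τ').Rt p := fun τ h τ' h' =>
    sd_rt _ _ (D.R0 τ h).1 (D.R0 τ' h').1
  have hR : (D.R : Set K).Finite ∧ (D.R : Set K).ncard ≤ D.e :=
    ⟨D.R.finite_toSet, (Set.ncard_coe_finset _).trans_le D.Rc⟩
  have hB := hn ▸ sh_card hab hβ t
  let S1 := ⋃ X ∈ {X | Sh D.a D.b β t X}, {x | x ^ D.e = X}
  let S2 := ⋃ τ ∈ (D.R : Set K), ⋃ τ' ∈ (D.R : Set K), {Y | Sh D.a D.b (sd D.s τ τ') t Y}
  let S3 := fun c : Ω × Ω → Ω => ⋃ τ ∈ (D.R : Set K), ⋃ τ' ∈ (D.R : Set K),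
    ⋃ X ∈ {X | Sh D.a D.b β t X}, ⋃ q ∈ {q : Ω × Ω | Tri D.a D.b β (sd D.s τ τ') X q.1 q.2},
      {y | y ^ D.e = c q}
  have c1 : S1.Finite ∧ _ := env_card hB fun X _ => env_root he X
  have c2 : S2.Finite ∧ _ := env_card hR fun τ h => env_card hR fun τ' h' =>
    hn ▸ sh_card hab (hok τ h τ' h') t
  have c3 : ∀ c, (S3 c).Finite ∧ _ := fun c => env_card hR fun τ h => env_card hR fun τ' h' =>
    env_card hB fun X hX => env_card (hn ▸ env_pairs hab (hok τ h τ' h') hX) fun q _ =>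
      env_root he (c q)
  have st : ∀ g : RingAut Ω, (∀ X, Sh D.a D.b β t X → Sh D.a D.b β t (g X)) →
      (∀ τ ∈ D.R, ∀ τ' ∈ D.R, ∀ Y, Sh D.a D.b (sd D.s τ τ') t Y →
        Sh D.a D.b (sd D.s τ τ') t (g Y)) →
      (∀ τ ∈ D.R, ∀ τ' ∈ D.R, ∀ X W Z, Tri D.a D.b β (sd D.s τ τ') X W Z →
        Tri D.a D.b β (sd D.s τ τ') (g X) (g W) (g Z)) →
      ∀ y ∈ S1 ∪ S2 ∪ S3 Prod.fst ∪ S3 Prod.snd, g y ∈ S1 ∪ S2 ∪ S3 Prod.fst ∪ S3 Prod.snd := by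
    intro g a1 a2 a3 y
    simp only [S1, S2, S3, Set.mem_union, Set.mem_iUnion, Set.mem_ofPred_eq, exists_prop,
      Finset.mem_coe, ← map_pow]
    rintro (((⟨X, h, e⟩ | ⟨τ, h, τ', h', e⟩) | ⟨τ, h, τ', h', X, hX, q, hq, e⟩) |
      ⟨τ, h, τ', h', X, hX, q, hq, e⟩)
    · exact .inl (.inl (.inl ⟨_, a1 X h, congrArg g e⟩))
    · exact .inl (.inl (.inr ⟨τ, h, τ', h', a2 τ h τ' h' y e⟩))
    · exact .inl (.inr ⟨τ, h, τ', h', _, a1 X hX, (_, _), a3 τ h τ' h' _ _ _ hq, congrArg g e⟩)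
    · exact .inr ⟨τ, h, τ', h', _, a1 X hX, (_, _), a3 τ h τ' h' _ _ _ hq, congrArg g e⟩
  obtain ⟨L, ht, hL, hc, hf⟩ := hS (S1 ∪ S2 ∪ S3 Prod.fst ∪ S3 Prod.snd)
    (((c1.1.union c2.1).union (c3 _).1).union (c3 _).1)
    (((Set.ncard_union_le _ _).trans (add_le_add ((Set.ncard_union_le _ _).trans (add_le_add
      ((Set.ncard_union_le _ _).trans (add_le_add c1.2 c2.2)) (c3 _).2)) (c3 _).2)).trans_lt
      (by linarith))
    (fun g hg => st g (fun _ => Sh.map hg hg.2) (fun _ _ _ _ _ => Sh.map hg hg.2)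
      fun _ _ _ _ _ _ _ => Tri.map hg)
    fun g hg => st g (fun _ => Sh.fr hg hg.2 hr) (fun τ h τ' h' _ => Sh.fr hg hg.2 (hrt τ h τ' h'))
      fun τ h τ' h' _ _ _ => Tri.fr hg hr (hrt τ h τ' h')
  have rt : ∀ W : Ω, ∃ y, y ^ D.e = W := fun W => by
    obtain ⟨y, hy⟩ := (hs (X ^ D.e - C W) (by rw [natDegree_X_pow_sub_C]; linarith)).exists_eval_eq_zero
      (by rw [degree_X_pow_sub_C he]; exact_mod_cast he.ne')
    exact ⟨y, by simpa [sub_eq_zero] using hy⟩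
  have b1 : ∀ x, Sh D.a D.b β t (x ^ D.e) → x ∈ L := fun x h =>
    hL (.inl (.inl (.inl (Set.mem_biUnion h rfl))))
  have spl : ∀ γ : Side K, γ.Ok → (∀ Y, Sh D.a D.b γ t Y → Y ∈ L) →
      Spl D.a D.b γ (⟨t, ht⟩ : L) := fun γ h h' =>
    ⟨env_spl hab h L _ (fun Q hQ => hs Q (by linarith)) h',
      env_spl hab h.flip L _ (fun Q hQ => hs Q (by linarith)) fun Y hY =>
        inv_mem_iff.1 (h' _ (sh_flip.1 hY))⟩
  have s2 : ∀ τ ∈ D.R, ∀ τ' ∈ D.R, Spl D.a D.b (sd D.s τ τ') (⟨t, ht⟩ : L) := fun τ h τ' h' =>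
    spl _ (hok τ h τ' h') fun Y hY =>
      hL (.inl (.inl (.inr (Set.mem_biUnion h (Set.mem_biUnion h' hY)))))
  have lf : ∀ τ ∈ D.R, ∀ τ' ∈ D.R, ∀ X W Z : L, Sh D.a D.b β ⟨t, ht⟩ X →
      Tri D.a D.b β (sd D.s τ τ') X W Z → (∃ y, y ^ D.e = W) ∧ ∃ z, z ^ D.e = Z := by
    intro τ h τ' h' X W Z hX hT
    obtain ⟨y, hy⟩ := rt W
    obtain ⟨z, hz⟩ := rt Z
    have m : ∀ c y, y ^ D.e = c (W.1, Z.1) → y ∈ S3 c := fun c y e =>
      Set.mem_biUnion h (Set.mem_biUnion h' (Set.mem_biUnion ((env_sh L.val).2 hX)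
        (Set.mem_biUnion (x := (W.1, Z.1)) ((env_tri L.val).2 hT) e)))
    exact ⟨⟨⟨y, hL (.inl (.inr (m _ y hy)))⟩, Subtype.ext hy⟩,
      ⟨z, hL (.inr (m _ z hz))⟩, Subtype.ext hz⟩
  refine ⟨L, inferInstance, inferInstance, ⟨t, ht⟩, ⟨hab, D.e0, hβ, hr, hc, hf, place p K L,
    spl β hβ fun Y hY => ?_, sd_one (K := K) D.s ▸ s2 1 D.R1 1 D.R1, fun X hX => ?_,
    sd_one (K := K) D.s ▸ lf 1 D.R1 1 D.R1⟩, s2, lf⟩
  · obtain ⟨x, rfl⟩ := rt Y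
    exact pow_mem (b1 x hY) _
  · obtain ⟨x, hx⟩ := rt X
    exact ⟨⟨x, b1 x (hx ▸ (env_sh L.val).2 hX)⟩, Subtype.ext hx⟩

end Pool.Agent.NW
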