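import Pool.Agent.Lib.MP_d40963_nt.W.Sh

/-! Multiplicities at unit points. -/

namespace Pool.Agent.NW

open Polynomial

variable {K : Type} [Field K] {a : ℤ} {b : ℕ} {γ : Side K} {N0 D0 A B Cr : K[X]} {y0 t0 : K}

theorem wr_id_pow (f : K[X]) (n : ℕ) : f * derivative (f ^ n) = n * f ^ n * derivative f := by
  cases n with
  | zero => simp
  | succ n =>
    rw [derivative_pow_succ, map_add, map_natCast, map_one, Nat.cast_succ]
    ring

/-- The logarithmic derivative of `N / D`. -/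
theorem wr_id (γ : Side K) (a : ℤ) (b : ℕ) :
    X * γ.up b * γ.Up a * (derivative (γ.N a b) * γ.D a b - γ.N a b * derivative (γ.D a b)) =
      C ((a : K) * b) * γ.N a b * γ.D a b * γ.Cr a b := by
  have e0 : (C ((a : K) * b) : K[X]) = (a.toNat - (-a).toNat) * b := by
    rw [map_mul, map_natCast, map_intCast, ← Int.cast_natCast a.toNat,
      ← Int.cast_natCast (-a).toNat, ← Int.cast_sub, Int.toNat_sub_toNat_neg]
  have e4 := fun n => wr_id_pow (X : K[X]) n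
  simp only [derivative_X, mul_one] at e4
  have e5 : X * derivative (γ.up b) = (b : K[X]) * (C γ.τ * X ^ b) := by
    rw [Side.up, derivative_sub, derivative_C, derivative_C_mul]
    linear_combination C γ.τ * e4 b
  have e6 : X * derivative (γ.Up a) =
      (a.toNat : K[X]) * (C γ.σ * X ^ a.toNat) -
        ((-a).toNat : K[X]) * (C γ.σ' * X ^ (-a).toNat) := by
    rw [Side.Up, derivative_sub, derivative_C_mul, derivative_C_mul]
    linear_combination C γ.σ * e4 a.toNat - C γ.σ' * e4 (-a).toNat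
  have e9 : γ.up b * (C γ.σ * X ^ a.toNat) - γ.Up a * (C γ.τ * X ^ b) = γ.Cr a b := by
    simp only [Side.up, Side.Up, Side.Cr, map_mul]
    ring
  have e8 : γ.Up a = C γ.σ * X ^ a.toNat - C γ.σ' * X ^ (-a).toNat := rfl
  have e1 := wr_id_pow (γ.Up a) b
  have e2 := wr_id_pow (γ.up b) (-a).toNat
  have e3 := wr_id_pow (γ.up b) a.toNat
  have e7 := e4 ((-a).toNat * b)
  rw [Nat.cast_mul] at e7
  rw [e0, Side.N, Side.D, derivative_mul, derivative_mul]
  generalize γ.Up a ^ b = A, γ.up b ^ (-a).toNat = B, γ.up b ^ a.toNat = D,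
    (X : K[X]) ^ ((-a).toNat * b) = E at e1 e2 e3 e7 ⊢
  linear_combination X * γ.up b * B * D * E * e1 + X * γ.Up a * A * D * E * e2 -
    X * γ.Up a * A * B * E * e3 - γ.up b * γ.Up a * A * B * D * e7 + A * B * D * E *
    ((b : K[X]) * γ.up b * e6 + ((-a).toNat - a.toNat : K[X]) * γ.Up a * e5 +
      (a.toNat - (-a).toNat : K[X]) * b * e9 - ((-a).toNat : K[X]) * b * γ.up b * e8)

theorem fac_wr1 (h : A * (derivative N0 * D0 - N0 * derivative D0) = B * Cr)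
    (h0 : N0.eval y0 = 0) (hB : B.eval y0 ≠ 0) (hC : Cr.eval y0 ≠ 0) :
    ∃ v, v ≠ 0 ∧ Fac N0 y0 1 v := by
  obtain ⟨N1, rfl⟩ := dvd_iff_isRoot.2 h0
  refine ⟨_, fun e => ?_, N1, by rw [pow_one], rfl⟩
  have := congrArg (eval y0) h
  simp [e, hB, hC] at this

theorem fac_wr2 (h : A * (derivative N0 * D0 - N0 * derivative D0) = B * Cr)
    (h0 : N0.eval y0 = 0) (hA : A.eval y0 ≠ 0) (hD : D0.eval y0 ≠ 0) (hC : Cr.eval y0 = 0) :
    ∃ v, Fac N0 y0 2 v ∧
      A.eval y0 * (2 * v * D0.eval y0) = B.eval y0 * (derivative Cr).eval y0 := by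
  obtain ⟨N1, rfl⟩ := dvd_iff_isRoot.2 h0
  have h1 := congrArg (eval y0) h
  obtain ⟨N2, rfl⟩ := dvd_iff_isRoot.2 (show N1.eval y0 = 0 by simpa [hA, hC, hD] using h1)
  refine ⟨_, ⟨N2, by ring, rfl⟩, ?_⟩
  have h2 := congrArg (fun p => eval y0 (derivative p)) h
  simp only [derivative_mul, derivative_sub, derivative_add, derivative_X, derivative_C,
    derivative_one, eval_mul, eval_add, eval_sub, eval_X, eval_C, eval_one, eval_zero, sub_self,
    hC] at h2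
  linear_combination h2

theorem cr_eval (ha : a ≠ 0) (h0 : y0 ≠ 0) : (γ.Cr a b).eval y0 = 0 ↔ Crit a b γ y0 := by
  have e : y0 ^ a * y0 ^ (-a).toNat = y0 ^ a.toNat := by
    rw [← zpow_natCast, ← zpow_add₀ h0, ← zpow_natCast]
    exact congrArg _ (by omega)
  rw [Crit, ← mul_left_inj' (a := _ * y0 ^ b) (pow_ne_zero (-a).toNat h0), mul_assoc _ (y0 ^ a), e,
    mul_assoc, ← pow_add]
  simp [Side.Cr, sub_eq_zero]

theorem facU1_wr (γ : Side K) (a : ℤ) (b : ℕ) (t0 : K) :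
    X * γ.up b * γ.Up a * (derivative (γ.N a b - C t0 * γ.D a b) * γ.D a b -
      (γ.N a b - C t0 * γ.D a b) * derivative (γ.D a b)) =
      C ((a : K) * b) * γ.N a b * γ.D a b * γ.Cr a b := by
  rw [← wr_id, derivative_sub, derivative_C_mul]
  ring

theorem facU1_sh (h : Hab K a b) (hy : Sh a b γ t0 y0) : (γ.D a b).eval y0 ≠ 0 ∧
    (γ.N a b).eval y0 ≠ 0 ∧ t0 * (γ.D a b).eval y0 = (γ.N a b).eval y0 := by
  simpa only [coe_aeval_eq_eval] using ((sh_iff h).1 hy).2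

theorem facU1 (h : Hab K a b) (hγ : γ.Ok) (hy : Sh a b γ t0 y0) (hc : ¬ Crit a b γ y0) :
    ∃ v, v ≠ 0 ∧ Fac (γ.N a b - C t0 * γ.D a b) y0 1 v := by
  obtain ⟨hD, hN, e⟩ := facU1_sh h hy
  refine fac_wr1 (facU1_wr γ a b t0) ?_ ?_ fun h1 => hc ((cr_eval h.a0 hy.1).1 h1)
  · rw [eval_sub, eval_C_mul, e, sub_self]
  · rw [eval_mul, eval_C_mul]
    exact mul_ne_zero (mul_ne_zero (mul_ne_zero h.aK h.bK) hN) hD

theorem facU2_pow (k : ℕ) (y : K) : y * (derivative (X ^ k : K[X])).eval y = k * y ^ k := by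
  rw [derivative_X_pow, eval_C_mul, eval_pow, eval_X]
  cases k with
  | zero => simp
  | succ k => rw [Nat.add_sub_cancel, pow_succ]; ring

/-- With `ρ = τ y0 ^ b / τ' = σ y0 ^ a / σ'`: `u = τ' (ρ - 1)`, `U = σ' (ρ - 1)`,
`Cr' (y0) = d τ σ' y0 ^ (b + (-a).toNat) / y0`. -/
theorem facU2 (h : Hab K a b) (hγ : γ.Ok) (hy : Sh a b γ t0 y0) (hc : Crit a b γ y0) {ρ : K}
    (hρ : ρ = γ.τ * y0 ^ b / γ.τ') :
    ρ ≠ 0 ∧ ρ ≠ 1 ∧ Fac (γ.N a b - C t0 * γ.D a b) y0 2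
      ((γ.D a b).eval y0 * (t0 * a * b * dd a b * ρ) / (2 * (ρ - 1) ^ 2 * y0 ^ 2)) := by
  obtain ⟨hD, hN, e⟩ := facU1_sh h hy
  have h0 := hy.1
  have hτ := hγ.τ'
  have hσ := hγ.σ'
  have e1 : γ.τ * y0 ^ b = ρ * γ.τ' := by rw [hρ, div_mul_cancel₀ _ hτ]
  have e2 : γ.σ * y0 ^ a = ρ * γ.σ' := by
    refine mul_left_cancel₀ hτ ?_
    have h1 : γ.τ * γ.σ' * y0 ^ b = γ.σ * γ.τ' * y0 ^ a := hc
    linear_combination γ.σ' * e1 - h1
  have eu : (γ.up b).eval y0 = γ.τ' * (ρ - 1) := by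
    rw [← coe_aeval_eq_eval, aeval_up, Side.u_self, e1]
    ring
  have eU : (γ.Up a).eval y0 = γ.σ' * (ρ - 1) * y0 ^ (-a).toNat := by
    rw [← coe_aeval_eq_eval, aeval_Up γ h.a0 h0, Side.U_self, e2]
    ring
  have r1 : ρ - 1 ≠ 0 := fun h1 => hy.2.1 (by rw [Side.u_self, e1]; linear_combination γ.τ' * h1)
  have hC := (cr_eval h.a0 h0).2 hc
  obtain ⟨v, hv, ev⟩ := fac_wr2 (y0 := y0) (facU1_wr γ a b t0)
    (by rw [eval_sub, eval_C_mul, e, sub_self])
    (by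
      rw [eval_mul, eval_mul, eval_X, eu, eU]
      exact mul_ne_zero (mul_ne_zero h0 (mul_ne_zero hτ r1))
        (mul_ne_zero (mul_ne_zero hσ r1) (pow_ne_zero _ h0))) hD hC
  have ed : (dd a b : K) = b + (-a).toNat - a.toNat := by
    have h1 : (dd a b : ℤ) = b + (-a).toNat - a.toNat := by
      have := h.dd_eq
      omega
    exact_mod_cast congrArg (Int.cast : ℤ → K) h1
  have eC : y0 * (derivative (γ.Cr a b)).eval y0 =
      dd a b * (ρ * γ.τ' * γ.σ' * y0 ^ (-a).toNat) := by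
    have h1 := facU2_pow (b + (-a).toNat) y0
    have h2 := facU2_pow a.toNat y0
    simp only [Side.Cr, eval_sub, eval_C_mul, eval_pow, eval_X, derivative_sub,
      derivative_C_mul] at hC ⊢
    rw [pow_add y0] at hC h1
    push_cast at h1
    rw [ed]
    linear_combination γ.τ * γ.σ' * h1 - γ.σ * γ.τ' * h2 + (a.toNat : K) * hC +
      ((b : K) + (-a).toNat - a.toNat) * γ.σ' * y0 ^ (-a).toNat * e1
  refine ⟨fun h1 => mul_ne_zero hγ.τ (pow_ne_zero b h0) (by rw [e1, h1, zero_mul]),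
    sub_ne_zero.1 r1, ?_⟩
  have h2 := h.two
  have ev' : v = (γ.D a b).eval y0 * (t0 * a * b * dd a b * ρ) / (2 * (ρ - 1) ^ 2 * y0 ^ 2) := by
    rw [eval_mul, eval_mul, eval_X, eu, eU, eval_mul, eval_C_mul, ← e] at ev
    rw [eq_div_iff (mul_ne_zero (mul_ne_zero h2 (pow_ne_zero _ r1)) (pow_ne_zero _ h0))]
    refine mul_left_cancel₀ (mul_ne_zero (mul_ne_zero (mul_ne_zero hτ hσ)
      (pow_ne_zero (-a).toNat h0)) hD) ?_
    linear_combination y0 * ev + (a : K) * b * t0 * (γ.D a b).eval y0 ^ 2 * eC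
  exact ev' ▸ hv

end Pool.Agent.NW
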