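import Pool.Agent.Lib.MP_d40963_nt.W.Sh

/-! Multiplicities at zeros and at the origin. -/

namespace Pool.Agent.NW

open Polynomial

variable {K L : Type} [Field K] [Field L] [Algebra K L] {a : ℤ} {b : ℕ} {γ : Side K} {y0 : K}

theorem fac_up_gen {f : K[X]} (h : f.eval y0 = 0) : Fac f y0 1 ((derivative f).eval y0) := by
  obtain ⟨g, rfl⟩ := dvd_iff_isRoot.2 h
  exact ⟨g, by rw [pow_one], by simp⟩

theorem fac_up_der (h0 : y0 ≠ 0) (c : K) (n : ℕ) :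
    (derivative (C c * X ^ n : K[X])).eval y0 = c * n * y0 ^ n / y0 := by
  rw [derivative_C_mul_X_pow]
  cases n with
  | zero => simp
  | succ n =>
    simp only [eval_mul, eval_C, eval_pow, eval_X, Nat.add_sub_cancel]
    field_simp
    ring

theorem fac_up_eval (γ : Side K) (b : ℕ) (y0 : K) : (γ.up b).eval y0 = γ.u b y0 := by
  simp [Side.up, Side.u_self]

/-- the value is the derivative at `y0` -/
theorem fac_up (h0 : y0 ≠ 0) (hu : γ.u b y0 = 0) :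
    Fac (γ.up b) y0 1 (γ.τ * b * y0 ^ b / y0) := by
  have h1 := fac_up_gen ((fac_up_eval γ b y0).trans hu)
  rwa [Side.up, derivative_sub, derivative_C, sub_zero, fac_up_der h0] at h1

theorem fac_Up_pow {x : K} (hx : x ≠ 0) (a : ℤ) : x ^ a.toNat = x ^ a * x ^ (-a).toNat := by
  rw [← zpow_natCast, ← zpow_natCast, ← zpow_add₀ hx]
  congr 1
  omega

theorem fac_Up_eval (h0 : y0 ≠ 0) (γ : Side K) (a : ℤ) :
    (γ.Up a).eval y0 = γ.U a y0 * y0 ^ (-a).toNat := by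
  simp only [Side.Up, Side.U_self, eval_sub, eval_mul, eval_C, eval_pow, eval_X, fac_Up_pow h0 a]
  ring

theorem fac_Up (ha : a ≠ 0) (h0 : y0 ≠ 0) (hU : γ.U a y0 = 0) :
    Fac (γ.Up a) y0 1 (γ.σ * a * y0 ^ a / y0 * y0 ^ (-a).toNat) := by
  have h1 := fac_up_gen (f := γ.Up a) (y0 := y0) (by rw [fac_Up_eval h0, hU, zero_mul])
  have h2 : (derivative (γ.Up a)).eval y0 = γ.σ * a * y0 ^ a / y0 * y0 ^ (-a).toNat := by
    have h3 : (a : K) = (a.toNat : K) - ((-a).toNat : K) := by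
      rw [← Int.cast_natCast a.toNat, ← Int.cast_natCast (-a).toNat, ← Int.cast_sub,
        Int.toNat_sub_toNat_neg]
    have h4 : γ.σ * y0 ^ a - γ.σ' = 0 := hU
    rw [Side.Up, derivative_sub, eval_sub, fac_up_der h0, fac_up_der h0, fac_Up_pow h0 a,
      ← sub_eq_zero.1 h4, h3]
    ring
  rwa [h2] at h1

theorem facZ (h : Hab K a b) (hγ : γ.Ok) (h0 : y0 ≠ 0) (hu : γ.u b y0 ≠ 0) (hU : γ.U a y0 = 0) :
    ∃ v, v ≠ 0 ∧ Fac (γ.N a b) y0 b v ∧ (γ.D a b).eval y0 ≠ 0 := by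
  obtain ⟨U1, e1, e2⟩ := fac_Up h.a0 h0 hU
  have hU1 : U1.eval y0 ≠ 0 := by
    rw [e2]
    exact mul_ne_zero (div_ne_zero (mul_ne_zero (mul_ne_zero hγ.σ h.aK) (zpow_ne_zero _ h0)) h0)
      (pow_ne_zero _ h0)
  refine ⟨_, ?_, ⟨U1 ^ b * γ.up b ^ (-a).toNat, by rw [Side.N, e1, pow_one, mul_pow, mul_assoc],
    rfl⟩, ?_⟩
  · rw [eval_mul, eval_pow, eval_pow, fac_up_eval]
    exact mul_ne_zero (pow_ne_zero _ hU1) (pow_ne_zero _ hu)
  · rw [Side.D, eval_mul, eval_pow, eval_pow, fac_up_eval, eval_X]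
    exact mul_ne_zero (pow_ne_zero _ hu) (pow_ne_zero _ h0)

theorem facZ' (h : Hab K a b) (hγ : γ.Ok) (ha : a < 0) (h0 : y0 ≠ 0) (hu : γ.u b y0 = 0)
    (hU : γ.U a y0 ≠ 0) :
    ∃ v, v ≠ 0 ∧ Fac (γ.N a b) y0 a.natAbs v ∧ (γ.D a b).eval y0 ≠ 0 := by
  obtain ⟨u1, e1, e2⟩ := fac_up h0 hu
  have hu1 : u1.eval y0 ≠ 0 := by
    rw [e2]
    exact div_ne_zero (mul_ne_zero (mul_ne_zero hγ.τ h.bK) (pow_ne_zero _ h0)) h0
  have h1 : a.natAbs = (-a).toNat := by omega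
  have h2 : a.toNat = 0 := by omega
  refine ⟨_, ?_, ⟨γ.Up a ^ b * u1 ^ (-a).toNat, by rw [Side.N, e1, h1, pow_one, mul_pow]; ring,
    rfl⟩, ?_⟩
  · rw [eval_mul, eval_pow, eval_pow, fac_Up_eval h0]
    exact mul_ne_zero (pow_ne_zero _ (mul_ne_zero hU (pow_ne_zero _ h0))) (pow_ne_zero _ hu1)
  · rw [Side.D, h2, pow_zero, one_mul, eval_pow, eval_X]
    exact pow_ne_zero _ h0

/-- a common zero of `u` and `U` -/
theorem facD (h : Hab K a b) (hγ : γ.Ok) (h0 : y0 ≠ 0) (hu : γ.u b y0 = 0) (hU : γ.U a y0 = 0) :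
    ∃ N0 D0 v, γ.N a b = (X - C y0) ^ a.toNat * N0 ∧ γ.D a b = (X - C y0) ^ a.toNat * D0 ∧
      v ≠ 0 ∧ Fac N0 y0 (dd a b) v ∧ D0.eval y0 ≠ 0 ∧
      D0.eval y0 / v = (γ.τ * b * y0 ^ b / y0) ^ a / (γ.σ * a * y0 ^ a / y0) ^ b := by
  obtain ⟨U1, e1, e2⟩ := fac_Up h.a0 h0 hU
  obtain ⟨u1, e3, e4⟩ := fac_up h0 hu
  have hU1 : γ.σ * a * y0 ^ a / y0 ≠ 0 :=
    div_ne_zero (mul_ne_zero (mul_ne_zero hγ.σ h.aK) (zpow_ne_zero _ h0)) h0
  have hu1 : u1.eval y0 ≠ 0 := by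
    rw [e4]
    exact div_ne_zero (mul_ne_zero (mul_ne_zero hγ.τ h.bK) (pow_ne_zero _ h0)) h0
  have hd : b + (-a).toNat = a.toNat + dd a b := by
    have := h.dd_eq
    omega
  refine ⟨(X - C y0) ^ dd a b * (U1 ^ b * u1 ^ (-a).toNat), u1 ^ a.toNat * X ^ ((-a).toNat * b),
    _, ?_, by rw [Side.D, e3, pow_one, mul_pow, mul_assoc], ?_, ⟨_, rfl, rfl⟩, ?_, ?_⟩
  · rw [Side.N, e1, e3, ← mul_assoc, ← pow_add, ← hd, pow_one, mul_pow, mul_pow]
    ring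
  · rw [eval_mul, eval_pow, eval_pow, e2]
    exact mul_ne_zero (pow_ne_zero _ (mul_ne_zero hU1 (pow_ne_zero _ h0))) (pow_ne_zero _ hu1)
  · rw [eval_mul, eval_pow, eval_pow, eval_X]
    exact mul_ne_zero (pow_ne_zero _ hu1) (pow_ne_zero _ h0)
  · simp only [eval_mul, eval_pow, eval_X]
    rw [e2, ← e4, fac_Up_pow hu1 a]
    generalize γ.σ * a * y0 ^ a / y0 = w at hU1
    rw [mul_pow, ← pow_mul]
    field_simp

/-- `U ^ b = (-σ') ^ b + b σ (-σ') ^ (b - 1) X ^ a + X ^ (a + 1) (...)` and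
`u ^ a = (-τ') ^ a + X ^ (a + 1) (...)` as `a < b`. -/
theorem facO (h : Hab K a b) (hγ : γ.Ok) (ha : 0 < a) :
    Fac (γ.N a b - C (γ.v0 a b) * γ.D a b) 0 a.natAbs (b * γ.σ * (-γ.σ') ^ b / (-γ.σ')) ∧
      (γ.D a b).eval 0 = (-γ.τ') ^ a := by
  obtain ⟨n, rfl⟩ := Int.eq_ofNat_of_zero_le ha.le
  obtain ⟨m, rfl⟩ := Nat.exists_eq_add_of_lt (Int.ofNat_lt.1 h.lt)
  have hn : n ≠ 0 := fun e => h.a0 (by rw [e, Nat.cast_zero])
  have e0 : (-(n : ℤ)).toNat = 0 := by omega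
  obtain ⟨k1, h1⟩ := powAddExpansion (-C γ.σ') (C γ.σ * X ^ n) (n + m + 1)
  obtain ⟨k2, h2⟩ := sub_dvd_pow_sub_pow (γ.up (n + m + 1)) (-C γ.τ') n
  have h3 : C (γ.v0 n (n + m + 1)) * (-C γ.τ') ^ n = (-C γ.σ') ^ (n + m + 1) := by
    rw [← C_neg, ← C_neg, ← C_pow, ← C_pow, ← C_mul, Side.v0, zpow_natCast,
      div_mul_cancel₀ _ (pow_ne_zero _ (neg_ne_zero.2 hγ.τ'))]
  refine ⟨⟨((n + m + 1 : ℕ) : K[X]) * (-C γ.σ') ^ (n + m) * C γ.σ + k1 * C γ.σ ^ 2 * X ^ n -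
    C (γ.v0 n (n + m + 1)) * (C γ.τ * X ^ (m + 1) * k2), ?_, ?_⟩, ?_⟩
  · rw [Side.N, Side.D, Side.Up, e0, Int.toNat_natCast, Int.natAbs_natCast, zero_mul, pow_zero,
      pow_zero, mul_one, mul_one, mul_one, sub_eq_neg_add, sub_eq_neg_add (C γ.σ * X ^ n), h1,
      sub_eq_iff_eq_add.1 h2, Side.up, map_zero, sub_zero, Nat.add_sub_cancel]
    linear_combination -h3
  · have := neg_ne_zero.2 hγ.σ'
    simp only [eval_sub, eval_add, eval_mul, eval_pow, eval_neg, eval_C, eval_X, eval_natCast,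
      zero_pow hn, zero_pow m.succ_ne_zero, mul_zero, zero_mul, add_zero, sub_zero]
    rw [pow_succ, mul_div_assoc, mul_div_cancel_right₀ _ this, mul_right_comm]
  · simp [Side.D, Side.up, e0]

theorem facO' (h : Hab K a b) (hγ : γ.Ok) (ha : a < 0) :
    Fac (γ.D a b) 0 (a.natAbs * b) 1 ∧ (γ.N a b).eval 0 ≠ 0 := by
  obtain ⟨n, rfl⟩ := Int.exists_eq_neg_ofNat ha.le
  have hn : n ≠ 0 := fun e => h.a0 (by rw [e, Nat.cast_zero, neg_zero])
  have e0 : (-(n : ℤ)).toNat = 0 := by omega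
  refine ⟨⟨1, by simp [Side.D, e0], eval_one⟩, ?_⟩
  simp [Side.N, Side.Up, Side.up, e0, hn, h.b0.ne', hγ.σ, hγ.τ']

/-- for `a < 0` evaluate at `0`; for `a > 0` the value at `0` gives `t = v0`, then `facO` -/
theorem ND_ne (h : Hab K a b) (hγ : γ.Ok) (t : L) :
    (γ.N a b).map (algebraMap K L) - C t * (γ.D a b).map (algebraMap K L) ≠ 0 := by
  intro e
  have e0 := congrArg (eval 0) e
  rw [eval_sub, eval_mul, eval_C, eval_zero_map, eval_zero_map, eval_zero, sub_eq_zero] at e0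
  have hn := Int.natAbs_ne_zero.2 h.a0
  rcases lt_or_gt_of_ne h.a0 with ha | ha
  · obtain ⟨⟨N1, h1, -⟩, h2⟩ := facO' h hγ ha
    rw [h1, eval_mul, eval_pow, eval_sub, eval_X, eval_C, sub_self,
      zero_pow (mul_ne_zero hn h.b0.ne'), zero_mul, map_zero, mul_zero, map_eq_zero] at e0
    exact h2 e0
  · obtain ⟨⟨N1, h1, h2⟩, h3⟩ := facO h hγ ha
    have h4 := congrArg (eval 0) h1
    rw [eval_sub, eval_mul, eval_C, eval_mul, eval_pow, eval_sub, eval_X, eval_C, sub_self,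
      zero_pow hn, zero_mul, sub_eq_zero] at h4
    rw [h4, map_mul, mul_left_inj' ((_root_.map_ne_zero _).2
      (h3 ▸ zpow_ne_zero a (neg_ne_zero.2 hγ.τ')))] at e0
    rw [← e0, ← map_C, ← Polynomial.map_mul, ← Polynomial.map_sub, Polynomial.map_eq_zero, h1,
      mul_eq_zero, or_iff_right (pow_ne_zero _ (X_sub_C_ne_zero 0))] at e
    rw [e, eval_zero] at h2
    have h5 := neg_ne_zero.2 hγ.σ'
    exact div_ne_zero (mul_ne_zero (mul_ne_zero h.bK hγ.σ) (pow_ne_zero _ h5)) h5 h2.symm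

theorem ND_deg (h : Hab K a b) (γ : Side K) (t : L) :
    ((γ.N a b).map (algebraMap K L) - C t * (γ.D a b).map (algebraMap K L)).natDegree ≤
      2 * (a.natAbs * b) := by
  have h1 : (γ.up b).natDegree ≤ b := (natDegree_sub_le _ _).trans
    (max_le (natDegree_C_mul_X_pow_le _ _) ((natDegree_C _).trans_le b.zero_le))
  have h2 : a.toNat ≤ a.natAbs := by omega
  have h3 : (-a).toNat ≤ a.natAbs := by omega
  have h4 : (γ.Up a).natDegree ≤ a.natAbs := (natDegree_sub_le _ _).trans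
    (max_le ((natDegree_C_mul_X_pow_le _ _).trans h2) ((natDegree_C_mul_X_pow_le _ _).trans h3))
  rw [two_mul]
  refine (natDegree_sub_le _ _).trans (max_le (natDegree_map_le.trans ?_)
    ((natDegree_C_mul_le _ _).trans (natDegree_map_le.trans ?_)))
  · exact natDegree_mul_le.trans (add_le_add
      (natDegree_pow_le.trans ((Nat.mul_le_mul_left _ h4).trans_eq (mul_comm _ _)))
      (natDegree_pow_le.trans (Nat.mul_le_mul h3 h1)))
  · exact natDegree_mul_le.trans (add_le_add (natDegree_pow_le.trans (Nat.mul_le_mul h2 h1))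
      ((natDegree_X_pow_le _).trans (Nat.mul_le_mul_right _ h3)))

theorem sh_card (h : Hab K a b) (hγ : γ.Ok) (t : L) :
    {Y | Sh a b γ t Y}.Finite ∧ {Y | Sh a b γ t Y}.ncard ≤ 2 * (a.natAbs * b) := by
  classical
  have h1 : {Y | Sh a b γ t Y} ⊆ ((γ.N a b).map (algebraMap K L) -
      C t * (γ.D a b).map (algebraMap K L)).roots.toFinset := fun Y hY => by
    rw [Finset.mem_coe, Multiset.mem_toFinset, mem_roots (ND_ne h hγ t), IsRoot, eval_sub, eval_mul,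
      eval_C, eval_map_algebraMap, eval_map_algebraMap, ((sh_iff h).1 hY).2.2.2, sub_self]
  refine ⟨(Finset.finite_toSet _).subset h1, (Set.ncard_le_ncard h1).trans ?_⟩
  rw [Set.ncard_coe_finset]
  exact (Multiset.toFinset_card_le _).trans ((card_roots' _).trans (ND_deg h γ t))

end Pool.Agent.NW
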