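import Pool.Agent.Lib.MP_d40963_nt.W.Grp

/-! Jordan's theorem. -/

namespace Pool.Agent.NW

variable {L : Type} [Field L] {G : Subgroup (RingAut L)} {Ω Δ : Set L} {g : RingAut L} {δ n : ℕ}

/-- View `Ω` as a `SubMulAction G L`; it is preprimitive (`MulAction.IsBlock` gives `Blk`); apply
`MulAction.IsPreprimitive.is_two_pretransitive` to the complement `s` of `Δ`: the powers of `g ^ n`
fix `s` pointwise and are transitive on `Δ` (`Cyc.step`). -/
theorem jordan (hΩ : Ω.Finite) (hs : Stb G Ω) (ht : Trn G Ω) (hp : Prim G Ω) (hg : g ∈ G)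
    (hc : Cyc g Δ δ) (hΔ : Δ ⊆ Ω) (hn : Nat.Coprime n δ) (hf : ∀ w ∈ Ω, w ∉ Δ → (g ^ n) w = w)
    (h2 : 2 ≤ δ) (hlt : δ < Ω.ncard) : Two G Ω := by
  let A : SubMulAction G L := ⟨Ω, fun c {x} hx => hs c c.2 x hx⟩
  have fA : Finite A := hΩ.to_subtype
  have cA : Nat.card A = Ω.ncard := rfl
  have tr : MulAction.IsPretransitive G A := ⟨fun x y => by
    obtain ⟨c, h1, h2⟩ := ht x x.2 y y.2
    exact ⟨⟨c, h1⟩, Subtype.ext h2⟩⟩
  have pr : MulAction.IsPreprimitive G A := ⟨fun {B} hB => by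
    have hb : Blk G (Subtype.val '' B) := by
      rintro c h1 _ ⟨x, hx, rfl⟩ ⟨y, hy, e⟩ _ ⟨z, hz, rfl⟩
      have e' : (⟨c, h1⟩ : G) • x = y := Subtype.ext e.symm
      have := hB.smul_eq_of_mem hx (e' ▸ hy)
      exact ⟨(⟨c, h1⟩ : G) • z, this ▸ Set.smul_mem_smul_set hz, rfl⟩
    rcases hp _ (by rintro _ ⟨x, -, rfl⟩; exact x.2) hb with h | h
    · rw [Set.ncard_image_of_injective _ Subtype.val_injective] at h
      exact .inl (Set.ncard_le_one_iff_subsingleton.1 h)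
    · refine .inr (Set.eq_univ_of_forall fun x => ?_)
      obtain ⟨y, hy, e⟩ : (x : L) ∈ Subtype.val '' B := h ▸ x.2
      exact Subtype.ext e ▸ hy⟩
  let s : Set A := {x | (x : L) ∉ Δ}
  have cs : s.ncard + δ = Ω.ncard := by
    have e : Subtype.val '' s = Ω \ Δ := by
      ext w
      exact ⟨fun ⟨x, hx, e⟩ => e ▸ ⟨x.2, hx⟩, fun h => ⟨⟨w, h.1⟩, h.2, rfl⟩⟩
    rw [← Set.ncard_image_of_injective _ Subtype.val_injective, e, ← hc.card,
      Set.ncard_sdiff_add_ncard_of_subset hΔ hΩ]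
  have two := pr.is_two_pretransitive (s := s) (n := s.ncard - 1) (by omega) (by omega)
    ⟨fun x y => by
      obtain ⟨j, hj⟩ := hc.step hn (not_not.1 x.2) (not_not.1 y.2)
      refine ⟨⟨⟨g ^ (n * j), pow_mem hg _⟩, (mem_fixingSubgroup_iff _).2 fun z hz => ?_⟩,
        Subtype.ext (Subtype.ext hj)⟩
      refine Subtype.ext (?_ : (g ^ (n * j)) z = z)
      rw [pow_mul]
      clear hj
      induction j with
      | zero => rfl
      | succ j ih => rw [pow_succ, aut_mul, hf _ z.2 hz, ih]⟩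
  intro v hv w hw v' hv' w' hw' h1 h2
  rw [MulAction.is_two_pretransitive_iff] at two
  obtain ⟨c, e1, e2⟩ := @two ⟨v, hv⟩ ⟨w, hw⟩ ⟨v', hv'⟩ ⟨w', hw'⟩
    (fun e => h1 (congrArg Subtype.val e)) fun e => h2 (congrArg Subtype.val e)
  exact ⟨c, c.2, congrArg Subtype.val e1, congrArg Subtype.val e2⟩

end Pool.Agent.NW
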