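import Pool.Agent.Lib.MP_d40963_nt.W.Grp

/-! The quotient by inversion. -/

namespace Pool.Agent.NW

variable {L : Type} [Field L] {G : Subgroup (RingAut L)} {Ω S Δ : Set L} {g f : RingAut L}
  {X Y Y' : L} {n δ : ℕ}

theorem pi_map (g : RingAut L) (Y : L) : g (pi Y) = pi (g Y) := by
  simp only [pi, map_add, map_inv₀]

theorem pi_inv (Y : L) : pi Y⁻¹ = pi Y := by rw [pi, pi, inv_inv, add_comm]

theorem pi_eq (h : Y ≠ 0) (h' : Y' ≠ 0) : pi Y = pi Y' ↔ Y' = Y ∨ Y' = Y⁻¹ := by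
  refine ⟨fun e => ?_, ?_⟩
  · have e1 := mul_inv_cancel₀ h
    have e2 := mul_inv_cancel₀ h'
    have : (Y' - Y) * (Y' - Y⁻¹) = 0 := by
      unfold pi at e
      linear_combination (-Y') * e + e1 - e2
    exact (mul_eq_zero.1 this).imp sub_eq_zero.1 sub_eq_zero.1
  · rintro (rfl | rfl)
    exacts [rfl, (pi_inv Y).symm]

theorem pi_card (hS : S.Finite) (h0 : ∀ Y ∈ S, Y ≠ 0 ∧ Y ≠ Y⁻¹ ∧ Y⁻¹ ∈ S) :
    2 * (pi '' S).ncard = S.ncard := by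
  classical
  obtain ⟨T, rfl⟩ := hS.exists_finset_coe
  rw [← Finset.coe_image, Set.ncard_coe_finset, Set.ncard_coe_finset,
    Finset.card_eq_sum_card_image pi T, Finset.sum_const_nat (m := 2), mul_comm]
  intro b hb
  obtain ⟨Y, hY, rfl⟩ := Finset.mem_image.1 hb
  obtain ⟨a0, a1, a2⟩ := h0 Y hY
  rw [← Finset.card_pair a1]
  congr 1
  ext Z
  simp only [Finset.mem_filter, Finset.mem_insert, Finset.mem_singleton]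
  refine ⟨fun k => (pi_eq a0 (h0 Z k.1).1).1 k.2.symm, ?_⟩
  rintro (rfl | rfl)
  exacts [⟨hY, rfl⟩, ⟨a2, pi_inv Y⟩]

theorem pi_stb (h : Stb G Ω) : Stb G (pi '' Ω) := by
  rintro g hg _ ⟨Y, hY, rfl⟩
  exact ⟨g Y, h g hg Y hY, (pi_map g Y).symm⟩

theorem pi_trn (h : Trn G Ω) : Trn G (pi '' Ω) := by
  rintro _ ⟨Y, hY, rfl⟩ _ ⟨Z, hZ, rfl⟩
  obtain ⟨g, hg, e⟩ := h Y hY Z hZ
  exact ⟨g, hg, by rw [pi_map, e]⟩

theorem pi_per (h0 : Y ≠ 0) (h : Per g Y n) (hj : ∀ j : ℕ, (g ^ j) Y ≠ Y⁻¹) :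
    Per g (pi Y) n := by
  intro j
  rw [pi_map, eq_comm, pi_eq h0 ((map_ne_zero _).2 h0), ← h j]
  exact or_iff_left (hj j)

theorem pi_cyc_half (h : Cyc g Δ (2 * δ)) (h0 : ∀ Y ∈ Δ, Y ≠ 0 ∧ (g ^ δ) Y = Y⁻¹) :
    Cyc g (pi '' Δ) δ := by
  have p := h.pos
  refine ⟨by omega, ?_, ?_, ?_, ?_⟩
  · have := pi_card h.fin.1 fun Y hY => ⟨(h0 Y hY).1, fun e => by
      have := Nat.le_of_dvd (by omega) ((h.per Y hY δ).1 ((h0 Y hY).2.trans e.symm))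
      omega, (h0 Y hY).2 ▸ h.pow_mem hY δ⟩
    rw [h.card] at this
    omega
  · rintro _ ⟨Y, hY, rfl⟩
    exact ⟨g Y, h.mem Y hY, (pi_map g Y).symm⟩
  · rintro _ ⟨Y, hY, rfl⟩ _ ⟨Z, hZ, rfl⟩
    obtain ⟨j, e⟩ := h.orb Y hY Z hZ
    exact ⟨j, by rw [pi_map, e]⟩
  · rintro _ ⟨Y, hY, rfl⟩ j
    obtain ⟨a, b⟩ := h0 Y hY
    refine ⟨fun e => ?_, ?_⟩
    · rw [pi_map, eq_comm, pi_eq a ((map_ne_zero _).2 a)] at e
      rcases e with e | e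
      · exact (Dvd.intro_left 2 rfl).trans ((h.per Y hY j).1 e)
      · have : (g ^ (δ + j)) Y = Y := by
          rw [pow_add]
          change (g ^ δ) ((g ^ j) Y) = Y
          rw [e, map_inv₀, b, inv_inv]
        exact (Nat.dvd_add_right dvd_rfl).1 ((Dvd.intro_left 2 rfl).trans ((h.per Y hY _).1 this))
    · rintro ⟨k, rfl⟩
      induction k with
      | zero => rfl
      | succ k ih =>
        rw [mul_add, mul_one, pow_add]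
        change (g ^ (δ * k)) ((g ^ δ) (pi Y)) = _
        rw [pi_map _ Y, b, pi_inv, ih]

theorem pi_cyc_inj (h : Cyc g Δ δ) (h0 : ∀ Y ∈ Δ, Y ≠ 0 ∧ Y⁻¹ ∉ Δ) : Cyc g (pi '' Δ) δ := by
  refine ⟨h.pos, ?_, ?_, ?_, ?_⟩
  · rw [Set.InjOn.ncard_image, h.card]
    intro Y hY Z hZ e
    rcases (pi_eq (h0 Y hY).1 (h0 Z hZ).1).1 e with e | e
    · exact e.symm
    · exact absurd (e ▸ hZ) (h0 Y hY).2
  · rintro _ ⟨Y, hY, rfl⟩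
    exact ⟨g Y, h.mem Y hY, (pi_map g Y).symm⟩
  · rintro _ ⟨Y, hY, rfl⟩ _ ⟨Z, hZ, rfl⟩
    obtain ⟨j, e⟩ := h.orb Y hY Z hZ
    exact ⟨j, by rw [pi_map, e]⟩
  · rintro _ ⟨Y, hY, rfl⟩
    exact pi_per (h0 Y hY).1 (h.per Y hY) fun j e => (h0 Y hY).2 (e ▸ h.pow_mem hY j)

/-- Conjugating `f`, every pair `(X', Y')` in general position has an element that fixes `X'` and
inverts `Y'`, and (exchange the roles) one that fixes `Y'` and inverts `X'`. -/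
theorem two_pi (h : Two G (pi '' Ω)) (h0 : ∀ Y ∈ Ω, Y ≠ 0) (hf : f ∈ G) (hX : X ∈ Ω) (hY : Y ∈ Ω)
    (h1 : Y ≠ X) (h2 : X * Y ≠ 1) (e1 : f X = X) (e2 : f Y = Y⁻¹) :
    ∀ X1 ∈ Ω, ∀ Y1 ∈ Ω, ∀ X2 ∈ Ω, ∀ Y2 ∈ Ω, Y1 ≠ X1 → X1 * Y1 ≠ 1 → Y2 ≠ X2 → X2 * Y2 ≠ 1 →
      ∃ g ∈ G, g X1 = X2 ∧ g Y1 = Y2 := by
  have ne : ∀ A ∈ Ω, ∀ B ∈ Ω, B ≠ A → A * B ≠ 1 → pi A ≠ pi B := fun A hA B hB a b e =>
    ((pi_eq (h0 A hA) (h0 B hB)).1 e).elim a fun c => b (c ▸ mul_inv_cancel₀ (h0 A hA))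
  have mv : ∀ A ∈ Ω, ∀ B ∈ Ω, ∀ A' ∈ Ω, ∀ B' ∈ Ω, pi A ≠ pi B → pi A' ≠ pi B' → ∃ g ∈ G,
      (g A = A' ∨ g A = A'⁻¹) ∧ (g B = B' ∨ g B = B'⁻¹) := fun A hA B hB A' hA' B' hB' a b => by
    obtain ⟨g, hg, c, d⟩ := h _ ⟨A, hA, rfl⟩ _ ⟨B, hB, rfl⟩ _ ⟨A', hA', rfl⟩ _ ⟨B', hB', rfl⟩ a b
    rw [pi_map] at c d
    exact ⟨g, hg, (pi_eq (h0 _ hA') ((map_ne_zero g).2 (h0 _ hA))).1 c.symm,
      (pi_eq (h0 _ hB') ((map_ne_zero g).2 (h0 _ hB))).1 d.symm⟩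
  have fl : ∀ A ∈ Ω, ∀ B ∈ Ω, pi A ≠ pi B → ∃ g ∈ G, g A = A ∧ g B = B⁻¹ := fun A hA B hB a => by
    obtain ⟨g, hg, c, d⟩ := mv X hX Y hY A hA B hB (ne X hX Y hY h1 h2) a
    have c' : (g * f * g⁻¹) (g X) = g X := (congrArg (g * f) (g.symm_apply_apply X)).trans
      (congrArg g e1)
    have d' : (g * f * g⁻¹) (g Y) = (g Y)⁻¹ := (congrArg (g * f) (g.symm_apply_apply Y)).trans
      ((congrArg g e2).trans (map_inv₀ g Y))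
    refine ⟨g * f * g⁻¹, mul_mem (mul_mem hg hf) (inv_mem hg), ?_, ?_⟩
    · rcases c with c | c <;> rw [c] at c'
      exacts [c', inv_injective ((map_inv₀ _ A).symm.trans c')]
    · rcases d with d | d <;> rw [d] at d'
      exacts [d', inv_injective ((map_inv₀ _ B).symm.trans d')]
  intro X1 a1 Y1 b1 X2 a2 Y2 b2 c1 d1 c2 d2
  have n2 := ne X2 a2 Y2 b2 c2 d2
  obtain ⟨g, hg, c, d⟩ := mv X1 a1 Y1 b1 X2 a2 Y2 b2 (ne X1 a1 Y1 b1 c1 d1) n2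
  obtain ⟨u, hu, u1, u2⟩ := fl X2 a2 Y2 b2 n2
  obtain ⟨w, hw, w1, w2⟩ := fl Y2 b2 X2 a2 n2.symm
  rcases c with c | c <;> rcases d with d | d
  · exact ⟨g, hg, c, d⟩
  · exact ⟨u * g, mul_mem hu hg, by simp [c, u1], by simp [d, u2]⟩
  · exact ⟨w * g, mul_mem hw hg, by simp [c, w2], by simp [d, w1]⟩
  · exact ⟨w * (u * g), mul_mem hw (mul_mem hu hg), by simp [c, u1, w2],
      by simp [d, u2, w1]⟩

end Pool.Agent.NW
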