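import Pool.Agent.Lib.MP_d40963_nt.W.Grp

/-! Primitivity from cycle types. -/

namespace Pool.Agent.NW

variable {L : Type} [Field L] {G : Subgroup (RingAut L)} {Ω B Δ Δ' : Set L} {g g' : RingAut L}
  {a b δ ν : ℕ}

/-- Either all translates of `B` that meet `Δ` lie in `Δ` (`Blk.dvd`), or a translate `B'` contains
points in and outside `Δ`; then `Δ ⊆ B'` (`Blk.absorb`) and `g B' ⊆ B'`. -/
theorem blk_cases (hΩ : Ω.Finite) (hs : Stb G Ω) (ht : Trn G Ω) (hB : B ⊆ Ω) (hne : B.Nonempty)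
    (h : Blk G B) (hg : g ∈ G) (hc : Cyc g Δ δ) (hΔ : Δ ⊆ Ω) {n : ℕ} (hn : Nat.Coprime n δ)
    (hf : ∀ w ∈ Ω, w ∉ Δ → (g ^ n) w = w) :
    B.ncard ∣ δ ∨ ∃ B' ⊆ Ω, B'.ncard = B.ncard ∧ Δ ⊆ B' ∧ ∀ w ∈ B', g w ∈ B' := by
  by_cases hA : ∀ k ∈ G, ∀ w ∈ B, k w ∈ Δ → ∀ w' ∈ B, k w' ∈ Δ
  · exact .inl (hc.card ▸ h.dvd ht hB hne (hΩ.subset hΔ) hΔ hA)
  push Not at hA
  obtain ⟨k, hk, w, hw, h1, w', hw', h2⟩ := hA
  have h3 : Δ ⊆ k '' B := (h.image hk).absorb hg hc hn ⟨w, hw, rfl⟩ h1 ⟨w', hw', rfl⟩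
    (hf _ (hs k hk w' (hB hw')) h2)
  refine .inr ⟨k '' B, ?_, Set.ncard_image_of_injective B k.injective, h3,
    h.image hk g hg _ ⟨w, hw, rfl⟩ (h3 (hc.mem _ h1))⟩
  rintro _ ⟨v, hv, rfl⟩
  exact hs k hk v (hB hv)

theorem prim_pos_out (hc : Cyc g Δ δ) {w : L} {n : ℕ} (hn : 0 < n) (hw : Per g w n)
    (h : g w ∈ Δ) : w ∈ Δ := by
  obtain ⟨m, rfl⟩ := Nat.exists_eq_succ_of_ne_zero hn.ne'
  have h1 := hw.fix dvd_rfl
  rw [pow_succ, aut_mul] at h1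
  exact h1 ▸ hc.pow_mem h m

theorem prim_pos_dvd (hΩ : Ω.Finite) (hs : Stb G Ω) (ht : Trn G Ω) (hB : B ⊆ Ω) (hne : B.Nonempty)
    (h : Blk G B) : B.ncard ∣ Ω.ncard :=
  h.dvd ht hB hne hΩ subset_rfl fun k hk _ _ _ w' hw' => hs k hk w' (hB hw')

/-- Let `n = B.ncard`, `n ∣ δ + ν b`. If `n ∣ δ` then `n ∣ ν`. Otherwise `n = δ + i b` (`per_dvd`),
`n ∣ ν - i`; for `i > 0` one has `n > ν`, so `i = ν`, `B = Ω`. So `n ∣ ν`, `n < a`, and `blk_cases`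
for `g'` gives `n ∣ a`. -/
theorem prim_pos (hΩ : Ω.Finite) (hs : Stb G Ω) (ht : Trn G Ω) (hg : g ∈ G) (hc : Cyc g Δ δ)
    (hΔ : Δ ⊆ Ω) (hp : ∀ w ∈ Ω, w ∉ Δ → Per g w b) (hcard : Ω.ncard = δ + ν * b)
    (hg' : g' ∈ G) (hc' : Cyc g' Δ' a) (hΔ' : Δ' ⊆ Ω) (hp' : ∀ w ∈ Ω, w ∉ Δ' → (g' ^ 2) w = w)
    (h1 : Nat.Coprime b δ) (h2 : 0 < ν) (h3 : ν < a) (h4 : a < b) (h5 : Nat.Coprime ν a)
    (h6 : Odd a) : Prim G Ω := by
  intro B hB h
  rcases B.eq_empty_or_nonempty with rfl | hne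
  · exact .inl (Set.ncard_empty L ▸ zero_le_one)
  have hd := prim_pos_dvd hΩ hs ht hB hne h
  rw [hcard] at hd
  have key : B.ncard ∣ ν ∨ B = Ω := by
    rcases blk_cases hΩ hs ht hB hne h hg hc hΔ h1 (fun w hw hw' => (hp w hw hw').fix dvd_rfl) with
      h7 | ⟨B', hB', e, h7, h8⟩
    · exact .inl ((h1.coprime_dvd_right h7).symm.dvd_of_dvd_mul_right ((Nat.dvd_add_right h7).1 hd))
    have hf := hΩ.subset hB'
    obtain ⟨i, hi⟩ := per_dvd (hf.subset Set.sdiff_subset : (B' \ Δ).Finite)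
      (fun w hw => ⟨h8 w hw.1, fun h9 =>
        hw.2 (prim_pos_out hc (by omega) (hp w (hB' hw.1) hw.2) h9)⟩)
      fun w hw => hp w (hB' hw.1) hw.2
    have h9 := Set.ncard_sdiff_add_ncard_of_subset h7 hf
    rw [hi, hc.card, e, add_comm, mul_comm] at h9
    have h10 := Set.ncard_le_ncard hB hΩ
    rw [hcard, ← h9] at h10
    obtain ⟨r, rfl⟩ := Nat.exists_eq_add_of_le
      (Nat.le_of_mul_le_mul_right (Nat.le_of_add_le_add_left h10) (by omega : 0 < b))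
    rw [add_mul, ← add_assoc, h9, Nat.dvd_add_right dvd_rfl] at hd
    have h11 : B.ncard ∣ r := Nat.Coprime.dvd_of_dvd_mul_right
      (h9 ▸ (Nat.coprime_add_mul_right_left δ b i).2 h1.symm) hd
    rcases i with _ | i
    · exact .inl (by rwa [zero_add])
    · have h12 : r = 0 := Nat.eq_zero_of_dvd_of_lt h11 (by
        rw [← h9, add_one_mul]
        omega)
      exact .inr (Set.eq_of_subset_of_ncard_le hB (by rw [hcard, h12, add_zero, h9]) hΩ)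
  refine key.imp_left fun h7 => ?_
  rcases blk_cases hΩ hs ht hB hne h hg' hc' hΔ' h6.coprime_two_left hp' with
    h8 | ⟨B', hB', e, h8, -⟩
  · exact (Nat.eq_one_of_dvd_coprimes h5 h7 h8).le
  · have h9 := Set.ncard_le_ncard h8 (hΩ.subset hB')
    have h10 := Nat.le_of_dvd h2 h7
    rw [hc'.card, e] at h9
    omega

theorem neg_num {κ κ' n q i j : ℕ} (hκ : κ * κ' = 2) (hδ : κ' * δ = a + b)
    (hab : Nat.Coprime a b) (ha : 0 < a) (hb : 0 < b) (hn : n = δ + i * b + j * a)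
    (hq : n * q = κ * (a * b)) : q = 1 := by
  have h1 : a * ((1 + κ' * j) * q) + b * ((1 + κ' * i) * q) = a * b * 2 := by
    calc _ = (κ' * δ + κ' * (i * b) + κ' * (j * a)) * q := by rw [hδ]; ring
      _ = κ' * (n * q) := by rw [hn]; ring
      _ = _ := by rw [hq, ← hκ]; ring
  have h0 : 0 < a * b := Nat.mul_pos ha hb
  have hq0 : 0 < q := Nat.pos_of_ne_zero fun h => by
    rw [h] at h1
    omega
  obtain ⟨s, hs⟩ : a ∣ (1 + κ' * i) * q := hab.dvd_of_dvd_mul_left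
    ((Nat.dvd_add_right (dvd_mul_right _ _)).1 (h1 ▸ (dvd_mul_right a b).mul_right 2))
  obtain ⟨r, hr⟩ : b ∣ (1 + κ' * j) * q := hab.symm.dvd_of_dvd_mul_left
    ((Nat.dvd_add_left (dvd_mul_right _ _)).1 (h1 ▸ (dvd_mul_left b a).mul_right 2))
  have h2 : r + s = 2 := Nat.eq_of_mul_eq_mul_left h0 (by rw [← h1, hs, hr]; ring)
  have h3 : s ≠ 0 := fun h => by
    rw [h] at hs
    exact (Nat.mul_pos (by omega) hq0).ne' hs
  have h4 : r ≠ 0 := fun h => by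
    rw [h] at hr
    exact (Nat.mul_pos (by omega) hq0).ne' hr
  rw [show s = 1 by omega, mul_one] at hs
  rw [show r = 1 by omega, mul_one] at hr
  exact Nat.eq_one_of_dvd_coprimes hab (Dvd.intro_left _ hs) (Dvd.intro_left _ hr)

theorem prim_neg_per {w : L} {n : ℕ} : Per g (g w) n ↔ Per g w n :=
  forall_congr' fun j => by
    rw [← aut_mul, ← pow_succ, pow_succ', aut_mul, g.injective.eq_iff]

/-- Let `n = B.ncard`, `n q = κ a b`. If `n ∣ δ` then `n = 1`, as `δ` is prime to `κ a b`.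
Otherwise `n = δ + i b + j a` (`per_dvd` for the points of period `b` and for the rest). -/
theorem prim_neg {κ κ' : ℕ} (hΩ : Ω.Finite) (hs : Stb G Ω) (ht : Trn G Ω) (hg : g ∈ G)
    (hc : Cyc g Δ δ) (hΔ : Δ ⊆ Ω) (hp : ∀ w ∈ Ω, w ∉ Δ → Per g w a ∨ Per g w b)
    (hcard : Ω.ncard = κ * (a * b)) (hκ : κ * κ' = 2) (hδ : κ' * δ = a + b)
    (hab : Nat.Coprime a b) (ha : 0 < a) (hb : 0 < b) (hk : Nat.Coprime κ δ) : Prim G Ω := by
  intro B hB h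
  rcases B.eq_empty_or_nonempty with rfl | hne
  · exact .inl (Set.ncard_empty L ▸ zero_le_one)
  have hd := prim_pos_dvd hΩ hs ht hB hne h
  rw [hcard] at hd
  have h1 : Nat.Coprime (a * b) δ := Nat.Coprime.coprime_dvd_right (Dvd.intro_left _ hδ)
    (Nat.Coprime.mul_left (Nat.coprime_self_add_right.2 hab)
      (Nat.coprime_add_self_right.2 hab.symm))
  rcases blk_cases hΩ hs ht hB hne h hg hc hΔ h1 (fun w hw hw' => (hp w hw hw').elim
    (fun h => h.fix (dvd_mul_right a b)) fun h => h.fix (dvd_mul_left b a)) with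
    h7 | ⟨B', hB', e, h7, h8⟩
  · exact .inl (Nat.eq_one_of_dvd_coprimes (hk.mul_left h1) hd h7).le
  have hf := hΩ.subset hB'
  have hf' : (B' \ Δ).Finite := hf.subset Set.sdiff_subset
  have h2 : ∀ w ∈ B' \ Δ, g w ∈ B' \ Δ := fun w hw => ⟨h8 w hw.1, fun h9 =>
    hw.2 ((hp w (hB' hw.1) hw.2).elim (fun h => prim_pos_out hc ha h h9)
      fun h => prim_pos_out hc hb h h9)⟩
  obtain ⟨i, hi⟩ := per_dvd (hf'.inter_of_left {w | Per g w b})
    (fun w hw => ⟨h2 w hw.1, prim_neg_per.2 hw.2⟩) fun w hw => hw.2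
  obtain ⟨j, hj⟩ := per_dvd (hf'.subset Set.sdiff_subset : ((B' \ Δ) \ {w | Per g w b}).Finite)
    (fun w hw => ⟨h2 w hw.1, fun h => hw.2 (prim_neg_per.1 h)⟩)
    fun w hw => (hp w (hB' hw.1.1) hw.1.2).resolve_right hw.2
  have h3 := Set.ncard_inter_add_ncard_sdiff_eq_ncard (B' \ Δ) {w | Per g w b} hf'
  have h4 := Set.ncard_sdiff_add_ncard_of_subset h7 hf
  rw [← h3, hi, hj, hc.card, e] at h4
  obtain ⟨q, hq⟩ := hd
  have h5 := neg_num (i := i) (j := j) hκ hδ hab ha hb (by rw [← h4]; ring) hq.symm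
  rw [h5, mul_one] at hq
  exact .inr (Set.eq_of_subset_of_ncard_le hB (hcard.trans hq).le hΩ)

end Pool.Agent.NW
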