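import Pool.Agent.Lib.MP_d40963_nt.W.Env
import Pool.Agent.Lib.MP_d40963_nt.W.Prim
import Pool.Agent.Lib.MP_d40963_nt.W.Jor
import Pool.Agent.Lib.MP_d40963_nt.W.Pi

/-! Monodromy of the standard side. -/

namespace Pool.Agent.NW

variable {p : ℕ} {K L : Type} [Field K] [IsAlgClosed K] [Field L] [Algebra K L] {a : ℤ}
  {b e : ℕ} {β : Side K} {t X Y : L}

/-- The sheets are the disjoint union of the sets `Nr l.P _ y0`, `y0 ^ a = 1` (`cls0`); there are
`a` such `y0` (`a ≠ 0` in `K`), the sizes are `d` for `y0 = 1` (`cycD`) and `b` otherwise (`cycZ`,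
`std_common`). -/
theorem cardP (h : GE a b e p β t) (ha : 0 < a) :
    {Y | Sh a b (std : Side K) t Y}.ncard = dd a b + (a.natAbs - 1) * b := by
  classical
  obtain ⟨l, -⟩ := h.loc0
  have hn : 0 < a.natAbs := Int.natAbs_pos.2 h.hab.a0
  have : NeZero (a.natAbs : K) := ⟨h.hab.aK'⟩
  obtain ⟨ζ, hζ⟩ := HasEnoughRootsOfUnity.exists_primitiveRoot K a.natAbs
  have hF : ∀ y : K, y ∈ Polynomial.nthRootsFinset a.natAbs (1 : K) ↔
      (std : Side K).U a y = 0 := fun y => by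
    rw [Polynomial.mem_nthRootsFinset hn, Side.U_self, ← zpow_natCast, Int.natAbs_of_nonneg ha.le]
    simp only [std, one_mul, sub_eq_zero]
  have h1 : (1 : K) ∈ Polynomial.nthRootsFinset a.natAbs (1 : K) :=
    (Polynomial.mem_nthRootsFinset hn _).2 (one_pow _)
  have hc : ∀ y ∈ (Polynomial.nthRootsFinset a.natAbs (1 : K)).erase 1,
      Cyc l.g (Nr l.P (Sh a b (std : Side K) t) y) b := fun y hy => by
    obtain ⟨y1, hy⟩ := Finset.mem_erase.1 hy
    have y0 : y ≠ 0 := Polynomial.ne_zero_of_mem_nthRootsFinset one_ne_zero hy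
    exact cycZ h.hab std_ok h.s1 l y0 (fun e => y1 (std_common h.hab y0 e ((hF y).1 hy)))
      ((hF y).1 hy)
  have hD := (cycD h.hab h.s1 l).2
  have e : {Y | Sh a b (std : Side K) t Y} =
      ⋃ y ∈ (Polynomial.nthRootsFinset a.natAbs (1 : K) : Set K),
        Nr l.P (Sh a b (std : Side K) t) y := by
    ext Y
    simp only [Set.mem_iUnion, Finset.mem_coe]
    refine ⟨fun hY => ?_, fun ⟨_, _, hY⟩ => hY.1⟩
    obtain ⟨y, -, h2, h3 | h3⟩ := cls0 h.hab std_ok l.ap0 hY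
    exacts [⟨y, (hF y).2 h3, hY, h2⟩, absurd h3.1 ha.le.not_gt]
  rw [e, (Finset.finite_toSet _).ncard_biUnion, finsum_mem_coe_finset,
    ← Finset.add_sum_erase _ _ h1, hD.card, Finset.sum_congr rfl fun y hy => (hc y hy).card,
    Finset.sum_const, Finset.card_erase_of_mem h1, hζ.card_nthRootsFinset, smul_eq_mul]
  · intro y hy
    by_cases y1 : y = 1
    exacts [y1 ▸ hD.fin.1, (hc y (Finset.mem_erase.2 ⟨y1, hy⟩)).fin.1]
  · exact fun y _ y' _ hne => Set.disjoint_left.2 fun Y h2 h3 => hne (l.P.uniq h2.2 h3.2)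

/-- count at a place above infinity: `clsI`, `cycOI` -/
theorem cardN (h : GE a b e p β t) (ha : a < 0) :
    {Y | Sh a b (std : Side K) t Y}.ncard = 2 * (a.natAbs * b) := by
  obtain ⟨l⟩ := h.locI
  obtain ⟨-, c1, -, c2⟩ := cycOI h.hab std_ok h.s1 ha l
  have e : {Y | Sh a b (std : Side K) t Y} =
      Nr l.P (Sh a b (std : Side K) t) 0 ∪ NrI l.P (Sh a b (std : Side K) t) :=
    Set.ext fun Y => ⟨fun hY => (clsI h.hab std_ok ha l.ap0 hY).imp (⟨hY, ·⟩) (⟨hY, ·⟩),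
      fun hY => hY.elim (·.1) (·.1)⟩
  rw [e, Set.ncard_union_eq _ c1.fin.1 c2.fin.1, c1.card, c2.card, two_mul]
  refine Set.disjoint_left.2 fun Y h1 h2 => ?_
  have h3 := l.P.mul h1.2 h2.2
  rw [mul_inv_cancel₀ h1.1.1, add_zero, mul_zero] at h3
  exact one_ne_zero (l.P.uniq Pl.one h3)

/-- `per0`, `std_common` -/
theorem std_per (h : GE a b e p β t) (l : Loc K t) (hY : Sh a b (std : Side K) t Y)
    (hn : Y ∉ Nr l.P (Sh a b (std : Side K) t) 1) : ∃ y0 : K, y0 ≠ 0 ∧ y0 ≠ 1 ∧ l.P.Ap Y 0 y0 ∧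
      ((y0 ^ a = 1 ∧ Per l.g Y b) ∨ (a < 0 ∧ y0 ^ b = 1 ∧ Per l.g Y a.natAbs)) := by
  obtain ⟨y0, h0, h1, h2⟩ := per0 h.hab std_ok h.s1 l hY
  have h3 : y0 ≠ 1 := fun e => hn ⟨hY, e ▸ h1⟩
  refine ⟨y0, h0, h3, h1, (h2.resolve_left fun e => h3 (std_common h.hab h0 e.1 e.2)).imp
    (fun e => ⟨?_, e.2⟩) fun e => ⟨e.1, ?_, e.2.2⟩⟩
  · simpa only [Side.U_self, std, one_mul, sub_eq_zero] using e.1
  · simpa only [Side.u_self, std, one_mul, sub_eq_zero] using e.2.1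

/-- For even `d` (so `a`, `b` odd) the residue `y0` of `std_per` has `y0 ^ 2 ≠ 1`, all `g ^ j Y` have
residue `y0` (`Pl.Act.pow`) and `Y⁻¹` has residue `y0⁻¹`; `pi_per`. -/
theorem std_per_pi (h : GE a b e p β t) (hd : Even (dd a b)) (l : Loc K t) {w : L}
    (hw : w ∈ pi '' {Y | Sh a b (std : Side K) t Y})
    (hn : w ∉ pi '' Nr l.P (Sh a b (std : Side K) t) 1) :
    Per l.g w b ∨ (a < 0 ∧ Per l.g w a.natAbs) := by
  obtain ⟨Y, hY, rfl⟩ := hw
  obtain ⟨y0, h0, h1, h2, h3⟩ := std_per h l hY fun hY' => hn ⟨Y, hY', rfl⟩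
  obtain ⟨oa, ob⟩ := h.hab.odd hd
  have hj : ∀ j : ℕ, (l.g ^ j) Y ≠ Y⁻¹ := fun j e => by
    have a1 := Pl.Act.pow l.act (l.prim.ne_zero l.pos.ne') j h2
    rw [e, mul_zero, zpow_zero, one_mul] at a1
    have a2 : y0 = -1 := (mul_self_eq_one_iff.1 ((mul_eq_one_iff_eq_inv₀ h0).2
      (l.P.uniq a1 (neg_zero (G := ℤ) ▸ Pl.inv h2 h0)))).resolve_left h1
    have a3 : (-1 : K) = 1 := by
      rcases h3 with h3 | h3
      · rw [← oa.neg_one_zpow, ← a2, h3.1]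
      · rw [← ob.neg_one_pow, ← a2, h3.2.1]
    exact h.hab.two (by linear_combination -a3)
  exact h3.imp (fun h3 => pi_per hY.1 h3.2 hj) fun h3 => ⟨h3.1, pi_per hY.1 h3.2.2 hj⟩

/-- `cycD`, `Cel.flip` with `i = 1`, `Sh.inv_std`, `pi_cyc_half` -/
theorem std_cyc_pi (h : GE a b e p β t) {δ : ℕ} (hd : dd a b = 2 * δ) (l : Loc K t) :
    Cyc l.g (pi '' Nr l.P (Sh a b (std : Side K) t) 1) δ := by
  obtain ⟨h1, h2⟩ := cycD h.hab h.s1 l
  rw [hd] at h1 h2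
  refine pi_cyc_half h2 fun Y hY => ⟨hY.1.1, ?_⟩
  simpa only [one_mul] using Cel.flip l h1 (fun Y hY => hY.map l.mem l.mem.2) (one_pow 2) odd_one hY
    (Sh.inv_std h.hab (hd ▸ even_two_mul δ) hY.1)

/-- The flip `f = g ^ (i δ)` with `i = |a| b` odd: it fixes the sheets that are not near `1` and
inverts those near `1` (`Cel.flip`). -/
theorem std_flip (h : GE a b e p β t) {δ : ℕ} (hd : dd a b = 2 * δ) (l : Loc K t) :
    (∀ X, Sh a b (std : Side K) t X → X ∉ Nr l.P (Sh a b (std : Side K) t) 1 →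
      (l.g ^ (a.natAbs * b * δ)) X = X) ∧
    ∀ Y ∈ Nr l.P (Sh a b (std : Side K) t) 1, (l.g ^ (a.natAbs * b * δ)) Y = Y⁻¹ := by
  have he : Even (dd a b) := hd ▸ even_two_mul δ
  obtain ⟨oa, ob⟩ := h.hab.odd he
  refine ⟨fun X hX hn => ?_, fun Y hY => Cel.flip l (hd ▸ (cycD h.hab h.s1 l).1)
    (fun Y hY => hY.map l.mem l.mem.2) (one_pow 2) ((Int.natAbs_odd.2 oa).mul ob) hY
    (Sh.inv_std h.hab he hY.1)⟩
  obtain ⟨y0, -, -, -, h3 | h3⟩ := std_per h l hX hn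
  · exact h3.2.fix ((dvd_mul_left _ _).mul_right _)
  · exact h3.2.2.fix ((dvd_mul_right _ _).mul_right _)

omit [IsAlgClosed K] in
theorem prs_of_pi_fr {ψ : RingAut L} (hψ : ψ ∈ Fr p K t) (X Y : L) (h : Q2 K a b t X Y) :
    Q2 K a b t (ψ X) (ψ Y) :=
  ⟨h.1.fr hψ hψ.2 (std_rt p), h.2.1.fr hψ hψ.2 (std_rt p), ψ.injective.ne h.2.2.1, fun e =>
    h.2.2.2 (ψ.injective (by rw [map_mul, e, map_one]))⟩

/-- `two_pi` with the flip of `std_flip`; a sheet `X` not near `1` exists by `hX`. -/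
theorem prs_of_pi (h : GE a b e p (std : Side K) t) (hd : Even (dd a b))
    (h2 : Two (Gx K t) (pi '' {Y | Sh a b (std : Side K) t Y}))
    (hX : dd a b < {Y | Sh a b (std : Side K) t Y}.ncard) :
    Prs a b p (std : Side K) t (Q2 K a b t) := by
  obtain ⟨l, -⟩ := h.loc t h.cov
  obtain ⟨δ, hδ⟩ := hd
  obtain ⟨f1, f2⟩ := std_flip h (hδ.trans (two_mul δ).symm) l
  have hc := (cycD h.hab h.s1 l).2
  obtain ⟨Y, hY⟩ := hc.fin.2
  obtain ⟨X, x1, x2⟩ := Set.not_subset.1 fun hs : {Y | Sh a b (std : Side K) t Y} ⊆ _ =>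
    hX.not_ge ((Set.ncard_le_ncard hs hc.fin.1).trans hc.card.le)
  refine ⟨fun _ _ q => ⟨q.1, q.2.1⟩, fun _ _ _ _ q q' => two_pi h2 (fun _ h => h.1)
    (pow_mem l.mem _) x1 hY.1 (fun e => x2 (e ▸ hY)) (fun e => x2 ?_) (f1 X x1 x2) (f2 Y hY)
    _ q.1 _ q.2.1 _ q'.1 _ q'.2.1 q.2.2.1 q.2.2.2 q'.2.2.1 q'.2.2.2,
    fun _ hψ => prs_of_pi_fr hψ⟩
  rw [eq_inv_of_mul_eq_one_left e, ← f2 Y hY]
  exact hc.pow_mem hY _

omit [IsAlgClosed K] in
theorem prs_of_two (h : GE a b e p (std : Side K) t) (h2 : Two (Gx K t) {Y | Sh a b (std : Side K) t Y}) :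
    Prs a b p (std : Side K) t (Q2 K a b t) :=
  ⟨fun _ _ q => ⟨q.1, q.2.1⟩, fun _ _ _ _ q q' =>
    h2 _ q.1 _ q.2.1 _ q'.1 _ q'.2.1 q.2.2.1.symm q'.2.2.1.symm, fun _ hψ => prs_of_pi_fr hψ⟩

/-- `prim_neg` with `κ = 2`, `κ' = 1` -/
theorem primO (h : GE a b e p β t) (ha : a < 0) (hd : Odd (dd a b)) :
    Prim (Gx K t) {Y | Sh a b (std : Side K) t Y} := by
  obtain ⟨l, -⟩ := h.loc0
  have h1 := h.hab.dd_eq
  refine prim_neg (κ := 2) (κ' := 1) (sh_card h.hab std_ok t).1 (stb_sh _ t)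
    (trn_sh h.hab h.cov _) l.mem (cycD h.hab h.s1 l).2 (fun _ hw => hw.1) (fun w hw hn => ?_)
    (cardN h ha) rfl (by omega) h.hab.cop (by omega) h.hab.b0 (Nat.coprime_two_left.2 hd)
  obtain ⟨y0, -, -, -, h2 | h2⟩ := std_per h l hw hn
  · exact Or.inr h2.2
  · exact Or.inl h2.2.2

/-- `prim_neg` with `κ = 1`, `κ' = 2` on the image under `pi`, `jordan` with `n = |a| b`
(`a`, `b` are odd, `b ≥ 3`, so `δ ≥ 2` and `δ < |a| b`), `prs_of_pi` -/
theorem monN (h : GE a b e p (std : Side K) t) (ha : a < 0) (hd : Even (dd a b)) (hb : 2 ≤ b) :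
    Prs a b p (std : Side K) t (Q2 K a b t) := by
  obtain ⟨l, -⟩ := h.loc0
  obtain ⟨δ, hδ⟩ := hd.two_dvd
  obtain ⟨k, hk⟩ := (h.hab.odd hd).2
  have h1 := h.hab.dd_eq
  have hf := (sh_card h.hab std_ok t).1
  have hN := cardN h ha
  have h2 := pi_card hf fun Y hY => ⟨hY.1, Sh.ne_inv h.cov hY, Sh.inv_std h.hab hd hY⟩
  have h3 : a.natAbs * 2 ≤ a.natAbs * b := Nat.mul_le_mul_left _ hb
  have h4 : 1 * b ≤ a.natAbs * b := Nat.mul_le_mul_right _ (by omega)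
  have hs := pi_stb (stb_sh (a := a) (b := b) (std : Side K) t)
  have ht := pi_trn (trn_sh h.hab h.cov (std : Side K))
  have hc := std_cyc_pi h hδ l
  have hΔ : pi '' Nr l.P (Sh a b (std : Side K) t) 1 ⊆ pi '' {Y | Sh a b (std : Side K) t Y} :=
    Set.image_mono fun _ hw => hw.1
  have hv : δ ∣ dd a b := Dvd.intro_left 2 hδ.symm
  refine prs_of_pi h hd (jordan (n := a.natAbs * b) (hf.image pi) hs ht
    (prim_neg (κ := 1) (κ' := 2) (a := a.natAbs) (b := b) (hf.image pi) hs ht l.mem hc hΔ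
      (fun w hw hn => (std_per_pi h hd l hw hn).symm.imp_left And.right) (by omega) rfl (by omega)
      h.hab.cop (by omega) h.hab.b0 (Nat.coprime_one_left δ)) l.mem hc hΔ
    (Nat.Coprime.mul_left (h.hab.cop_ad.coprime_dvd_right hv) (h.hab.cop_bd.coprime_dvd_right hv))
    (fun w hw hn => ?_) (by omega) (by omega)) (by omega)
  rcases std_per_pi h hd l hw hn with h5 | h5
  · exact h5.fix (Dvd.intro_left _ rfl)
  · exact h5.2.fix (Dvd.intro _ rfl)

/-- `prim_pos` with `δ = d`, `ν = a - 1`, `Δ' = NrI` at a place above `1` (`cycI`, `perc`; the case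
`1 = v0 = (-1) ^ d` does not occur), `jordan` with `g'`, `n = 2`. -/
theorem monP_odd (h : GE a b e p (std : Side K) t) (ha : 3 ≤ a) (ho : Odd a) (hd : Odd (dd a b)) :
    Prs a b p (std : Side K) t (Q2 K a b t) := by
  have hc := cardP h (by omega)
  have h1 := h.hab.lt
  have h2 := h.hab.d0
  have h3 : 1 * b ≤ (a.natAbs - 1) * b := Nat.mul_le_mul_right b (by omega)
  have hΩ := Set.finite_of_ncard_ne_zero (hc.trans_ne (by omega))
  obtain ⟨l, -⟩ := h.loc0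
  obtain ⟨l'⟩ := h.locc 1
  have hI := (cycI h.hab std_ok h.s1 (by omega) l' std_flip_v0.symm).2
  have hf : ∀ w ∈ {Y | Sh a b (std : Side K) t Y}, w ∉ NrI l'.P (Sh a b (std : Side K) t) →
      (l'.g ^ 2) w = w := fun w hw hn => by
    rcases perc h.hab std_ok h.s1 l' one_ne_zero hw with h4 | h4 | h4
    · exact h4.2
    · rw [std_v0 h.hab, hd.neg_one_pow] at h4
      exact (h.hab.two (by linear_combination h4.1)).elim
    · exact (hn ⟨hw, h4.1⟩).elim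
  have ho' : Odd a.natAbs := Int.natAbs_odd.2 ho
  refine prs_of_two h (jordan hΩ (stb_sh _ t) (trn_sh h.hab h.cov _) (prim_pos hΩ (stb_sh _ t)
    (trn_sh h.hab h.cov _) l.mem (cycD h.hab h.s1 l).2 (fun _ hw => hw.1) (fun w hw hn => ?_) hc
    l'.memc hI (fun _ hw => hw.1) hf h.hab.cop_bd (by omega) (by omega) (by omega)
    ((Nat.coprime_self_sub_left (by omega)).2 (Nat.coprime_one_left _)) ho') l'.memc hI
    (fun _ hw => hw.1) ho'.coprime_two_left hf (by omega) (by omega))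
  obtain ⟨y0, -, -, -, h4 | h4⟩ := std_per h l hw hn
  · exact h4.2
  · omega

/-- `prim_pos` on the image under `pi` with `δ = d / 2`, `ν = (a - 1) / 2`, `Δ' = pi '' NrI`
(`pi_cyc_inj`; a sheet near `0` has its inverse in `NrI`), `jordan`, `prs_of_pi`. -/
theorem monP_even (h : GE a b e p (std : Side K) t) (ha : 3 ≤ a) (hd : Even (dd a b)) :
    Prs a b p (std : Side K) t (Q2 K a b t) := by
  have hc := cardP h (by omega)
  have h1 := h.hab.lt
  have h2 := h.hab.d0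
  have h3 : 1 * b ≤ (a.natAbs - 1) * b := Nat.mul_le_mul_right b (by omega)
  have hΩ := Set.finite_of_ncard_ne_zero (hc.trans_ne (by omega))
  have ho' : Odd a.natAbs := Int.natAbs_odd.2 (h.hab.odd hd).1
  obtain ⟨δ, hδ⟩ := hd.two_dvd
  obtain ⟨ν, hν⟩ := id ho'
  have h5 : 1 * b ≤ ν * b := Nat.mul_le_mul_right b (by omega)
  have hc' : (pi '' {Y | Sh a b (std : Side K) t Y}).ncard = δ + ν * b := by
    have := pi_card hΩ fun Y hY => ⟨hY.1, Sh.ne_inv h.cov hY, Sh.inv_std h.hab hd hY⟩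
    rw [hc, hδ, hν, Nat.add_sub_cancel, mul_assoc] at this
    omega
  obtain ⟨l, -⟩ := h.loc0
  obtain ⟨l'⟩ := h.locc 1
  have hI := pi_cyc_inj (cycI h.hab std_ok h.s1 (by omega) l' std_flip_v0.symm).2
    fun Y hY => ⟨hY.1.1, fun hY' => by
      have h4 := l'.P.mul hY.2 hY'.2
      rw [mul_inv_cancel₀ (inv_ne_zero hY.1.1), add_zero, mul_zero] at h4
      exact zero_ne_one (l'.P.uniq h4 Pl.one)⟩
  have hf : ∀ w ∈ pi '' {Y | Sh a b (std : Side K) t Y},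
      w ∉ pi '' NrI l'.P (Sh a b (std : Side K) t) → (l'.g ^ 2) w = w := by
    rintro _ ⟨Y, hY, rfl⟩ hn
    rcases perc h.hab std_ok h.s1 l' one_ne_zero hY with h4 | h4 | h4
    · rw [pi_map, h4.2]
    · exact (hn ⟨Y⁻¹, ⟨Sh.inv_std h.hab hd hY, by rw [inv_inv]; exact h4.2.1⟩, pi_inv Y⟩).elim
    · exact (hn ⟨Y, ⟨hY, h4.1⟩, rfl⟩).elim
  have hs := pi_stb (stb_sh (a := a) (b := b) (std : Side K) t)
  have ht := pi_trn (trn_sh h.hab h.cov (std : Side K))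
  refine prs_of_pi h hd (jordan (hΩ.image _) hs ht (prim_pos (hΩ.image _) hs ht l.mem
    (std_cyc_pi h hδ l) (Set.image_mono fun _ hw => hw.1)
    (fun w hw hn => (std_per_pi h hd l hw hn).resolve_right fun h4 => by omega) hc' l'.memc hI
    (Set.image_mono fun _ hw => hw.1) hf (h.hab.cop_bd.coprime_dvd_right ⟨2, by omega⟩)
    (by omega) (by omega) (by omega) ?_ ho') l'.memc hI (Set.image_mono fun _ hw => hw.1)
    ho'.coprime_two_left hf (by omega) (by omega)) (by omega)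
  rw [hν]
  simp

end Pool.Agent.NW
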