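import Pool.Agent.Lib.MP_d40963_nt.W.Red

/-! The roots of `N0 - T D0` near a point. -/

namespace Pool.Agent.NW

open Polynomial

variable {K L : Type} [Field K] [Field L] [Algebra K L] {P : Pl K L} {T : L} {N0 D0 : K[X]}
  {y0 c v : K} {ε N : ℕ}

theorem Fac.mult (h : Fac N0 y0 ε v) (hv : v ≠ 0) : N0 ≠ 0 ∧ N0.rootMultiplicity y0 = ε := by
  obtain ⟨N1, rfl, h1⟩ := h
  have h2 : ¬ N1.IsRoot y0 := fun h => hv (h1.symm.trans h)
  have h3 : (X - C y0) ^ ε * N1 ≠ 0 :=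
    mul_ne_zero (pow_ne_zero _ (X_sub_C_ne_zero y0)) fun h => h2 (h ▸ eval_zero)
  rw [rootMultiplicity_mul h3, rootMultiplicity_X_sub_C_pow, rootMultiplicity_eq_zero h2]
  exact ⟨h3, rfl⟩

/-- `(Y - y0) ^ ε N1 (Y) = T D0 (Y)`; `Y ≠ y0` as `T D0 (y0) ≠ 0` and `ε > 0`; compare leading
terms (`Pl.pos`, `Pl.aeval`, `Pl.ord_eq`). -/
theorem loc_ap (hT : P.Ap T N c) (hc : c ≠ 0) (hf : Fac N0 y0 ε v) (hv : v ≠ 0)
    (hD : D0.eval y0 ≠ 0) (hε : 0 < ε) {Y : L} (hY : T * aeval Y D0 = aeval Y N0)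
    (h0 : P.Ap Y 0 y0) : ∃ (m : ℕ) (l : K), 0 < m ∧ ε * m = N ∧ l ^ ε = c * D0.eval y0 / v ∧
      P.Ap (Y - algebraMap K L y0) m l := by
  obtain ⟨N1, rfl, rfl⟩ := hf
  rw [map_mul, map_pow, map_sub, aeval_X, aeval_C] at hY
  have h1 := P.mul hT (Pl.aeval h0 D0)
  rw [hY] at h1
  have hne : Y ≠ algebraMap K L y0 := fun h => Pl.ne h1 (mul_ne_zero hc hD) (by
    rw [sub_eq_zero.2 h, zero_pow hε.ne', zero_mul])
  obtain ⟨m, l, hm, hl, h2⟩ := Pl.pos h0 hne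
  obtain ⟨h3, h4⟩ := Pl.ord_eq h1 (P.mul (Pl.pow h2 ε) (Pl.aeval h0 N1)) (mul_ne_zero hc hD)
    (mul_ne_zero (pow_ne_zero _ hl) hv)
  lift m to ℕ using hm.le
  refine ⟨m, l, Int.natCast_pos.1 hm, ?_, by rw [h4, mul_div_cancel_right₀ _ hv], h2⟩
  rw [add_zero, add_zero] at h3
  exact_mod_cast h3.symm

/-- Second reduction. With `w = Y1 - y0`, the polynomial
`C (w ^ ε)⁻¹ * Q.comp (C w * X + C y0)` splits (`Splits.comp_of_degree_le_one`) and reduces to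
`v (X ^ ε - 1)`, which is separable: apply `red_one` at `l / l1`. -/
theorem loc_un [IsAlgClosed K]
    (hs : (N0.map (algebraMap K L) - C T * D0.map (algebraMap K L)).Splits)
    (hT : P.Ap T N c) (hf : Fac N0 y0 ε v) (hv : v ≠ 0) (hε : (ε : K) ≠ 0) {m : ℕ}
    (hm : 0 < m) (hN : ε * m = N) {Y1 : L} {l1 l : K} (h1 : P.Ap (Y1 - algebraMap K L y0) m l1)
    (hl1 : l1 ≠ 0) (hκ : l1 ^ ε = c * D0.eval y0 / v) (hl : l ^ ε = l1 ^ ε) :
    ∃! Y, T * aeval Y D0 = aeval Y N0 ∧ P.Ap (Y - algebraMap K L y0) m l := by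
  obtain ⟨N1, rfl, hv1⟩ := hf
  obtain ⟨w, hw⟩ : ∃ w, w = Y1 - algebraMap K L y0 := ⟨_, rfl⟩
  rw [← hw] at h1
  have hw0 : w ≠ 0 := Pl.ne h1 hl1
  have hk : algebraMap K L v⁻¹ * (w ^ ε)⁻¹ ≠ 0 :=
    mul_ne_zero ((_root_.map_ne_zero _).2 (inv_ne_zero hv)) (inv_ne_zero (pow_ne_zero _ hw0))
  have hq := separable_X_pow_sub_C (1 : K) hε one_ne_zero
  have ev : ∀ Z : L, (C (algebraMap K L v⁻¹ * (w ^ ε)⁻¹) *
      ((((X - C y0) ^ ε * N1).map (algebraMap K L) - C T * D0.map (algebraMap K L)).comp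
        (C w * X + C (algebraMap K L y0)))).eval Z = algebraMap K L v⁻¹ * (w ^ ε)⁻¹ *
      (aeval (w * Z + algebraMap K L y0) ((X - C y0) ^ ε * N1) -
        T * aeval (w * Z + algebraMap K L y0) D0) := fun Z => by
    simp only [eval_mul, eval_C, eval_comp, eval_add, eval_X, eval_sub, eval_map_algebraMap]
  obtain ⟨Z, ⟨z1, z2⟩, z3⟩ := red_one P ((Splits.C (algebraMap K L v⁻¹ * (w ^ ε)⁻¹)).mul
    (hs.comp_of_degree_le_one (g := C w * X + C (algebraMap K L y0)) degree_linear_le))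
    hq.ne_zero (y0 := l / l1) (fun u => by
      have a1 : P.Ap (w * algebraMap K L u + algebraMap K L y0) 0 y0 :=
        Pl.res (m := m) (l := u * l1) (by
          rw [add_sub_cancel_right, mul_comm]
          exact Pl.smul u h1) (by exact_mod_cast hm)
      have a2 := Pl.div hT (Pl.pow h1 ε) (pow_ne_zero _ hl1)
      rw [← hN, Nat.cast_mul, sub_self] at a2
      have a3 := P.mul a2 (Pl.aeval a1 D0)
      rw [add_zero] at a3
      have a4 := Pl.smul v⁻¹ (Pl.sub (Pl.smul (u ^ ε) (Pl.aeval a1 N1)) a3)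
      have e1 : v⁻¹ * (u ^ ε * N1.eval y0 - c / l1 ^ ε * D0.eval y0) =
          (X ^ ε - C 1 : K[X]).eval u := by
        have h2 := pow_ne_zero ε hl1
        have h3 : c * D0.eval y0 = l1 ^ ε * v := by
          rw [hκ, div_mul_cancel₀ _ hv]
        rw [hv1, div_mul_eq_mul_div, h3, eval_sub, eval_pow, eval_X, eval_C]
        field_simp
      rw [ev, ← e1]
      refine (congrArg (fun t => P.Ap t 0 _) ?_).mp a4
      simp only [map_mul, map_pow, map_sub, aeval_X, aeval_C, add_sub_cancel_right, mul_pow]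
      field_simp)
    (le_antisymm (rootMultiplicity_le_one_of_separable hq _)
      ((rootMultiplicity_pos hq.ne_zero).2 (by
        simp [div_pow, hl, pow_ne_zero ε hl1])))
  rw [ev, mul_eq_zero_iff_left hk, sub_eq_zero] at z1
  refine ⟨w * Z + algebraMap K L y0, ⟨z1.symm, ?_⟩, fun Y hY => ?_⟩
  · have := P.mul h1 z2
    rwa [add_zero, mul_div_cancel₀ _ hl1, ← add_sub_cancel_right (w * Z) (algebraMap K L y0)]
      at this
  · have e : w * ((Y - algebraMap K L y0) / w) + algebraMap K L y0 = Y := by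
      rw [mul_div_cancel₀ _ hw0, sub_add_cancel]
    have h2 := Pl.div hY.2 h1 hl1
    rw [sub_self] at h2
    rw [← z3 _ ⟨by rw [ev, e, hY.1, sub_self, mul_zero], h2⟩, e]

/-- `red_ex` gives a root near `y0`, then `loc_ap`, `loc_un`. -/
theorem loc_tab [IsAlgClosed K]
    (hs : (N0.map (algebraMap K L) - C T * D0.map (algebraMap K L)).Splits)
    (hT : P.Ap T N c) (hN : 0 < N) (hc : c ≠ 0) (hf : Fac N0 y0 ε v) (hv : v ≠ 0)
    (hD : D0.eval y0 ≠ 0) (hε : (ε : K) ≠ 0) :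
    ∃ m, ε * m = N ∧
      Tab P (fun Y => T * aeval Y D0 = aeval Y N0) y0 ε m (c * D0.eval y0 / v) := by
  have hε' : 0 < ε := Nat.pos_of_ne_zero fun h => hε (by rw [h, Nat.cast_zero])
  have hκ : c * D0.eval y0 / v ≠ 0 := div_ne_zero (mul_ne_zero hc hD) hv
  obtain ⟨Y1, h1, h2⟩ := red_ex P hs (hf.mult hv).1 (y0 := y0) (fun w => by
    have h3 := Pl.sub (P.const (N0.eval w))
      (P.mul (Pl.lt hT (Int.natCast_pos.2 hN)) (P.const (D0.eval w)))
    rw [zero_mul, sub_zero] at h3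
    rwa [eval_sub, eval_mul, eval_C, eval_map_algebraMap, eval_map_algebraMap,
      aeval_algebraMap_apply_eq_algebraMap_eval, aeval_algebraMap_apply_eq_algebraMap_eval]) (by
    obtain ⟨N1, rfl, -⟩ := hf
    rw [eval_mul, eval_pow, eval_sub, eval_X, eval_C, sub_self, zero_pow hε'.ne', zero_mul])
  rw [eval_sub, eval_mul, eval_C, eval_map_algebraMap, eval_map_algebraMap, sub_eq_zero] at h1
  obtain ⟨m, l1, hm, h3, h4, h5⟩ := loc_ap hT hc hf hv hD hε' h1.symm h2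
  have hl1 : l1 ≠ 0 := fun h => hκ (by rw [← h4, h, zero_pow hε'.ne'])
  have hap : ∀ Y, T * aeval Y D0 = aeval Y N0 → P.Ap Y 0 y0 →
      ∃ l, P.Ap (Y - algebraMap K L y0) m l ∧ l ^ ε = c * D0.eval y0 / v := fun Y hY h0 => by
    obtain ⟨m', l, -, h6, h7, h8⟩ := loc_ap hT hc hf hv hD hε' hY h0
    obtain rfl := Nat.eq_of_mul_eq_mul_left hε' (h3.trans h6.symm)
    exact ⟨l, h8, h7⟩
  refine ⟨m, h3, hκ, hε, hm, hap, fun l hl =>
    (loc_un hs hT hf hv hε hm h3 h5 hl1 h4 (hl.trans h4.symm)).exists, ?_⟩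
  intro Y Y' l hY hY' h6 h7
  obtain ⟨l', h8, h9⟩ := hap Y hY (Pl.res h6 (Int.natCast_pos.2 hm))
  obtain rfl := P.uniq h6 h8
  exact (loc_un hs hT hf hv hε hm h3 h5 hl1 h4 (h9.trans h4.symm)).unique ⟨hY, h6⟩ ⟨hY', h7⟩

end Pool.Agent.NW
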