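import Pool.Agent.Lib.MP_d40963_nt.W.Fac
import Pool.Agent.Lib.MP_d40963_nt.W.Fac2
import Pool.Agent.Lib.MP_d40963_nt.W.Loc

/-! Existence of unramified unit points. -/

namespace Pool.Agent.NW

open Polynomial

variable {K : Type} [Field K] [IsAlgClosed K] {a : ℤ} {b : ℕ} {β : Side K}

theorem deg_le_sum {Q : K[X]} (hQ : Q ≠ 0) (A : Finset K) (w : K → ℕ)
    (h : ∀ y, Q.eval y = 0 → y ∈ A ∧ Q.rootMultiplicity y ≤ w y) :
    Q.natDegree ≤ ∑ y ∈ A, w y := by
  classical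
  rw [← IsAlgClosed.card_roots_eq_natDegree, ← Multiset.toFinset_sum_count_eq]
  have hr : ∀ y ∈ Q.roots.toFinset, Q.eval y = 0 := fun y hy =>
    (mem_roots hQ).1 (Multiset.mem_toFinset.1 hy)
  refine le_trans (Finset.sum_le_sum fun y hy => ?_)
    (Finset.sum_le_sum_of_subset fun y hy => (h y (hr y hy)).1)
  rw [count_roots]
  exact (h y (hr y hy)).2

theorem deg_even {Q : K[X]} (hQ : Q ≠ 0) (h : ∀ y, Q.eval y = 0 → Q.rootMultiplicity y = 2) :
    Even Q.natDegree := by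
  classical
  rw [← IsAlgClosed.card_roots_eq_natDegree, ← Multiset.toFinset_sum_count_eq]
  refine Finset.even_sum _ fun y hy => ?_
  rw [count_roots, h y ((mem_roots hQ).1 (Multiset.mem_toFinset.1 hy))]
  exact even_two

/-- if all roots of `Q` are roots of the separable `S`, of multiplicity at most two -/
theorem dvd_sq {Q S : K[X]} (hQ : Q ≠ 0)
    (h : ∀ y, Q.eval y = 0 → S.eval y = 0 ∧ Q.rootMultiplicity y ≤ 2) : Q ∣ S ^ 2 := by
  classical
  by_cases hS : S = 0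
  · simp [hS]
  refine (IsAlgClosed.splits Q).dvd_of_roots_le_roots hQ (Multiset.le_iff_count.2 fun y => ?_)
  rw [count_roots, count_roots]
  by_cases hy : Q.eval y = 0
  · refine (h y hy).2.trans ((le_rootMultiplicity_iff (pow_ne_zero 2 hS)).2 ?_)
    exact pow_dvd_pow_of_dvd (dvd_iff_isRoot.2 (h y hy).1) 2
  · rw [rootMultiplicity_eq_zero hy]
    exact Nat.zero_le _

theorem mult_crit (h : Hab K a b) (hβ : β.Ok) {t0 y0 : K} (hy : Sh a b β t0 y0)
    (hc : Crit a b β y0) : (β.N a b - C t0 * β.D a b).rootMultiplicity y0 = 2 := by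
  obtain ⟨h0, h1, hf⟩ := facU2 h hβ hy hc rfl
  have hD : (β.D a b).eval y0 ≠ 0 := by
    have := ((sh_iff h).1 hy).2.1
    rwa [coe_aeval_eq_eval] at this
  refine (Fac.mult hf (div_ne_zero (mul_ne_zero hD ?_) ?_)).2
  · exact mul_ne_zero (mul_ne_zero (mul_ne_zero (mul_ne_zero hy.t_ne h.aK) h.bK) h.dK) h0
  · exact mul_ne_zero (mul_ne_zero h.two (pow_ne_zero _ (sub_ne_zero.2 h1)))
      (pow_ne_zero _ hy.1)

omit [IsAlgClosed K] in
theorem unrP1_coeff {n : ℕ} (h0 : 0 < n) (hn : n < b) :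
    ((std : Side K).N n b - C 1 * (std : Side K).D n b).coeff ((b - 1) * n) = -(b : K) := by
  have e : (std : Side K).N n b - C 1 * (std : Side K).D n b =
      expand K n ((X + C (-1)) ^ b) - expand K b ((X + C (-1)) ^ n) := by
    simp [Side.N, Side.D, Side.Up, Side.up, std, sub_eq_add_neg]
  obtain ⟨b, rfl⟩ : ∃ c, b = c + 1 := ⟨b - 1, by omega⟩
  rw [e, coeff_sub, coeff_expand_mul h0, coeff_expand (h0.trans hn), if_neg, coeff_X_add_C_pow]
  · simp
  · exact fun k => (Nat.le_of_dvd h0 ((Nat.coprime_self_add_left.2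
      (Nat.coprime_one_left b)).dvd_of_dvd_mul_left k)).not_gt hn

/-- `Q = N - D = (X ^ a - 1) ^ b - (X ^ b - 1) ^ a` has degree `a b - a` (coefficient `-b`; it is
enough to bound the degree from below). Roots: `0` and `1` with multiplicity at most `a` (`facO`,
`facD`), the others are unit points over `1`. If all are critical (`y ^ d = 1`, `y ≠ 1`,
multiplicity `2`) then `a b - a ≤ 2 a + 2 (d - 1)`, i.e. `(a - 2) (b - 1) ≤ 0`. -/
theorem unrP1 (h : Hab K a b) (ha : 3 ≤ a) :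
    ∃ y0 : K, Sh a b (std : Side K) (1 : K) y0 ∧ ¬ Crit a b std y0 := by
  classical
  by_contra! hc
  obtain ⟨n, rfl⟩ := Int.eq_ofNat_of_zero_le (by omega : 0 ≤ a)
  have hn := h.lt
  have hd := h.dd_eq
  have h1 : ((std : Side K).N n b - C 1 * (std : Side K).D n b).coeff ((b - 1) * n) ≠ 0 := by
    rw [unrP1_coeff (by omega) (by omega)]
    exact neg_ne_zero.2 h.bK
  have hR : ∀ y : K, y ∈ nthRootsFinset (dd n b) 1 ↔ y ^ dd n b = 1 := fun y =>
    mem_nthRootsFinset h.d0 1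
  have h2 := deg_le_sum (Q := (std : Side K).N n b - C 1 * (std : Side K).D n b)
    (fun e => h1 (by rw [e, coeff_zero]))
    (insert 0 (nthRootsFinset (dd n b) (1 : K))) (fun y => if y = 0 ∨ y = 1 then n else 2) fun y hy => by
      rw [eval_sub, eval_mul, eval_C, sub_eq_zero] at hy
      by_cases y0 : y = 0
      · subst y0
        obtain ⟨f1, f2⟩ := facO h (std_ok (K := K)) (by omega)
        have f3 : (std : Side K).v0 n b = 1 := by
          obtain ⟨N1, e, -⟩ := f1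
          have e' := congrArg (eval 0) e
          rw [eval_sub, eval_mul, eval_C, hy, eval_mul, eval_pow, eval_sub, eval_X, eval_C,
            sub_zero, zero_pow (by omega), zero_mul, ← sub_mul, f2] at e'
          exact (sub_eq_zero.1 ((mul_eq_zero.1 e').resolve_right
            (zpow_ne_zero _ (neg_ne_zero.2 std_ok.τ')))).symm
        rw [f3] at f1
        refine ⟨Finset.mem_insert_self _ _, (f1.mult ?_).2.trans_le (by simp)⟩
        simpa [std] using h.bK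
      by_cases y1 : y = 1
      · subst y1
        obtain ⟨N0, D0, v, e1, e2, -, ⟨N1, e3, -⟩, e4, -⟩ := facD h (std_ok (K := K)) y0
          (by simp [Side.u_self, std]) (by simp [Side.U_self, std])
        refine ⟨Finset.mem_insert_of_mem ((hR 1).2 (one_pow _)), (Fac.mult (ε := n)
          ⟨N0 - D0, by rw [e1, e2, C_1, one_mul, mul_sub]; rfl, rfl⟩ ?_).2.trans_le (by simp)⟩
        simpa [e3, h.d0.ne'] using e4
      have f1 : ((std : Side K).D n b).eval y ≠ 0 := fun e => y1 (std_common h y0 ?_ ?_)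
      · have f2 : Sh n b (std : Side K) (1 : K) y := (sh_iff h).2
          ⟨y0, f1, by rwa [coe_aeval_eq_eval, hy, one_mul], hy.symm⟩
        exact ⟨Finset.mem_insert_of_mem ((hR y).2 ((std_crit h y0).1 (hc y f2))),
          (mult_crit h std_ok f2 (hc y f2)).trans_le (by simp [y0, y1])⟩
      · rw [← aeval_up, coe_aeval_eq_eval]
        simp only [Side.D, eval_mul, eval_pow, eval_X, mul_eq_zero, pow_eq_zero_iff'] at e
        exact e.elim (·.1) fun k => (y0 k.1).elim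
      · rw [e, mul_zero] at hy
        have f2 := aeval_Up (L := K) (std : Side K) h.a0 y0
        simp only [Side.N, eval_mul, eval_pow, mul_eq_zero, pow_eq_zero_iff'] at hy
        rw [coe_aeval_eq_eval, hy.elim (·.1) fun k => (k.2 (by simp)).elim] at f2
        simpa using f2.symm
  have h3 := (le_natDegree_of_ne_zero h1).trans h2
  have h4 : (nthRootsFinset (dd n b) (1 : K)).card ≤ dd n b :=
    (Multiset.toFinset_card_le _).trans (card_nthRoots _ _)
  have h5 := (hR 1).2 (one_pow _)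
  have h6 : (0 : K) ∉ nthRootsFinset (dd n b) (1 : K) := fun k => by
    simpa [h.d0.ne'] using (hR 0).1 k
  rw [Finset.sum_insert h6, ← Finset.add_sum_erase _ _ h5, if_pos (.inl rfl), if_pos (.inr rfl),
    Finset.sum_congr rfl fun y hy => if_neg (not_or.2 ⟨ne_of_mem_of_not_mem
      (Finset.mem_of_mem_erase hy) h6, Finset.ne_of_mem_erase hy⟩), Finset.sum_const,
    Finset.card_erase_of_mem h5, smul_eq_mul] at h3
  have h7 := Nat.mul_le_mul_left (b - 1) (by omega : 3 ≤ n)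
  omega

omit [IsAlgClosed K] in
theorem unrP0_eq (hβ : β.Ok) : β.N 1 b - C (1 : K) * β.D 1 b =
    C (β.σ ^ b) * (X + C (-β.σ' / β.σ)) ^ b - (C β.τ * X ^ b - C β.τ') := by
  have e : C β.σ * X - C β.σ' = C β.σ * (X + C (-β.σ' / β.σ)) := by
    rw [mul_add, ← C_mul, mul_div_cancel₀ _ hβ.σ, C_neg, sub_eq_add_neg]
  have e1 : (1 : ℤ).toNat = 1 := rfl
  have e2 : (-1 : ℤ).toNat = 0 := rfl
  simp only [Side.N, Side.D, Side.Up, Side.up, e1, e2, pow_one, pow_zero, mul_one, zero_mul,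
    C_1, one_mul]
  rw [e, mul_pow, ← C_pow]

omit [IsAlgClosed K] in
theorem unrP0_odd (h : Hab K 1 b) (hβ : β.Ok)
    (hI : (Odd b ∧ β.σ ^ b ≠ β.τ) ∨ (Even b ∧ β.σ ^ b = β.τ)) :
    Odd (β.N 1 b - C (1 : K) * β.D 1 b).natDegree := by
  have hb : 2 ≤ b := by have := h.lt; omega
  rw [unrP0_eq hβ]
  set Q := C (β.σ ^ b) * (X + C (-β.σ' / β.σ)) ^ b - (C β.τ * X ^ b - C β.τ') with hQ
  have hc : ∀ k, 0 < k → Q.coeff k = β.σ ^ b * ((-β.σ' / β.σ) ^ (b - k) * (b.choose k : K)) -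
      (if k = b then β.τ else 0) := by
    intro k hk
    rw [hQ, coeff_sub, coeff_C_mul, coeff_X_add_C_pow, coeff_sub, coeff_C_mul, coeff_X_pow,
      coeff_C_of_ne_zero hk.ne']
    simp
  have hgt : ∀ k, b < k → Q.coeff k = 0 := fun k hk => by
    rw [hc k (by omega), Nat.choose_eq_zero_of_lt hk, if_neg hk.ne']
    simp
  have hb' : Q.coeff b = β.σ ^ b - β.τ := by
    rw [hc b (by omega)]
    simp
  rcases hI with ⟨h1, h2⟩ | ⟨h1, h2⟩
  · rw [natDegree_eq_of_le_of_coeff_ne_zero (natDegree_le_iff_coeff_eq_zero.2 hgt)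
      (by rw [hb']; exact sub_ne_zero.2 h2)]
    exact h1
  · have hle : Q.natDegree ≤ b - 1 := natDegree_le_iff_coeff_eq_zero.2 fun k hk => by
      rcases (show k = b ∨ b < k by omega) with rfl | hk'
      · rw [hb', h2, sub_self]
      · exact hgt k hk'
    have hne : Q.coeff (b - 1) ≠ 0 := by
      have e : b.choose (b - 1) = b := by
        rw [Nat.choose_symm (by omega), Nat.choose_one_right]
      rw [hc _ (by omega), if_neg (by omega), sub_zero, e]
      exact mul_ne_zero (pow_ne_zero _ hβ.σ)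
        (mul_ne_zero (pow_ne_zero _ (div_ne_zero (neg_ne_zero.2 hβ.σ') hβ.σ)) h.bK)
    rw [natDegree_eq_of_le_of_coeff_ne_zero hle hne]
    exact Nat.Even.sub_odd (by omega) h1 odd_one

/-- `Q = N - D = (σ X - σ') ^ b - (τ X ^ b - τ')` has odd degree (`b`, or `b - 1` if
`σ ^ b = τ`), all roots are unit points over `1`; `deg_even`. -/
theorem unrP0 (h : Hab K 1 b) (hβ : β.Ok) (hn : NoC 1 b β) (h0 : β.v0 1 b ≠ 1)
    (hI : (Odd b ∧ β.σ ^ b ≠ β.τ) ∨ (Even b ∧ β.σ ^ b = β.τ)) :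
    ∃ y0 : K, Sh 1 b β (1 : K) y0 ∧ ¬ Crit 1 b β y0 := by
  by_contra hcon
  have ho := unrP0_odd h hβ hI
  have hQ : β.N 1 b - C (1 : K) * β.D 1 b ≠ 0 := fun e => by
    rw [e, natDegree_zero] at ho
    exact absurd ho (by decide)
  refine Nat.not_even_iff_odd.2 ho (deg_even hQ fun y hy => ?_)
  have e : β.U 1 y ^ b = β.u b y := by
    rw [unrP0_eq hβ] at hy
    simp only [eval_sub, eval_mul, eval_C, eval_pow, eval_add, eval_X] at hy
    rw [Side.U_self, Side.u_self, zpow_one, ← sub_eq_zero, ← hy, ← mul_pow, mul_add,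
      mul_div_cancel₀ _ hβ.σ, sub_eq_add_neg (β.σ * y)]
  have hy0 : y ≠ 0 := by
    rintro rfl
    apply h0
    rw [Side.U_self, Side.u_self, zpow_one, zero_pow h.b0.ne', mul_zero, mul_zero, zero_sub,
      zero_sub] at e
    rw [Side.v0, zpow_one, e, div_self (neg_ne_zero.2 hβ.τ')]
  have hu : β.u b y ≠ 0 := fun hu =>
    hn y hy0 hu (pow_eq_zero_iff h.b0.ne' |>.1 (e.trans hu))
  have hU : β.U 1 y ≠ 0 := fun hU => hu (by rw [← e, hU, zero_pow h.b0.ne'])
  have hs : Sh 1 b β (1 : K) y := ⟨hy0, hu, hU, by rw [one_mul, zpow_one, e]⟩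
  exact mult_crit h hβ hs (by_contra fun hc => hcon ⟨y, hs, hc⟩)

omit [IsAlgClosed K] in
theorem unrP2_coeff (hβ : β.Ok) (b k : ℕ) : (β.N 1 b ^ 2 - β.D 1 b ^ 2).coeff k =
    β.σ ^ (b * 2) * ((-β.σ' / β.σ) ^ (b * 2 - k) * (b * 2).choose k) -
      ((if k = b * 2 then β.τ ^ 2 else 0) - (if k = b then 2 * β.τ * β.τ' else 0) +
        if k = 0 then β.τ' ^ 2 else 0) := by
  have e1 : β.N 1 b ^ 2 = C (β.σ ^ (b * 2)) * (X + C (-β.σ' / β.σ)) ^ (b * 2) := by
    rw [C_pow, ← mul_pow, mul_add, ← C_mul, mul_div_cancel₀ _ hβ.σ, C_neg, pow_mul]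
    simp [Side.N, Side.Up, sub_eq_add_neg]
  have e2 : β.D 1 b ^ 2 = C (β.τ ^ 2) * X ^ (b * 2) - C (2 * β.τ * β.τ') * X ^ b +
      C (β.τ' ^ 2) := by
    simp only [Side.D, Side.up, C_mul, C_pow, pow_mul, map_ofNat]
    simp
    ring
  rw [e1, e2, coeff_sub, coeff_C_mul, coeff_X_add_C_pow, coeff_add, coeff_sub, coeff_C_mul_X_pow,
    coeff_C_mul_X_pow, coeff_C]

omit [IsAlgClosed K] in
theorem unrP2_sh (h : Hab K 1 b) (hn : NoC 1 b β) {y : K} (hy : y ≠ 0)
    (h0 : (β.N 1 b ^ 2 - β.D 1 b ^ 2).eval y = 0) :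
    ∃ c, c ^ 2 = 1 ∧ Sh 1 b β c y ∧ (β.N 1 b + C c * β.D 1 b).eval y ≠ 0 := by
  have hb : b ≠ 0 := by
    have := h.lt
    omega
  have e1 : (β.N 1 b).eval y = β.U 1 y ^ b := by simp [Side.N, Side.Up, Side.U_self]
  have e2 : (β.D 1 b).eval y = β.u b y := by simp [Side.D, Side.up, Side.u_self]
  rw [eval_sub, eval_pow, eval_pow, e1, e2, sub_eq_zero] at h0
  have hu : β.u b y ≠ 0 := fun e => hn y hy e (by simpa [e, hb] using h0)
  have hU : β.U 1 y ≠ 0 := fun e => hu (by simpa [e, hb] using h0.symm)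
  have h2 : (2 : K) ≠ 0 := by simpa using h.ne 2 (by omega) (by omega)
  refine ⟨β.U 1 y ^ b / β.u b y, by rw [div_pow, h0, div_self (pow_ne_zero _ hu)],
    ⟨hy, hu, hU, by rw [zpow_one, div_mul_cancel₀ _ hu]⟩, ?_⟩
  rw [eval_add, eval_mul, eval_C, e1, e2, div_mul_cancel₀ _ hu, ← two_mul]
  exact mul_ne_zero h2 (pow_ne_zero _ hU)

/-- `N ^ 2 - D ^ 2 = X * Q`, `Q (0) ≠ 0`, `deg Q = 2 b - 2`. A root of `Q` is a unit point over
`1` or `-1`. If all are critical then `Q ∣ (X ^ d - g) ^ 2` (`dvd_sq`), `d = b - 1`, so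
`Q = k (X ^ d - g) ^ 2`. For `b ≥ 3` the coefficient of `X ^ 2` in `N ^ 2 - D ^ 2` is
`b (2 b - 1) σ ^ 2 σ' ^ (2 b - 2) ≠ 0`. For `b = 2` a critical point has `σ y = - σ'` and
`F (y) ^ 2 = 4`. -/
theorem unrP2 (h : Hab K 1 b) (hβ : β.Ok) (hn : NoC 1 b β) (h1 : (β.σ ^ b) ^ 2 = β.τ ^ 2)
    (h2 : (β.σ' ^ b) ^ 2 = β.τ' ^ 2) :
    ∃ c y0 : K, c ^ 2 = 1 ∧ Sh 1 b β c y0 ∧ ¬ Crit 1 b β y0 := by
  by_contra hc
  simp only [not_exists, not_and, not_not] at hc
  have hb : 2 ≤ b := by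
    have := h.lt
    omega
  have hr : -β.σ' / β.σ ≠ 0 := div_ne_zero (neg_ne_zero.2 hβ.σ') hβ.σ
  have hk : ∀ k, k ≠ 0 → k ≠ b → k ≠ b * 2 → (((b * 2).choose k : ℕ) : K) ≠ 0 →
      (β.N 1 b ^ 2 - β.D 1 b ^ 2).coeff k ≠ 0 := fun k k0 k1 k2 k3 => by
    rw [unrP2_coeff hβ, if_neg k0, if_neg k1, if_neg k2, sub_zero, add_zero, sub_zero]
    exact mul_ne_zero (pow_ne_zero _ hβ.σ) (mul_ne_zero (pow_ne_zero _ hr) k3)
  have n1 := h.ne (b * 2) (by omega) (by omega)
  have c1 := hk 1 (by omega) (by omega) (by omega) (by rwa [Nat.choose_one_right])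
  have cd := hk (b * 2 - 1) (by omega) (by omega) (by omega)
    (by rwa [Nat.choose_symm (by omega), Nat.choose_one_right])
  have c0 : (β.N 1 b ^ 2 - β.D 1 b ^ 2).coeff 0 = 0 := by
    rw [unrP2_coeff hβ, if_neg (by omega), if_neg (by omega), if_pos rfl, ← h2, Nat.sub_zero,
      Nat.choose_zero_right, Nat.cast_one, mul_one, ← mul_pow, mul_div_cancel₀ _ hβ.σ, ← pow_mul,
      (Even.mul_left even_two b).neg_pow]
    ring
  generalize hP : β.N 1 b ^ 2 - β.D 1 b ^ 2 = P at hk c1 cd c0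
  have P0 : P ≠ 0 := fun e => c1 (by rw [e, coeff_zero])
  obtain ⟨R, hR⟩ := dvd_sq (S := C (β.τ * β.σ') * X ^ b - C (β.σ * β.τ') * X) P0 fun y hy => by
    by_cases y0 : y = 0
    · subst y0
      refine ⟨by simp [show b ≠ 0 by omega], (rootMultiplicity_le_iff P0 _ _).2 fun e => c1 ?_⟩
      rw [C_0, sub_zero] at e
      exact X_pow_dvd_iff.1 e 1 (by omega)
    obtain ⟨c, e1, e2, e3⟩ := unrP2_sh h hn y0 (hP ▸ hy)
    have e4 := hc c y e1 e2
    have e5 : P = (β.N 1 b - C c * β.D 1 b) * (β.N 1 b + C c * β.D 1 b) := by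
      have : (C c : K[X]) ^ 2 = 1 := by rw [← C_pow, e1, C_1]
      linear_combination -hP + β.D 1 b ^ 2 * this
    refine ⟨by simpa [Crit, sub_eq_zero] using e4, ?_⟩
    rw [e5, rootMultiplicity_mul (e5 ▸ P0), mult_crit h hβ e2 e4, rootMultiplicity_eq_zero e3]
  have hS : (C (β.τ * β.σ') * X ^ b - C (β.σ * β.τ') * X) ^ 2 = C ((β.τ * β.σ') ^ 2) * X ^ (b * 2) -
      C (2 * (β.τ * β.σ') * (β.σ * β.τ')) * X ^ (b + 1) + C ((β.σ * β.τ') ^ 2) * X ^ 2 := by
    simp only [C_mul, C_pow, map_ofNat]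
    ring
  have s2 : (P * R).coeff 2 ≠ 0 := by
    rw [← hR, hS, coeff_add, coeff_sub, coeff_C_mul_X_pow, coeff_C_mul_X_pow, coeff_C_mul_X_pow,
      if_neg (by omega), if_neg (by omega), if_pos rfl, sub_zero, zero_add]
    exact pow_ne_zero _ (mul_ne_zero hβ.σ hβ.τ')
  have R0 : R ≠ 0 := fun e => s2 (by rw [e, mul_zero, coeff_zero])
  have hd : R.natDegree ≤ 1 := by
    have d1 := le_natDegree_of_ne_zero cd
    have d2 : (P * R).natDegree ≤ b * 2 := by
      rw [← hR, hS]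
      compute_degree!
      omega
    rw [natDegree_mul P0 R0] at d2
    omega
  have hm : ∀ n, (P * R).coeff (n + 1) = P.coeff n * R.coeff 1 + P.coeff (n + 1) * R.coeff 0 :=
    fun n => by
      conv_lhs => rw [eq_X_add_C_of_natDegree_le_one hd]
      rw [mul_add, ← mul_assoc, coeff_add, coeff_mul_X, coeff_mul_C, coeff_mul_C]
  have r0 : R.coeff 0 = 0 := by
    have e := hm 0
    rw [← hR, hS, coeff_add, coeff_sub, coeff_C_mul_X_pow, coeff_C_mul_X_pow, coeff_C_mul_X_pow,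
      if_neg (by omega), if_neg (by omega), if_neg (by omega), c0] at e
    exact (mul_eq_zero.1 (by linear_combination -e)).resolve_left c1
  have r1 : R.coeff 1 ≠ 0 := fun e => s2 (by rw [hm 1, r0, e]; ring)
  rcases hb.eq_or_lt with rfl | hb3
  · obtain ⟨y, hy⟩ : ∃ y, β.τ * β.σ' * y = β.σ * β.τ' :=
      ⟨_, mul_div_cancel₀ _ (mul_ne_zero hβ.τ hβ.σ')⟩
    have y0 : y ≠ 0 := fun e => mul_ne_zero hβ.σ hβ.τ' (by rw [← hy, e, mul_zero])
    have e := congrArg (eval y) hR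
    rw [eq_X_add_C_of_natDegree_le_one hd, r0] at e
    simp only [eval_pow, eval_sub, eval_mul, eval_C, eval_X, eval_add, add_zero] at e
    have e0 : P.eval y = 0 := (mul_eq_zero.1 (by
      rw [← e, ← hy]
      ring)).resolve_right (mul_ne_zero r1 y0)
    obtain ⟨c, e1, ⟨-, -, e2, e3⟩, -⟩ := unrP2_sh h hn y0 (hP ▸ e0)
    rw [Side.U_self, zpow_one] at e2
    rw [Side.U_self, Side.u_self, zpow_one, zpow_one] at e3
    have e4 : c * β.τ' = β.σ' * (β.σ * y - β.σ') :=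
      mul_right_cancel₀ e2 (by linear_combination β.σ' * e3 - c * y * hy)
    have e5 : β.σ * y = 2 * β.σ' := by
      refine mul_left_cancel₀ (mul_ne_zero (pow_ne_zero 2 hβ.σ') (mul_ne_zero hβ.σ y0)) ?_
      linear_combination -h2 + β.τ' ^ 2 * e1 - (c * β.τ' + β.σ' * (β.σ * y - β.σ')) * e4
    have e6 : 2 * β.τ * β.σ' ^ 2 = β.σ ^ 2 * β.τ' := by
      linear_combination β.σ * hy - β.τ * β.σ' * e5
    refine mul_ne_zero (h.ne 3 (by omega) (by omega))
      (pow_ne_zero 2 (mul_ne_zero hβ.τ hβ.τ')) ?_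
    push_cast
    linear_combination (2 * β.τ * β.σ' ^ 2 + β.σ ^ 2 * β.τ') * e6 - 4 * β.τ ^ 2 * h2 +
      β.τ' ^ 2 * h1
  · have e := hm 2
    rw [← hR, hS, coeff_add, coeff_sub, coeff_C_mul_X_pow, coeff_C_mul_X_pow, coeff_C_mul_X_pow,
      if_neg (by omega), if_neg (by omega), if_neg (by omega), r0] at e
    refine mul_ne_zero (hk 2 (by omega) (by omega) (by omega) ?_) r1 (by linear_combination -e)
    rw [Nat.choose_two_right, mul_right_comm, Nat.mul_div_cancel _ two_pos, Nat.cast_mul]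
    exact mul_ne_zero (h.ne _ (by omega) (by omega)) (h.ne _ (by omega) (by omega))

omit [IsAlgClosed K] in
theorem unrN_aux {m : ℕ} (hm : 0 < m) (hb : 2 ≤ b) (h2 : ((b + 2 : ℕ) : K) ≠ 0)
    (t : K) : ¬ ((1 - X ^ m) ^ b * (X ^ b - 1) ^ m - C t * X ^ (m * b) : K[X]) ∣
      (∑ i ∈ Finset.range (b + m), X ^ i) ^ 2 := by
  rintro ⟨c, hc⟩
  have d1 : ∀ n : ℕ, (X ^ n - 1 : K[X]).natDegree = n := fun n => natDegree_X_pow_sub_C (r := 1)
  have n1 : ∀ n : ℕ, 0 < n → (X ^ n - 1 : K[X]) ≠ 0 := fun n hn => X_pow_sub_C_ne_zero hn 1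
  have e : ((X ^ (b + m) - 1) ^ 2 : K[X]) =
      ((1 - X ^ m) ^ b * (X ^ b - 1) ^ m - C t * X ^ (m * b)) * c * (X ^ 1 - 1) ^ 2 := by
    rw [← hc, ← mul_pow, pow_one, geom_sum_mul]
  have dN : ((1 - X ^ m) ^ b * (X ^ b - 1) ^ m : K[X]).natDegree = b * m + m * b := by
    rw [← neg_sub, natDegree_mul (pow_ne_zero _ (neg_ne_zero.2 (n1 m hm)))
      (pow_ne_zero _ (n1 b (by omega))), natDegree_pow, natDegree_pow, natDegree_neg, d1, d1]
  have dQ : ((1 - X ^ m) ^ b * (X ^ b - 1) ^ m - C t * X ^ (m * b) : K[X]).natDegree =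
      b * m + m * b := by
    rw [natDegree_sub_eq_left_of_natDegree_lt, dN]
    rw [dN]
    exact (natDegree_C_mul_X_pow_le t _).trans_lt (Nat.lt_add_of_pos_left (by positivity))
  have h0 := pow_ne_zero 2 (n1 (b + m) (by omega))
  rw [e] at h0
  have h1 := congrArg natDegree e
  rw [natDegree_mul (left_ne_zero_of_mul h0) (right_ne_zero_of_mul h0),
    natDegree_mul (left_ne_zero_of_mul (left_ne_zero_of_mul h0))
      (right_ne_zero_of_mul (left_ne_zero_of_mul h0)), natDegree_pow, natDegree_pow, d1, d1,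
    dQ] at h1
  obtain rfl : m = 1 := by
    by_contra h
    obtain ⟨m, rfl⟩ : ∃ n, m = n + 2 := ⟨m - 2, by omega⟩
    obtain ⟨b, rfl⟩ : ∃ n, b = n + 2 := ⟨b - 2, by omega⟩
    nlinarith [Nat.zero_le (m * b), Nat.zero_le c.natDegree]
  obtain ⟨k, rfl⟩ := natDegree_eq_zero.1 (show c.natDegree = 0 by omega)
  obtain ⟨b, rfl⟩ : ∃ n, b = n + 2 := ⟨b - 2, by omega⟩
  have v0 := congrArg (eval 0) e
  have v1 := congrArg (fun q => eval 0 (derivative q)) e
  simp [derivative_pow] at v0 v1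
  apply h2
  push_cast
  linear_combination ((b : K) + 4) * v0 + v1

/-- `t0 = F (-1)`. `Q = N - t0 D` has degree `2 |a| b`, all roots are unit points. If all are
critical, `2 |a| b ≤ 2 (d - 1)` forces `a = -1`, and `Q ∣ S ^ 2` with `S = 1 + X + ... + X ^ b`,
so `Q = - S ^ 2`; the coefficient of `X` gives `b = -2`. -/
theorem unrN (h : Hab K a b) (ha : a < 0) (hd : Even (dd a b)) (hb : 2 ≤ b) :
    ∃ t0 y0 : K, Sh a b (std : Side K) t0 (-1) ∧ Sh a b (std : Side K) t0 y0 ∧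
      ¬ Crit a b std y0 := by
  obtain ⟨oa, ob⟩ := h.odd hd
  obtain ⟨m, rfl⟩ : ∃ m : ℕ, a = -m := ⟨a.natAbs, by omega⟩
  have hm : 0 < m := by omega
  have n2 : (-1 - 1 : K) ≠ 0 := fun e => h.two (by linear_combination -e)
  have hu : (std : Side K).u b (-1 : K) = -1 - 1 := by
    rw [Side.u_self, ob.neg_one_pow]
    exact congrArg (· - 1) (one_mul _)
  have hU : (std : Side K).U (-m) (-1 : K) = -1 - 1 := by
    rw [Side.U_self, oa.neg_one_zpow]
    exact congrArg (· - 1) (one_mul _)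
  obtain ⟨t, ht⟩ : ∃ t : K, Sh (-m) b (std : Side K) t (-1) :=
    ⟨(-1 - 1) ^ b / (-1 - 1) ^ (-m : ℤ), neg_ne_zero.2 one_ne_zero, hu ▸ n2, hU ▸ n2, by
      rw [hu, hU, div_mul_cancel₀ _ (zpow_ne_zero _ n2)]⟩
  by_contra hn
  have hD : (std : Side K).D (-m) b = X ^ (m * b) := by simp [Side.D]
  have hN : (std : Side K).N (-m) b = (1 - X ^ m) ^ b * (X ^ b - 1) ^ m := by
    simp [Side.N, Side.Up, Side.up, std]
  have hdd : dd (-m) b = b + m := by
    have := h.dd_eq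
    omega
  have hQ := ND_ne (L := K) h std_ok t
  rw [Algebra.algebraMap_self, map_id, map_id] at hQ
  refine unrN_aux hm hb (h.ne _ (by omega) (by omega)) t ?_
  rw [← hN, ← hD]
  refine dvd_sq hQ fun y hy => ?_
  rw [eval_sub, eval_mul, eval_C, sub_eq_zero] at hy
  have y0 : y ≠ 0 := by
    rintro rfl
    rw [hN, hD] at hy
    simp [hm.ne', h.b0.ne'] at hy
  have yD : eval y ((std : Side K).D (-m) b) ≠ 0 := by
    rw [hD, eval_pow, eval_X]
    exact pow_ne_zero _ y0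
  have hs : Sh (-m) b (std : Side K) t y :=
    (sh_iff h).2 ⟨y0, yD, fun e => mul_ne_zero ht.t_ne yD (hy.symm.trans e), hy.symm⟩
  have hc : Crit (-m) b std y := not_not.1 fun e => hn ⟨t, y, ht, hs, e⟩
  refine ⟨?_, (mult_crit h std_ok hs hc).le⟩
  have y1 : y - 1 ≠ 0 := fun e => hs.2.1 (by
    rw [sub_eq_zero.1 e, Side.u_self, one_pow]
    exact (congrArg (· - 1) (one_mul _)).trans (sub_self _))
  have h3 := geom_sum_mul y (b + m)
  rw [← hdd, (std_crit h y0).1 hc, sub_self, hdd] at h3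
  simpa [eval_finsetSum] using (mul_eq_zero.1 h3).resolve_right y1

omit [IsAlgClosed K] in
theorem unrN1 (h : Hab K (-1) 1) (hβ : β.Ok)
    (hne : (β.σ * β.τ + β.σ' * β.τ' - 4) ^ 2 ≠ 4 * (β.σ * β.τ) * (β.σ' * β.τ')) :
    Sh (-1) 1 (std : Side K) (4 : K) (-1) ∧
      ∀ y0 : K, Sh (-1) 1 β (4 : K) y0 → ¬ Crit (-1) 1 β y0 := by
  have h2 := h.two
  have e1 : (std : Side K).u 1 (-1 : K) = -2 := by
    rw [Side.u_self]; simp only [std]; ring
  have e2 : (std : Side K).U (-1) (-1 : K) = -2 := by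
    rw [Side.U_self]; simp only [std, zpow_neg, zpow_one, inv_neg, inv_one]; ring
  refine ⟨⟨by simp, by rw [e1]; exact neg_ne_zero.2 h2, by rw [e2]; exact neg_ne_zero.2 h2, ?_⟩,
    fun y ⟨hy, hu, _, he⟩ hc => hne ?_⟩
  · rw [e1, e2, zpow_neg, zpow_one, pow_one]
    field_simp
    ring
  · rw [zpow_neg, zpow_one, pow_one, mul_inv_eq_iff_eq_mul₀ hu, Side.U_self, Side.u_self,
      zpow_neg, zpow_one, pow_one] at he
    rw [Crit, zpow_neg, zpow_one, pow_one] at hc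
    have hi : y * y⁻¹ = 1 := mul_inv_cancel₀ hy
    have e3 : β.σ * β.τ + β.σ' * β.τ' - 4 = 2 * (β.τ * β.σ' * y) := by
      rw [he]; linear_combination -hc - β.σ * β.τ * hi
    rw [e3]
    linear_combination 4 * (β.τ * β.σ' * y) * hc + 4 * β.σ * β.τ * β.σ' * β.τ' * hi

end Pool.Agent.NW
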