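import Pool.Agent.Lib.MP_d40963_nt.W.Vec
import Pool.Agent.Lib.MP_d40963_nt.W.Mon
import Pool.Agent.Lib.MP_d40963_nt.W.Unr

/-! The geometric cases with `a < 0`. -/

namespace Pool.Agent.NW

variable {p : ℕ} {K L : Type} [Field K] [IsAlgClosed K] [Field L] [Algebra K L] {a : ℤ}
  {b e : ℕ} {β : Side K} {t X Y : L}

/-- At a place above `t0 = F (-1)`: `-1` is critical (`std_crit`), a sheet `Y` near `-1` is inverted
by `g` (`tU2`, `Cel.flip` with `δ = i = 1`); `flip_loc`. -/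
theorem flip_neg (h : GE a b e p β t) (hd : Even (dd a b)) {t0 y0 : K}
    (h1 : Sh a b (std : Side K) t0 (-1)) (hy : Sh a b β t0 y0) (hc : ¬ Crit a b β y0) :
    ∃ l : Loc K (t - algebraMap K L t0), ∃ X ∈ Nr l.P (Sh a b β t) y0,
      ∃ Y ∈ Nr l.P (Sh a b (std : Side K) t) (-1), Flip e t X Y (-1 : K) := by
  obtain ⟨l⟩ := h.locc t0
  have hn : (-1 : K) ≠ 0 := neg_ne_zero.2 one_ne_zero
  have cel : Cel l.P (Sh a b (std : Side K) t) (-1) (2 * 1) l.N :=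
    Tab.cel (tU2 h.hab std_ok h.s1 l.ap l.pos one_ne_zero h1
      ((std_crit h.hab hn).2 hd.neg_one_pow) rfl)
  obtain ⟨Y, hY⟩ := cel.ex
  obtain ⟨⟨X, hX⟩, hg⟩ := cycU h.hab h.ok h.sβ l hy
  refine ⟨l, X, hX, Y, hY, flip_loc h.epos l l.memc (j := 1 * 1) hX.2 hy.1 ?_ hY.2 hn
    (Cel.flip l cel (fun Y => Sh.map l.memc (mem_Gx.1 l.memc).2) neg_one_sq odd_one hY
      (hY.1.inv_std h.hab hd))⟩
  rw [mul_one, pow_one]
  exact (hg X hX).2 hc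

omit [IsAlgClosed K] in
theorem gNE_Q {P : Pl K L} {x y : K} (hX : X ∈ Nr P (Sh a b (std : Side K) t) x)
    (hY : Y ∈ Nr P (Sh a b (std : Side K) t) y) (h1 : Y = X → y ≠ x) (h2 : x * y ≠ 1) :
    Q2 K a b t X Y :=
  ⟨hX.1, hY.1, fun e => h1 e (P.uniq hY.2 (e ▸ hX.2)), fun e => h2 (P.uniq (n := 0 + 0)
    (P.mul hX.2 hY.2) (e ▸ Pl.one))⟩

/-- `asmN` with `Q2` (`monN`). `h0`: `X` near `α`, `α ^ b = 1`, `α ≠ 1`. `h1`: `X` near `0`, then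
`Y1 ≠ X` near `0` and `Y2 ≠ X⁻¹` in `NrI` (cycles of length `|a| b ≥ 2`), `vN`. `h2`: `std_flip` and
`flip_loc` give `Flip 1` for the pair of `h0`, `unrN` and `flip_neg` give `Flip (-1)`;
`Flip.conj`, `par_of_flip`. -/
theorem gNE (h : GE a b e p (std : Side K) t) (ha : a < 0) (hd : Even (dd a b)) (hb : 2 ≤ b) :
    Goal a b e p (std : Side K) t := by
  have hQ := monN h ha hd hb
  obtain ⟨l, -⟩ := h.loc0
  have : NeZero (b : K) := ⟨h.hab.bK⟩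
  have : NeZero b := ⟨h.hab.b0.ne'⟩
  obtain ⟨α, hα⟩ := HasEnoughRootsOfUnity.exists_primitiveRoot K b
  have h0 : α ≠ 0 := hα.ne_zero h.hab.b0.ne'
  have h1 : α ≠ 1 := hα.ne_one hb
  have hu : (std : Side K).u b α = 0 := by simp [Side.u_self, std, hα.pow_eq_one]
  have hU : (std : Side K).U a α ≠ 0 := fun e => h1 (std_common h.hab h0 hu e)
  obtain ⟨X, hX⟩ := (cycZ' h.hab std_ok h.s1 l ha h0 hu hU).fin.2
  obtain ⟨Y, hY⟩ := (cycD h.hab h.s1 l).2.fin.2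
  have q := gNE_Q hX hY (fun _ => h1.symm) (by rwa [mul_one])
  refine asmN h hQ ?_ ?_ fun _ => ?_
  · obtain ⟨ω, hω⟩ := pair0 h l hX h0 (Or.inr ⟨ha, hu, hU⟩) hY
    exact ⟨X, Y, ω, q, pair_nt h l hX h0 (Or.inr ⟨ha, hu, hU⟩) hY, hω⟩
  · obtain ⟨l'⟩ := h.locI
    obtain ⟨-, c1, -, c2⟩ := cycOI h.hab std_ok h.s1 ha l'
    have h2 : 1 < a.natAbs * b := lt_of_lt_of_le hb (Nat.le_mul_of_pos_left _ (by omega))
    obtain ⟨X', hX'⟩ := c1.fin.2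
    obtain ⟨Y1, hY1, e1⟩ := Set.exists_ne_of_one_lt_ncard (c1.card ▸ h2) X'
    obtain ⟨Y2, hY2, e2⟩ := Set.exists_ne_of_one_lt_ncard (c2.card ▸ h2) X'⁻¹
    obtain ⟨ω, hω⟩ := vN h ha l' hX' hY1 hY2
    refine ⟨X', Y1, Y2, ω, gNE_Q hX' hY1 (fun e => absurd e e1) (by simp),
      ⟨hX'.1, hY2.1, fun e => ?_, fun e => e2 (eq_inv_of_mul_eq_one_right e)⟩, hω⟩
    have h3 := l'.P.mul hX'.2 (e ▸ hY2.2)
    rw [mul_inv_cancel₀ hX'.1.1, mul_zero] at h3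
    exact zero_ne_one (l'.P.uniq (n := 0 + 0) h3 Pl.one)
  · obtain ⟨δ, hδ⟩ := hd
    obtain ⟨f1, f2⟩ := std_flip h (hδ.trans (two_mul δ).symm) l
    have F1 : Flip e t X Y (1 : K) := flip_loc h.epos l l.mem hX.2 h0
      (f1 X hX.1 fun e => h1 (l.P.uniq hX.2 e.2)) hY.2 one_ne_zero (f2 Y hY)
    obtain ⟨t0, y0, s1, s2, hc⟩ := unrN h.hab ha ⟨δ, hδ⟩ hb
    obtain ⟨l2, X2, hX2, Y2, hY2, F2⟩ := flip_neg h ⟨δ, hδ⟩ s1 s2 hc
    have hy : y0 ≠ -1 := fun e => hc (e ▸ (std_crit h.hab (neg_ne_zero.2 one_ne_zero)).2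
      (Even.neg_one_pow ⟨δ, hδ⟩))
    have q2 := gNE_Q hX2 hY2 (fun _ => hy.symm) fun e => hy (by linear_combination -e)
    obtain ⟨g, hg, rfl, rfl⟩ := hQ.tr X Y X2 Y2 q q2
    exact ⟨_, _, q2, par_of_flip (F1.conj hg) F2⟩

/-- `g ^ (|a| b)` fixes all sheets of `β` and their roots (`per0`, `unit_loc`) -/
theorem fix_all (h : GE a b e p β t) (hn : NoC a b β) (l : Loc K t) {x : L}
    (hx : Sh a b β t (x ^ e)) : (l.g ^ (a.natAbs * b)) x = x := by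
  obtain ⟨y0, h0, h1, h2⟩ := per0 h.hab h.ok h.sβ l hx
  refine unit_loc l h.epos ?_ h1 h0
  rcases h2 with h2 | h2 | h2
  · exact absurd h2.2 (hn y0 h0 h2.1)
  · exact h2.2.fix (dvd_mul_left _ _)
  · exact h2.2.2.fix (dvd_mul_right _ _)

omit [IsAlgClosed K] in
/-- all pairs form one orbit if the elements that fix all sheets of `β` are transitive -/
theorem prs_all (h : GE a b e p β t) (ht : ∀ Y Y', Sh a b (std : Side K) t Y →
    Sh a b (std : Side K) t Y' → ∃ n ∈ Gx K t, (∀ X, Sh a b β t X → n X = X) ∧ n Y = Y') :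
    Prs a b p β t fun X Y => Sh a b β t X ∧ Sh a b (std : Side K) t Y := by
  refine ⟨fun _ _ hQ => hQ, fun X Y X' Y' hQ hQ' => ?_, fun ψ hψ X Y hQ =>
    ⟨hQ.1.fr hψ hψ.2 h.rt, hQ.2.fr hψ hψ.2 (std_rt p)⟩⟩
  obtain ⟨g, hg, e1⟩ := trn_sh h.hab h.cov β X hQ.1 X' hQ'.1
  obtain ⟨n, hn, e2, e3⟩ := ht _ Y' (hQ.2.map hg hg.2) hQ'.2
  exact ⟨n * g, mul_mem hn hg, by rw [aut_mul, e1, e2 X' hQ'.1], e3⟩

/-- `h0` and `h1` of `asmN` for all pairs: `X` near a zero of `u` (`cycZ'`), `pair_nt`, `pair0`;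
`cycOI`, `vN` -/
theorem gN_all (h : GE a b e p β t) (ha : a < 0) (hn : NoC a b β)
    (hQ : Prs a b p β t fun X Y => Sh a b β t X ∧ Sh a b (std : Side K) t Y)
    (h2 : Even e → ∃ X Y, (Sh a b β t X ∧ Sh a b (std : Side K) t Y) ∧ Par K e t X Y) :
    Goal a b e p β t := by
  refine asmN h hQ ?_ ?_ h2
  · obtain ⟨l, -⟩ := h.loc0
    obtain ⟨α, hα⟩ := IsAlgClosed.exists_pow_nat_eq (β.τ' / β.τ) h.hab.b0
    have h0 : α ≠ 0 := by
      rintro rfl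
      rw [zero_pow h.hab.b0.ne'] at hα
      exact div_ne_zero h.ok.τ' h.ok.τ hα.symm
    have hu : β.u b α = 0 := by rw [Side.u_self, hα, mul_div_cancel₀ _ h.ok.τ, sub_self]
    obtain ⟨X, hX⟩ := (cycZ' h.hab h.ok h.sβ l ha h0 hu (hn α h0 hu)).fin.2
    obtain ⟨Y, hY⟩ := (cycD h.hab h.s1 l).2.fin.2
    obtain ⟨ω, h3, h4⟩ := pair0 h l hX h0 (.inr ⟨ha, hu, hn α h0 hu⟩) hY
    exact ⟨X, Y, ω, ⟨hX.1, hY.1⟩, pair_nt h l hX h0 (.inr ⟨ha, hu, hn α h0 hu⟩) hY, h3, h4⟩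
  · obtain ⟨l⟩ := h.locI
    obtain ⟨X, hX⟩ := (cycOI h.hab h.ok h.sβ ha l).2.1.fin.2
    obtain ⟨Y1, h3⟩ := (cycOI h.hab std_ok h.s1 ha l).2.1.fin.2
    obtain ⟨Y2, h4⟩ := (cycOI h.hab std_ok h.s1 ha l).2.2.2.fin.2
    obtain ⟨ω, h5⟩ := vN h ha l hX h3 h4
    exact ⟨X, Y1, Y2, ω, ⟨hX.1, h3.1⟩, ⟨hX.1, h4.1⟩, h5⟩

/-- All standard sheets are near `1` at a place above `0` and form a cycle of length two, `g` fixes
the sheets of `β` (`fix_all`): `prs_all`, `Flip 1` by `Cel.flip`, `flip_loc`. `Flip (-1)`: take any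
sheet of `β`, its residue `y0` at a place above `4` (`cls`), `unrN1`, `flip_neg`. -/
theorem gN1 (h : GE (-1) 1 e p β t) (hn : NoC (-1) 1 β)
    (hne : (β.σ * β.τ + β.σ' * β.τ' - 4) ^ 2 ≠ 4 * (β.σ * β.τ) * (β.σ' * β.τ')) :
    Goal (-1) 1 e p β t := by
  obtain ⟨l, -⟩ := h.loc0
  have hd : dd (-1) 1 = 2 * 1 := rfl
  have h1 : ∀ Y, Sh (-1) 1 (std : Side K) t Y → Y ∈ Nr l.P (Sh (-1) 1 (std : Side K) t) 1 :=
    fun Y hY => by
      by_contra hn'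
      obtain ⟨y0, -, e1, -, e2 | e2⟩ := std_per h l hY hn'
      · exact e1 (by simpa using e2.1)
      · exact e1 (by simpa using e2.2.1)
  have h2 : ∀ (j : ℕ) X, Sh (-1) 1 β t X → (l.g ^ j) X = X := fun j X hX => by
    obtain ⟨x, rfl⟩ := h.root X hX
    have e1 : l.g x = x := by simpa using fix_all h hn l hX
    induction j with
    | zero => rfl
    | succ j ih => rw [pow_succ, aut_mul, map_pow, e1, ih]
  refine gN_all h (by norm_num) hn (prs_all h fun Y Y' hY hY' => ?_) fun _ => ?_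
  · obtain ⟨j, hj⟩ := (cycD h.hab h.s1 l).2.orb Y (h1 Y hY) Y' (h1 Y' hY')
    exact ⟨_, pow_mem l.mem j, h2 j, hj⟩
  · obtain ⟨x, hx⟩ := h.exX
    obtain ⟨l4⟩ := h.locc 4
    obtain ⟨u1, u2⟩ := unrN1 h.hab h.ok hne
    obtain ⟨y0, hy, -⟩ | ⟨e1, -⟩ | ⟨e1, -⟩ := cls h.hab h.ok l4.apc u1.t_ne hx
    · obtain ⟨l', X, hX, Y, hY, hF⟩ := flip_neg h ⟨1, rfl⟩ u1 hy (u2 y0 hy)
      obtain ⟨α, h0, h3, -⟩ := per0 h.hab h.ok h.sβ l hX.1
      exact ⟨X, Y, ⟨hX.1, hY.1⟩, par_of_flip (flip_loc h.epos l l.mem h3 h0 (h2 _ X hX.1)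
        (h1 Y hY.1).2 one_ne_zero ((std_flip h hd l).2 Y (h1 Y hY.1))) hF⟩
    · exact absurd e1 (by norm_num)
    · exact absurd e1 (by norm_num)

variable (a b e β t) in
/-- the elements that fix all roots of the sheets of `β` -/
def gNO_N : Subgroup (RingAut L) where
  carrier := {g | g ∈ Gx K t ∧ ∀ x, Sh a b β t (x ^ e) → g x = x}
  one_mem' := ⟨one_mem _, fun _ _ => rfl⟩
  mul_mem' := fun {g _} hg hh => ⟨mul_mem hg.1 hh.1, fun x hx =>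
    (congrArg g (hh.2 x hx)).trans (hg.2 x hx)⟩
  inv_mem' := fun {g} hg => ⟨inv_mem hg.1, fun x hx =>
    (congrArg _ (hg.2 x hx).symm).trans (Blk.image_l g x)⟩

omit [IsAlgClosed K] in
theorem gNO_normal {g : RingAut L} (hg : g ∈ Gx K t) :
    ∀ n ∈ gNO_N a b e β t, g * n * g⁻¹ ∈ gNO_N a b e β t := fun n hn =>
  ⟨mul_mem (mul_mem hg hn.1) (inv_mem hg), fun x hx => by
    have h1 := hx.map (inv_mem hg) (inv_mem hg).2
    rw [map_pow] at h1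
    rw [aut_mul, aut_mul, hn.2 _ h1, Blk.image_r]⟩

theorem gNO_trn (h : GE a b e p β t) (ha : a < 0) (hd : Odd (dd a b)) (hn : NoC a b β) :
    Trn (gNO_N a b e β t) {Y | Sh a b (std : Side K) t Y} := by
  obtain ⟨l, -⟩ := h.loc0
  have hc := (cycD h.hab h.s1 l).2
  obtain ⟨Y, hY⟩ := hc.fin.2
  have h0 := Nat.mul_pos (Int.natAbs_pos.2 h.hab.a0) h.hab.b0
  refine normal_trn (Set.finite_of_ncard_pos (by rw [cardN h ha]; omega)) (stb_sh _ t)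
    (primO h ha hd) (fun g hg => hg.1) (fun g hg => gNO_normal hg)
    (g := l.g ^ (a.natAbs * b)) ⟨pow_mem l.mem _, fun x hx => fix_all h hn l hx⟩ hY.1 fun e => ?_
  have h1 := (Nat.Coprime.mul_left h.hab.cop_ad h.hab.cop_bd).symm.eq_one_of_dvd
    ((hc.per Y hY _).1 e)
  have h2 := h.hab.dd_eq
  have h3 := h.hab.b0
  omega

/-- Let `N` be the subgroup of the `g ∈ Gx K t` that fix all `x` with `Sh β t (x ^ e)`. It is normal
and contains `g ^ (|a| b)` (`fix_all`), which moves a sheet near `1` (`cycD`); `primO`,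
`normal_trn`, `prs_all`. Parity: at a place above infinity take `Y` near `0`,
`w = (y / z) ^ (e / 2)`, `g' = g ^ (|a| b / 2)` (`Hab.even`); `root_loc`, `prim_loc` with exponent
two give `g' (g' w) = -w`; `g' Y = n Y` with `n ∈ N` gives `n w = ± g' w`; `par_sq`. -/
theorem gNO (h : GE a b e p β t) (ha : a < 0) (hd : Odd (dd a b)) (hn : NoC a b β) :
    Goal a b e p β t := by
  have ht := gNO_trn h ha hd hn
  refine gN_all h ha hn (prs_all h fun Y Y' hY hY' => ?_) fun _ => ?_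
  · obtain ⟨n, h1, h2⟩ := ht Y hY Y' hY'
    refine ⟨n, h1.1, fun X hX => ?_, h2⟩
    obtain ⟨x, rfl⟩ := h.root X hX
    rw [map_pow, h1.2 x hX]
  obtain ⟨x0, hX⟩ := h.exX
  obtain ⟨l⟩ := h.locI
  obtain ⟨c0, c1, -⟩ := cycOI h.hab std_ok h.s1 ha l
  obtain ⟨Y, hY⟩ := c1.fin.2
  refine ⟨_, Y, ⟨hX, hY.1⟩, fun x η hx hη => ?_⟩
  obtain ⟨m, c, -, hc, hm, h1⟩ := c0.ord hY
  obtain ⟨k, hk⟩ := h.hab.even hd
  have hg : l.g ^ k ∈ Gx K t := pow_mem l.memI k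
  subst hη
  rw [map_zero, sub_zero] at h1
  obtain ⟨n', h2, h3⟩ := root_loc l two_pos ((c1.per _ hY).fix dvd_rfl) h1 hc
  rw [(prim_loc l (e := 2) (by rw [mul_assoc, mul_comm n', h2, ← hm]; norm_cast)
    ).eq_neg_one_of_two_right, hk, pow_add, aut_mul, map_neg, map_one, neg_one_mul] at h3
  obtain ⟨n, h4, h5⟩ := ht _ hY.1 _ (stb_sh _ t _ hg _ hY.1)
  rw [map_pow, map_pow] at h5
  obtain ⟨n, h6, h7⟩ := par_sq (gNO_normal hg) ⟨n, h4, sq_eq_sq_iff_eq_or_eq_neg.1 h5⟩ h3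
  exact ⟨n, h6.1, h6.2 x (hx ▸ hX), h7⟩

end Pool.Agent.NW
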