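import Pool.Agent.Lib.MP_d40963_nt.W.Vec
import Pool.Agent.Lib.MP_d40963_nt.W.Mon
import Pool.Agent.Lib.MP_d40963_nt.W.Unr

/-! The geometric cases with `a > 0`. -/

namespace Pool.Agent.NW

variable {p : ℕ} {K L : Type} [Field K] [IsAlgClosed K] [Field L] [Algebra K L] {a : ℤ}
  {b e : ℕ} {β : Side K} {t X Y : L}

/-- `asmP` with `Q2` (`monP_odd`, `monP_even`). `h0`: `X` near `α`, `α ^ a = 1`, `α ≠ 1`, `Y` near
`1` (`pair_nt`, `pair0`; compare residues for `Y ≠ X`, `X Y ≠ 1`). At a place above `1` take `X1`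
near the point of `unrP1` (`cycU`), `Y1 ∈ NrI` (`cycI`): `vI` for `(X1, Y1)`, and `vX0`, `lv_gen`
for `(Y1, X1)`. -/
theorem gP1 (h : GE a b e p (std : Side K) t) (ha : 3 ≤ a) (ho : Odd a) :
    Goal a b e p (std : Side K) t := by
  have a0 : 0 < a := by omega
  have hQ : Prs a b p (std : Side K) t (Q2 K a b t) :=
    (Nat.even_or_odd (dd a b)).elim (monP_even h ha) (monP_odd h ha ho)
  obtain ⟨l1⟩ := h.locc 1
  obtain ⟨y0, hy, hc⟩ := unrP1 h.hab ha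
  obtain ⟨⟨X1, hX1⟩, hU⟩ := cycU h.hab std_ok h.s1 l1 hy
  obtain ⟨⟨m, κ, hm, tab⟩, cy⟩ := cycI h.hab std_ok h.s1 a0 l1 std_flip_v0.symm
  obtain ⟨Y1, hY1⟩ := cy.fin.2
  have fX : (l1.g ^ a.natAbs) X1 = X1 :=
    pow_mem_aux (S := {X1}) (fun w hw => by rw [hw]; exact (hU X1 hX1).2 hc) rfl _
  have fY : (l1.g ^ a.natAbs) Y1 = Y1 := (cy.per Y1 hY1).fix dvd_rfl
  have n1 : Y1 ≠ X1 := by
    rintro rfl
    have := l1.P.mul hX1.2 hY1.2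
    rw [mul_inv_cancel₀ hX1.1.1, add_zero, mul_zero] at this
    exact zero_ne_one (l1.P.uniq this Pl.one)
  have n2 : X1 * Y1 ≠ 1 := fun e => by
    have := hY1.2
    rw [← eq_inv_of_mul_eq_one_left e] at this
    exact hy.1 (l1.P.uniq hX1.2 this)
  refine asmP h hQ ?_ ?_ ?_
  · obtain ⟨l, -⟩ := h.loc0
    have : NeZero (a.natAbs : K) := ⟨h.hab.aK'⟩
    obtain ⟨α, hα⟩ := HasEnoughRootsOfUnity.exists_primitiveRoot K a.natAbs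
    have α1 : α ≠ 1 := hα.ne_one (by omega)
    have α0 : α ≠ 0 := hα.ne_zero (by omega)
    have hU : (std : Side K).U a α = 0 := by
      have e1 : a = (a.natAbs : ℤ) := by omega
      rw [Side.U_self, e1, zpow_natCast, hα.pow_eq_one]
      exact (congrArg (· - (1 : K)) (one_mul 1)).trans (sub_self 1)
    have hu : (std : Side K).u b α ≠ 0 := fun e => α1 (std_common h.hab α0 e hU)
    obtain ⟨X, hX⟩ := (cycZ h.hab std_ok h.s1 l α0 hu hU).fin.2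
    obtain ⟨Y, hY⟩ := (cycD h.hab h.s1 l).2.fin.2
    obtain ⟨ω, p1, v⟩ := pair0 h l hX α0 (Or.inl ⟨hu, hU⟩) hY
    refine ⟨X, Y, ω, ⟨hX.1, hY.1, ?_, fun e => ?_⟩, pair_nt h l hX α0 (Or.inl ⟨hu, hU⟩) hY, p1, v⟩
    · rintro rfl
      exact α1 (l.P.uniq hX.2 hY.2)
    · have := l.P.mul hX.2 hY.2
      rw [e, add_zero, mul_one] at this
      exact α1 (l.P.uniq this Pl.one)
  · obtain ⟨ω, p1, v⟩ := vI h a0 l1 hX1 hy.1 fX hY1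
    exact ⟨X1, Y1, ω, ⟨hX1.1, hY1.1, n1, n2⟩, p1, v⟩
  · obtain ⟨c, c1, c2⟩ := tab.ap Y1⁻¹ (by rw [inv_inv]; exact hY1.1) hY1.2
    have c0 : c ≠ 0 := by
      rintro rfl
      rw [zero_pow (by omega)] at c2
      exact tab.κ0 c2.symm
    rw [map_zero, sub_zero] at c1
    have c3 := Pl.inv c1 c0
    rw [inv_inv] at c3
    obtain ⟨x, ω, hx, p1, e1⟩ := vX0 h l1 hY1.1 fY c3 (inv_ne_zero c0) (by
      rw [Int.natAbs_mul, Int.natAbs_neg, Int.natAbs_natCast, Int.natAbs_natCast, hm])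
    obtain ⟨l, m', q1, q2, v⟩ := lv_gen h hY1.1 hX1.1 (pow_mem l1.memc _) hx e1 fY fX
    exact ⟨Y1, X1, ω, l, m', ⟨hY1.1, hX1.1, n1.symm, by rwa [mul_comm]⟩, p1, q1, q2, v⟩

omit [IsAlgClosed K] in
/-- the orbit of a pair that is fixed by one Frobenius element -/
theorem prs_orb [Fact p.Prime] [CharP K p] (hX : Sh a b β t X) (hY : Sh a b (std : Side K) t Y)
    {ψ : RingAut L}
    (hψ : ψ ∈ Fr p K t) (e1 : ψ X = X) (e2 : ψ Y = Y) :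
    Prs a b p β t fun X' Y' => ∃ g ∈ Gx K t, g X = X' ∧ g Y = Y' := by
  refine ⟨?_, ?_, ?_⟩
  · rintro _ _ ⟨g, hg, rfl, rfl⟩
    exact ⟨hX.map hg hg.2, hY.map hg hg.2⟩
  · rintro _ _ _ _ ⟨g, hg, rfl, rfl⟩ ⟨g', hg', rfl, rfl⟩
    exact ⟨g' * g⁻¹, mul_mem hg' (inv_mem hg), congrArg g' (Blk.image_l g X),
      congrArg g' (Blk.image_l g Y)⟩
  · rintro ψ' hψ' _ _ ⟨g, hg, rfl, rfl⟩
    have e := fun z (e : ψ z = z) =>
      congrArg (ψ' * g) ((congrArg (ψ⁻¹ : RingAut L) e).symm.trans (Blk.image_l ψ z))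
    exact ⟨ψ' * g * ψ⁻¹, Fr_mul_inv' (Fr_mul_Gx hψ' hg) hψ, e X e1, e Y e2⟩

theorem gPe_fix_cyc (h : GE a b e p (std : Side K) t) (he : Even a) (l : Loc K t) :
    Odd (dd a b) ∧ Cyc l.g (Nr l.P (Sh a b (std : Side K) t) (-1)) b := by
  have h1 : Odd (dd a b) := Nat.not_even_iff_odd.1 fun e =>
    Int.not_odd_iff_even.2 he (h.hab.odd e).1
  have h2 : Odd b := Nat.not_even_iff_odd.1 fun e => by
    have := h.hab.dd_eq
    obtain ⟨_, h3⟩ := h1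
    obtain ⟨_, h4⟩ := he
    obtain ⟨_, h5⟩ := e
    omega
  refine ⟨h1, cycZ h.hab std_ok h.s1 l (neg_ne_zero.2 one_ne_zero) (fun e => h.hab.two ?_) ?_⟩
  · rw [Side.u_self, h2.neg_one_pow, std] at e
    linear_combination -e
  · simp [Side.U_self, he.neg_one_zpow, std]

theorem gPe_fix [Fact p.Prime] [CharP K p] (h : GE a b e p (std : Side K) t) (ha : 0 < a) (he : Even a) :
    ∃ l : Loc K t, ∃ X ∈ Nr l.P (Sh a b (std : Side K) t) (-1),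
      ∃ Y ∈ Nr l.P (Sh a b (std : Side K) t) 1, ∃ ψ ∈ Fr p K t, ψ X = X ∧ ψ Y = Y := by
  obtain ⟨l, ψ, hψ, hf⟩ := h.loc0
  have c1 := (gPe_fix_cyc h he l).2
  have c2 := (cycD h.hab h.s1 l).2
  obtain ⟨X, hX⟩ := c1.fin.2
  obtain ⟨Y, hY⟩ := c2.fin.2
  obtain ⟨j, e1, e2⟩ := c1.pair c2 h.hab.cop_bd
    ⟨hX.1.fr hψ hψ.2 (std_rt p), neg_one_pow_char K p ▸ hf _ _ _ hX.2⟩ hX
    ⟨hY.1.fr hψ hψ.2 (std_rt p), one_pow (M := K) p ▸ hf _ _ _ hY.2⟩ hY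
  exact ⟨l, X, hX, Y, hY, l.g ^ j * ψ, Gx_mul_Fr (pow_mem l.mem j) hψ, e1, e2⟩

theorem gPe_unit (h : GE a b e p (std : Side K) t) (ha : 0 < a) (he : Even a) (l : Loc K t)
    (hX : X ∈ Nr l.P (Sh a b (std : Side K) t) (-1)) (hY : Y ∈ Nr l.P (Sh a b (std : Side K) t) 1)
    (l1 : Loc K (t - algebraMap K L 1)) : ∃ g ∈ Gx K t, ∃ α : K, α ≠ 0 ∧ l1.P.Ap (g X) 0 α ∧
      g Y ∈ NrI l1.P (Sh a b (std : Side K) t) := by
  obtain ⟨ho, c1⟩ := gPe_fix_cyc h he l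
  have c3 := (cycI h.hab std_ok h.s1 ha l1 std_flip_v0.symm).2
  obtain ⟨Y1, hY1⟩ := c3.fin.2
  obtain ⟨g, hg, rfl⟩ := trn_sh h.hab h.cov std Y hY.1 Y1 hY1.1
  obtain ⟨_, ⟨X', hX', rfl⟩, h1⟩ := Set.not_subset.1 fun e : g '' _ ⊆ _ => by
    have h2 := Set.ncard_le_ncard e c3.fin.1
    have h3 := h.hab.lt
    rw [Set.ncard_image_of_injective _ g.injective, c1.card, c3.card] at h2
    omega
  obtain ⟨j, e1, e2⟩ := c1.pair (cycD h.hab h.s1 l).2 h.hab.cop_bd hX hX' hY hY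
  have h2 := hX'.1.map hg hg.2
  rcases cls h.hab std_ok l1.apc one_ne_zero h2 with ⟨α, h3, h4⟩ | ⟨-, h3, -⟩ | ⟨-, -, h3⟩
  · exact ⟨g * l.g ^ j, mul_mem hg (pow_mem l.mem j), α, h3.1, by rwa [aut_mul, e1],
      by rwa [aut_mul, e2]⟩
  · rw [std_v0 h.hab, ho.neg_one_pow] at h3
    exact (h.hab.two (by linear_combination h3)).elim
  · exact (h1 ⟨h2, h3⟩).elim

/-- `asmP` with `prs_orb`. At a place above `1`, `g ^ a` fixes all sheets (`perc`, `a` even).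
`h1`: `gPe_unit`, `vI`. `h2`: move `X` into `NrI` (`trn_sh`), `vX0`, `lv_gen`. -/
theorem gPe [Fact p.Prime] [CharP K p] (h : GE a b e p (std : Side K) t) (ha : 0 < a) (he : Even a) :
    Goal a b e p (std : Side K) t := by
  obtain ⟨l, X, hX, Y, hY, ψ, hψ, e1, e2⟩ := gPe_fix h ha he
  obtain ⟨l1⟩ := h.locc 1
  have he' : Even a.natAbs := Int.natAbs_even.2 he
  have hb : Odd b := Nat.coprime_two_left.1 (h.hab.cop.coprime_dvd_left he'.two_dvd)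
  have h0 : (-1 : K) ≠ 0 := neg_ne_zero.2 one_ne_zero
  have hα : (std : Side K).u b (-1 : K) ≠ 0 ∧ (std : Side K).U a (-1 : K) = 0 := by
    rw [Side.u_self, Side.U_self, hb.neg_one_pow, he.neg_one_zpow]
    exact ⟨fun e => h.hab.two (by simp only [std] at e; linear_combination -e), by simp [std]⟩
  have fx : ∀ {Z}, Sh a b (std : Side K) t Z → (l1.g ^ a.natAbs) Z = Z := fun {Z} hZ => by
    rcases perc h.hab std_ok h.s1 l1 one_ne_zero hZ with ⟨-, h2⟩ | ⟨-, -, h2⟩ | ⟨-, h2⟩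
    · obtain ⟨k, hk⟩ := he'.two_dvd
      rw [hk, pow_mul]
      exact pow_mem_aux (S := {Z}) (by rintro _ rfl; exact h2) rfl k
    · exact h2
    · exact h2
  refine asmP h (prs_orb hX.1 hY.1 hψ e1 e2) ?_ ?_ ?_
  · obtain ⟨ω, p0, v0⟩ := pair0 h l hX h0 (.inl hα) hY
    exact ⟨X, Y, ω, ⟨1, one_mem _, rfl, rfl⟩, pair_nt h l hX h0 (.inl hα) hY, p0, v0⟩
  · obtain ⟨g, hg, α, h1, h2, h3⟩ := gPe_unit h ha he l hX hY l1
    have hs := Sh.map hg hg.2 hX.1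
    obtain ⟨ω, p0, v0⟩ := vI h ha l1 ⟨hs, h2⟩ h1 (fx hs) h3
    exact ⟨g X, g Y, ω, ⟨g, hg, rfl, rfl⟩, p0, v0⟩
  · obtain ⟨hc, hy⟩ := cycI h.hab std_ok h.s1 ha l1 std_flip_v0.symm
    obtain ⟨X', hX'⟩ := hy.fin.2
    obtain ⟨g, hg, rfl⟩ := trn_sh h.hab h.cov std X hX.1 X' hX'.1
    obtain ⟨m, c, -, h1, h2, h3⟩ := hc.ord (nrI_iff.1 hX')
    rw [map_zero, sub_zero] at h3
    have h4 := Pl.inv h3 h1
    rw [inv_inv] at h4
    obtain ⟨x, ω, hx, p0, e3⟩ := vX0 h l1 hX'.1 (fx hX'.1) h4 (inv_ne_zero h1)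
      (by rw [mul_neg, Int.natAbs_neg, ← Nat.cast_mul, Int.natAbs_natCast, h2])
    have hs := Sh.map hg hg.2 hY.1
    obtain ⟨l2, l3, k1, k2, v⟩ := lv_gen h hX'.1 hs (pow_mem l1.memc _) hx e3 (fx hX'.1) (fx hs)
    exact ⟨g X, g Y, ω, l2, l3, ⟨g, hg, rfl, rfl⟩, p0, k1, k2, v⟩

omit [IsAlgClosed K] in
theorem gP0_cyc_U (hβ : β.Ok) : β.U 1 (β.σ' / β.σ) = 0 := by
  rw [Side.U_self, zpow_one, mul_div_cancel₀ _ hβ.σ, sub_self]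

omit [IsAlgClosed K] in
theorem gP0_cyc_nr (h : Hab K 1 b) (hβ : β.Ok) (l : Loc K t) :
    {X | Sh 1 b β t X} = Nr l.P (Sh 1 b β t) (β.σ' / β.σ) := by
  refine Set.ext fun X => ⟨fun hX => ⟨hX, ?_⟩, fun hX => hX.1⟩
  obtain ⟨y0, -, hy, hU | ⟨ha, -⟩⟩ := cls0 h hβ l.ap0 hX
  · rw [Side.U_self, zpow_one, sub_eq_zero] at hU
    rwa [← hU, mul_div_cancel_left₀ _ hβ.σ]
  · exact absurd ha (by decide)

/-- for `a = 1` all sheets of `β` are near `σ' / σ` and all standard sheets are near `1` (`cls0`) -/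
theorem gP0_cyc (h : GE 1 b e p β t) (hn : NoC 1 b β) (l : Loc K t) :
    {X | Sh 1 b β t X} = Nr l.P (Sh 1 b β t) (β.σ' / β.σ) ∧ Cyc l.g {X | Sh 1 b β t X} b ∧
      {Y | Sh 1 b (std : Side K) t Y} = Nr l.P (Sh 1 b (std : Side K) t) 1 ∧
      Cyc l.g {Y | Sh 1 b (std : Side K) t Y} (dd 1 b) := by
  have e1 := gP0_cyc_nr h.hab h.ok l
  have e2 := (gP0_cyc_nr h.hab std_ok l).trans (congrArg _ (div_one 1))
  have h0 := div_ne_zero h.ok.σ' h.ok.σ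
  exact ⟨e1, e1 ▸ cycZ h.hab h.ok h.sβ l h0 (fun e => hn _ h0 e (gP0_cyc_U h.ok)) (gP0_cyc_U h.ok),
    e2, e2 ▸ (cycD h.hab h.s1 l).2⟩

/-- `asmP` with all pairs (`Cyc.pair`). `h1`: `cycU`, `cycI`, `vI`. `h2`: at a place `l2` above `v0`
take `X` near `0` (`cycO`, index one) and `x`, `ω` from `vX0`; correct `l2.g` by `g ^ (b j)`, which
fixes `x` (`unit_loc`) and moves `l2.g Y` back to `Y` (`Cyc.step`); `lv_gen`. -/
theorem gP0 (h : GE 1 b e p β t) (hn : NoC 1 b β) {y0 : K} (hy : Sh 1 b β (1 : K) y0)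
    (hc : ¬ Crit 1 b β y0) : Goal 1 b e p β t := by
  obtain ⟨l, -⟩ := h.loc0
  obtain ⟨e1, c1, e2, c2⟩ := gP0_cyc h hn l
  have h0 := div_ne_zero h.ok.σ' h.ok.σ
  obtain ⟨Y, hY⟩ := c2.fin.2
  refine asmP (Q := fun X Y => Sh 1 b β t X ∧ Sh 1 b (std : Side K) t Y) h
    ⟨fun _ _ => id, fun X Y X' Y' a a' => ?_, fun ψ hψ X Y a =>
      ⟨a.1.fr hψ hψ.2 h.rt, a.2.fr hψ hψ.2 (std_rt p)⟩⟩ ?_ ?_ ?_
  · obtain ⟨j, hj⟩ := c1.pair c2 h.hab.cop_bd a.1 a'.1 a.2 a'.2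
    exact ⟨l.g ^ j, pow_mem l.mem j, hj⟩
  · obtain ⟨X, hX⟩ := c1.fin.2
    have hα : (β.u b (β.σ' / β.σ) ≠ 0 ∧ β.U 1 (β.σ' / β.σ) = 0) ∨
        ((1 : ℤ) < 0 ∧ β.u b (β.σ' / β.σ) = 0 ∧ β.U 1 (β.σ' / β.σ) ≠ 0) :=
      Or.inl ⟨fun e => hn _ h0 e (gP0_cyc_U h.ok), gP0_cyc_U h.ok⟩
    obtain ⟨ω, hω⟩ := pair0 h l (e1.subset hX) h0 hα (e2.subset hY)
    exact ⟨X, Y, ω, ⟨hX, hY⟩, pair_nt h l (e1.subset hX) h0 hα (e2.subset hY), hω⟩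
  · obtain ⟨l1⟩ := h.locc 1
    obtain ⟨⟨X, hX⟩, hf⟩ := cycU h.hab h.ok h.sβ l1 hy
    obtain ⟨Y1, hY1⟩ := (cycI h.hab std_ok h.s1 one_pos l1 std_flip_v0.symm).2.fin.2
    obtain ⟨ω, hω⟩ := vI h one_pos l1 hX hy.1 (by simpa using (hf X hX).2 hc) hY1
    exact ⟨X, Y1, ω, ⟨hX.1, hY1.1⟩, hω⟩
  · obtain ⟨l2⟩ := h.locc (β.v0 1 b)
    obtain ⟨c3, c4⟩ := cycO h.hab h.ok h.sβ one_pos l2 rfl
    obtain ⟨X, hX⟩ := c4.fin.2
    obtain ⟨m, c, -, c0, hm, ha⟩ := c3.ord hX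
    rw [map_zero, sub_zero] at ha
    have eX : l2.g X = X := Per.one (c4.per X hX)
    obtain ⟨x, ω, hx, hω, ex⟩ := vX0 h l2 hX.1 (j := 1) (by rwa [pow_one]) ha c0 (by simpa using hm)
    obtain ⟨j, hj⟩ := c2.step h.hab.cop_bd (Sh.map l2.memc l2.memc.2 hY) hY
    have fX := (c1.per X hX.1).fix (dvd_mul_right b j)
    have fx := unit_loc l h.epos (hx ▸ fX) (hx ▸ (e1.subset hX.1).2) h0
    obtain ⟨l', m', hl⟩ := lv_gen (ω := ω) h hX.1 hY (mul_mem (pow_mem l.mem (b * j)) l2.memc) hx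
      (by rw [aut_mul, ← pow_one l2.g, ex, map_mul, (pow_mem l.mem _).1, fx])
      (by rw [aut_mul, eX, fX]) hj
    exact ⟨X, Y, ω, l', m', ⟨hX.1, hY⟩, hω, hl⟩

end Pool.Agent.NW
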