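import Pool.Agent.Lib.MP_d40963_nt.W.D2

/-! Arithmetic of the exponents. -/

namespace Pool.Agent.NW

variable {K : Type} [Field K] {a : ℤ} {b : ℕ}

theorem Hab.dd_eq (h : Hab K a b) : (dd a b : ℤ) = b - a := Int.toNat_of_nonneg (by have := h.lt; omega)

theorem Hab.b0 (h : Hab K a b) : 0 < b := by
  have := h.a0
  have := h.le
  omega

theorem Hab.d0 (h : Hab K a b) : 0 < dd a b := by
  have := h.dd_eq
  have := h.lt
  omega

theorem Hab.cop_bd_int (h : Hab K a b) : IsCoprime a (b : ℤ) :=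
  Int.isCoprime_iff_gcd_eq_one.2 h.cop

theorem Hab.cop_bd (h : Hab K a b) : Nat.Coprime b (dd a b) := by
  obtain ⟨u, v, huv⟩ := h.cop_bd_int
  refine Nat.isCoprime_iff_coprime.1 ⟨u + v, -u, ?_⟩
  rw [h.dd_eq]
  linear_combination huv

theorem Hab.cop_ad (h : Hab K a b) : Nat.Coprime a.natAbs (dd a b) := by
  obtain ⟨u, v, huv⟩ := h.cop_bd_int
  have : IsCoprime a (dd a b : ℤ) := ⟨u + v, v, by rw [h.dd_eq]; linear_combination huv⟩
  exact Int.isCoprime_iff_gcd_eq_one.1 this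

theorem Hab.aK (h : Hab K a b) : (a : K) ≠ 0 := by
  have h1 := h.ne a.natAbs (Int.natAbs_pos.2 h.a0) (by have := h.le; omega)
  intro h0
  apply h1
  rw [← Int.cast_natCast, Int.natCast_natAbs]
  rcases abs_choice a with e | e <;> rw [e] <;> simp [h0]

theorem Hab.aK' (h : Hab K a b) : (a.natAbs : K) ≠ 0 := h.ne _ (Int.natAbs_pos.2 h.a0) (by have := h.le; omega)

theorem Hab.bK (h : Hab K a b) : (b : K) ≠ 0 := h.ne _ h.b0 (by omega)

theorem Hab.dK (h : Hab K a b) : (dd a b : K) ≠ 0 := h.ne _ h.d0 (by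
  have := h.dd_eq
  have := h.le
  omega)

theorem Hab.two (h : Hab K a b) : (2 : K) ≠ 0 := by exact_mod_cast h.ne 2 (by omega) (by omega)

theorem Hab.odd (h : Hab K a b) (hd : Even (dd a b)) : Odd a ∧ Odd b := by
  have hb : Odd b := by
    rw [← Nat.coprime_two_right]
    exact Nat.Coprime.coprime_dvd_right hd.two_dvd h.cop_bd
  have ha : Odd a.natAbs := by
    rw [← Nat.coprime_two_right]
    exact Nat.Coprime.coprime_dvd_right hd.two_dvd h.cop_ad
  exact ⟨Int.natAbs_odd.1 ha, hb⟩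

theorem Hab.even (h : Hab K a b) (hd : Odd (dd a b)) : Even (a.natAbs * b) := by
  have h1 := h.dd_eq
  rw [Nat.even_mul, Nat.even_iff, Nat.even_iff]
  rw [Nat.odd_iff] at hd
  omega

/-- Bezout -/
theorem Hab.pow_inj (h : Hab K a b) {F : Type} [Field F] {x y : F} (hx : x ≠ 0) (hy : y ≠ 0)
    (hb : x ^ b = y ^ b) (ha : x ^ a = y ^ a) : x = y := by
  obtain ⟨u, v, huv⟩ := h.cop_bd_int
  have key : ∀ z : F, z ≠ 0 → z = (z ^ a) ^ u * (z ^ b) ^ v := by
    intro z hz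
    rw [← zpow_natCast, ← zpow_mul, ← zpow_mul, ← zpow_add₀ hz, mul_comm a, mul_comm (b : ℤ), huv,
      zpow_one]
  rw [key x hx, ha, hb, ← key y hy]

/-- `Z = A ^ j * B ^ i` with `i a + j b = 1` -/
theorem Hab.pow_ex (h : Hab K a b) {F : Type} [Field F] {A B : F} (hA : A ≠ 0) (hB : B ≠ 0)
    (e : A ^ a = B ^ b) : ∃ Z, Z ≠ 0 ∧ Z ^ b = A ∧ Z ^ a = B := by
  obtain ⟨u, v, huv⟩ := h.cop_bd_int
  rw [← zpow_natCast] at e
  refine ⟨A ^ v * B ^ u, mul_ne_zero (zpow_ne_zero _ hA) (zpow_ne_zero _ hB), ?_, ?_⟩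
  · rw [← zpow_natCast, mul_zpow, ← zpow_mul, ← zpow_mul, mul_comm u, zpow_mul B, ← e, ← zpow_mul,
      ← zpow_add₀ hA, show v * b + a * u = 1 by linear_combination huv, zpow_one]
  · rw [mul_zpow, ← zpow_mul, ← zpow_mul, mul_comm v, zpow_mul A, e, ← zpow_mul,
      ← zpow_add₀ hB, show b * v + u * a = 1 by linear_combination huv, zpow_one]

theorem std_ok : (std : Side K).Ok := ⟨one_ne_zero, one_ne_zero, one_ne_zero, one_ne_zero⟩

theorem std_rt (p : ℕ) : (std : Side K).Rt p := ⟨one_pow p, one_pow p, one_pow p, one_pow p⟩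

theorem sd_one (s : ℕ) : sd s (1 : K) 1 = std := by
  simp only [sd, std, one_pow]

theorem sd_ok (s : ℕ) {τ τ' : K} (h : τ ≠ 0) (h' : τ' ≠ 0) : (sd s τ τ').Ok :=
  ⟨h, h', pow_ne_zero s h, pow_ne_zero s h'⟩

theorem sd_rt (p s : ℕ) {τ τ' : K} (h : τ ^ p = τ) (h' : τ' ^ p = τ') : (sd s τ τ').Rt p :=
  ⟨h, h', (pow_right_comm τ s p).trans (congrArg (· ^ s) h),
    (pow_right_comm τ' s p).trans (congrArg (· ^ s) h')⟩

theorem Side.flip_flip (γ : Side K) : γ.flip.flip = γ := by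
  simp only [Side.flip, neg_neg]

theorem Side.Ok.flip {γ : Side K} (h : γ.Ok) : γ.flip.Ok :=
  ⟨neg_ne_zero.2 h.τ', neg_ne_zero.2 h.τ, neg_ne_zero.2 h.σ', neg_ne_zero.2 h.σ⟩

theorem std_v0 (h : Hab K a b) : (std : Side K).v0 a b = (-1) ^ dd a b := by
  show (-1 : K) ^ b / (-1) ^ a = (-1) ^ dd a b
  rw [← zpow_natCast, ← zpow_natCast, h.dd_eq, zpow_sub₀ (neg_ne_zero.2 one_ne_zero)]

theorem std_flip_v0 : (std : Side K).flip.v0 a b = 1 := by
  simp only [Side.v0, Side.flip, std, neg_neg, one_pow, one_zpow, div_one]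

theorem flip_v0 (γ : Side K) : γ.flip.v0 a b = γ.σ ^ b / γ.τ ^ a := by
  simp only [Side.v0, Side.flip, neg_neg]

theorem Side.Ok.v0 {γ : Side K} (h : γ.Ok) : γ.v0 a b ≠ 0 :=
  div_ne_zero (pow_ne_zero b (neg_ne_zero.2 h.σ')) (zpow_ne_zero a (neg_ne_zero.2 h.τ'))

/-- the only common zero on the standard side is `1` -/
theorem std_common (h : Hab K a b) {y : K} (hy : y ≠ 0) (h1 : (std : Side K).u b y = 0)
    (h2 : (std : Side K).U a y = 0) : y = 1 := by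
  rw [Side.u_self] at h1
  rw [Side.U_self] at h2
  simp only [std, one_mul, sub_eq_zero] at h1 h2
  exact h.pow_inj hy one_ne_zero (h1.trans (one_pow b).symm) (h2.trans (one_zpow a).symm)

theorem std_crit (h : Hab K a b) {y : K} (hy : y ≠ 0) :
    Crit a b std y ↔ y ^ dd a b = 1 := by
  simp only [Crit, std, one_mul]
  rw [← zpow_natCast y (dd a b), h.dd_eq, zpow_sub₀ hy, zpow_natCast,
    div_eq_one_iff_eq (zpow_ne_zero a hy)]

/-- a common zero `y` has `y ^ b = τ' / τ`, `y ^ a = σ' / σ` -/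
theorem noC_of (h : Hab K a b) {γ : Side K} (hγ : γ.Ok)
    (hne : γ.σ ^ b * γ.τ' ^ a ≠ γ.σ' ^ b * γ.τ ^ a) : NoC a b γ := by
  intro y _ h1 h2
  rw [Side.u_self, sub_eq_zero] at h1
  rw [Side.U_self, sub_eq_zero] at h2
  apply hne
  rw [← h1, ← h2, mul_zpow, mul_pow, ← zpow_natCast (y ^ a), ← zpow_natCast y, ← zpow_mul,
    ← zpow_mul, mul_comm a]
  ring

end Pool.Agent.NW
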