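import Pool.Agent.Lib.MP_d40963_nt.W.D2

/-! Lattices of Kummer vectors. -/

namespace Pool.Agent.NW

variable {K : Type} [Field K] {Λ : K → K → K → Prop} {e : ℕ} {ω ω1 ω2 ω3 l m : K}

theorem lat_pow (h1 : Λ 1 1 1)
    (hm : ∀ x y z x' y' z', Λ x y z → Λ x' y' z' → Λ (x * x') (y * y') (z * z')) {x y z : K}
    (h : Λ x y z) (j : ℕ) : Λ (x ^ j) (y ^ j) (z ^ j) := by
  induction j with
  | zero => simpa only [pow_zero] using h1
  | succ j ih => simpa only [pow_succ] using hm _ _ _ _ _ _ ih h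

/-- every `e`-th root of unity is a power of a primitive one
(`IsPrimitiveRoot.eq_pow_of_pow_eq_one`) -/
theorem latP (he : 0 < e) (h1 : Λ 1 1 1)
    (hm : ∀ x y z x' y' z', Λ x y z → Λ x' y' z' → Λ (x * x') (y * y') (z * z'))
    (p1 : IsPrimitiveRoot ω1 e) (p2 : IsPrimitiveRoot ω2 e) (p3 : IsPrimitiveRoot ω3 e)
    (hl : l ^ e = 1) (hl' : m ^ e = 1) (v1 : Λ 1 ω1 ω1) (v2 : Λ 1 1 ω2) (v3 : Λ ω3 l m) :
    ∀ x y z, x ^ e = 1 → y ^ e = 1 → z ^ e = 1 → Λ x y z := by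
  intro x y z hx hy hz
  have : NeZero e := ⟨he.ne'⟩
  have n0 : ∀ {a : K}, a ^ e = 1 → a ≠ 0 := fun h => by
    rintro rfl
    exact zero_ne_one ((zero_pow he.ne').symm.trans h)
  obtain ⟨i, -, rfl⟩ := p3.eq_pow_of_pow_eq_one hx
  have a1 : (y / l ^ i) ^ e = 1 := by rw [div_pow, ← pow_mul, mul_comm, pow_mul, hl, hy]; simp
  have a2 : (z / (m ^ i * (y / l ^ i))) ^ e = 1 := by
    rw [div_pow, mul_pow, a1, ← pow_mul, mul_comm i, pow_mul, hl', hz]; simp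
  obtain ⟨j, -, hj⟩ := p1.eq_pow_of_pow_eq_one a1
  obtain ⟨k, -, hk⟩ := p2.eq_pow_of_pow_eq_one a2
  have := hm _ _ _ _ _ _ (hm _ _ _ _ _ _ (lat_pow h1 hm v3 i) (lat_pow h1 hm v1 j))
    (lat_pow h1 hm v2 k)
  rwa [one_pow, one_pow, mul_one, mul_one, mul_one, hj, hk,
    mul_div_cancel₀ _ (pow_ne_zero _ (n0 hl)),
    mul_div_cancel₀ _ (mul_ne_zero (pow_ne_zero _ (n0 hl')) (n0 a1))] at this

/-- From `v1` all `(1, y, y)`; from `v2`, `v3` all `(1, y, y⁻¹)`; so `(1, ω ^ 2, 1)`. For odd `e`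
this is primitive. For even `e`, `hp` gives `(1, l / m, 1)` with `l / m = ω ^ i`, `i` odd. Then
`latP`. -/
theorem latN (he : 0 < e) (h2 : (2 : K) ≠ 0) (h1 : Λ 1 1 1)
    (hm : ∀ x y z x' y' z', Λ x y z → Λ x' y' z' → Λ (x * x') (y * y') (z * z'))
    (p1 : IsPrimitiveRoot ω1 e) (p2 : IsPrimitiveRoot ω e) (v1 : Λ 1 ω1 ω1) (v2 : Λ ω ω 1)
    (v3 : Λ ω 1 ω)
    (hp : Even e → ∃ l m, l ^ e = 1 ∧ m ^ e = 1 ∧ (l / m) ^ (e / 2) = -1 ∧ Λ 1 l m) :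
    ∀ x y z, x ^ e = 1 → y ^ e = 1 → z ^ e = 1 → Λ x y z := by
  obtain ⟨d, rfl⟩ : ∃ d, e = d + 1 := ⟨e - 1, by omega⟩
  have A : ∀ y, y ^ (d + 1) = 1 → Λ 1 y y := fun y hy => by
    obtain ⟨j, -, rfl⟩ := p1.eq_pow_of_pow_eq_one hy
    simpa only [one_pow] using lat_pow h1 hm v1 j
  have w := p2.pow_eq_one
  have B : Λ 1 (ω * ω) 1 := by
    have := hm _ _ _ _ _ _ (hm _ _ _ _ _ _ (lat_pow h1 hm v3 d) v2) (A ω w)
    rwa [one_pow, one_mul, mul_one, mul_one, ← pow_succ, w] at this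
  have C : Λ 1 ω 1 := by
    rcases Nat.even_or_odd (d + 1) with h | ⟨k, hk⟩
    · obtain ⟨l, m, hl, hl', h3, h4⟩ := hp h
      have m0 : m ≠ 0 := by
        rintro rfl
        simp at hl'
      obtain ⟨i, -, hi⟩ := p2.eq_pow_of_pow_eq_one (ξ := l / m) (by rw [div_pow, hl, hl', div_one])
      have a1 := hm _ _ _ _ _ _ h4 (A m⁻¹ (by rw [inv_pow, hl', inv_one]))
      rw [mul_one, mul_inv_cancel₀ m0, ← div_eq_mul_inv, ← hi] at a1
      rcases Nat.even_or_odd' i with ⟨k, rfl | rfl⟩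
      · rw [← hi, ← pow_mul, mul_comm 2 k, mul_assoc, Nat.two_mul_div_two_of_even h, mul_comm,
          pow_mul, w, one_pow] at h3
        exact absurd (by linear_combination h3) h2
      · have := hm _ _ _ _ _ _ a1 (lat_pow h1 hm B (k * d))
        rwa [one_pow, mul_one, show ω ^ (2 * k + 1) * (ω * ω) ^ (k * d) =
          (ω ^ (d + 1)) ^ (2 * k) * ω by ring, w, one_pow, one_mul] at this
    · have := lat_pow h1 hm B (k + 1)
      rwa [one_pow, show (ω * ω) ^ (k + 1) = ω ^ (2 * k + 1) * ω by ring, ← hk, w, one_mul] at this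
  have D := hm _ _ _ _ _ _ (lat_pow h1 hm C d) (A ω w)
  rw [one_pow, one_mul, one_mul, ← pow_succ, w] at D
  exact latP he h1 hm p1 p2 p2 w (one_pow _) v1 D v2

end Pool.Agent.NW
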