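import Pool.Agent.Lib.MP_d40963_nt.W.Env
import Pool.Agent.Lib.MP_d40963_nt.W.Lat

/-! Kummer vectors and the final assembly of the geometric cases. -/

namespace Pool.Agent.NW

variable {p : ℕ} {K L : Type} [Field K] [IsAlgClosed K] [Field L] [Algebra K L] {a : ℤ}
  {b e : ℕ} {β : Side K} {t x y z X Y : L} {g : RingAut L} {l1 l2 l3 m1 m2 m3 ω ε : K}
  {Q : L → L → Prop}

omit [IsAlgClosed K] in
theorem Lv.one : Lv a b e β t X Y 1 1 1 := fun x y z _ _ _ =>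
  ⟨1, one_mem _, by rw [map_one, one_mul, aut_one], by rw [map_one, one_mul, aut_one],
    by rw [map_one, one_mul, aut_one]⟩

omit [IsAlgClosed K] in
theorem Lv.mul_aux {f : RingAut L} (hg : g ∈ Gx K t) (e1 : g x = algebraMap K L l1 * x)
    (e2 : f x = algebraMap K L m1 * x) : (g * f) x = algebraMap K L (l1 * m1) * x := by
  rw [aut_mul, e2, map_mul, hg.1, e1, map_mul, mul_left_comm, mul_assoc]

omit [IsAlgClosed K] in
theorem Lv.mul (h : Lv a b e β t X Y l1 l2 l3) (h' : Lv a b e β t X Y m1 m2 m3) :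
    Lv a b e β t X Y (l1 * m1) (l2 * m2) (l3 * m3) := fun x y z hx hy hT => by
  obtain ⟨g, hg, a1, a2, a3⟩ := h x y z hx hy hT
  obtain ⟨f, hf, b1, b2, b3⟩ := h' x y z hx hy hT
  exact ⟨g * f, mul_mem hg hf, Lv.mul_aux hg a1 b1, Lv.mul_aux hg a2 b2, Lv.mul_aux hg a3 b3⟩

theorem lv_of_one_aux (he : 0 < e) (hg : g ∈ Gx K t) (h0 : x ^ e ≠ 0) (h : y ^ e = x ^ e)
    (e1 : g x = algebraMap K L l1 * x) : g y = algebraMap K L l1 * y := by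
  obtain ⟨k, -, rfl⟩ := root_const (K := K) he (ne_zero_pow he.ne' h0) h
  rw [map_mul, hg.1, e1, mul_left_comm]

/-- another triple differs by roots of unity (`Tri.uniq`, `root_const`) -/
theorem lv_of_one (h : GE a b e p β t) (hX : Sh a b β t X) (hx : x ^ e = X)
    (hY : (y / z) ^ e = Y) (hT : Tri a b β std X (y ^ e) (z ^ e)) (hg : g ∈ Gx K t)
    (e1 : g x = algebraMap K L l1 * x) (e2 : g y = algebraMap K L l2 * y)
    (e3 : g z = algebraMap K L l3 * z) : Lv a b e β t X Y l1 l2 l3 := fun x' y' z' hx' hY' hT' => by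
  obtain ⟨h1, h2⟩ := Tri.uniq h.hab hX hT' hT (by rw [← div_pow, ← div_pow, hY, hY'])
  exact ⟨g, hg, lv_of_one_aux h.epos hg (hx ▸ hX.1) (hx'.trans hx.symm) e1,
    lv_of_one_aux h.epos hg hT.1 h1 e2, lv_of_one_aux h.epos hg hT.2.1 h2 e3⟩

omit [IsAlgClosed K] in
theorem Lv.conj_aux {f : RingAut L} (hg : g ∈ Gx K t) (e1 : f x = algebraMap K L l1 * x) :
    (g * f * g⁻¹) (g x) = algebraMap K L l1 * g x := by
  rw [← aut_mul, inv_mul_cancel_right, aut_mul, e1, map_mul, hg.1]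

omit [IsAlgClosed K] in
theorem Lv.conj (h : Lv a b e β t X Y l1 l2 l3) (hg : g ∈ Gx K t) :
    Lv a b e β t (g X) (g Y) l1 l2 l3 := fun x y z hx hy hT => by
  obtain ⟨x, rfl⟩ := g.surjective x
  obtain ⟨y, rfl⟩ := g.surjective y
  obtain ⟨z, rfl⟩ := g.surjective z
  have h1 := Tri.map (inv_mem hg) hT
  rw [← map_pow, ← map_pow, ← aut_mul, ← aut_mul, ← aut_mul, inv_mul_cancel] at h1
  obtain ⟨f, hf, a1, a2, a3⟩ := h x y z (g.injective ((map_pow g x e).trans hx))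
    (g.injective (by rw [map_pow, map_div₀, hy])) h1
  exact ⟨g * f * g⁻¹, mul_mem (mul_mem hg hf) (inv_mem hg), Lv.conj_aux hg a1, Lv.conj_aux hg a2,
    Lv.conj_aux hg a3⟩

theorem lv_gen_aux (h : GE a b e p β t) (hX : Sh a b β t X) (hY : (y / z) ^ e = Y)
    (hT : Tri a b β std X (y ^ e) (z ^ e)) (hg : g ∈ Gx K t) (eX : g X = X) (eY : g Y = Y) :
    ∃ l m : K, l ^ e = 1 ∧ m ^ e = 1 ∧ g y = algebraMap K L l * y ∧
      g z = algebraMap K L m * z := by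
  obtain ⟨h1, h2⟩ := Tri.fix h.hab hg hX hT eX (by rw [← div_pow, hY, eY])
  obtain ⟨l, h3, h4⟩ := root_const (K := K) h.epos (ne_zero_pow h.epos.ne' hT.1)
    ((map_pow g y e).symm.trans h1)
  obtain ⟨m, h5, h6⟩ := root_const (K := K) h.epos (ne_zero_pow h.epos.ne' hT.2.1)
    ((map_pow g z e).symm.trans h2)
  exact ⟨l, m, h3, h5, h4, h6⟩

/-- `GE.tri`, `Tri.fix`, `root_const`, `lv_of_one` -/
theorem lv_gen (h : GE a b e p β t) (hX : Sh a b β t X) (hY : Sh a b (std : Side K) t Y)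
    (hg : g ∈ Gx K t) (hx : x ^ e = X) (e1 : g x = algebraMap K L ω * x) (eX : g X = X)
    (eY : g Y = Y) : ∃ l m : K, l ^ e = 1 ∧ m ^ e = 1 ∧ Lv a b e β t X Y ω l m := by
  obtain ⟨-, y, z, -, hy, hT⟩ := h.tri hX hY
  obtain ⟨l, m, h1, h2, h3, h4⟩ := lv_gen_aux h hX hy hT hg eX eY
  exact ⟨l, m, h1, h2, lv_of_one h hX hx hy hT hg e1 h3 h4⟩

/-- `η = (y / z) ^ (e / 2)` -/
theorem lv_par (h : GE a b e p β t) (hX : Sh a b β t X) (hY : Sh a b (std : Side K) t Y)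
    (he : Even e) (hp : Par K e t X Y) : ∃ l m : K, l ^ e = 1 ∧ m ^ e = 1 ∧
      (l / m) ^ (e / 2) = -1 ∧ Lv a b e β t X Y 1 l m := by
  obtain ⟨x, y, z, hx, hy, hT⟩ := h.tri hX hY
  have h0 : ((y / z) ^ (e / 2)) ^ 2 = Y := by rw [← pow_mul, Nat.div_mul_cancel he.two_dvd, hy]
  obtain ⟨g, hg, e1, e2⟩ := hp x _ hx h0
  obtain ⟨l, m, h1, h2, h3, h4⟩ := lv_gen_aux h hX hy hT hg (by rw [← hx, map_pow, e1])
    (by rw [← h0, map_pow, e2, neg_sq])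
  refine ⟨l, m, h1, h2, (algebraMap K L).injective ?_,
    lv_of_one h hX hx hy hT hg (by rw [map_one, one_mul, e1]) h3 h4⟩
  refine mul_right_cancel₀ (ne_zero_pow two_ne_zero (h0 ▸ hY.1)) ?_
  rw [map_neg, map_one, neg_one_mul, ← e2, map_pow, map_pow, map_div₀, map_div₀, h3, h4,
    mul_div_mul_comm, mul_pow]

theorem Flip.conj_app (g k : RingAut L) (w : L) : (g * k * g⁻¹) (g w) = g (k w) :=
  congrArg (fun u => g (k u)) (g.symm_apply_apply w)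

omit [IsAlgClosed K] in
theorem Flip.conj (h : Flip e t X Y ε) (hg : g ∈ Gx K t) : Flip e t (g X) (g Y) ε := by
  intro x η hx hη
  obtain ⟨x, rfl⟩ := g.surjective x
  obtain ⟨η, rfl⟩ := g.surjective η
  rw [← map_pow, g.injective.eq_iff] at hx hη
  obtain ⟨k, hk, e1, e2⟩ := h x η hx hη
  exact ⟨_, mul_mem (mul_mem hg hk) (inv_mem hg), by rw [Flip.conj_app, e1],
    by rw [Flip.conj_app, ← map_mul, e2, hg.1]⟩

omit [IsAlgClosed K] in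
theorem Par.conj (h : Par K e t X Y) (hg : g ∈ Gx K t) : Par K e t (g X) (g Y) := by
  intro x η hx hη
  obtain ⟨x, rfl⟩ := g.surjective x
  obtain ⟨η, rfl⟩ := g.surjective η
  rw [← map_pow, g.injective.eq_iff] at hx hη
  obtain ⟨k, hk, e1, e2⟩ := h x η hx hη
  exact ⟨_, mul_mem (mul_mem hg hk) (inv_mem hg), by rw [Flip.conj_app, e1],
    by rw [Flip.conj_app, e2, map_neg]⟩

omit [IsAlgClosed K] in
theorem NT.conj (h : NT K t X Y) (hg : g ∈ Gx K t) : NT K t (g X) (g Y) := by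
  obtain ⟨k, hk, hn⟩ := h
  refine ⟨_, mul_mem (mul_mem hg hk) (inv_mem hg), ?_⟩
  rwa [Flip.conj_app, Flip.conj_app, g.injective.eq_iff, g.injective.eq_iff]

omit [IsAlgClosed K] in
/-- the product of the two flips -/
theorem par_of_flip (h1 : Flip e t X Y (1 : K)) (h2 : Flip e t X Y (-1 : K)) :
    Par K e t X Y := by
  intro x η hx hη
  obtain ⟨g1, k1, e1, f1⟩ := h1 x η hx hη
  obtain ⟨g2, k2, e2, f2⟩ := h2 x η hx hη
  refine ⟨g1 * g2, mul_mem k1 k2, by rw [aut_mul, e2, e1], ?_⟩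
  rw [map_one] at f1
  have f3 := congrArg g1 f2
  rw [map_mul, k1.1, map_neg, map_one] at f3
  rw [aut_mul]
  linear_combination η * f3 - g1 (g2 η) * f1

/-- Take `ψ0`, move `(ψ0 X, ψ0 Y)` back to `(X, Y)`; then `ψ` multiplies `x, y, z` by roots of unity
(`Tri.fix_fr`, `root_const`), which are corrected by an element of `Gx K t`. -/
theorem fin3 (h : GE a b e p β t) (hQ : Prs a b p β t Q) (h0 : Q X Y) (hn : NT K t X Y)
    (hl : ∀ l1 l2 l3 : K, l1 ^ e = 1 → l2 ^ e = 1 → l3 ^ e = 1 → Lv a b e β t X Y l1 l2 l3) :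
    Goal a b e p β t := by
  obtain ⟨ψ0, h1⟩ := h.fr
  obtain ⟨hX, hY⟩ := hQ.sh X Y h0
  obtain ⟨g, hg, eX, eY⟩ := hQ.tr _ _ X Y (hQ.fr ψ0 h1 X Y h0) h0
  obtain ⟨ψ, hψ, eX, eY⟩ : ∃ ψ ∈ Fr p K t, ψ X = X ∧ ψ Y = Y := ⟨_, Gx_mul_Fr hg h1, eX, eY⟩
  obtain ⟨x, y, z, rfl, rfl, hT⟩ := h.tri hX hY
  obtain ⟨e2, e3⟩ := hT.fix_fr h.hab hψ h.rt (std_rt p) hX eX (by rwa [← div_pow])
  have key : ∀ w : L, w ^ e ≠ 0 → ψ (w ^ e) = w ^ e → ∃ k : K, k ^ e = 1 ∧ ∀ g ∈ Gx K t,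
      g w = algebraMap K L k * w → (g * ψ) w = w := fun w hw e1 => by
    obtain ⟨k, hk, e4⟩ := root_const (K := K) h.epos (fun e0 => hw (by rw [e0, zero_pow h.epos.ne']))
      ((map_pow ψ w e).symm.trans e1)
    have h2 : k ≠ 0 := fun e0 => by simp [e0, h.epos.ne'] at hk
    refine ⟨k⁻¹, by rw [inv_pow, hk, inv_one], fun g hg e5 => ?_⟩
    rw [aut_mul, e4, map_mul, hg.1, e5, ← mul_assoc, ← map_mul, mul_inv_cancel₀ h2, map_one, one_mul]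
  obtain ⟨k1, a1, b1⟩ := key x hX.1 eX
  obtain ⟨k2, a2, b2⟩ := key y hT.1 e2
  obtain ⟨k3, a3, b3⟩ := key z hT.2.1 e3
  obtain ⟨g', hg', c1, c2, c3⟩ := hl k1 k2 k3 a1 a2 a3 x y z rfl rfl hT
  exact ⟨g' * ψ, Gx_mul_Fr hg' hψ, x, y, z, hX, hT, b1 g' hg' c1, b2 g' hg' c2, b3 g' hg' c3, hn⟩

omit [IsAlgClosed K] in
theorem asmP_mv {X' Y' : L} (hQ : Prs a b p β t Q) (q : Q X Y) (q' : Q X' Y')
    (v : Lv a b e β t X Y l1 l2 l3) : Lv a b e β t X' Y' l1 l2 l3 := by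
  obtain ⟨g, hg, rfl, rfl⟩ := hQ.tr _ _ _ _ q q'
  exact v.conj hg

theorem asmP (h : GE a b e p β t) (hQ : Prs a b p β t Q)
    (h0 : ∃ X Y ω, Q X Y ∧ NT K t X Y ∧ IsPrimitiveRoot ω e ∧ Lv a b e β t X Y 1 ω ω)
    (h1 : ∃ X Y ω, Q X Y ∧ IsPrimitiveRoot ω e ∧ Lv a b e β t X Y 1 1 ω)
    (h2 : ∃ X Y ω l m, Q X Y ∧ IsPrimitiveRoot ω e ∧ l ^ e = 1 ∧ m ^ e = 1 ∧
      Lv a b e β t X Y ω l m) : Goal a b e p β t := by
  obtain ⟨X, Y, ω, q0, hn, p0, v0⟩ := h0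
  obtain ⟨X1, Y1, ω1, q1, p1, v1⟩ := h1
  obtain ⟨X2, Y2, ω2, l, m, q2, p2, hl, hm, v2⟩ := h2
  exact fin3 h hQ q0 hn (latP h.epos Lv.one (fun _ _ _ _ _ _ => Lv.mul) p0 p1 p2 hl hm v0
    (asmP_mv hQ q1 q0 v1) (asmP_mv hQ q2 q0 v2))

theorem asmN (h : GE a b e p β t) (hQ : Prs a b p β t Q)
    (h0 : ∃ X Y ω, Q X Y ∧ NT K t X Y ∧ IsPrimitiveRoot ω e ∧ Lv a b e β t X Y 1 ω ω)
    (h1 : ∃ X Y1 Y2 ω, Q X Y1 ∧ Q X Y2 ∧ IsPrimitiveRoot ω e ∧ Lv a b e β t X Y1 ω ω 1 ∧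
      Lv a b e β t X Y2 ω 1 ω)
    (h2 : Even e → ∃ X Y, Q X Y ∧ Par K e t X Y) : Goal a b e p β t := by
  obtain ⟨X, Y, ω, q0, hn, p0, v0⟩ := h0
  obtain ⟨X1, Y1, Y2, ω1, q1, q2, p1, v1, v2⟩ := h1
  refine fin3 h hQ q0 hn (latN h.epos (by exact_mod_cast h.hab.ne 2 two_pos (by omega)) Lv.one
    (fun _ _ _ _ _ _ => Lv.mul) p0 p1 v0 (asmP_mv hQ q1 q0 v1) (asmP_mv hQ q2 q0 v2) fun he => ?_)
  obtain ⟨X3, Y3, q3, v3⟩ := h2 he
  obtain ⟨g, hg, rfl, rfl⟩ := hQ.tr _ _ _ _ q3 q0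
  exact lv_par h (hQ.sh _ _ q0).1 (hQ.sh _ _ q0).2 he (v3.conj hg)

end Pool.Agent.NW
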