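import Pool.Agent.Lib.MP_d40963_nt.W.EnvEx
import Pool.Agent.Lib.MP_d40963_nt.W.Cheb

/-! The hypotheses of the density theorem for the set of all solutions. -/

namespace Pool.Agent.NW

open Polynomial IntermediateField Pool.Agent.Lib.Common.Stepanov

variable {p : ℕ} {K L : Type} [Field K] [Field L] [Algebra K L] {a : ℤ} {b e : ℕ} {β γ : Side K}
  {t x y Z : L} {ψ : RingAut L}

theorem sh_adj (h : Sh a b β t (x ^ e)) : t ∈ K⟮x⟯ := by
  have h1 := pow_mem (mem_adjoin_simple_self K x) e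
  have h2 := IntermediateField.algebraMap_mem K⟮x⟯
  rw [h.t_eq]
  exact div_mem (pow_mem (sub_mem (mul_mem (h2 _) (zpow_mem h1 _)) (h2 _)) _)
    (zpow_mem (sub_mem (mul_mem (h2 _) (pow_mem h1 _)) (h2 _)) _)

theorem sh_cov (hc : Cov p K t) (h : Sh a b β t (x ^ e)) : Cov p K x := hc.up (sh_adj h)

theorem sh_Gx (h : Sh a b β t (x ^ e)) : Gx K x ≤ Gx K t := Gx_le (sh_adj h)

theorem sh_Fr (hβ : β.Rt p) (h : Sh a b β t (x ^ e)) (hψ : ψ ∈ Fr p K x) : ψ ∈ Fr p K t :=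
  ⟨hψ.1, by
    rw [h.t_eq]
    simp only [Side.u, Side.U, map_div₀, map_pow, map_zpow₀, map_sub, map_mul, hψ.1, hψ.2, hβ.τ,
      hβ.τ', hβ.σ, hβ.σ']⟩

theorem sh_trans (hab : Hab K a b) (hc : Cov p K t) (hx : Sh a b β t (x ^ e))
    (hy : Sh a b β t (y ^ e)) : ∃ g ∈ Gx K t, g x = y := by
  obtain ⟨-, a1, -, a2⟩ := (sh_iff hab).1 hx
  obtain ⟨-, b1, -, b2⟩ := (sh_iff hab).1 hy
  exact cov_trans hc (N := expand K e (β.N a b)) (D := expand K e (β.D a b))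
    (by rwa [expand_aeval]) (by rwa [expand_aeval]) (by rwa [expand_aeval, expand_aeval])
    (by rwa [expand_aeval, expand_aeval])

theorem sh_fr_ne (hab : Hab K a b) (hc : Cov p K t) (hβ : β.Rt p) (hf : (Fr p K t).Nonempty)
    (hx : Sh a b β t (x ^ e)) : (Fr p K x).Nonempty := by
  obtain ⟨ψ, hψ⟩ := hf
  obtain ⟨g, hg, h⟩ := sh_trans hab hc hx (y := ψ x) (map_pow ψ x e ▸ hx.fr hψ hψ.2 hβ)
  exact ⟨g⁻¹ * ψ, (Gx_mul_Fr (inv_mem hg) hψ).1, g.symm_apply_eq.2 h.symm⟩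

variable [Fact p.Prime] [CharP K p]

theorem Side.Rt.flip (h : γ.Rt p) : γ.flip.Rt p :=
  have e : ∀ {c : K}, c ^ p = c → (-c) ^ p = -c := fun h =>
    (map_neg (frobenius K p) _).trans (congrArg _ h)
  ⟨e h.τ', e h.τ, e h.σ', e h.σ⟩

theorem cx_of {n : ℕ} (B : K[X][X]) (h1 : B ∈ Fil K n)
    (h2 : B.map (mapRingHom (frobenius K p)) = B)
    (h3 : eval₂RingHom (aeval x : K[X] →ₐ[K] L).toRingHom Z B ≠ 0)
    (h4 : eval₂RingHom (aeval x : K[X] →ₐ[K] L).toRingHom y B = 0) : Cx p K n x y :=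
  ⟨B, fun h => h3 (by rw [h, map_zero]), h1, fun i j => by
    simpa [frobenius_def] using congrArg (fun B : K[X][X] => (B.coeff i).coeff j) h2, h4⟩

theorem cx_const {n : ℕ} (hn : 0 < n) {c : K} (hc : c ^ p = c) :
    Cx p K n x (algebraMap K L c) :=
  cx_of (Z := algebraMap K L c + 1) (X - C (C c))
    (Fil_mono (sub_mem Fil_X (Fil_mono (Ch.Fil_CC c) zero_le_one)) hn)
    (by simp [frobenius_def, hc]) (by simp) (by simp)

theorem cx_tri (hab : Hab K a b) (he : 0 < e) (hc : Cov p K t) (hβ : β.Rt p) (hγ : γ.Rt p)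
    (h0 : γ.Ok) (hx : Sh a b β t (x ^ e)) (h : Tri a b β γ (x ^ e) (y ^ e) Z) :
    Cx p K (3 * (e * (a.natAbs * b))) x y := by
  obtain ⟨y0, z0, e1, e2⟩ := h
  obtain ⟨x0, u0, U0, e3⟩ := hx
  have b0 := hab.b0
  have c0 : ∀ c : K, c ≠ 0 → algebraMap K L c ≠ 0 := fun c => (_root_.map_ne_zero _).2
  have f1 : ∀ (c : K) (n : ℕ), (C (C c) : K[X][X]) ∈ Fil K n := fun c n =>
    Fil_mono (Ch.Fil_CC c) n.zero_le
  have f2 : ∀ (c : K) (n : ℕ), (C (C c) * (X ^ e) ^ n : K[X][X]) ∈ Fil K (n * e) := fun c n => by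
    simpa using Fil_mul (f1 c 0) (Fil_pow (Fil_pow Fil_X e) n)
  have f3 : ∀ (c : K) (n : ℕ), (C (C c) * (C X ^ e) ^ n : K[X][X]) ∈ Fil K (n * e) := fun c n => by
    simpa using Fil_mul (f1 c 0) (Fil_pow (Fil_pow Fil_CX e) n)
  have f4 := sub_mem (f2 γ.τ b) (sub_mem (f3 β.τ b) (f1 β.τ' _))
  rw [sub_eq_iff_eq_add', ← sub_eq_iff_eq_add] at e1 e2
  simp only [Side.u, Side.U] at e1 e2 e3 u0 U0
  have z := Nat.zero_le (e * (a.natAbs * b))
  obtain ⟨n, rfl | rfl⟩ := a.eq_nat_or_neg <;>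
    simp only [Int.natAbs_neg, Int.natAbs_natCast] at z ⊢
  · have n0 : n ≠ 0 := fun h => hab.a0 (by simp [h])
    simp only [zpow_natCast] at e2 e3 U0
    refine cx_of (Z := 0) _ (sub_mem
      (Fil_mono (Fil_mul (f1 (γ.σ' ^ b) 0) (Fil_pow f4 n)) (by linarith))
      (Fil_mono (Fil_mul (f1 (γ.τ' ^ n) 0) (Fil_pow (sub_mem (f2 γ.σ n)
        (sub_mem (f3 β.σ n) (f1 β.σ' _))) b)) (by linarith)))
      (by simp [frobenius_def, hβ.τ, hβ.τ', hβ.σ, hβ.σ', hγ.τ, hγ.τ', hγ.σ, hγ.σ']) (fun h => ?_) ?_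
    · refine hc.nconst ((-1) ^ n * γ.σ' ^ b / ((-1) ^ b * γ.τ' ^ n)) ?_
      simp only [map_sub, map_mul, map_pow, coe_eval₂RingHom, eval₂_C, eval₂_X,
        AlgHom.toRingHom_eq_coe, RingHom.coe_coe, aeval_C, aeval_X, zero_pow he.ne',
        zero_pow b0.ne', zero_pow n0, mul_zero, zero_sub, neg_pow (_ - _), ← e3] at h
      rw [map_div₀, eq_div_iff (c0 _ (mul_ne_zero (by simp) (pow_ne_zero _ h0.τ')))]
      simp only [map_mul, map_pow, map_neg, map_one]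
      exact mul_right_cancel₀ (pow_ne_zero n u0) (by linear_combination -h)
    · simp only [map_sub, map_mul, map_pow, coe_eval₂RingHom, eval₂_C, eval₂_X,
        AlgHom.toRingHom_eq_coe, RingHom.coe_coe, aeval_C, aeval_X, e1, e2]
      ring
  · have n0 : n ≠ 0 := fun h => hab.a0 (by simp [h])
    simp only [zpow_neg, zpow_natCast] at e2
    refine cx_of (Z := 0) _ (sub_mem
      (Fil_mono (Fil_mul (Fil_pow f4 n) (Fil_pow (sub_mem (Fil_mono (f3 γ.σ n) (Nat.le_add_left _ _))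
        (Fil_mul (sub_mem (f1 β.σ _) (f3 β.σ' n)) (f2 1 n))) b))
        (by linarith))
      (Fil_mono (Fil_mul (f3 (γ.τ' ^ n) (n * b)) (f2 (γ.σ' ^ b) (n * b)))
        (by linarith)))
      (by simp [frobenius_def, hβ.τ, hβ.τ', hβ.σ, hβ.σ', hγ.τ, hγ.τ', hγ.σ, hγ.σ']) ?_ ?_
    · simp only [map_sub, map_mul, map_pow, coe_eval₂RingHom, eval₂_C, eval₂_X,
        AlgHom.toRingHom_eq_coe, RingHom.coe_coe, aeval_C, aeval_X, zero_pow he.ne',
        zero_pow b0.ne', zero_pow n0, zero_pow (mul_ne_zero n0 b0.ne'), mul_zero, zero_sub,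
        sub_zero]
      exact mul_ne_zero (pow_ne_zero _ (neg_ne_zero.2 u0))
        (pow_ne_zero _ (mul_ne_zero (c0 _ h0.σ) (pow_ne_zero _ x0)))
    · have e4 : algebraMap K L γ.σ * (x ^ e) ^ n - (algebraMap K L β.σ - algebraMap K L β.σ' *
          (x ^ e) ^ n) * (y ^ e) ^ n = algebraMap K L γ.σ' * (Z ^ n)⁻¹ * ((x ^ e) ^ n *
            (y ^ e) ^ n) := by
        rw [← e2]; field_simp
      simp only [map_sub, map_mul, map_pow, coe_eval₂RingHom, eval₂_C, eval₂_X, map_one, one_mul,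
        AlgHom.toRingHom_eq_coe, RingHom.coe_coe, aeval_C, aeval_X, e1, e4]
      simp only [mul_pow, inv_pow, ← pow_mul]
      field_simp
      ring

omit [Fact p.Prime] [CharP K p] in
theorem Dat.e_pos (D : Dat p K) : 0 < D.e := Nat.pos_of_ne_zero fun h => D.e0 (by simp [h])

omit [Fact p.Prime] [CharP K p] in
theorem Dat.sig_card (D : Dat p K) (hx : Sh D.a D.b β t (x ^ D.e)) :
    (D.Sig β x).Finite ∧ (D.Sig β x).ncard ≤ D.e ^ 4 * (2 * (D.a.natAbs * D.b)) := by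
  have hR : (D.R : Set K).Finite ∧ (D.R : Set K).ncard ≤ D.e :=
    ⟨D.R.finite_toSet, (Set.ncard_coe_finset _).trans_le D.Rc⟩
  have h := env_card hR fun τ h => env_card hR fun τ' h' => env_card
    (env_pairs D.hab (sd_ok D.s (D.R0 τ h).2 (D.R0 τ' h').2) hx) fun q _ =>
      env_card (env_root D.e_pos q.1) fun y _ => env_card (env_root D.e_pos q.2) fun z _ =>
        (⟨Set.finite_singleton _, (Set.ncard_singleton _).le⟩ :
          ({![algebraMap K L τ, algebraMap K L τ', y, z]} : Set (Fin 4 → L)).Finite ∧ _ ≤ 1)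
  suffices hs : D.Sig β x ⊆ _ from
    ⟨h.1.subset hs, (Set.ncard_le_ncard hs h.1).trans (h.2.trans (le_of_eq (by ring)))⟩
  exact fun s ⟨τ, h, τ', h', e0, e1, e2⟩ =>
    Set.mem_biUnion h (Set.mem_biUnion h' (Set.mem_biUnion (x := (s 2 ^ D.e, s 3 ^ D.e)) e2
      (Set.mem_biUnion (x := s 2) rfl (Set.mem_biUnion (x := s 3) rfl
        (funext fun i => by fin_cases i <;> simp [e0, e1])))))

/-- the density theorem for the set of all solutions -/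
theorem Dat.cheb [IsAlgClosed K] (D : Dat p K) (h : GE D.a D.b D.e p β t)
    (hp : 12544 * D.H ^ 29 < p) (hx : Sh D.a D.b β t (x ^ D.e)) (bad : Finset K) (hb : bad.card ≤ D.H) {M : ℕ}
    (hM : ∀ x₀ : K, x₀ ^ p = x₀ → x₀ ∉ bad → ∀ l : Loc K (x - algebraMap K L x₀),
      ∀ ψ ∈ Fr p K x, l.P.Frb p ψ → fixN ψ (D.Sig β x) = M) :
    ∀ ψ ∈ Fr p K x, fixN ψ (D.Sig β x) = M := by
  have e0 := D.e_pos
  have b0 := D.hab.b0
  obtain ⟨n, hn⟩ : ∃ n, n = D.a.natAbs + D.b := ⟨_, rfl⟩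
  have n0 : 0 < n := by omega
  have h1 : 2 * (D.a.natAbs * D.b) ≤ n ^ 4 := le_trans (by
    rw [hn, add_sq]; linarith [Nat.zero_le (D.a.natAbs ^ 2), Nat.zero_le (D.b ^ 2)])
    (Nat.pow_le_pow_right n0 (show 2 ≤ 4 by norm_num))
  have h2 : D.H = 10 * (D.e ^ 4 * n ^ 4) := by rw [Dat.H, ← hn, mul_pow]
  have h3 : 0 < D.e ^ 4 * n ^ 4 := by positivity
  have h4 := Nat.mul_le_mul (Nat.le_self_pow (show 4 ≠ 0 by norm_num) D.e) h1
  have h5 := Nat.mul_le_mul_left (D.e ^ 4) h1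
  refine NW.cheb place p K L x (Fin 4) _ bad D.H M (sh_cov h.cov hx)
    (sh_fr_ne D.hab h.cov h.rt h.fr hx) (D.sig_card hx).1 ?_ ?_ ?_ (by omega) (by simp; omega)
    ((D.sig_card hx).2.trans (by omega)) hb hp hM
  · rintro g hg s ⟨τ, h1, τ', h2, e1, e2, e3⟩
    refine ⟨τ, h1, τ', h2, (congrArg g e1).trans (hg.1 _), (congrArg g e2).trans (hg.1 _), ?_⟩
    simpa only [map_pow, hg.2] using e3.map hg
  · rintro g hg s ⟨τ, h1, τ', h2, e1, e2, e3⟩
    refine ⟨τ, h1, τ', h2, (congrArg g e1).trans ((hg.1 _).trans (congrArg _ (D.R0 _ h1).1)),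
      (congrArg g e2).trans ((hg.1 _).trans (congrArg _ (D.R0 _ h2).1)), ?_⟩
    simpa only [map_pow, hg.2] using e3.fr hg h.rt (sd_rt _ _ (D.R0 _ h1).1 (D.R0 _ h2).1)
  · rintro s ⟨τ, a1, τ', a2, e1, e2, e3⟩ i
    have r := sd_rt p D.s (D.R0 _ a1).1 (D.R0 _ a2).1
    have o := sd_ok D.s (D.R0 _ a1).2 (D.R0 _ a2).2
    have m : ∀ {y}, Cx p K (3 * (D.e * (D.a.natAbs * D.b))) x y → Cx p K D.H x y :=
      fun ⟨B, c1, c2, c3⟩ => ⟨B, c1, Fil_mono c2 (by linarith), c3⟩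
    fin_cases i
    · exact e1 ▸ cx_const (by omega) (D.R0 _ a1).1
    · exact e2 ▸ cx_const (by omega) (D.R0 _ a2).1
    · exact m (cx_tri D.hab e0 h.cov h.rt r o hx e3)
    · exact m (cx_tri D.hab e0 h.cov h.rt r.flip o.flip hx (tri_flip.2 e3))

end Pool.Agent.NW
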