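import Pool.Agent.Lib.MP_d40963_nt.W.Hab
import Pool.Agent.Lib.MP_d40963_nt.W.CLin
import Pool.Agent.Lib.MP_d40963_nt.Nice

/-! The arithmetic data of a nice exponent. -/

namespace Pool.Agent.NW

open Pool.Agent.Lib.MP_d40963_nt

variable {p : ℕ} [Fact p.Prime] {K : Type} [Field K] [CharP K p] {s : ℕ}

theorem rat_ex {x : K} (h : x ^ p = x) : ∃ a : ZMod p, ZMod.castHom (dvd_refl p) K a = x :=
  let ⟨a, _, e⟩ := Finset.mem_map.1 (Ch.mem_FP.2 h)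
  ⟨a, e⟩

theorem rat_cast (a : ZMod p) :
    ZMod.castHom (dvd_refl p) K a ^ p = ZMod.castHom (dvd_refl p) K a := by
  rw [← map_pow, ZMod.pow_card]

theorem sol_card (hs : Odd s) {a1 : ZMod p} (h1 : a1 ≠ 0) (a2 : ZMod p) :
    (Sol p s (ZMod.castHom (dvd_refl p) K a1) (ZMod.castHom (dvd_refl p) K a2)).ncard =
      Nv s (a2 / a1 ^ s) := by
  set ι := ZMod.castHom (dvd_refl p) K
  have h2 := pow_ne_zero s h1
  refine (Set.ncard_congr (t := Sol p s (ι a1) (ι a2)) (s := {xy : ZMod p × ZMod p | xy.1 + xy.2 = 1 ∧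
    xy.1 ^ s + xy.2 ^ s = a2 / a1 ^ s}) (fun q _ => (ι (a1 * q.1), ι (-(a1 * q.2))))
    (fun q hq => ⟨rat_cast _, rat_cast _, ?_, ?_⟩) (fun q q' _ _ h => ?_) ?_).symm
  · rw [← map_sub, sub_neg_eq_add, ← mul_add, hq.1, mul_one]
  · rw [← map_pow, ← map_pow, ← map_sub, hs.neg_pow, sub_neg_eq_add, mul_pow, mul_pow, ← mul_add,
      hq.2, mul_div_cancel₀ _ h2]
  · obtain ⟨e1, e2⟩ := Prod.mk.inj h
    exact Prod.ext (mul_left_cancel₀ h1 (ι.injective e1))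
      (mul_left_cancel₀ h1 (neg_injective (ι.injective e2)))
  · rintro ⟨x, y⟩ ⟨a, b, c, d⟩
    obtain ⟨x, rfl⟩ := rat_ex a
    obtain ⟨y, rfl⟩ := rat_ex b
    have c' : x - y = a1 := ι.injective ((map_sub ι _ _).trans c)
    have d' : x ^ s - y ^ s = a2 := ι.injective (by rwa [map_sub, map_pow, map_pow])
    refine ⟨(x / a1, -y / a1), ⟨?_, ?_⟩, by simp [ι, mul_div_cancel₀ _ h1]⟩
    · rw [← add_div, ← sub_eq_add_neg, c', div_self h1]
    · rw [div_pow, div_pow, hs.neg_pow, ← add_div, ← sub_eq_add_neg, d']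

theorem nice_vals (h2 : (2 : ZMod p) ≠ 0) (h0 : Nv s (0 : ZMod p) = 0)
    (hn : (Set.range fun v : ZMod p => Nv s v).ncard ≤ 3) : ∃ m,
      (∀ v : ZMod p, 2 / 2 ^ s ≠ v → Nv s v ≠ 0 → Nv s v = m) ∧
      ∃ t, p = Nv s (2 / 2 ^ s : ZMod p) + m * t := by
  have e : (2⁻¹ : ZMod p) ^ s + (1 - 2⁻¹) ^ s = 2 / 2 ^ s := by
    rw [show (1 - 2⁻¹ : ZMod p) = 2⁻¹ by field_simp; ring, inv_pow, div_eq_mul_inv, two_mul]
  obtain ⟨m, hm⟩ : ∃ m, ∀ v : ZMod p, 2 / 2 ^ s ≠ v → Nv s v ≠ 0 → Nv s v = m := by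
    by_contra hc
    push Not at hc
    obtain ⟨v, a1, a2, -⟩ := hc 0
    obtain ⟨w, b1, b2, b3⟩ := hc (Nv s v)
    have c1 := Nv_parity s h2 (2 / 2 ^ s)
    have c2 := Nv_parity s h2 v
    have c3 := Nv_parity s h2 w
    rw [e] at c1 c2 c3
    rw [if_pos rfl] at c1
    rw [if_neg a1] at c2
    rw [if_neg b1] at c3
    have := (Set.three_lt_ncard (Set.finite_range fun v : ZMod p => Nv s v)).2
      ⟨_, ⟨0, rfl⟩, _, ⟨2 / 2 ^ s, rfl⟩, _, ⟨v, rfl⟩, _, ⟨w, rfl⟩, by simp only []; omega⟩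
    omega
  have h := Finset.card_eq_sum_card_fiberwise (s := Finset.univ) (t := Finset.univ)
    (f := fun x : ZMod p => x ^ s + (1 - x) ^ s) fun _ _ => Finset.mem_univ _
  simp only [← Nv_eq] at h
  rw [Finset.card_univ, ZMod.card, ← Finset.add_sum_erase _ _ (Finset.mem_univ (2 / 2 ^ s))] at h
  obtain ⟨t, ht⟩ := Finset.dvd_sum (a := m) (s := Finset.univ.erase (2 / 2 ^ s : ZMod p))
    (f := fun v => Nv s v) fun v hv => by
      by_cases h : Nv s v = 0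
      · simp only [h, dvd_zero]
      · exact (hm v (Finset.ne_of_mem_erase hv).symm h).symm ▸ dvd_rfl
  exact ⟨m, hm, t, ht ▸ h⟩

theorem mk_dat (K : Type) [Field K] [CharP K p] {a : ℤ} {b e : ℕ} (hs : s.Coprime (p - 1))
    (hn : (Set.range fun v : ZMod p => Nv s v).ncard ≤ 3) (hab : Hab K a b)
    (he : ∀ j : ℕ, ((p - 1 : ℕ) : ℤ) ∣ j * (b * s - a) ↔ e ∣ j) :
    ∃ D : Dat p K, D.s = s ∧ D.a = a ∧ D.b = b ∧ D.e = e := by
  classical
  set ι := ZMod.castHom (dvd_refl p) K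
  have hp := (Fact.out : p.Prime).one_lt
  have h2 : (2 : ZMod p) ≠ 0 := fun h => hab.two (by rw [← map_ofNat ι, h, map_zero])
  have hodd : Odd s := (hs.coprime_dvd_right (even_iff_two_dvd.1 ((Fact.out : p.Prime).even_sub_one
    fun h => h2 (by subst h; rfl)))).odd_of_right
  have hi := pow_inj (F := ZMod p) hodd.pos.ne' (by rwa [ZMod.card])
  obtain ⟨m, m1, m2⟩ := nice_vals h2 (Nv_zero hodd hi) hn
  obtain ⟨q, hq⟩ : e ∣ p - 1 := (he _).1 (dvd_mul_right _ _)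
  have he0 : 0 < e := Nat.pos_of_mul_pos_right (hq ▸ Nat.sub_pos_of_lt hp)
  have hq0 : 0 < q := Nat.pos_of_mul_pos_left (hq ▸ Nat.sub_pos_of_lt hp)
  obtain ⟨g₀, hg₀⟩ := IsCyclic.exists_ofOrder_eq_natCard (α := (ZMod p)ˣ)
  rw [Nat.card_eq_fintype_card, ZMod.card_units] at hg₀
  have hg : IsPrimitiveRoot (ι g₀) (p - 1) :=
    (IsPrimitiveRoot.coe_units_iff.2 (hg₀ ▸ IsPrimitiveRoot.orderOf g₀)).map_of_injective
      ι.injective
  obtain ⟨g, hgg⟩ : ∃ g, g = ι g₀ := ⟨_, rfl⟩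
  have g1 : g ^ p = g := hgg ▸ rat_cast _
  rw [← hgg] at hg
  have g0 : g ≠ 0 := hg.ne_zero (by omega)
  have r1 : ∀ r : K, r ^ p = r → r ≠ 0 → r ^ (p - 1) = 1 := fun r h h0 =>
    mul_right_cancel₀ h0 (by rw [← pow_succ, Nat.sub_add_cancel hp.le, h, one_mul])
  have r2 : ∀ r : K, r ^ e = 1 → r ^ p = r := fun r h => by
    rw [← Nat.sub_add_cancel hp.le, hq, pow_succ, pow_mul, h, one_pow, one_mul]
  have r3 : ∀ (r : K) (j : ℤ), r ^ p = r → (r ^ j) ^ p = r ^ j := fun r j h => by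
    rw [← zpow_natCast, ← zpow_mul, mul_comm, zpow_mul, zpow_natCast, h]
  have spl : ∀ r : K, r ≠ 0 → (r ^ s) ^ b = r ^ ((b : ℤ) * s - a) * r ^ a := fun r h0 => by
    rw [← zpow_add₀ h0, sub_add_cancel, ← pow_mul, mul_comm, ← Nat.cast_mul, zpow_natCast]
  have key : ∀ r : K, r ^ p = r → r ≠ 0 → ((r ^ e) ^ b) ^ s = (r ^ e) ^ a := fun r h h0 => by
    obtain ⟨c, hc⟩ := (he e).2 dvd_rfl
    rw [pow_right_comm, spl _ (pow_ne_zero _ h0), ← zpow_natCast r e, ← zpow_mul, hc, zpow_mul,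
      zpow_natCast, r1 r h h0, one_zpow, one_mul]
  have hζ : IsPrimitiveRoot (g ^ ((b : ℤ) * s - a)) e := (IsPrimitiveRoot.iff_def _ _).2 ⟨by
    rw [← zpow_natCast, ← zpow_mul, hg.zpow_eq_one_iff_dvd, mul_comm, he], fun l h => by
    rwa [← zpow_natCast, ← zpow_mul, hg.zpow_eq_one_iff_dvd, mul_comm, he] at h⟩
  have := NeZero.mk he0.ne'
  have := NeZero.mk (Nat.sub_pos_of_lt hp).ne'
  refine ⟨⟨s, a, b, e, (Finset.range e).image (g ^ ·), m, _, hab, fun h => ?_, hodd,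
    fun x y hx hy h => ?_, fun c hc => ?_, key, fun ω hω => ?_, fun τ hτ => ?_,
    Finset.mem_image.2 ⟨0, Finset.mem_range.2 he0, pow_zero g⟩,
    Finset.card_image_le.trans (Finset.card_range e).le, fun c hc c0 => ?_,
    fun x1 x2 a1 a2 hne h => ?_, rfl, ?_⟩, rfl, rfl, rfl, rfl⟩
  · have := Nat.le_of_dvd he0 ((CharP.cast_eq_zero_iff K p e).1 h)
    have := Nat.le_of_dvd (Nat.sub_pos_of_lt hp) ⟨q, hq⟩
    omega
  · obtain ⟨x, rfl⟩ := rat_ex hx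
    obtain ⟨y, rfl⟩ := rat_ex hy
    exact congrArg ι (hi x y (ι.injective (by rwa [map_pow, map_pow])))
  · obtain ⟨c, rfl⟩ := rat_ex hc
    obtain ⟨x, rfl⟩ := Finite.surjective_of_injective (f := fun x : ZMod p => x ^ s) hi c
    exact ⟨ι x, rat_cast x, (map_pow ι x s).symm⟩
  · obtain ⟨j, -, rfl⟩ := hζ.eq_pow_of_pow_eq_one hω
    refine ⟨g ^ j, by rw [pow_right_comm, g1], pow_ne_zero _ g0, ?_⟩
    rw [spl _ (pow_ne_zero _ g0), ← zpow_natCast g j, ← zpow_natCast _ j, ← zpow_mul, ← zpow_mul,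
      ← zpow_mul, mul_comm (j : ℤ)]
  · obtain ⟨j, -, rfl⟩ := Finset.mem_image.1 hτ
    exact ⟨by rw [pow_right_comm, g1], pow_ne_zero _ g0⟩
  · obtain ⟨j, -, rfl⟩ := hg.eq_pow_of_pow_eq_one (r1 c hc c0)
    obtain ⟨u, v, huv⟩ := Int.isCoprime_iff_gcd_eq_one.2 (show Int.gcd a b = 1 from hab.cop)
    obtain ⟨h, hh⟩ : ∃ h, h = g ^ (j / e) := ⟨_, rfl⟩
    have h0 : h ≠ 0 := hh ▸ pow_ne_zero _ g0
    have h1 : h ^ p = h := by rw [hh, pow_right_comm, g1]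
    obtain ⟨r, hr⟩ : ∃ r, r = h ^ (u * s + v) := ⟨_, rfl⟩
    have r0 : r ≠ 0 := hr ▸ zpow_ne_zero _ h0
    have r4 : r ^ p = r := hr ▸ r3 _ _ h1
    have r5 : g ^ (j % e) * (r ^ e) ^ b = g ^ j := by
      have : (r ^ e) ^ b = (((h ^ e) ^ b) ^ s) ^ u * (h ^ e) ^ (v * b) := by
        simp only [hr, ← zpow_natCast, ← zpow_mul, ← zpow_add₀ h0]
        congr 1
        ring
      rw [this, key h h1 h0, ← zpow_mul, ← zpow_add₀ (pow_ne_zero _ h0), mul_comm a, huv, zpow_one,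
        hh, ← pow_mul, ← pow_add, mul_comm, Nat.mod_add_div]
    refine Eq.trans ?_ ((Set.ncard_coe_finset _).trans hζ.card_nthRootsFinset)
    refine (Set.ncard_congr (fun ω _ => (g ^ (j % e), ω * r)) (fun ω hω => ?_)
      (fun _ _ _ _ h => mul_right_cancel₀ r0 (Prod.mk.inj h).2) ?_).symm
    · have hω := (Polynomial.mem_nthRootsFinset he0 1).1 hω
      exact ⟨Finset.mem_image_of_mem _ (Finset.mem_range.2 (Nat.mod_lt _ he0)),
        by rw [mul_pow, r2 ω hω, r4], by rw [mul_pow, hω, one_mul, r5]⟩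
    · rintro ⟨τ, z⟩ ⟨b1, b2, b3⟩
      obtain ⟨i, hi, rfl⟩ := Finset.mem_image.1 b1
      have z0 : z ≠ 0 := fun h => c0 (by
        rw [← b3]; simp [show z = 0 from h, he0.ne', hab.b0.ne'])
      have b4 : ∀ (i : ℕ) (z : K), z ^ p = z → z ≠ 0 → (g ^ i * (z ^ e) ^ b) ^ q = (g ^ q) ^ i :=
        fun i z h h0 => by
          rw [mul_pow, pow_right_comm (z ^ e), ← pow_mul z, ← hq, r1 z h h0, one_pow, mul_one,
            pow_right_comm]
      obtain rfl : i = j % e := (hg.pow (by omega) (hq.trans (mul_comm _ _))).pow_inj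
        (Finset.mem_range.1 hi) (Nat.mod_lt _ he0) (by
          rw [← b4 i z b2 z0, ← b4 _ r r4 r0, r5]; exact congrArg (· ^ q) b3)
      have b5 : (z ^ e) ^ b = (r ^ e) ^ b := mul_left_cancel₀ (pow_ne_zero _ g0) (b3.trans r5.symm)
      have b6 := hab.pow_inj (pow_ne_zero e z0) (pow_ne_zero e r0) b5
        (by rw [← key z b2 z0, ← key r r4 r0, b5])
      exact ⟨z / r, (Polynomial.mem_nthRootsFinset he0 1).2
        (by rw [div_pow, b6, div_self (pow_ne_zero _ r0)]), by rw [div_mul_cancel₀ _ r0]⟩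
  · obtain ⟨x1, rfl⟩ := rat_ex a1
    obtain ⟨x2, rfl⟩ := rat_ex a2
    have w0 : x1 - x2 ≠ 0 := sub_ne_zero.2 fun e => hne (congrArg ι e)
    have e1 := sol_card (K := K) hodd w0 (x1 ^ s - x2 ^ s)
    rw [map_sub, map_sub, map_pow, map_pow] at e1
    rw [e1]
    refine m1 _ (fun e => h (ι ((x1 - x2) / 2)) ⟨rat_cast _, ?_, ?_, ?_⟩) ?_
    · rw [← map_neg]; exact rat_cast _
    · rw [← map_neg, ← map_sub, ← map_sub]
      exact congrArg ι (by field_simp; ring)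
    · rw [← map_neg, ← map_pow, ← map_pow, ← map_pow, ← map_pow, ← map_sub, ← map_sub]
      refine congrArg ι ?_
      rw [hodd.neg_pow, div_pow, ← (eq_div_iff (pow_ne_zero s w0)).1 e]
      ring
    · rw [Nv_eq]
      refine (Finset.card_pos.2 ⟨x1 / (x1 - x2), Finset.mem_filter.2 ⟨Finset.mem_univ _, ?_⟩⟩).ne'
      rw [show 1 - x1 / (x1 - x2) = -x2 / (x1 - x2) by field_simp; ring, div_pow, div_pow,
        hodd.neg_pow, ← add_div, ← sub_eq_add_neg]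
  · have e1 := sol_card (K := K) hodd h2 2
    rw [map_ofNat] at e1
    exact e1 ▸ m2

end Pool.Agent.NW
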