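import Pool.Agent.Lib.MP_d40963_nt.W.Ap

/-! Reduction of a split polynomial at a place. -/

namespace Pool.Agent.NW

open Polynomial
open scoped Classical

variable {K L : Type} [Field K] [Field L] [Algebra K L]

/-- Induction on `s`: an integral `Y` with residue `y0` adds `y0` to `r`; if `Y` has a pole,
replace `c` by `- Y * c`, as `(v - Y) / (-Y) = 1 - v * Y⁻¹` has residue `1` (`Pl.tri`). -/
theorem red_prod (P : Pl K L) (s : Multiset L) : ∃ (c : L) (r : Multiset K), c ≠ 0 ∧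
    (∀ y0, s.countP (fun Y => P.Ap Y 0 y0) = r.count y0) ∧
    ∀ v : K, P.Ap ((s.map fun Y => algebraMap K L v - Y).prod * c⁻¹) 0
      (r.map fun y => v - y).prod := by
  induction s using Multiset.induction_on with
  | empty => exact ⟨1, 0, one_ne_zero, fun _ => by simp, fun v => by simpa using Pl.one⟩
  | cons Y s ih =>
    obtain ⟨c, r, hc, h1, h2⟩ := ih
    by_cases hY : ∃ y, P.Ap Y 0 y
    · obtain ⟨y, hy⟩ := hY
      refine ⟨c, y ::ₘ r, hc, fun y0 => ?_, fun v => ?_⟩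
      · rw [Multiset.countP_cons, Multiset.count_cons, h1]
        congr 1
        exact if_congr ⟨fun h => P.uniq h hy, fun h => h ▸ hy⟩ rfl rfl
      · rw [Multiset.map_cons, Multiset.map_cons, Multiset.prod_cons, Multiset.prod_cons, mul_assoc]
        exact P.mul (Pl.sub (P.const v) hy) (h2 v)
    · have h0 : Y ≠ 0 := fun e => hY ⟨0, e ▸ P.zero 0⟩
      refine ⟨-Y * c, r, mul_ne_zero (neg_ne_zero.2 h0) hc, fun y0 => ?_, fun v => ?_⟩
      · rw [Multiset.countP_cons_of_neg (p := fun Y => P.Ap Y 0 y0) s fun h => hY ⟨y0, h⟩, h1]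
      · have h3 := P.mul (Pl.sub Pl.one (Pl.smul v ((P.tri Y).resolve_left hY))) (h2 v)
        rw [mul_zero, sub_zero, one_mul, add_zero] at h3
        have e : (algebraMap K L v - Y) * (s.map fun Y => algebraMap K L v - Y).prod * (-Y * c)⁻¹ =
            (1 - algebraMap K L v * Y⁻¹) *
              ((s.map fun Y => algebraMap K L v - Y).prod * c⁻¹) := by
          field_simp
          ring
        rw [Multiset.map_cons, Multiset.prod_cons, e]
        exact h3

/-- `Q (v) = lc Q * c * (prod * c⁻¹)`; at a `v` with `q (v) ≠ 0` off `r` one sees that `lc Q * c`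
is a unit with residue `c0`; so `q = c0 * prod (X - r)` (`Polynomial.funext`). -/
theorem red [Infinite K] (P : Pl K L) {Q : L[X]} (hQ : Q.Splits) {q : K[X]} (hq : q ≠ 0)
    (h : ∀ v : K, P.Ap (Q.eval (algebraMap K L v)) 0 (q.eval v)) (y0 : K) :
    Q.roots.countP (fun Y => P.Ap Y 0 y0) = q.rootMultiplicity y0 := by
  obtain ⟨c, r, hc, hr, hp⟩ := red_prod P Q.roots
  have he : ∀ v : K, (r.map fun y => X - C y).prod.eval v = (r.map fun y => v - y).prod :=
    fun v => by simp [eval_multiset_prod]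
  obtain ⟨v0, hv⟩ : ∃ v : K, (r.map fun y => v - y).prod ≠ 0 := by
    by_contra hn
    refine (monic_multiset_prod_of_monic r _ fun y _ => monic_X_sub_C y).ne_zero
      (Polynomial.funext fun v => ?_)
    rw [he, eval_zero]
    exact not_not.1 fun h1 => hn ⟨v, h1⟩
  have hf : ∀ v : K, Q.eval (algebraMap K L v) = Q.leadingCoeff * c *
      ((Q.roots.map fun Y => algebraMap K L v - Y).prod * c⁻¹) := fun v => by
    rw [hQ.eval_eq_prod_roots, mul_mul_mul_comm, mul_inv_cancel₀ hc, mul_one]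
  have h1 := Pl.div (h v0) (hp v0) hv
  rw [hf, mul_div_assoc, div_self (Pl.ne (hp v0) hv), mul_one, sub_zero] at h1
  obtain ⟨c0, h2⟩ : ∃ c0, P.Ap (Q.leadingCoeff * c) 0 c0 := ⟨_, h1⟩
  have h3 : q = C c0 * (r.map fun y => X - C y).prod := Polynomial.funext fun v => by
    have h4 := P.mul h2 (hp v)
    rw [← hf, add_zero] at h4
    rw [eval_mul, eval_C, he]
    exact P.uniq (h v) h4
  have h4 : c0 ≠ 0 := fun e => hq (by rw [h3, e, C_0, zero_mul])
  rw [hr, ← count_roots, h3, roots_C_mul _ h4, roots_multiset_prod_X_sub_C]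

/-- a simple root of the reduction has exactly one root above it -/
theorem red_one [Infinite K] (P : Pl K L) {Q : L[X]} (hQ : Q.Splits) {q : K[X]} (hq : q ≠ 0)
    (h : ∀ v : K, P.Ap (Q.eval (algebraMap K L v)) 0 (q.eval v)) {y0 : K}
    (h1 : q.rootMultiplicity y0 = 1) : ∃! Y, Q.eval Y = 0 ∧ P.Ap Y 0 y0 := by
  have h2 := (red P hQ hq h y0).trans h1
  have h0 : Q ≠ 0 := fun e => by simp [e] at h2
  rw [Multiset.countP_eq_card_filter, Multiset.card_eq_one] at h2
  obtain ⟨Y, hY⟩ := h2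
  have h3 : ∀ Z, Q.eval Z = 0 ∧ P.Ap Z 0 y0 ↔ Z = Y := fun Z => by
    rw [← Multiset.mem_singleton (a := Y), ← hY, Multiset.mem_filter, mem_roots h0, IsRoot.def]
  exact ⟨Y, (h3 Y).2 rfl, fun Z hZ => (h3 Z).1 hZ⟩

theorem red_ex [Infinite K] (P : Pl K L) {Q : L[X]} (hQ : Q.Splits) {q : K[X]} (hq : q ≠ 0)
    (h : ∀ v : K, P.Ap (Q.eval (algebraMap K L v)) 0 (q.eval v)) {y0 : K}
    (h1 : q.eval y0 = 0) : ∃ Y, Q.eval Y = 0 ∧ P.Ap Y 0 y0 := by
  have h2 := ((rootMultiplicity_pos hq).2 h1).trans_eq (red P hQ hq h y0).symm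
  obtain ⟨Y, hY, h3⟩ := Multiset.countP_pos.1 h2
  exact ⟨Y, isRoot_of_mem_roots hY, h3⟩

end Pool.Agent.NW
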