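import Pool.Agent.Lib.MP_d40963_nt.W.GP
import Pool.Agent.Lib.MP_d40963_nt.W.GN

/-! The choice of the base side. -/

namespace Pool.Agent.NW

variable {p : ℕ} {K : Type} [Field K]

theorem Dat.side (D : Dat p K) {ω ω' : K} (h : ω ^ D.e = 1) (h' : ω' ^ D.e = 1) (hne : ω ≠ ω') :
    ∃ τ τ' : K, τ ^ p = τ ∧ τ ≠ 0 ∧ τ' ^ p = τ' ∧ τ' ≠ 0 ∧ (τ ^ D.s) ^ D.b = ω * τ ^ D.a ∧
      (τ' ^ D.s) ^ D.b = ω' * τ' ^ D.a ∧ NoC D.a D.b (sd D.s τ τ') := by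
  obtain ⟨τ, a1, a2, a3⟩ := D.tw ω h
  obtain ⟨τ', b1, b2, b3⟩ := D.tw ω' h'
  refine ⟨τ, τ', a1, a2, b1, b2, a3, b3, noC_of D.hab (sd_ok _ a2 b2) fun e => hne ?_⟩
  simp only [sd, a3, b3] at e
  exact mul_right_cancel₀ (mul_ne_zero (zpow_ne_zero D.a a2) (zpow_ne_zero D.a b2))
    (by linear_combination e)

theorem sel_scale {s b : ℕ} {τ τ' l y : K} (hl : l ≠ 0) (h : (l ^ s) ^ b = -l) :
    (Sh 1 b (sd s τ τ') (-1 : K) y → Sh 1 b (sd s (l * τ) (l * τ')) (1 : K) y) ∧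
      (Crit 1 b (sd s (l * τ) (l * τ')) y → Crit 1 b (sd s τ τ') y) ∧
      (NoC 1 b (sd s τ τ') → NoC 1 b (sd s (l * τ) (l * τ'))) := by
  have e1 : ∀ y : K, (sd s (l * τ) (l * τ')).u b y = l * (sd s τ τ').u b y := fun y => by
    simp only [Side.u_self, sd]; ring
  have e2 : ∀ y : K, (sd s (l * τ) (l * τ')).U 1 y = l ^ s * (sd s τ τ').U 1 y := fun y => by
    simp only [Side.U_self, sd]; ring
  have l0 := pow_ne_zero s hl
  refine ⟨fun ⟨a1, a2, a3, a4⟩ => ⟨a1, e1 y ▸ mul_ne_zero hl a2, e2 y ▸ mul_ne_zero l0 a3, ?_⟩,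
    fun c => mul_left_cancel₀ (mul_ne_zero hl l0) ?_, fun hn y y0 c =>
      e2 y ▸ mul_ne_zero l0 (hn y y0 ((mul_eq_zero.1 (e1 y ▸ c)).resolve_left hl))⟩
  · rw [e1, e2, mul_pow, h, ← a4, zpow_one, zpow_one]; ring
  · simp only [Crit, sd, mul_pow] at c ⊢
    linear_combination c

theorem Dat.sel [Fact p.Prime] [IsAlgClosed K] [CharP K p] (D : Dat p K)
    (hne : ¬ (D.e = 1 ∧ (D.a = 1 ∨ D.a = -1 ∧ D.b = 1))) :
    ∃ τ τ' : K, τ ^ p = τ ∧ τ ≠ 0 ∧ τ' ^ p = τ' ∧ τ' ≠ 0 ∧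
      ∀ (L : Type) [Field L] [Algebra K L] (t : L), GE D.a D.b D.e p (sd D.s τ τ') t →
        Goal D.a D.b D.e p (sd D.s τ τ') t := by
  have hab := D.hab
  have := NeZero.mk D.e0
  have e0 : D.e ≠ 0 := fun h => D.e0 (by simp [h])
  have := NeZero.mk e0
  obtain ⟨ζ, hζ⟩ := HasEnoughRootsOfUnity.exists_primitiveRoot K D.e
  have z1 := hζ.pow_eq_one
  have z0 := hζ.ne_zero e0
  have h1 : (1 : K) ^ D.e = 1 := one_pow _
  have one : (∀ (L : Type) [Field L] [Algebra K L] (t : L), GE D.a D.b D.e p (std : Side K) t →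
      Goal D.a D.b D.e p (std : Side K) t) → ∃ τ τ' : K, τ ^ p = τ ∧ τ ≠ 0 ∧ τ' ^ p = τ' ∧
      τ' ≠ 0 ∧ ∀ (L : Type) [Field L] [Algebra K L] (t : L), GE D.a D.b D.e p (sd D.s τ τ') t →
        Goal D.a D.b D.e p (sd D.s τ τ') t := fun h =>
    ⟨1, 1, one_pow _, one_ne_zero, one_pow _, one_ne_zero, sd_one (K := K) D.s ▸ h⟩
  rcases lt_or_gt_of_ne hab.a0 with ha | ha
  · rcases Nat.even_or_odd (dd D.a D.b) with hd | hd
    · rcases le_or_gt 2 D.b with hb | hb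
      · exact one fun L _ _ t h => gNE h ha hd hb
      have b1 : D.b = 1 := by have := hab.b0; omega
      have a1 : D.a = -1 := by have := hab.le; omega
      have z2 := hζ.ne_one (by omega)
      obtain ⟨ω, w1, w2, w3⟩ : ∃ ω : K, ω ^ D.e = 1 ∧ ω ≠ 1 ∧ ω ≠ 9 := by
        by_cases h : ζ = 9
        · refine ⟨ζ⁻¹, by rw [inv_pow, z1, inv_one], inv_ne_one.2 z2, fun e => ?_⟩
          refine hab.ne 80 (by norm_num) (by omega) ?_
          have := mul_inv_cancel₀ z0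
          rw [e, h] at this
          push_cast
          linear_combination this
        · exact ⟨ζ, z1, z2, h⟩
      obtain ⟨τ, τ', c1, c2, c3, c4, c5, c6, c7⟩ := D.side h1 w1 w2.symm
      refine ⟨τ, τ', c1, c2, c3, c4, fun L _ _ t => ?_⟩
      rw [a1, b1] at c5 c6 c7 ⊢
      refine fun h => gN1 h c7 fun e => ?_
      simp only [pow_one, zpow_neg_one] at c5 c6
      simp only [sd, c5, c6, mul_assoc, inv_mul_cancel₀ c2, inv_mul_cancel₀ c4] at e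
      exact mul_ne_zero (sub_ne_zero.2 w2) (sub_ne_zero.2 w3) (by linear_combination e)
    · have e1 : D.e ≠ 1 := fun e => by
        have k := D.key (-1) ((map_neg (frobenius K p) 1).trans (by simp)) (by simp)
        rw [e, pow_one, pow_right_comm, D.odd.neg_one_pow, ← zpow_natCast,
          ← div_eq_one_iff_eq (zpow_ne_zero _ (by simp)), ← zpow_sub₀ (by simp), ← hab.dd_eq,
          zpow_natCast, hd.neg_one_pow] at k
        exact hab.two (by linear_combination -k)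
      obtain ⟨τ, τ', c1, c2, c3, c4, -, -, c7⟩ := D.side h1 z1 (hζ.ne_one (by omega)).symm
      exact ⟨τ, τ', c1, c2, c3, c4, fun L _ _ t h => gNO h ha hd c7⟩
  rcases Int.even_or_odd D.a with hd | hd
  · exact one fun L _ _ t h => gPe h ha hd
  rcases le_or_gt 3 D.a with h3 | h3
  · exact one fun L _ _ t h => gP1 h h3 hd
  have a1 : D.a = 1 := by obtain ⟨k, hk⟩ := hd; omega
  suffices ∃ τ τ' : K, τ ^ p = τ ∧ τ ≠ 0 ∧ τ' ^ p = τ' ∧ τ' ≠ 0 ∧ NoC 1 D.b (sd D.s τ τ') ∧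
      ∃ y0 : K, Sh 1 D.b (sd D.s τ τ') (1 : K) y0 ∧ ¬ Crit 1 D.b (sd D.s τ τ') y0 by
    obtain ⟨τ, τ', c1, c2, c3, c4, c5, y0, c6, c7⟩ := this
    exact ⟨τ, τ', c1, c2, c3, c4, fun L _ _ t => a1 ▸ fun h => gP0 h c5 c6 c7⟩
  rw [a1] at hab
  have z2 := hζ.ne_one (by omega)
  by_cases e2 : D.e = 2
  · obtain ⟨τ, τ', c1, c2, c3, c4, c5, c6, c7⟩ := D.side h1 z1 z2.symm
    rw [a1] at c5 c6 c7
    rw [e2] at z1
    obtain ⟨c, y0, d1, d2, d3⟩ := unrP2 hab (sd_ok _ c2 c4) c7 (by simp [sd, c5])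
      (by simp [sd, c6, mul_pow, z1])
    rcases sq_eq_one_iff.1 d1 with rfl | rfl
    · exact ⟨τ, τ', c1, c2, c3, c4, c7, y0, d2, d3⟩
    · obtain ⟨l, l1, l2, l3⟩ := D.tw (-1) (by rw [e2]; simp)
      obtain ⟨s1, s2, s3⟩ := sel_scale (τ := τ) (τ' := τ') (y := y0) l2 (by simpa [a1] using l3)
      exact ⟨l * τ, l * τ', by rw [mul_pow, l1, c1], mul_ne_zero l2 c2, by rw [mul_pow, l1, c3],
        mul_ne_zero l2 c4, s3 c7, y0, s1 d2, fun h => d3 (s2 h)⟩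
  have z3 : ζ ^ 2 ≠ 1 := hζ.pow_ne_one_of_pos_of_lt (by norm_num) (by omega)
  rcases Nat.even_or_odd D.b with hb | hb
  · obtain ⟨τ, τ', c1, c2, c3, c4, c5, c6, c7⟩ := D.side h1 z1 z2.symm
    rw [a1, zpow_one] at c5 c6
    rw [a1] at c7
    refine ⟨τ, τ', c1, c2, c3, c4, c7, unrP0 hab (sd_ok _ c2 c4) c7 (fun h => z3 ?_)
      (.inr ⟨hb, by simpa [sd] using c5⟩)⟩
    simp only [Side.v0, sd, hb.neg_pow, c6, zpow_one, div_neg, mul_div_cancel_right₀ _ c4] at h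
    rw [← neg_sq, h, one_pow]
  · obtain ⟨τ, τ', c1, c2, c3, c4, c5, c6, c7⟩ := D.side z1 (ω' := ζ ^ 2)
      (by rw [pow_right_comm, z1, one_pow]) fun h => z2 (mul_left_cancel₀ z0 (by
        linear_combination -h))
    rw [a1, zpow_one] at c5 c6
    rw [a1] at c7
    refine ⟨τ, τ', c1, c2, c3, c4, c7, unrP0 hab (sd_ok _ c2 c4) c7 (fun h => z3 ?_)
      (.inl ⟨hb, fun h => z2 (mul_right_cancel₀ c2 (by rw [← c5, one_mul]; exact h))⟩)⟩
    simpa only [Side.v0, sd, hb.neg_pow, c6, zpow_one, neg_div_neg_eq,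
      mul_div_cancel_right₀ _ c4] using h

end Pool.Agent.NW
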