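import Pool.Agent.Lib.MP_d40963_nt.W.Hab
import Pool.Agent.Lib.MP_d40963_nt.W.Cov2

/-! Algebra of sheets and triples. -/

namespace Pool.Agent.NW

open Polynomial

variable {p : ℕ} {K L : Type} [Field K] [Field L] [Algebra K L] {a : ℤ} {b : ℕ} {β γ : Side K}
  {t x X Y W Z W' Z' : L} {g ψ : RingAut L}

theorem aeval_up (γ : Side K) (b : ℕ) (Y : L) : aeval Y (γ.up b) = γ.u b Y := by
  simp [Side.up, Side.u]

theorem aeval_Up_pow (hY : Y ≠ 0) (a : ℤ) : Y ^ a * Y ^ (-a).toNat = Y ^ a.toNat := by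
  rw [← zpow_natCast, ← zpow_natCast, ← zpow_add₀ hY]
  exact congrArg _ (by omega)

theorem aeval_Up (γ : Side K) (ha : a ≠ 0) (hY : Y ≠ 0) :
    aeval Y (γ.Up a) = γ.U a Y * Y ^ (-a).toNat := by
  simp only [Side.Up, Side.U, map_sub, map_mul, aeval_C, map_pow, aeval_X]
  rw [sub_mul, mul_assoc, aeval_Up_pow hY]

theorem sh_iff (h : Hab K a b) : Sh a b γ t Y ↔ Y ≠ 0 ∧ aeval Y (γ.D a b) ≠ 0 ∧
    aeval Y (γ.N a b) ≠ 0 ∧ t * aeval Y (γ.D a b) = aeval Y (γ.N a b) := by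
  refine and_congr_right fun hY => ?_
  simp only [Side.N, Side.D, map_mul, map_pow, aeval_up, aeval_Up γ h.a0 hY, aeval_X]
  have key : γ.u b Y ≠ 0 → (t * γ.u b Y ^ a = γ.U a Y ^ b ↔
      t * (γ.u b Y ^ a.toNat * Y ^ ((-a).toNat * b)) =
        (γ.U a Y * Y ^ (-a).toNat) ^ b * γ.u b Y ^ (-a).toNat) := fun hu => by
    rw [← aeval_Up_pow hu a, mul_pow, ← pow_mul, ← mul_left_inj'
      (mul_ne_zero (pow_ne_zero (-a).toNat hu) (pow_ne_zero ((-a).toNat * b) hY))]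
    constructor <;> intro e <;> linear_combination e
  refine ⟨fun ⟨hu, hU, e⟩ => ⟨mul_ne_zero (pow_ne_zero _ hu) (pow_ne_zero _ hY),
    mul_ne_zero (pow_ne_zero _ (mul_ne_zero hU (pow_ne_zero _ hY))) (pow_ne_zero _ hu),
    (key hu).1 e⟩, fun ⟨hD, hN, e⟩ => ?_⟩
  have hu : γ.u b Y ≠ 0 := fun z => by
    rcases lt_or_gt_of_ne h.a0 with l | l
    · exact hN (by rw [z, zero_pow (n := (-a).toNat) (by omega), mul_zero])
    · exact hD (by rw [z, zero_pow (n := a.toNat) (by omega), zero_mul])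
  exact ⟨hu, fun z => hN (by rw [z, zero_mul, zero_pow h.b0.ne', zero_mul]), (key hu).2 e⟩

theorem Sh.t_ne (h : Sh a b γ t Y) : t ≠ 0 := by
  intro e
  exact pow_ne_zero b h.2.2.1 (by rw [← h.2.2.2, e, zero_mul])

theorem Sh.t_eq (h : Sh a b γ t Y) : t = γ.U a Y ^ b / γ.u b Y ^ a := by
  exact eq_div_of_mul_eq (zpow_ne_zero _ h.2.1) h.2.2.2

theorem sh_flip : Sh a b γ.flip t Y ↔ Sh a b γ t Y⁻¹ := by
  by_cases hY : Y = 0
  · exact ⟨fun h => absurd hY h.1, fun h => absurd (inv_eq_zero.2 hY) h.1⟩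
  have e1 : γ.flip.u b Y = Y ^ b * γ.u b Y⁻¹ := by
    simp only [Side.flip, Side.u, map_neg, inv_pow]
    field_simp
    ring
  have e2 : γ.flip.U a Y = Y ^ a * γ.U a Y⁻¹ := by
    have := zpow_ne_zero a hY
    simp only [Side.flip, Side.U, map_neg, inv_zpow]
    field_simp
    ring
  have e3 : (Y ^ b) ^ a = (Y ^ a) ^ b := by
    rw [← zpow_natCast, ← zpow_natCast, ← zpow_mul, ← zpow_mul, mul_comm]
  rw [Sh, Sh, e1, e2, mul_zpow, mul_pow, e3, mul_left_comm,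
    mul_right_inj' (pow_ne_zero b (zpow_ne_zero a hY)), mul_ne_zero_iff_left (pow_ne_zero b hY),
    mul_ne_zero_iff_left (zpow_ne_zero a hY)]
  exact and_congr_left' (by simp)

theorem Sh.inv_std_flip (a : ℤ) (b : ℕ) (Y : L) :
    (std : Side K).flip.u b Y = -(std : Side K).u b Y ∧
      (std : Side K).flip.U a Y = -(std : Side K).U a Y := by
  simp only [Side.flip, Side.u, Side.U, std, map_neg]
  exact ⟨by ring, by ring⟩

theorem Sh.inv_std (h : Hab K a b) (hd : Even (dd a b)) (hY : Sh a b (std : Side K) t Y) :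
    Sh a b (std : Side K) t Y⁻¹ := by
  obtain ⟨ha, hb⟩ := h.odd hd
  refine sh_flip.1 ⟨hY.1, ?_⟩
  rw [(Sh.inv_std_flip a b Y).1, (Sh.inv_std_flip a b Y).2, ha.neg_zpow, hb.neg_pow, mul_neg,
    hY.2.2.2]
  exact ⟨neg_ne_zero.2 hY.2.1, neg_ne_zero.2 hY.2.2.1, rfl⟩

/-- for odd `d` one gets `t = -t` -/
theorem Sh.not_inv_std (h : Hab K a b) (hd : Odd (dd a b)) (hX : Sh a b (std : Side K) t X)
    (hY : Sh a b (std : Side K) t Y) : X * Y ≠ 1 := by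
  intro e
  rw [eq_inv_of_mul_eq_one_right e] at hY
  have h1 := (sh_flip.2 hY).2.2.2
  rw [(Sh.inv_std_flip a b X).1, (Sh.inv_std_flip a b X).2] at h1
  have h2 : (2 : L) ≠ 0 := fun z =>
    h.two ((algebraMap K L).injective ((map_ofNat _ 2).trans (z.trans (map_zero _).symm)))
  have h3 : Odd ((b : ℤ) - a) := h.dd_eq ▸ hd.natCast
  refine mul_ne_zero h2 (pow_ne_zero b hX.2.2.1) ?_
  rcases Nat.even_or_odd b with hb | hb
  · rw [((Int.odd_sub'.1 h3).2 hb.natCast).neg_zpow, hb.neg_pow] at h1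
    linear_combination -h1 - hX.2.2.2
  · rw [((Int.odd_sub.1 h3).1 hb.natCast).neg_zpow, hb.neg_pow] at h1
    linear_combination h1 - hX.2.2.2

theorem Sh.map_aux (hg : g (algebraMap K L γ.τ) = algebraMap K L γ.τ ∧
    g (algebraMap K L γ.τ') = algebraMap K L γ.τ' ∧ g (algebraMap K L γ.σ) = algebraMap K L γ.σ ∧
    g (algebraMap K L γ.σ') = algebraMap K L γ.σ') (ht : g t = t) (hY : Sh a b γ t Y) :
    Sh a b γ t (g Y) := by
  have e1 : γ.u b (g Y) = g (γ.u b Y) := by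
    simp only [Side.u, map_sub, map_mul, map_pow, hg.1, hg.2.1]
  have e2 : γ.U a (g Y) = g (γ.U a Y) := by
    simp only [Side.U, map_sub, map_mul, map_zpow₀, hg.2.2.1, hg.2.2.2]
  rw [Sh, e1, e2]
  refine ⟨(map_ne_zero g).2 hY.1, (map_ne_zero g).2 hY.2.1, (map_ne_zero g).2 hY.2.2.1, ?_⟩
  rw [← map_pow, ← hY.2.2.2, map_mul, map_zpow₀, ht]

theorem Sh.map {T : L} (hg : g ∈ Gx K T) (ht : g t = t) (hY : Sh a b γ t Y) :
    Sh a b γ t (g Y) := by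
  exact Sh.map_aux ⟨hg.1 _, hg.1 _, hg.1 _, hg.1 _⟩ ht hY

theorem Sh.fr {T : L} (hψ : ψ ∈ Fr p K T) (ht : ψ t = t) (hγ : γ.Rt p) (hY : Sh a b γ t Y) :
    Sh a b γ t (ψ Y) := by
  exact Sh.map_aux ⟨by rw [hψ.1, hγ.τ], by rw [hψ.1, hγ.τ'], by rw [hψ.1, hγ.σ],
    by rw [hψ.1, hγ.σ']⟩ ht hY

theorem Sh.nconst (hc : Cov p K t) (hY : Sh a b γ t Y) (c : K) : Y ≠ algebraMap K L c := by
  rintro rfl
  refine hc.nconst (γ.U a c ^ b / γ.u b c ^ a) (hY.t_eq.trans ?_)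
  simp only [Side.u, Side.U, map_div₀, map_pow, map_zpow₀, map_sub, map_mul, Algebra.algebraMap_self,
    RingHom.id_apply]

theorem Sh.ne_inv (hc : Cov p K t) (hY : Sh a b γ t Y) : Y ≠ Y⁻¹ := by
  intro e
  have h1 : Y * Y = 1 := by
    nth_rewrite 2 [e]
    exact mul_inv_cancel₀ hY.1
  rcases mul_self_eq_one_iff.1 h1 with z | z
  · exact hY.nconst hc 1 (by rw [z, map_one])
  · exact hY.nconst hc (-1) (by rw [z, map_neg, map_one])

theorem tri_flip : Tri a b β γ.flip X Z W ↔ Tri a b β γ X W Z := by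
  simp only [Tri, Side.flip, map_neg]
  constructor <;> rintro ⟨h1, h2, h3, h4⟩ <;>
    exact ⟨h2, h1, by linear_combination h3, by linear_combination h4⟩

theorem Tri.u (h : Tri a b β γ X W Z) : Z ^ b * γ.u b (W / Z) = β.u b X := by
  have := pow_ne_zero b h.2.1
  rw [← h.2.2.1, Side.u, div_pow]
  field_simp

theorem Tri.U (h : Tri a b β γ X W Z) : Z ^ a * γ.U a (W / Z) = β.U a X := by
  have := zpow_ne_zero a h.2.1
  rw [← h.2.2.2, Side.U, div_zpow]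
  field_simp

theorem Tri.sh (h : Tri a b β γ X W Z) (hX : Sh a b β t X) : Sh a b γ t (W / Z) := by
  obtain ⟨-, h1, h2, h3⟩ := hX
  rw [← h.u] at h1 h3
  rw [← h.U] at h2 h3
  refine ⟨div_ne_zero h.1 h.2.1, right_ne_zero_of_mul h1, right_ne_zero_of_mul h2,
    mul_left_cancel₀ (zpow_ne_zero (a * b) h.2.1) ?_⟩
  rw [mul_zpow, mul_pow, ← zpow_natCast Z, ← zpow_mul, ← zpow_natCast (Z ^ a), ← zpow_mul,
    mul_comm (b : ℤ)] at h3
  linear_combination h3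

theorem tri_ex (h : Hab K a b) (hX : Sh a b β t X) (hY : Sh a b γ t Y) :
    ∃ W Z, Tri a b β γ X W Z ∧ W / Z = Y := by
  have ht := hX.t_ne
  obtain ⟨-, x1, x2, x3⟩ := hX
  obtain ⟨y0, y1, y2, y3⟩ := hY
  obtain ⟨Z, z0, z1, z2⟩ := h.pow_ex (div_ne_zero x1 y1) (div_ne_zero x2 y2)
    (by rw [div_zpow, div_pow, ← x3, ← y3, mul_div_mul_left _ _ ht])
  refine ⟨Y * Z, Z, ⟨mul_ne_zero y0 z0, z0, ?_, ?_⟩, mul_div_cancel_right₀ _ z0⟩
  · rw [← div_mul_cancel₀ (β.u b X) y1, ← z1, Side.u]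
    ring
  · rw [← div_mul_cancel₀ (β.U a X) y2, ← z2, Side.U, mul_zpow]
    ring

theorem Tri.uniq (h : Hab K a b) (hX : Sh a b β t X) (h1 : Tri a b β γ X W Z)
    (h2 : Tri a b β γ X W' Z') (e : W / Z = W' / Z') : W = W' ∧ Z = Z' := by
  have s := h2.sh hX
  have hZ : Z = Z' := h.pow_inj h1.2.1 h2.2.1
    (mul_right_cancel₀ s.2.1 ((e ▸ h1.u).trans h2.u.symm))
    (mul_right_cancel₀ s.2.2.1 ((e ▸ h1.U).trans h2.U.symm))
  subst hZ
  exact ⟨(div_left_inj' h1.2.1).1 e, rfl⟩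

theorem Tri.map {T : L} (hg : g ∈ Gx K T) (h : Tri a b β γ X W Z) :
    Tri a b β γ (g X) (g W) (g Z) := by
  refine ⟨(map_ne_zero g).2 h.1, (map_ne_zero g).2 h.2.1, ?_, ?_⟩
  · simpa [Side.u, hg.1] using congrArg g h.2.2.1
  · simpa [Side.U, hg.1] using congrArg g h.2.2.2

theorem Tri.fr {T : L} (hψ : ψ ∈ Fr p K T) (hβ : β.Rt p) (hγ : γ.Rt p)
    (h : Tri a b β γ X W Z) : Tri a b β γ (ψ X) (ψ W) (ψ Z) := by
  refine ⟨(map_ne_zero ψ).2 h.1, (map_ne_zero ψ).2 h.2.1, ?_, ?_⟩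
  · simpa only [Side.u, hψ.1, map_sub, map_mul, map_pow ψ, hβ.τ, hβ.τ', hγ.τ, hγ.τ'] using
      congrArg ψ h.2.2.1
  · simpa only [Side.U, hψ.1, map_sub, map_mul, map_zpow₀, hβ.σ, hβ.σ', hγ.σ, hγ.σ'] using
      congrArg ψ h.2.2.2

theorem Tri.fix {T : L} (h : Hab K a b) (hg : g ∈ Gx K T) (hX : Sh a b β t X)
    (h1 : Tri a b β γ X W Z) (e1 : g X = X) (e2 : g (W / Z) = W / Z) : g W = W ∧ g Z = Z :=
  Tri.uniq h hX (e1 ▸ h1.map hg) h1 (by rw [← map_div₀, e2])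

theorem Tri.fix_fr {T : L} (h : Hab K a b) (hψ : ψ ∈ Fr p K T) (hβ : β.Rt p) (hγ : γ.Rt p)
    (hX : Sh a b β t X) (h1 : Tri a b β γ X W Z) (e1 : ψ X = X) (e2 : ψ (W / Z) = W / Z) :
    ψ W = W ∧ ψ Z = Z :=
  Tri.uniq h hX (e1 ▸ h1.fr hψ hβ hγ) h1 (by rw [← map_div₀, e2])

end Pool.Agent.NW
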