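import Pool.Agent.Lib.MP_d40963_nt.W.Env
import Pool.Agent.Lib.MP_d40963_nt.W.Mc0

/-! Finiteness of the rational solution sets. -/

namespace Pool.Agent.NW

variable {p : ℕ} [Fact p.Prime] {K : Type} [Field K] [CharP K p]

theorem rt_fin : {c : K | c ^ p = c}.Finite :=
  (Ch.FP p K).finite_toSet.subset fun _ h => Ch.mem_FP.2 h

theorem sol_fin (s : ℕ) (w1 w2 : K) : (Sol p s w1 w2).Finite :=
  (rt_fin.prod rt_fin).subset fun _ h => ⟨h.1, h.2.1⟩

theorem Dat.rep_fin (D : Dat p K) (c : K) : (D.Rep c).Finite :=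
  (D.R.finite_toSet.prod rt_fin).subset fun _ h => ⟨h.1, h.2.1⟩

end Pool.Agent.NW
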