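import Pool.Agent.Lib.MP_d40963_nt.W.Lc

/-! Consequences of a local table. -/

namespace Pool.Agent.NW

variable {p : ℕ} {K L : Type} [Field K] [Field L] [Algebra K L] {P : Pl K L} {S S' : L → Prop}
  {y0 κ : K} {ε m N : ℕ} {T Y Y' : L} {ψ g : RingAut L}

theorem Tab.congr_pos (h : Tab P S y0 ε m κ) : 0 < ε :=
  Nat.pos_of_ne_zero fun h0 => h.ε0 (by rw [h0, Nat.cast_zero])

theorem Tab.congr_ne (h : Tab P S y0 ε m κ) {l : K} (hl : l ^ ε = κ) : l ≠ 0 := by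
  rintro rfl
  exact h.κ0 (hl.symm.trans (zero_pow h.congr_pos.ne'))

theorem Tab.congr (h : Tab P S y0 ε m κ) (h1 : ∀ Y, P.Ap Y 0 y0 → S' Y → S Y)
    (h2 : ∀ Y, P.Ap Y 0 y0 → Y ≠ algebraMap K L y0 → S Y → S' Y) : Tab P S' y0 ε m κ := by
  have hm : (0 : ℤ) < m := Int.natCast_pos.2 h.m0
  refine ⟨h.κ0, h.ε0, h.m0, fun Y hS ha => h.ap Y (h1 Y ha hS) ha, fun l hl => ?_,
    fun Y Y' l hS hS' ha ha' =>
      h.un Y Y' l (h1 Y (Pl.res ha hm) hS) (h1 Y' (Pl.res ha' hm) hS') ha ha'⟩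
  obtain ⟨Y, hS, ha⟩ := h.ex l hl
  exact ⟨Y, h2 Y (Pl.res ha hm) (sub_ne_zero.1 (Pl.ne ha (h.congr_ne hl))) hS, ha⟩

theorem Tab.cel (h : ∃ m, ε * m = N ∧ Tab P S y0 ε m κ) : Cel P S y0 ε N := by
  obtain ⟨m, h1, h2⟩ := h
  exact ⟨m, κ, h1, h2⟩

theorem Tab.fix {x : L} (h : Tab P S y0 ε m κ) (hψ : ψ ∈ Fr p K x) (hP : P.Frb p ψ)
    (hS : ∀ Y, S Y → S (ψ Y)) (h0 : y0 ^ p = y0) {l : K} (hl : l ^ p = l) (hY : S Y)
    (ha : P.Ap (Y - algebraMap K L y0) m l) : ψ Y = Y := by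
  have h1 := hP _ _ _ ha
  rw [map_sub, hψ.1, h0, hl] at h1
  exact h.un _ _ l (hS Y hY) hY h1 ha

theorem Cel.ord (h : Cel P S y0 ε N) (hY : Y ∈ Nr P S y0) :
    ∃ (m : ℕ) (l : K), 0 < m ∧ l ≠ 0 ∧ ε * m = N ∧ P.Ap (Y - algebraMap K L y0) m l := by
  obtain ⟨m, κ, h1, h⟩ := h
  obtain ⟨l, ha, hl⟩ := h.ap Y hY.1 hY.2
  exact ⟨m, l, h.m0, h.congr_ne hl, h1, ha⟩

theorem Cel.ex [IsAlgClosed K] (h : Cel P S y0 ε N) : (Nr P S y0).Nonempty := by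
  obtain ⟨m, κ, -, h⟩ := h
  obtain ⟨l, hl⟩ := IsAlgClosed.exists_pow_nat_eq κ h.congr_pos
  obtain ⟨Y, hS, ha⟩ := h.ex l hl
  exact ⟨Y, hS, Pl.res ha (Int.natCast_pos.2 h.m0)⟩

theorem Cel.card_roots [IsAlgClosed K] (hε : (ε : K) ≠ 0) (hκ : κ ≠ 0) :
    (Polynomial.nthRootsFinset ε κ).card = ε := by
  classical
  have : NeZero (ε : K) := ⟨hε⟩
  obtain ⟨ζ, hζ⟩ := HasEnoughRootsOfUnity.exists_primitiveRoot K ε
  have h0 : 0 < ε := Nat.pos_of_ne_zero fun h0 => hε (by rw [h0, Nat.cast_zero])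
  rw [Polynomial.nthRootsFinset_def, Multiset.toFinset_card_of_nodup (hζ.nthRoots_nodup hκ),
    hζ.card_nthRoots, if_pos (IsAlgClosed.exists_pow_nat_eq κ h0)]

/-- bijection with the `ε`-th roots of `κ` -/
theorem Cel.card [IsAlgClosed K] (h : Cel P S y0 ε N) :
    (Nr P S y0).Finite ∧ (Nr P S y0).ncard = ε := by
  obtain ⟨m, κ, -, h⟩ := h
  choose! f hf using h.ex
  have hm : ∀ l, l ∈ Polynomial.nthRootsFinset ε κ ↔ l ^ ε = κ := fun l =>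
    Polynomial.mem_nthRootsFinset h.congr_pos κ
  have e : Nr P S y0 = f '' (Polynomial.nthRootsFinset ε κ : Set K) := by
    ext Y
    constructor
    · intro hY
      obtain ⟨l, ha, hl⟩ := h.ap Y hY.1 hY.2
      exact ⟨l, (hm l).2 hl, h.un _ _ l (hf l hl).1 hY.1 (hf l hl).2 ha⟩
    · rintro ⟨l, hl, rfl⟩
      have hl' := (hm l).1 hl
      exact ⟨(hf l hl').1, Pl.res (hf l hl').2 (Int.natCast_pos.2 h.m0)⟩
  have hi : Set.InjOn f (Polynomial.nthRootsFinset ε κ : Set K) := fun l hl l' hl' hh =>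
    P.uniq (hf l ((hm l).1 hl)).2 (hh ▸ (hf l' ((hm l').1 hl')).2)
  rw [e, hi.ncard_image, Set.ncard_coe_finset]
  exact ⟨(Finset.finite_toSet _).image f, Cel.card_roots h.ε0 h.κ0⟩

theorem Cel.one (h : Cel P S y0 1 N) (hY : Y ∈ Nr P S y0) (hY' : Y' ∈ Nr P S y0) : Y = Y' := by
  obtain ⟨m, κ, -, h⟩ := h
  obtain ⟨l, ha, hl⟩ := h.ap Y hY.1 hY.2
  obtain ⟨l', ha', hl'⟩ := h.ap Y' hY'.1 hY'.2
  rw [pow_one] at hl hl'
  exact h.un Y Y' κ hY.1 hY'.1 (hl ▸ ha) (hl' ▸ ha')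

/-- same order (from `Cel.ord`) and same leading coefficient -/
theorem Cel.lc (h : Cel P S y0 ε N) (hY : Y ∈ Nr P S y0) (hY' : Y' ∈ Nr P S y0) {l : K}
    (h1 : P.Lc (Y - algebraMap K L y0) l) (h2 : P.Lc (Y' - algebraMap K L y0) l) : Y = Y' := by
  obtain ⟨m, κ, -, h⟩ := h
  obtain ⟨k, ha, hk⟩ := h.ap Y hY.1 hY.2
  obtain ⟨k', ha', hk'⟩ := h.ap Y' hY'.1 hY'.2
  obtain rfl := h1.of_ap ha (h.congr_ne hk)
  obtain rfl := h2.of_ap ha' (h.congr_ne hk')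
  exact h.un Y Y' l hY.1 hY'.1 ha ha'

theorem Cel.cyc_step (l : Loc K T) (hS : ∀ Y, S Y → S (l.g Y)) (j : ℕ) {c : K} (hY : S Y)
    (ha : l.P.Ap (Y - algebraMap K L y0) m c) :
    S ((l.g ^ j) Y) ∧ l.P.Ap ((l.g ^ j) Y - algebraMap K L y0) m ((l.ζ ^ m) ^ j * c) := by
  constructor
  · induction j with
    | zero => exact hY
    | succ j ih => exact pow_succ' l.g j ▸ hS _ ih
  · have h := l.act.pow (l.prim.ne_zero l.pos.ne') j ha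
    rwa [map_sub, (pow_mem l.mem j).1, ← Nat.cast_mul, zpow_natCast, pow_mul'] at h

/-- `g ^ j` multiplies the coefficient `l` by `(ζ ^ m) ^ j`, and `ζ ^ m` is a primitive `ε`-th
root of unity. -/
theorem Cel.cyc [IsAlgClosed K] (l : Loc K T) (h : Cel l.P S y0 ε l.N)
    (hS : ∀ Y, S Y → S (l.g Y)) : Cyc l.g (Nr l.P S y0) ε := by
  have h1 := h.card.2
  obtain ⟨m, κ, hN, h⟩ := h
  have h2 : ε ≠ 0 := fun e => h.ε0 (by simp [e])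
  have : NeZero ε := ⟨h2⟩
  have h3 := l.prim.pow l.pos (hN.symm.trans (mul_comm _ _))
  refine ⟨Nat.pos_of_ne_zero h2, h1, fun w hw => ⟨hS w hw.1, by simpa using l.act w 0 y0 hw.2⟩,
    fun w hw w' hw' => ?_, fun w hw j => ?_⟩ <;> obtain ⟨c, h4, h5⟩ := h.ap w hw.1 hw.2 <;>
    have h6 : c ≠ 0 := fun e => h.κ0 (by rw [← h5, e, zero_pow h2])
  · obtain ⟨c', h7, h8⟩ := h.ap w' hw'.1 hw'.2
    obtain ⟨j, -, hj⟩ := h3.eq_pow_of_pow_eq_one (ξ := c' / c)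
      (by rw [div_pow, h5, h8, div_self h.κ0])
    obtain ⟨k1, k2⟩ := Cel.cyc_step l hS j hw.1 h4
    rw [hj, div_mul_cancel₀ _ h6] at k2
    exact ⟨j, h.un _ _ _ k1 hw'.1 k2 h7⟩
  · obtain ⟨k1, k2⟩ := Cel.cyc_step l hS j hw.1 h4
    rw [← h3.pow_eq_one_iff_dvd]
    refine ⟨fun e => (mul_eq_right₀ h6).1 (l.P.uniq (e ▸ k2) h4), fun e => ?_⟩
    rw [e, one_mul] at k2
    exact h.un _ _ _ k1 hw.1 k2 h4

/-- `Y⁻¹ - y0 = - y0 (Y - y0) / Y` has coefficient `- l`, and `ζ ^ (m i δ) = -1`. -/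
theorem Cel.flip (l : Loc K T) {δ i : ℕ} (h : Cel l.P S y0 (2 * δ) l.N)
    (hS : ∀ Y, S Y → S (l.g Y)) (h0 : y0 ^ 2 = 1) (hi : Odd i) (hY : Y ∈ Nr l.P S y0)
    (hY' : S Y⁻¹) : (l.g ^ (i * δ)) Y = Y⁻¹ := by
  obtain ⟨m, κ, hN, h⟩ := h
  have h2 : 2 * δ ≠ 0 := fun e => h.ε0 (by simp [e])
  have h3 := ((l.prim.pow l.pos (hN.symm.trans (mul_comm _ _))).pow (Nat.pos_of_ne_zero h2)
    (mul_comm _ _)).eq_neg_one_of_two_right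
  obtain ⟨c, h4, -⟩ := h.ap Y hY.1 hY.2
  obtain ⟨k1, k2⟩ := Cel.cyc_step l hS (i * δ) hY.1 h4
  have h5 : y0⁻¹ = y0 := inv_eq_of_mul_eq_one_right ((sq y0).symm.trans h0)
  have h6 : y0 ≠ 0 := fun e => by simp [e] at h0
  have h7 := Pl.zpow_sub h4 (Int.natCast_pos.2 h.m0) h6 (-1)
  rw [zpow_neg_one, zpow_neg_one, h5, mul_div_assoc, div_self h6, mul_one, Int.cast_neg,
    Int.cast_one] at h7
  rw [pow_mul' (l.ζ ^ m), h3, hi.neg_one_pow] at k2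
  exact h.un _ _ _ k1 hY' k2 h7

theorem nrI_iff : Y ∈ NrI P S ↔ Y⁻¹ ∈ Nr P (fun Y => S Y⁻¹) 0 := by
  simp [NrI, Nr]

theorem Cyc.inv_eq : NrI P S = (Nr P (fun Y => S Y⁻¹) 0)⁻¹ := Set.ext fun _ => nrI_iff

theorem Cyc.inv (h : Cyc g (Nr P (fun Y => S Y⁻¹) 0) ε) : Cyc g (NrI P S) ε := by
  refine ⟨h.pos, by rw [Cyc.inv_eq, Set.ncard_inv, h.card], fun w hw => nrI_iff.2 ?_,
    fun w hw w' hw' => (h.orb _ (nrI_iff.1 hw) _ (nrI_iff.1 hw')).imp fun j e => ?_,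
    fun w hw j => ?_⟩
  · exact map_inv₀ g w ▸ h.mem _ (nrI_iff.1 hw)
  · rwa [map_inv₀, inv_inj] at e
  · rw [← h.per _ (nrI_iff.1 hw) j, map_inv₀, inv_inj]

theorem Cel.cardI [IsAlgClosed K] (h : Cel P (fun Y => S Y⁻¹) 0 ε N) :
    (NrI P S).Finite ∧ (NrI P S).ncard = ε ∧ (NrI P S).Nonempty := by
  rw [Cyc.inv_eq, Set.ncard_inv]
  exact ⟨h.card.1.inv, h.card.2, h.ex.inv⟩

end Pool.Agent.NW
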