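import Pool.Agent.Lib.MP_d40963_nt.W.Fac
import Pool.Agent.Lib.MP_d40963_nt.W.Fac2
import Pool.Agent.Lib.MP_d40963_nt.W.Loc
import Pool.Agent.Lib.MP_d40963_nt.W.Tab

/-! The local tables of the sheets. Each is `loc_tab`, then `Tab.congr` with `sh_iff`: near `y0`
the denominator is a unit (`Pl.aeval`, `Pl.ne`), and `t ≠ 0`. -/

namespace Pool.Agent.NW

open Polynomial

variable {K L : Type} [Field K] [IsAlgClosed K] [Field L] [Algebra K L] {a : ℤ} {b : ℕ}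
  {γ : Side K} {P : Pl K L} {t : L} {y0 t0 c : K} {N : ℕ}

theorem tU1_tab (h : Hab K a b) (hs : Spl a b γ t) (hT : P.Ap (t - algebraMap K L t0) N c)
    (hN : 0 < N) (hc : c ≠ 0) (ht : t ≠ 0) (h0 : y0 ≠ 0) {ε : ℕ} {v : K}
    (hf : Fac (γ.N a b - C t0 * γ.D a b) y0 ε v) (hv : v ≠ 0) (hD : (γ.D a b).eval y0 ≠ 0)
    (hε : (ε : K) ≠ 0) :
    ∃ m, ε * m = N ∧ Tab P (Sh a b γ t) y0 ε m (c * (γ.D a b).eval y0 / v) := by
  have e : (γ.N a b - C t0 * γ.D a b).map (algebraMap K L) -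
      C (t - algebraMap K L t0) * (γ.D a b).map (algebraMap K L) =
      (γ.N a b).map (algebraMap K L) - C t * (γ.D a b).map (algebraMap K L) := by
    rw [Polynomial.map_sub, Polynomial.map_mul, map_C, C_sub]
    ring
  have e' : ∀ Y : L, (t - algebraMap K L t0) * aeval Y (γ.D a b) =
      aeval Y (γ.N a b - C t0 * γ.D a b) ↔ t * aeval Y (γ.D a b) = aeval Y (γ.N a b) := fun Y => by
    rw [map_sub, map_mul, aeval_C, sub_mul, sub_left_inj]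
  obtain ⟨m, h1, h2⟩ := loc_tab (e ▸ hs.1) hT hN hc hf hv hD hε
  refine ⟨m, h1, h2.congr (fun Y _ hY => (e' Y).2 ((sh_iff h).1 hY).2.2.2) fun Y hY _ h3 => ?_⟩
  have h4 := Pl.ne (Pl.aeval hY _) hD
  exact (sh_iff h).2 ⟨Pl.ne hY h0, h4, (e' Y).1 h3 ▸ mul_ne_zero ht h4, (e' Y).1 h3⟩

theorem tU1_D (h : Hab K a b) (hy : Sh a b γ t0 y0) : (γ.D a b).eval y0 ≠ 0 := by
  rw [← coe_aeval_eq_eval]
  exact ((sh_iff h).1 hy).2.1

theorem tU1 (h : Hab K a b) (hγ : γ.Ok) (hs : Spl a b γ t)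
    (hT : P.Ap (t - algebraMap K L t0) N c) (hN : 0 < N) (hc : c ≠ 0) (hy : Sh a b γ t0 y0)
    (hcr : ¬ Crit a b γ y0) : Cel P (Sh a b γ t) y0 1 N := by
  obtain ⟨v, hv, hf⟩ := facU1 h hγ hy hcr
  exact Tab.cel (tU1_tab h hs hT hN hc (Pl.ne (Pl.res hT (Int.natCast_pos.2 hN)) hy.t_ne) hy.1 hf hv
    (tU1_D h hy) (Nat.cast_one.trans_ne one_ne_zero))

theorem tU2 (h : Hab K a b) (hγ : γ.Ok) (hs : Spl a b γ t)
    (hT : P.Ap (t - algebraMap K L t0) N c) (hN : 0 < N) (hc : c ≠ 0) (hy : Sh a b γ t0 y0)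
    (hcr : Crit a b γ y0) {ρ : K} (hρ : ρ = γ.τ * y0 ^ b / γ.τ') :
    ∃ m, 2 * m = N ∧ Tab P (Sh a b γ t) y0 2 m
      (2 * c * (ρ - 1) ^ 2 * y0 ^ 2 / (t0 * a * b * dd a b * ρ)) := by
  obtain ⟨r0, r1, hf⟩ := facU2 h hγ hy hcr hρ
  have hD := tU1_D h hy
  have h1 : t0 * a * b * dd a b * ρ ≠ 0 :=
    mul_ne_zero (mul_ne_zero (mul_ne_zero (mul_ne_zero hy.t_ne h.aK) h.bK) h.dK) r0
  have h2 : 2 * (ρ - 1) ^ 2 * y0 ^ 2 ≠ 0 :=
    mul_ne_zero (mul_ne_zero h.two (pow_ne_zero 2 (sub_ne_zero.2 r1))) (pow_ne_zero 2 hy.1)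
  have h3 := tU1_tab h hs hT hN hc (Pl.ne (Pl.res hT (Int.natCast_pos.2 hN)) hy.t_ne) hy.1 hf
    (div_ne_zero (mul_ne_zero hD h1) h2) hD (Nat.cast_ofNat.trans_ne h.two)
  rwa [div_div_eq_mul_div, mul_right_comm, mul_comm _ (eval y0 _), mul_div_mul_left _ _ hD,
    ← mul_assoc c, ← mul_assoc c, mul_comm c] at h3

theorem tZ (h : Hab K a b) (hγ : γ.Ok) (hs : Spl a b γ t) (hT : P.Ap t N c) (hN : 0 < N)
    (hc : c ≠ 0) (h0 : y0 ≠ 0) (hu : γ.u b y0 ≠ 0) (hU : γ.U a y0 = 0) :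
    Cel P (Sh a b γ t) y0 b N := by
  obtain ⟨v, hv, hf, hD⟩ := facZ h hγ h0 hu hU
  exact Tab.cel (tU1_tab (t0 := 0) h hs (by rwa [map_zero, sub_zero]) hN hc (Pl.ne hT hc) h0
    (by rwa [map_zero, zero_mul, sub_zero]) hv hD h.bK)

theorem tZ' (h : Hab K a b) (hγ : γ.Ok) (hs : Spl a b γ t) (hT : P.Ap t N c) (hN : 0 < N)
    (hc : c ≠ 0) (ha : a < 0) (h0 : y0 ≠ 0) (hu : γ.u b y0 = 0) (hU : γ.U a y0 ≠ 0) :
    Cel P (Sh a b γ t) y0 a.natAbs N := by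
  obtain ⟨v, hv, hf, hD⟩ := facZ' h hγ ha h0 hu hU
  exact Tab.cel (tU1_tab (t0 := 0) h hs (by rwa [map_zero, sub_zero]) hN hc (Pl.ne hT hc) h0
    (by rwa [map_zero, zero_mul, sub_zero]) hv hD h.aK')

/-- `N0 - t D0` is a factor of a split polynomial (`ND_ne`); a sheet is not `y0`. -/
theorem tD (h : Hab K a b) (hγ : γ.Ok) (hs : Spl a b γ t) (hT : P.Ap t N c) (hN : 0 < N)
    (hc : c ≠ 0) (h0 : y0 ≠ 0) (hu : γ.u b y0 = 0) (hU : γ.U a y0 = 0) :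
    ∃ m, dd a b * m = N ∧ Tab P (Sh a b γ t) y0 (dd a b) m
      (c * ((γ.τ * b * y0 ^ b / y0) ^ a / (γ.σ * a * y0 ^ a / y0) ^ b)) := by
  obtain ⟨N0, D0, v, eN, eD, hv, hf, hD, e⟩ := facD h hγ h0 hu hU
  have hs0 : (N0.map (algebraMap K L) - C t * D0.map (algebraMap K L)).Splits := by
    refine Splits.of_dvd hs.1 (ND_ne h hγ t)
      ⟨((X - C y0) ^ a.toNat).map (algebraMap K L), ?_⟩
    rw [eN, eD, Polynomial.map_mul, Polynomial.map_mul]; ring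
  obtain ⟨m, hm, hT'⟩ := loc_tab hs0 hT hN hc hf hv hD h.dK
  rw [mul_div_assoc, e] at hT'
  refine ⟨m, hm, hT'.congr (fun Y _ hY => ?_) fun Y hY hne hS => ?_⟩
  · obtain ⟨-, h1, -, h2⟩ := (sh_iff h).1 hY
    rw [eD, map_mul] at h1 h2
    rw [eN, map_mul] at h2
    exact mul_left_cancel₀ (left_ne_zero_of_mul h1) (by rw [← h2]; ring)
  · have h1 : aeval Y (γ.D a b) ≠ 0 := by
      rw [eD, map_mul]
      refine mul_ne_zero ?_ (Pl.ne (Pl.aeval hY D0) hD)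
      simpa using fun h => absurd h (sub_ne_zero.2 hne)
    have h2 : t * aeval Y (γ.D a b) = aeval Y (γ.N a b) := by
      rw [eD, eN, map_mul, map_mul, ← hS]; ring
    exact (sh_iff h).2 ⟨Pl.ne hY h0, h1, h2 ▸ mul_ne_zero (Pl.ne hT hc) h1, h2⟩

theorem tO (h : Hab K a b) (hγ : γ.Ok) (hs : Spl1 a b γ t) (ha : 0 < a)
    (hT : P.Ap (t - algebraMap K L (γ.v0 a b)) N c) (hN : 0 < N) (hc : c ≠ 0) :
    ∃ m, a.natAbs * m = N ∧ Tab P (Sh a b γ t) 0 a.natAbs m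
      (c * (-γ.τ') ^ a / (b * γ.σ * (-γ.σ') ^ b / (-γ.σ'))) := by
  obtain ⟨hf, eD⟩ := facO h hγ ha
  have hσ := neg_ne_zero.2 hγ.σ'
  have hD : (γ.D a b).eval 0 ≠ 0 := eD ▸ zpow_ne_zero _ (neg_ne_zero.2 hγ.τ')
  have hs0 : ((γ.N a b - C (γ.v0 a b) * γ.D a b).map (algebraMap K L) -
      C (t - algebraMap K L (γ.v0 a b)) * (γ.D a b).map (algebraMap K L)).Splits := by
    have e : (γ.N a b - C (γ.v0 a b) * γ.D a b).map (algebraMap K L) -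
        C (t - algebraMap K L (γ.v0 a b)) * (γ.D a b).map (algebraMap K L) =
        (γ.N a b).map (algebraMap K L) - C t * (γ.D a b).map (algebraMap K L) := by
      rw [Polynomial.map_sub, Polynomial.map_mul, map_C, C_sub]; ring
    rw [e]; exact hs
  obtain ⟨m, hm, hT'⟩ := loc_tab hs0 hT hN hc hf
    (div_ne_zero (mul_ne_zero (mul_ne_zero h.bK hγ.σ) (pow_ne_zero _ hσ)) hσ) hD h.aK'
  rw [eD] at hT'
  refine ⟨m, hm, hT'.congr (fun Y _ hY => ?_) fun Y hY hne hS => ?_⟩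
  · obtain ⟨-, -, -, h2⟩ := (sh_iff h).1 hY
    rw [map_sub, map_mul, aeval_C, ← h2]; ring
  · have h1 : aeval Y (γ.D a b) ≠ 0 := Pl.ne (Pl.aeval hY _) hD
    have h2 : t * aeval Y (γ.D a b) = aeval Y (γ.N a b) := by
      rw [map_sub, map_mul, aeval_C] at hS
      linear_combination hS
    have ht : t ≠ 0 := Pl.ne (Pl.res hT (by exact_mod_cast hN)) hγ.v0
    exact (sh_iff h).2 ⟨by simpa using hne, h1, h2 ▸ mul_ne_zero ht h1, h2⟩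

/-- `D - t⁻¹ N = - t⁻¹ (N - t D)` -/
theorem tO' (h : Hab K a b) (hγ : γ.Ok) (hs : Spl1 a b γ t) (ha : a < 0) (hT : P.Ap t⁻¹ N c)
    (hN : 0 < N) (hc : c ≠ 0) : Cel P (Sh a b γ t) 0 (a.natAbs * b) N := by
  obtain ⟨hf, hD⟩ := facO' h hγ ha
  have ht : t ≠ 0 := fun h0 => Pl.ne hT hc (by rw [h0, inv_zero])
  have hs0 : ((γ.D a b).map (algebraMap K L) - C t⁻¹ * (γ.N a b).map (algebraMap K L)).Splits := by
    have e : (γ.D a b).map (algebraMap K L) - C t⁻¹ * (γ.N a b).map (algebraMap K L) =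
        C (-t⁻¹) * ((γ.N a b).map (algebraMap K L) - C t * (γ.D a b).map (algebraMap K L)) := by
      rw [mul_sub, ← mul_assoc, ← C_mul, neg_mul, inv_mul_cancel₀ ht, C_neg, C_neg, C_1]; ring
    rw [e]; exact Splits.C_mul hs _
  obtain ⟨m, hm, hT'⟩ := loc_tab hs0 hT hN hc hf one_ne_zero hD
    (by rw [Nat.cast_mul]; exact mul_ne_zero h.aK' h.bK)
  refine ⟨m, _, hm, hT'.congr (fun Y _ hY => ?_) fun Y hY hne hS => ?_⟩
  · obtain ⟨-, -, -, h2⟩ := (sh_iff h).1 hY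
    rw [← h2, inv_mul_cancel_left₀ ht]
  · have h1 : aeval Y (γ.N a b) ≠ 0 := Pl.ne (Pl.aeval hY _) hD
    exact (sh_iff h).2 ⟨by simpa using hne, hS ▸ mul_ne_zero (inv_ne_zero ht) h1, h1,
      by rw [← hS, mul_inv_cancel_left₀ ht]⟩

/-- `tO` for the flipped side and `sh_flip` -/
theorem tI (h : Hab K a b) (hγ : γ.Ok) (hs : Spl a b γ t) (ha : 0 < a)
    (hT : P.Ap (t - algebraMap K L (γ.flip.v0 a b)) N c) (hN : 0 < N) (hc : c ≠ 0) :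
    Cel P (fun Y => Sh a b γ t Y⁻¹) 0 a.natAbs N := by
  have e : (fun Y => Sh a b γ t Y⁻¹) = Sh a b γ.flip t := funext fun Y => propext sh_flip.symm
  rw [e]
  exact Tab.cel (tO h hγ.flip hs.2 ha hT hN hc)

theorem tI' (h : Hab K a b) (hγ : γ.Ok) (hs : Spl a b γ t) (ha : a < 0) (hT : P.Ap t⁻¹ N c)
    (hN : 0 < N) (hc : c ≠ 0) : Cel P (fun Y => Sh a b γ t Y⁻¹) 0 (a.natAbs * b) N := by
  have e : (fun Y => Sh a b γ t Y⁻¹) = Sh a b γ.flip t := funext fun Y => propext sh_flip.symm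
  rw [e]
  exact tO' h hγ.flip hs.2 ha hT hN hc

end Pool.Agent.NW
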