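import Pool.Agent.Lib.MP_d40963_nt.W.Cnt

/-! Places where the base is a unit point. -/

namespace Pool.Agent.NW.Dat

variable {p : ℕ} [Fact p.Prime] {K L : Type} [Field K] [IsAlgClosed K] [CharP K p] [Field L]
  [Algebra K L] {D : Dat p K} {β : Side K} {t x Y : L} {P : Pl K L} {ψ : RingAut L}
  {r r' q : K × K} {c c' x0 t0 : K} {s : Fin 4 → L}

/-- `Sh.ap_t`, `Pl.pos`, `Cov.nconst` -/
theorem UP.ap_t (h : D.UP β t x P ψ x0 t0) :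
    ∃ (N : ℕ) (c : K), 0 < N ∧ c ≠ 0 ∧ P.Ap (t - algebraMap K L t0) N c := by
  have h1 := Pl.pow h.ap D.e
  rw [mul_zero] at h1
  obtain ⟨m, l, a1, a2, a3⟩ := Pl.pos (h.toAt.sh.ap_t h1 h.sh0) (h.toAt.ae.ge.cov.nconst t0)
  lift m to ℕ using a1.le
  exact ⟨m, l, by exact_mod_cast a1, a2, a3⟩

theorem rep_tri {X0 : K} (hq : q ∈ Sol p D.s (β.u D.b X0) (β.U D.a X0)) (h1 : q.1 ≠ 0)
    (h2 : q.2 ≠ 0) (hr : r ∈ D.Rep q.1) (hr' : r' ∈ D.Rep q.2) :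
    Tri D.a D.b β (sd D.s r.1 r'.1) X0 (r.2 ^ D.e) (r'.2 ^ D.e) := by
  refine ⟨pow_ne_zero _ (rep_ne hr h1).2, pow_ne_zero _ (rep_ne hr' h2).2, ?_, ?_⟩
  · rw [← hq.2.2.1, ← hr.2.2, ← hr'.2.2]
    rfl
  · rw [← hq.2.2.2, ← rep_pow hr h1, ← rep_pow hr' h2]
    rfl

theorem rep_crit (h1 : q.1 ≠ 0) (h2 : q.2 ≠ 0) (hr : r ∈ D.Rep q.1) (hr' : r' ∈ D.Rep q.2) :
    (Crit D.a D.b (sd D.s r.1 r'.1) ((r.2 / r'.2) ^ D.e) ↔ Cq D.s q) ∧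
      r.1 * ((r.2 / r'.2) ^ D.e) ^ D.b / r'.1 = q.1 / q.2 := by
  have b0 : r'.2 ^ D.e ≠ 0 := pow_ne_zero _ (rep_ne hr' h2).2
  have b1 := pow_ne_zero D.b b0
  have b2 := zpow_ne_zero D.a b0
  have b3 := (rep_ne hr' h2).1
  constructor
  · change r.1 * r'.1 ^ D.s * _ = r.1 ^ D.s * r'.1 * _ ↔ _ * _ = _ * _
    rw [← rep_pow hr h1, ← rep_pow hr' h2, div_pow, div_pow, div_zpow, ← mul_div_assoc,
      ← mul_div_assoc, div_eq_div_iff b1 b2]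
    have e1 := hr.2.2
    have e2 := hr'.2.2
    constructor <;> intro e
    · linear_combination e - (r'.1 ^ D.s * (r'.2 ^ D.e) ^ D.a) * e1 +
        (r.1 ^ D.s * (r.2 ^ D.e) ^ D.a) * e2
    · linear_combination e + (r'.1 ^ D.s * (r'.2 ^ D.e) ^ D.a) * e1 -
        (r.1 ^ D.s * (r.2 ^ D.e) ^ D.a) * e2
  · rw [← hr.2.2, ← hr'.2.2, div_pow, div_pow, ← mul_div_assoc, div_div, mul_comm r'.1]

theorem UP.fix_sol_int {y : L} {w0 : K} (h1 : P.Lc y c) (h2 : P.Ap (y ^ D.e) 0 w0) :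
    ∃ y0, P.Ap y 0 y0 ∧ y0 ^ D.e = w0 := by
  obtain ⟨a, n, b⟩ := h1
  have h3 := Pl.ord_le h2 (Pl.pow b D.e) (pow_ne_zero _ a)
  obtain ⟨y0, h4⟩ := Pl.ge b (n := 0) (nonneg_of_mul_nonneg_right h3 (by exact_mod_cast D.e_pos))
  have h5 := Pl.pow h4 D.e
  rw [mul_zero] at h5
  exact ⟨y0, h4, P.uniq h5 h2⟩

theorem UP.fix_sol_pow {y0 : K} (h0 : y0 ^ p = y0) (τ : K) :
    (τ * (y0 ^ D.e) ^ D.b) ^ D.s = τ ^ D.s * (y0 ^ D.e) ^ D.a := by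
  rw [mul_pow]
  rcases eq_or_ne y0 0 with e | e
  · rw [e, zero_pow D.e_pos.ne', zero_pow D.hab.b0.ne', zero_pow D.odd.pos.ne',
      zero_zpow _ D.hab.a0]
  · rw [D.key _ h0 e]

/-- `Tri.lim`; `s 2`, `s 3` are integral (`Pl.tri`), their residues are rational (`Pl.Frb.rat`);
`D.key`, and `0 ^ s = 0 ^ a = 0`. -/
theorem UP.fix_sol (h : D.UP β t x P ψ x0 t0) (hs : s ∈ D.FxR β x P ψ r r') :
    ∃ y0 z0 : K, P.Ap (s 2) 0 y0 ∧ P.Ap (s 3) 0 z0 ∧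
      (r.1 * (y0 ^ D.e) ^ D.b, r'.1 * (z0 ^ D.e) ^ D.b) ∈
        Sol p D.s (β.u D.b (x0 ^ D.e)) (β.U D.a (x0 ^ D.e)) := by
  have h1 := Pl.pow h.ap D.e
  rw [mul_zero] at h1
  have h2 := (h.toAt.fxr_tri hs).1
  obtain ⟨⟨τ, c1, τ', c2, a1, a2, -⟩, b0, b1, b2, b3, b4⟩ := hs
  obtain rfl : τ = r.1 := (algebraMap K L).injective (a1.symm.trans b1)
  obtain rfl : τ' = r'.1 := (algebraMap K L).injective (a2.symm.trans b2)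
  obtain ⟨w0, z0, d1, d2, d3, d4⟩ := Tri.lim D.hab h.toAt.ae.ge.ok
    (sd_ok D.s (D.R0 _ c1).2 (D.R0 _ c2).2) h2 h.toAt.sh h1 h.sh0
  obtain ⟨y, e1, rfl⟩ := UP.fix_sol_int b3 d1
  obtain ⟨z, e2, rfl⟩ := UP.fix_sol_int b4 d2
  have f1 := h.toAt.frb.rat (b0 2) e1
  have f2 := h.toAt.frb.rat (b0 3) e2
  refine ⟨y, z, e1, e2, rep_rat (r := (r.1, y)) ⟨c1, f1, rfl⟩,
    rep_rat (r := (r'.1, z)) ⟨c2, f2, rfl⟩, d3, ?_⟩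
  rw [UP.fix_sol_pow f1, UP.fix_sol_pow f2]
  exact d4

theorem UP.fxr_unit (h : D.UP β t x P ψ x0 t0)
    (hn : ∀ q ∈ Sol p D.s (β.u D.b (x0 ^ D.e)) (β.U D.a (x0 ^ D.e)), q.1 ≠ 0 ∧ q.2 ≠ 0)
    (hr : r ∈ D.Rep c) (hr' : r' ∈ D.Rep c') (hs : s ∈ D.FxR β x P ψ r r') :
    (c, c') ∈ Sol p D.s (β.u D.b (x0 ^ D.e)) (β.U D.a (x0 ^ D.e)) ∧ (s 2 / s 3) ^ D.e ∈
      Nr P (Sh D.a D.b (sd D.s r.1 r'.1) t) ((r.2 / r'.2) ^ D.e) := by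
  obtain ⟨y, z, a1, a2, a3⟩ := h.fix_sol hs
  obtain ⟨b1, b2⟩ := hn _ a3
  have nz : ∀ τ y : K, τ * (y ^ D.e) ^ D.b ≠ 0 → y ≠ 0 := fun τ y a e => a (by
    rw [e, zero_pow D.e_pos.ne', zero_pow D.hab.b0.ne', mul_zero])
  obtain rfl : r.2 = y := hs.2.2.2.2.1.of_ap a1 (nz _ _ b1)
  obtain rfl : r'.2 = z := hs.2.2.2.2.2.of_ap a2 (nz _ _ b2)
  rw [hr.2.2, hr'.2.2] at a3
  have a4 := Pl.pow (Pl.div a1 a2 (nz _ _ b2)) D.e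
  rw [sub_zero, mul_zero] at a4
  exact ⟨a3, (h.toAt.fxr_tri hs).2.1, a4⟩

/-- `At.count_up`, `At.fxr_le` with `T = Nr ..`, `rep_tri`, `Tri.sh`, `tU1`, `tU2`, `Cel.card` -/
theorem UP.up (h : D.UP β t x P ψ x0 t0) (A : Finset (K × K)) (w : K × K → ℕ)
    (hA : ∀ q, q ∈ A ↔ q ∈ Sol p D.s (β.u D.b (x0 ^ D.e)) (β.U D.a (x0 ^ D.e)))
    (hn : ∀ q ∈ A, q.1 ≠ 0 ∧ q.2 ≠ 0) (hw : ∀ q ∈ A, 1 ≤ w q ∧ (Cq D.s q → 2 ≤ w q)) :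
    fixN ψ (D.Sig β x) ≤ D.e ^ 2 * ∑ q ∈ A, w q := by
  obtain ⟨N, c0, hN, hc0, hT⟩ := h.ap_t
  have hn' := fun q hq => hn q ((hA q).2 hq)
  refine h.toAt.count_up A w
    (fun q hq => ⟨((hA q).1 hq).1, (hn q hq).1, ((hA q).1 hq).2.1, (hn q hq).2⟩)
    (fun c c' r r' hr hr' ⟨s, hs⟩ => (hA _).2 (h.fxr_unit hn' hr hr' hs).1)
    fun q hq r hr r' hr' => ?_
  obtain ⟨h1, h2⟩ := hn q hq
  have hy := (rep_tri ((hA q).1 hq) h1 h2 hr hr').sh h.sh0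
  rw [← div_pow] at hy
  have hs := h.toAt.ae.spl _ hr.1 _ hr'.1
  have key : ∀ ε, Cel P (Sh D.a D.b (sd D.s r.1 r'.1) t) ((r.2 / r'.2) ^ D.e) ε N →
      (D.FxR β x P ψ r r').ncard ≤ ε := fun ε hc =>
    (h.toAt.fxr_le hc.card.1 fun s hs => (h.fxr_unit hn' hr hr' hs).2).trans hc.card.2.le
  by_cases hcr : Crit D.a D.b (sd D.s r.1 r'.1) ((r.2 / r'.2) ^ D.e)
  · exact (key 2 (Tab.cel (tU2 D.hab (rep_ok hr hr').1 hs hT hN hc0 hy hcr rfl))).trans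
      ((hw q hq).2 ((rep_crit h1 h2 hr hr').1.1 hcr))
  · exact (key 1 (tU1 D.hab (rep_ok hr hr').1 hs hT hN hc0 hy hcr)).trans (hw q hq).1

/-- `At.mk_fix`; `Tri.lcZ` with `Tri.u`, `Tri.U` for the triple of `rep_tri` -/
theorem UP.mk_fix (h : D.UP β t x P ψ x0 t0)
    (hq : q ∈ Sol p D.s (β.u D.b (x0 ^ D.e)) (β.U D.a (x0 ^ D.e))) (h1 : q.1 ≠ 0) (h2 : q.2 ≠ 0)
    (hr : r ∈ D.Rep q.1) (hr' : r' ∈ D.Rep q.2)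
    (hY : Y ∈ Nr P (Sh D.a D.b (sd D.s r.1 r'.1) t) ((r.2 / r'.2) ^ D.e)) (hf : ψ Y = Y) :
    ∃ s ∈ D.FxR β x P ψ r r', (s 2 / s 3) ^ D.e = Y := by
  have hT := rep_tri hq h1 h2 hr hr'
  have hS := hT.sh h.sh0
  have hx := Pl.pow h.ap D.e
  have hy := hY.2
  rw [mul_zero] at hx
  refine h.toAt.mk_fix hr hr' h1 h2 hY.1 hf ⟨by rw [div_pow]; exact hS.1, 0, hy⟩ fun W Z hW e => ?_
  rw [div_pow, ← e] at hy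
  exact Tri.lcZ D.hab hW ⟨h.sh0.2.1, 0, ap_u β D.b hx⟩
    ⟨h.sh0.2.2.1, 0, ap_U β hx (Or.inl h.sh0.1)⟩ ⟨hS.2.1, 0, ap_u _ D.b hy⟩
    ⟨hS.2.2.1, 0, ap_U _ hy (Or.inl hS.1)⟩ hT.2.1 hT.u hT.U

/-- `tU1`, `Cel.ex`; `ψ Y` is a sheet near the same rational point, `Cel.one` -/
theorem UP.low1 (h : D.UP β t x P ψ x0 t0)
    (hq : q ∈ Sol p D.s (β.u D.b (x0 ^ D.e)) (β.U D.a (x0 ^ D.e))) (h1 : q.1 ≠ 0) (h2 : q.2 ≠ 0)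
    (hc : ¬ Cq D.s q) (hr : r ∈ D.Rep q.1) (hr' : r' ∈ D.Rep q.2) :
    1 ≤ (D.FxR β x P ψ r r').ncard := by
  have hS := (rep_tri hq h1 h2 hr hr').sh h.sh0
  rw [← div_pow] at hS
  obtain ⟨N, c, hN, c0, hT⟩ := h.ap_t
  have cel := tU1 D.hab (rep_ok hr hr').1 (h.toAt.ae.spl _ hr.1 _ hr'.1) hT hN c0 hS
    fun e => hc ((rep_crit h1 h2 hr hr').1.1 e)
  obtain ⟨Y, hY⟩ := cel.ex
  have hp := h.toAt.frb Y 0 _ hY.2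
  rw [pow_right_comm, div_pow _ _ p, hr.2.1, hr'.2.1] at hp
  obtain ⟨s, hs, -⟩ := h.mk_fix hq h1 h2 hr hr' hY
    (cel.one ⟨h.toAt.sh_fr (rep_ok hr hr').2 hY.1, hp⟩ hY)
  exact (Set.ncard_pos h.toAt.fxr_fin).2 ⟨s, hs⟩

theorem UP.good (h : D.UP β t x P ψ x0 t0)
    (hn : ∀ q ∈ Sol p D.s (β.u D.b (x0 ^ D.e)) (β.U D.a (x0 ^ D.e)),
      q.1 ≠ 0 ∧ q.2 ≠ 0 ∧ ¬ Cq D.s q) : fixN ψ (D.Sig β x) =
      D.e ^ 2 * (Sol p D.s (β.u D.b (x0 ^ D.e)) (β.U D.a (x0 ^ D.e))).ncard := by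
  have hf := sol_fin (p := p) D.s (β.u D.b (x0 ^ D.e)) (β.U D.a (x0 ^ D.e))
  have hA := fun q => hf.mem_toFinset (a := q)
  rw [Set.ncard_eq_toFinset_card _ hf, Finset.card_eq_sum_ones]
  refine le_antisymm (h.up _ _ hA (fun q hq => (hn q ((hA q).1 hq)).imp_right And.left)
    fun q hq => ⟨le_rfl, fun hc => absurd hc (hn q ((hA q).1 hq)).2.2⟩)
    (h.toAt.count_low _ _ (fun q hq => ?_) fun q hq r hr r' hr' => ?_) <;>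
    have hq' := (hA q).1 hq
  · exact ⟨hq'.1, (hn q hq').1, hq'.2.1, (hn q hq').2.1⟩
  · exact h.low1 hq' (hn q hq').1 (hn q hq').2.1 (hn q hq').2.2 hr hr'

end Pool.Agent.NW.Dat
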