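import Pool.Agent.Lib.MP_d40963_nt.W.Lv

/-! Kummer vectors from inertia. In each case take one triple (`GE.tri`), compute the orders of
`X`, `W = Y Z`, `Z` (`Cel.ord`, `Tri.ordZ`), apply `Tri.fix`, `root_loc` or `unit_loc`, `prim_loc`
and `lv_of_one`. -/

namespace Pool.Agent.NW

variable {p : ℕ} {K L : Type} [Field K] [IsAlgClosed K] [Field L] [Algebra K L] {a : ℤ}
  {b e : ℕ} {β : Side K} {t X Y Y1 Y2 : L} {α : K}

omit [IsAlgClosed K] in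
theorem pair_nt_aux {g : RingAut L} {i d : ℕ} (hg : g ∈ Gx K t) (hX : Per g X i) (hY : Per g Y d)
    (hc : Nat.Coprime i d) (h1 : d = 1 → i ≠ 1) : NT K t X Y := by
  by_cases hd : d = 1
  · exact ⟨g ^ 1, pow_mem hg 1, fun e => h1 hd (Nat.dvd_one.1 ((hX 1).1 (e.2 (hY.fix hd.dvd))))⟩
  · exact ⟨g ^ i, pow_mem hg i, fun e =>
      hd (hc.symm.eq_one_of_dvd ((hY i).1 (e.1 (hX.fix dvd_rfl))))⟩

/-- Let `i = b` or `i = |a|` be the period of `X`. It is prime to `d`. If `d ≠ 1` then `g ^ i` fixes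
`X` and moves `Y`; if `d = 1` then `a > 0`, `i = b ≥ 2`, and `g` fixes `Y` and moves `X`. -/
theorem pair_nt (h : GE a b e p β t) (l : Loc K t) (hX : X ∈ Nr l.P (Sh a b β t) α) (h0 : α ≠ 0)
    (hα : (β.u b α ≠ 0 ∧ β.U a α = 0) ∨ (a < 0 ∧ β.u b α = 0 ∧ β.U a α ≠ 0))
    (hY : Y ∈ Nr l.P (Sh a b (std : Side K) t) 1) : NT K t X Y := by
  have hd := h.hab.dd_eq
  have hb := h.hab.b0
  have ha := h.hab.a0
  have hp := (cycD h.hab h.s1 l).2.per Y hY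
  rcases hα with ⟨h1, h2⟩ | ⟨h1, h2, h3⟩
  · exact pair_nt_aux l.mem ((cycZ h.hab h.ok h.sβ l h0 h1 h2).per X hX) hp h.hab.cop_bd
      (by omega)
  · exact pair_nt_aux l.mem ((cycZ' h.hab h.ok h.sβ l h1 h0 h2 h3).per X hX) hp h.hab.cop_ad
      (by omega)

theorem pair0_aux (h : GE a b e p β t) (l : Loc K t) (hX : X ∈ Nr l.P (Sh a b β t) α)
    (h0 : α ≠ 0) (hY : Y ∈ Nr l.P (Sh a b (std : Side K) t) 1) {i : ℕ} (hp : Per l.g X i)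
    (ho : ∀ W Z (m : ℕ) c, c ≠ 0 → 0 < m → Tri a b β std X W Z →
      l.P.Ap (W / Z - algebraMap K L 1) m c → ∃ n c', c' ≠ 0 ∧ l.P.Ap Z n c' ∧ i * n.natAbs = m) :
    ∃ ω, IsPrimitiveRoot ω e ∧ Lv a b e β t X Y 1 ω ω := by
  obtain ⟨hc, hy⟩ := cycD h.hab h.s1 l
  obtain ⟨m, c, hm, hc0, hN, h1⟩ := hc.ord hY
  obtain ⟨x, y, z, rfl, rfl, hT⟩ := h.tri hX.1 hY.1
  have hg := pow_mem l.mem (i * dd a b)
  have e1 := hp.fix (dvd_mul_right i (dd a b))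
  have e2 := (hy.per _ hY).fix (dvd_mul_left (dd a b) i)
  have h2 := hY.2
  rw [div_pow] at h1 e2 h2
  obtain ⟨e3, e4⟩ := Tri.fix h.hab hg hX.1 hT e1 e2
  obtain ⟨n, c', hc', h3, hn⟩ := ho _ _ m c hc0 hm hT h1
  have h4 := l.P.mul h2 h3
  rw [div_mul_cancel₀ _ hT.2.1, zero_add, one_mul] at h4
  obtain ⟨n1, k1, k2⟩ := root_loc l h.epos e3 h4 hc'
  obtain ⟨n2, k3, k4⟩ := root_loc l h.epos e4 h3 hc'
  obtain rfl : n1 = n2 := mul_left_cancel₀ (Int.natCast_ne_zero.2 h.epos.ne') (k1.trans k3.symm)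
  refine ⟨_, prim_loc l ?_, lv_of_one h hX.1 rfl rfl hT hg ?_ k2 k4⟩
  · rw [mul_assoc, mul_comm n1, k1, Int.natAbs_mul, Int.natAbs_natCast, ← hN, ← hn]
    ring
  · rw [map_one, one_mul]
    exact unit_loc l h.epos e1 hX.2 h0

/-- `j = i d`. `Y - 1` has order `m`, `d m = N`; `b ord Z = -m` (`ap_u_sub`, `Tri.ordZ`) or
`a ord Z = -m` (`ap_U_sub`, `Tri.ordZ'`); `ord W = ord Z`. -/
theorem pair0 (h : GE a b e p β t) (l : Loc K t) (hX : X ∈ Nr l.P (Sh a b β t) α) (h0 : α ≠ 0)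
    (hα : (β.u b α ≠ 0 ∧ β.U a α = 0) ∨ (a < 0 ∧ β.u b α = 0 ∧ β.U a α ≠ 0))
    (hY : Y ∈ Nr l.P (Sh a b (std : Side K) t) 1) :
    ∃ ω, IsPrimitiveRoot ω e ∧ Lv a b e β t X Y 1 ω ω := by
  rcases hα with ⟨h1, h2⟩ | ⟨h1, h2, h3⟩
  · refine pair0_aux h l hX h0 hY ((cycZ h.hab h.ok h.sβ l h0 h1 h2).per X hX)
      fun W Z m c hc hm hT hW => ?_
    obtain ⟨n, c', k1, k2, k3⟩ := hT.ordZ h.hab (ap_u β b hX.2)
      (ap_u_sub hW (Int.natCast_pos.2 hm) one_ne_zero (by simp [Side.u_self, std])) h1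
      (by simp [std, hc, h.hab.bK])
    refine ⟨n, c', k1, k2, ?_⟩
    simpa [Int.natAbs_mul] using congrArg Int.natAbs k3
  · refine pair0_aux h l hX h0 hY ((cycZ' h.hab h.ok h.sβ l h1 h0 h2 h3).per X hX)
      fun W Z m c hc hm hT hW => ?_
    obtain ⟨n, c', k1, k2, k3⟩ := hT.ordZ' (ap_U β hX.2 (Or.inl h0))
      (ap_U_sub hW (Int.natCast_pos.2 hm) one_ne_zero (by simp [Side.U_self, std])) h3
      (by simp [std, hc, h.hab.aK])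
    refine ⟨n, c', k1, k2, ?_⟩
    simpa [Int.natAbs_mul] using congrArg Int.natAbs k3

/-- `j = a`. `Y⁻¹` has order `m`, `a m = N` (`cycI`, `std_flip_v0`); use `tri_flip`:
`W ^ b (1 - (Z / W) ^ b) = u (X)` is a unit (`cls_unit`), so `W` is a unit and `Z = W Y⁻¹` has
order `m`. -/
theorem vI (h : GE a b e p β t) (ha : 0 < a) (l : Loc K (t - algebraMap K L 1))
    (hX : X ∈ Nr l.P (Sh a b β t) α) (h0 : α ≠ 0) (hg : (l.g ^ a.natAbs) X = X)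
    (hY : Y ∈ NrI l.P (Sh a b (std : Side K) t)) :
    ∃ ω, IsPrimitiveRoot ω e ∧ Lv a b e β t X Y 1 1 ω := by
  obtain ⟨x, y, z, rfl, rfl, hT⟩ := h.tri hX.1 hY.1
  obtain ⟨h1, h2⟩ := cycI h.hab std_ok h.s1 ha l std_flip_v0.symm
  obtain ⟨m, c, hm, hc, hN, h3⟩ := h1.ord (nrI_iff.1 hY)
  rw [map_zero, sub_zero] at h3
  have hG := pow_mem l.memc a.natAbs
  obtain ⟨eW, eZ⟩ := hT.fix h.hab hG hX.1 hg (by
    rw [← div_pow]
    exact (h2.per _ hY).fix dvd_rfl)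
  have h4 : l.P.Ap (z ^ e / y ^ e) 0 0 := by
    rw [← inv_div, ← div_pow]
    exact hY.2
  obtain ⟨n, c', hc', h5, hn⟩ := (tri_flip.2 hT).ordZ h.hab (ap_u β b hX.2) (ap_u _ b h4)
    (cls_unit h.hab h.ok l.apc one_ne_zero hX.1 hX.2 h0).2.1 (Tri.lim_u0 h.hab std_ok.flip)
  obtain rfl : n = 0 := by
    rw [sub_self] at hn
    exact (mul_eq_zero.1 hn).resolve_left (Int.natCast_ne_zero.2 h.hab.b0.ne')
  have h6 := l.P.mul h5 h3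
  rw [div_pow, inv_div, mul_div_cancel₀ _ hT.1, zero_add] at h6
  obtain ⟨n, e1, e2⟩ := root_loc l h.epos eZ h6 (mul_ne_zero hc' hc)
  refine ⟨_, prim_loc l ?_, lv_of_one h hX.1 rfl rfl hT hG ?_ ?_ e2⟩
  · rw [mul_assoc, mul_comm n, e1, ← Nat.cast_mul, Int.natAbs_natCast, hN]
  · exact (unit_loc l h.epos hg hX.2 h0).trans (by rw [map_one, one_mul])
  · exact (unit_loc l h.epos eW h5 hc').trans (by rw [map_one, one_mul])

/-- `GE.root`, `root_loc`, `prim_loc` -/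
theorem vX0 (h : GE a b e p β t) {T : L} (l : Loc K T) (hX : Sh a b β t X) {j : ℕ} {n : ℤ} {c : K}
    (hg : (l.g ^ j) X = X) (hn : l.P.Ap X n c) (hc : c ≠ 0) (hj : (j * n).natAbs = l.N) :
    ∃ x ω, x ^ e = X ∧ IsPrimitiveRoot ω e ∧ (l.g ^ j) x = algebraMap K L ω * x := by
  obtain ⟨x, rfl⟩ := h.root X hX
  obtain ⟨n', e1, e2⟩ := root_loc l h.epos hg hn hc
  exact ⟨x, _, rfl, prim_loc l (by rwa [mul_assoc, mul_comm n', e1]), e2⟩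

theorem vN_one {γ : Side K} {T y z : L} (h : GE a b e p β t) (hγ : γ.Ok) (l : Loc K T) {j : ℕ}
    (hg : l.g ^ j ∈ Gx K t) (hX : X ∈ Nr l.P (Sh a b β t) 0) (eX : (l.g ^ j) X = X)
    (hT : Tri a b β γ X (y ^ e) (z ^ e)) (eY : (l.g ^ j) (y ^ e / z ^ e) = y ^ e / z ^ e)
    {m : ℕ} {c : K} (hm : 0 < m) (hc : c ≠ 0) (hY : l.P.Ap (y ^ e / z ^ e) m c) {n : ℤ}
    (hn : e * n = m) :
    (l.g ^ j) y = algebraMap K L (l.ζ ^ (j * n)) * y ∧ (l.g ^ j) z = algebraMap K L 1 * z := by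
  obtain ⟨f1, f2⟩ := Tri.fix h.hab hg hX.1 hT eX eY
  obtain ⟨k, c', hc', hk, e1⟩ := hT.ordZ h.hab (ap_u β b hX.2)
    (ap_u γ b (Pl.lt hY (Int.natCast_pos.2 hm))) (Tri.lim_u0 h.hab h.ok) (Tri.lim_u0 h.hab hγ)
  obtain rfl : k = 0 := by
    rw [sub_zero, mul_eq_zero] at e1
    exact e1.resolve_left (Int.natCast_ne_zero.2 h.hab.b0.ne')
  have hw := l.P.mul hY hk
  rw [div_mul_cancel₀ _ hT.2.1, add_zero] at hw
  obtain ⟨n', e2, e3⟩ := root_loc l h.epos f1 hw (mul_ne_zero hc hc')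
  obtain rfl : n' = n :=
    mul_left_cancel₀ (Int.natCast_ne_zero.2 h.epos.ne') (e2.trans hn.symm)
  exact ⟨e3, by rw [map_one, one_mul, unit_loc l h.epos f2 hk hc']⟩

/-- `j = |a| b`; `X`, `Y1`, `Y2⁻¹` have the same order `m`, `j m = N` (`cycOI`). For `Y1`: `Z` is a
unit and `W` has order `m`; for `Y2`: `W` is a unit and `Z` has order `m`. -/
theorem vN (h : GE a b e p β t) (ha : a < 0) (l : Loc K t⁻¹) (hX : X ∈ Nr l.P (Sh a b β t) 0)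
    (h1 : Y1 ∈ Nr l.P (Sh a b (std : Side K) t) 0) (h2 : Y2 ∈ NrI l.P (Sh a b (std : Side K) t)) :
    ∃ ω, IsPrimitiveRoot ω e ∧ Lv a b e β t X Y1 ω ω 1 ∧ Lv a b e β t X Y2 ω 1 ω := by
  obtain ⟨c1, d1, -, -⟩ := cycOI h.hab h.ok h.sβ ha l
  obtain ⟨c2, d2, c3, d3⟩ := cycOI h.hab std_ok h.s1 ha l
  have hg := pow_mem l.memI (a.natAbs * b)
  have eX := (d1.per X hX _).2 dvd_rfl
  obtain ⟨m, k0, hm, hk0, e0, a0⟩ := c1.ord hX
  obtain ⟨m1, k1, -, hk1, e1, a1⟩ := c2.ord h1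
  obtain ⟨m2, k2, -, hk2, e2, a2⟩ := c3.ord (nrI_iff.1 h2)
  obtain rfl := Nat.eq_of_mul_eq_mul_left d1.pos (e0.trans e1.symm)
  obtain rfl := Nat.eq_of_mul_eq_mul_left d1.pos (e0.trans e2.symm)
  rw [map_zero, sub_zero] at a0 a1 a2
  obtain ⟨x, y, z, rfl, rfl, t1⟩ := h.tri hX.1 h1.1
  obtain ⟨n, hn, ex⟩ := root_loc l h.epos eX a0 hk0
  obtain ⟨f1, f2⟩ := vN_one h std_ok l hg hX eX t1
    (div_pow y z e ▸ (d2.per _ h1 _).2 dvd_rfl) hm hk1 (div_pow y z e ▸ a1) hn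
  refine ⟨_, prim_loc l ?_, lv_of_one h hX.1 rfl rfl t1 hg ex f1 f2, ?_⟩
  · rw [mul_assoc, mul_comm n, hn, ← Nat.cast_mul, Int.natAbs_natCast, e0]
  obtain ⟨-, y', z', -, rfl, t2⟩ := h.tri hX.1 h2.1
  have e3 : ((y' / z') ^ e)⁻¹ = z' ^ e / y' ^ e := by rw [div_pow, inv_div]
  obtain ⟨f3, f4⟩ := vN_one h std_ok.flip l hg hX eX (tri_flip.2 t2)
    (by rw [← e3, map_inv₀, (d3.per _ h2 _).2 dvd_rfl]) hm hk2 (e3 ▸ a2) hn
  exact lv_of_one h hX.1 rfl rfl t2 hg ex f4 f3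

/-- `(g η * η) ^ 2 = 1`, so `g η * η = ± 1`, and its residue is `η0 ^ 2 = ε` -/
theorem flip_loc (he : 0 < e) {T : L} (l : Loc K T) (hl : l.g ∈ Gx K t) {j : ℕ} {ε : K}
    (hX : l.P.Ap X 0 α) (h0 : α ≠ 0) (hg : (l.g ^ j) X = X) (hY : l.P.Ap Y 0 ε) (hε : ε ≠ 0)
    (hi : (l.g ^ j) Y = Y⁻¹) : Flip e t X Y ε := by
  rintro x η rfl rfl
  refine ⟨l.g ^ j, pow_mem hl j, unit_loc l he hg hX h0, ?_⟩
  obtain ⟨k, -, hk⟩ := root_const (K := K) (y := (l.g ^ j) η * η) (w := 1) two_pos one_ne_zero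
    (by rw [mul_pow, ← map_pow, hi, inv_mul_cancel₀ (Pl.ne hY hε), one_pow])
  obtain ⟨n, c, hn, rfl, -, h1⟩ := Pl.root hY hε two_pos
  obtain rfl : n = 0 := by omega
  have h2 := l.P.mul (l.act.pow (l.prim.ne_zero l.pos.ne') j h1) h1
  rw [mul_one] at hk
  rw [hk, mul_zero, zpow_zero, one_mul, add_zero, ← sq] at h2
  rw [hk, l.P.uniq h2 (l.P.const k)]

end Pool.Agent.NW
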